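import Pool.Agent.Helper68.FblRho

set_option autoImplicit false
set_option linter.unusedSectionVars false
open scoped ENNReal NNReal
open Topology Filter
open Pool.Agent.Helper68.Fbl

universe u v

namespace Pool.Agent.Helper68.Projective

variable {X : Type u} [NormedAddCommGroup X] [NormedSpace ℝ X] [Lattice X]
  [IsOrderedAddMonoid X] [PosSMulMono ℝ X] [HasSolidNorm X] [CompleteSpace X]

/-- order continuous functional on the positive cone vanishing at the atoms -/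
structure Cone (N : X → ℝ) : Prop where
  nonneg : ∀ x, 0 ≤ x → 0 ≤ N x
  add : ∀ x y, 0 ≤ x → 0 ≤ y → N (x + y) = N x + N y
  oc : ∀ S : Set X, S.Nonempty → (∀ x ∈ S, 0 ≤ x) →
    (∀ x ∈ S, ∀ y ∈ S, ∃ z ∈ S, z ≤ x ∧ z ≤ y) → (∀ z, (∀ x ∈ S, z ≤ x) → z ≤ 0) →
    ∀ δ, 0 < δ → ∃ x ∈ S, N x < δ
  atom : ∀ a, IsLatticeAtom a → N a = 0

namespace Cone

variable {N : X → ℝ} (hN : Cone N)
include hN

lemma zero : N 0 = 0 := by
  have := hN.add 0 0 (le_refl _) (le_refl _)
  rw [add_zero] at this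
  linarith

lemma sub_eq {x y : X} (hx : 0 ≤ x) (hxy : x ≤ y) : N y = N x + N (y - x) := by
  rw [← hN.add x (y - x) hx (sub_nonneg.2 hxy), add_sub_cancel]

lemma mono {x y : X} (hx : 0 ≤ x) (hxy : x ≤ y) : N x ≤ N y := by
  rw [hN.sub_eq hx hxy]
  linarith [hN.nonneg _ (sub_nonneg.2 hxy)]

lemma sup_le {x y : X} (hx : 0 ≤ x) (hy : 0 ≤ y) : N (x ⊔ y) ≤ N x + N y := by
  rw [← hN.add x y hx hy]
  exact hN.mono (hx.trans le_sup_left)
    (_root_.sup_le (le_add_of_nonneg_right hy) (le_add_of_nonneg_left hx))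

end Cone

/-- real lattice homomorphisms preserve infima -/
lemma hom_inf {φ : X →ₗ[ℝ] ℝ} (hφ : ∀ a b, φ (a ⊔ b) = φ a ⊔ φ b) (a b : X) :
    φ (a ⊓ b) = φ a ⊓ φ b := by
  have h : a ⊓ b = -(-a ⊔ -b) := by rw [neg_sup, neg_neg, neg_neg]
  rw [h, map_neg, hφ, map_neg, map_neg, neg_sup, neg_neg, neg_neg]

lemma hom_nonneg {φ : X →ₗ[ℝ] ℝ} (hφ : ∀ a b, φ (a ⊔ b) = φ a ⊔ φ b) {a : X} (ha : 0 ≤ a) :
    0 ≤ φ a := by
  have h : φ (a ⊔ 0) = φ a ⊔ φ 0 := hφ a 0
  rw [sup_eq_left.2 ha, map_zero] at h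
  rw [h]
  exact le_sup_right

lemma hom_mono {φ : X →ₗ[ℝ] ℝ} (hφ : ∀ a b, φ (a ⊔ b) = φ a ⊔ φ b) {a b : X} (hab : a ≤ b) :
    φ a ≤ φ b := by
  have := hom_nonneg hφ (sub_nonneg.2 hab)
  rw [map_sub] at this
  linarith

lemma smul_nonneg' {l : ℝ} (hl : 0 ≤ l) {a : X} (ha : 0 ≤ a) : 0 ≤ l • a := by
  have := smul_le_smul_of_nonneg_left ha hl
  rwa [smul_zero] at this

lemma smul_mono_left {l m : ℝ} (hl : l ≤ m) {a : X} (ha : 0 ≤ a) : l • a ≤ m • a := by
  have := smul_nonneg' (sub_nonneg.2 hl) ha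
  rw [sub_smul, sub_nonneg] at this
  exact this

/-- the key disjointness statement -/
lemma Cone.disjoint {N : X → ℝ} (hN : Cone N) {φ : X →ₗ[ℝ] ℝ}
    (hφ : ∀ a b, φ (a ⊔ b) = φ a ⊔ φ b) {x : X} (hx : 0 ≤ x) {δ : ℝ} (hδ : 0 < δ) :
    ∃ u, 0 ≤ u ∧ u ≤ x ∧ N u < δ ∧ φ (x - u) < δ := by
  by_contra hcon
  push Not at hcon
  have hφx : δ ≤ φ x := by
    have := hcon 0 (le_refl _) hx (by rw [hN.zero]; exact hδ)
    rwa [sub_zero] at this
  set S : Set X := {w | 0 ≤ w ∧ w ≤ x ∧ φ w = φ x} with hS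
  have hNS : ∀ w ∈ S, δ ≤ N w := by
    rintro w ⟨h1, h2, h3⟩
    by_contra hlt
    push Not at hlt
    have := hcon w h1 h2 hlt
    rw [map_sub, h3, sub_self] at this
    linarith
  have hz : ∃ z, (∀ w ∈ S, z ≤ w) ∧ ¬ z ≤ 0 := by
    by_contra hno
    push Not at hno
    obtain ⟨w, hw, hw2⟩ := hN.oc S ⟨x, hx, le_refl _, rfl⟩ (fun w hw => hw.1)
      (fun a ha b hb => ⟨a ⊓ b, ⟨le_inf ha.1 hb.1, inf_le_left.trans ha.2.1, by
        rw [hom_inf hφ, ha.2.2, hb.2.2, inf_idem]⟩, inf_le_left, inf_le_right⟩)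
      (fun z hz => hno z hz) δ hδ
    linarith [hNS w hw]
  obtain ⟨z₀, hz1, hz2⟩ := hz
  set z : X := z₀ ⊔ 0 with hzdef
  have hz0 : 0 ≤ z := le_sup_right
  have hzS : ∀ w ∈ S, z ≤ w := fun w hw => _root_.sup_le (hz1 w hw) hw.1
  have hzne : z ≠ 0 := by
    intro h
    apply hz2
    rw [← h]
    exact le_sup_left
  -- elements below `z` in the kernel vanish
  have hker : ∀ v, 0 ≤ v → v ≤ z → φ v = 0 → v = 0 := by
    intro v hv0 hvz hv
    have hn : ∀ n : ℕ, (n : ℝ) • v ≤ x := by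
      intro n
      induction n with
      | zero => rw [Nat.cast_zero, zero_smul]; exact hx
      | succ n ih =>
        have hmem : x - (n : ℝ) • v ∈ S := by
          refine ⟨sub_nonneg.2 ih, ?_, ?_⟩
          · rw [sub_le_self_iff]
            exact smul_nonneg' (Nat.cast_nonneg n) hv0
          · rw [map_sub, map_smul, hv, smul_zero, sub_zero]
        have h1 := hvz.trans (hzS _ hmem)
        rw [le_sub_iff_add_le'] at h1
        push_cast
        rw [add_smul, one_smul]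
        exact h1
    have hnorm : ∀ n : ℕ, (n : ℝ) * ‖v‖ ≤ ‖x‖ := by
      intro n
      have h1 : |(n : ℝ) • v| ≤ |x| := by
        rw [abs_of_nonneg (smul_nonneg' (Nat.cast_nonneg n) hv0), abs_of_nonneg hx]
        exact hn n
      have h2 := norm_le_norm_of_abs_le_abs h1
      rwa [norm_smul, Real.norm_of_nonneg (Nat.cast_nonneg n)] at h2
    by_contra hvne
    have hpos : 0 < ‖v‖ := norm_pos_iff.2 hvne
    obtain ⟨n, hn'⟩ := exists_nat_gt (‖x‖ / ‖v‖)
    rw [div_lt_iff₀ hpos] at hn'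
    linarith [hnorm n]
  have hφz : 0 < φ z := lt_of_le_of_ne (hom_nonneg hφ hz0)
    (fun h => hzne (hker z hz0 (le_refl _) h.symm))
  -- `z` is an atom
  have hatom : ∀ y, 0 ≤ y → y ≤ z → y = (φ y / φ z) • z := by
    intro y hy0 hyz
    set l : ℝ := φ y / φ z with hl
    have hl0 : 0 ≤ l := div_nonneg (hom_nonneg hφ hy0) hφz.le
    have hl1 : l ≤ 1 := (div_le_one hφz).2 (hom_mono hφ hyz)
    have hlz : l * φ z = φ y := div_mul_cancel₀ _ hφz.ne'
    have hlz0 : 0 ≤ l • z := smul_nonneg' hl0 hz0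
    have hlz1 : l • z ≤ z := by
      have := smul_mono_left hl1 hz0
      rwa [one_smul] at this
    have h1 : (y - l • z) ⊔ 0 = 0 := by
      apply hker
      · exact le_sup_right
      · apply _root_.sup_le
        · exact (sub_le_self _ hlz0).trans hyz
        · exact hz0
      · rw [hφ, map_sub, map_smul, smul_eq_mul, hlz, sub_self, map_zero, sup_idem]
    have h2 : (l • z - y) ⊔ 0 = 0 := by
      apply hker
      · exact le_sup_right
      · apply _root_.sup_le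
        · exact (sub_le_self _ hy0).trans hlz1
        · exact hz0
      · rw [hφ, map_sub, map_smul, smul_eq_mul, hlz, sub_self, map_zero, sup_idem]
    apply le_antisymm
    · have : y - l • z ≤ 0 := by rw [← h1]; exact le_sup_left
      exact sub_nonpos.1 this
    · have : l • z - y ≤ 0 := by rw [← h2]; exact le_sup_left
      exact sub_nonpos.1 this
  have hφx0 : 0 < φ x := hδ.trans_le hφx
  set s : ℝ := φ x / φ z with hs
  have hs0 : 0 < s := div_pos hφx0 hφz
  have hsz : s * φ z = φ x := div_mul_cancel₀ _ hφz.ne'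
  set w : X := x ⊓ s • z with hw
  have hw0 : 0 ≤ w := le_inf hx (smul_nonneg' hs0.le hz0)
  have hφw : φ w = φ x := by
    rw [hw, hom_inf hφ, map_smul, smul_eq_mul, hsz, inf_idem]
  have hwS : w ∈ S := ⟨hw0, inf_le_left, hφw⟩
  have hscale : ∀ y, 0 ≤ y → y ≤ w → y = (φ y / φ z) • z := by
    intro y hy0 hyw
    have h1 : s⁻¹ • y ≤ z := by
      have h2 := smul_le_smul_of_nonneg_left (hyw.trans (inf_le_right : w ≤ s • z))
        (inv_nonneg.2 hs0.le)
      rwa [smul_smul, inv_mul_cancel₀ hs0.ne', one_smul] at h2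
    have h3 := hatom _ (smul_nonneg' (inv_nonneg.2 hs0.le) hy0) h1
    have h4 : y = s • (s⁻¹ • y) := by rw [smul_smul, mul_inv_cancel₀ hs0.ne', one_smul]
    conv_lhs => rw [h4, h3]
    rw [map_smul, smul_eq_mul, smul_smul]
    congr 1
    field_simp
  have hwatom : IsLatticeAtom w := by
    constructor
    · refine lt_of_le_of_ne hw0 fun h => ?_
      rw [← h, map_zero] at hφw
      linarith
    · intro y hy0 hyw
      refine ⟨φ y / φ w, div_nonneg (hom_nonneg hφ hy0) (by rw [hφw]; exact hφx0.le), ?_⟩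
      have h1 := hscale y hy0 hyw
      have h2 := hscale w hw0 (le_refl _)
      rw [h2, smul_smul]
      conv_lhs => rw [h1]
      congr 1
      rw [← h2, hφw]
      field_simp
  have := hNS w hwS
  rw [hN.atom w hwatom] at this
  linarith

end Pool.Agent.Helper68.Projective
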