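import Mathlib

set_option autoImplicit false
open Topology Filter

universe u

namespace Pool.Agent.Helper68.Projective

/-- A (bounded, linear) lattice homomorphism. -/
def IsLatticeHom {X Y : Type*} [NormedAddCommGroup X] [NormedSpace ℝ X] [Lattice X]
    [NormedAddCommGroup Y] [NormedSpace ℝ Y] [Lattice Y] (T : X →L[ℝ] Y) : Prop :=
  ∀ a b : X, T (a ⊔ b) = T a ⊔ T b

/-- `Q : Y → Z` is (up to an isometric lattice isomorphism of `Z` with `Y/J`) the quotient map of
the Banach lattice `Y` by a closed ideal `J`, namely `J = ker Q`: it is a lattice homomorphism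
onto `Z`, and `‖z‖` is the infimum of `‖y‖` over the preimages `y` of `z`. -/
def IsLatticeQuotient {Y Z : Type*} [NormedAddCommGroup Y] [NormedSpace ℝ Y] [Lattice Y]
    [NormedAddCommGroup Z] [NormedSpace ℝ Z] [Lattice Z] (Q : Y →L[ℝ] Z) : Prop :=
  IsLatticeHom Q ∧ Function.Surjective Q ∧ ∀ z : Z, IsGLB {r : ℝ | ∃ y : Y, Q y = z ∧ r = ‖y‖} ‖z‖

/-- The Banach lattice `X` is projective: lattice homomorphisms from `X` into a quotient `Z` of
a Banach lattice `Y` by a closed ideal lift to `Y`, with norm increased at most by a factor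
`1 + ε`. -/
def IsProjective (X : Type u) [NormedAddCommGroup X] [NormedSpace ℝ X] [Lattice X] : Prop :=
  ∀ (Y Z : Type u) [NormedAddCommGroup Y] [NormedSpace ℝ Y] [Lattice Y] [IsOrderedAddMonoid Y]
    [PosSMulMono ℝ Y] [HasSolidNorm Y] [CompleteSpace Y]
    [NormedAddCommGroup Z] [NormedSpace ℝ Z] [Lattice Z] [IsOrderedAddMonoid Z]
    [PosSMulMono ℝ Z] [HasSolidNorm Z] [CompleteSpace Z]
    (Q : Y →L[ℝ] Z), IsLatticeQuotient Q → ∀ T : X →L[ℝ] Z, IsLatticeHom T →
      ∀ ε : ℝ, 0 < ε → ∃ S : X →L[ℝ] Y, IsLatticeHom S ∧ (∀ x, Q (S x) = T x) ∧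
        ‖S‖ ≤ (1 + ε) * ‖T‖

/-- `a` is an atom of `X`. -/
def IsLatticeAtom {X : Type*} [NormedAddCommGroup X] [NormedSpace ℝ X] [Lattice X] (a : X) :
    Prop :=
  0 < a ∧ ∀ x : X, 0 ≤ x → x ≤ a → ∃ l : ℝ, 0 ≤ l ∧ x = l • a

/-- The bounded functional `f` is order continuous: `f (x i) → 0` for every downward directed net
`x` with infimum `0`. -/
def IsOrderContinuous {X : Type u} [NormedAddCommGroup X] [NormedSpace ℝ X] [Lattice X]
    (f : X →L[ℝ] ℝ) : Prop :=
  ∀ (ι : Type u) [Preorder ι] [IsDirectedOrder ι] [Nonempty ι] (x : ι → X), Antitone x →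
    IsGLB (Set.range x) 0 → Tendsto (fun i => f (x i)) atTop (𝓝 0)

end Pool.Agent.Helper68.Projective
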