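import Pool.Agent.Helper68.FblMain

set_option autoImplicit false
set_option linter.unusedSectionVars false
open Topology Filter
open Pool.Agent.Helper68.Fbl

universe u v

namespace Pool.Agent.Helper68.Projective

variable {X : Type u} [NormedAddCommGroup X] [NormedSpace ℝ X] [Lattice X]
  [IsOrderedAddMonoid X] [PosSMulMono ℝ X] [HasSolidNorm X] [CompleteSpace X]

/-- the values of `f` on the order interval `[0,x]` -/
def Vals (f : X →L[ℝ] ℝ) (x : X) : Set ℝ := {r | ∃ y, 0 ≤ y ∧ y ≤ x ∧ r = f y}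

/-- the positive part of `f` on the cone -/
noncomputable def fpos (f : X →L[ℝ] ℝ) (x : X) : ℝ := sSup (Vals f x)

variable (f : X →L[ℝ] ℝ)

lemma Vals_bdd (x : X) : BddAbove (Vals f x) := by
  refine ⟨‖f‖ * ‖x‖, ?_⟩
  rintro r ⟨y, hy0, hyx, rfl⟩
  have h1 : |y| ≤ |x| := by rw [abs_of_nonneg hy0, abs_of_nonneg (hy0.trans hyx)]; exact hyx
  calc f y ≤ |f y| := le_abs_self _
    _ = ‖f y‖ := (Real.norm_eq_abs _).symm
    _ ≤ ‖f‖ * ‖y‖ := f.le_opNorm y
    _ ≤ ‖f‖ * ‖x‖ := by gcongr; exact norm_le_norm_of_abs_le_abs h1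

lemma le_fpos {x y : X} (hy0 : 0 ≤ y) (hyx : y ≤ x) : f y ≤ fpos f x :=
  le_csSup (Vals_bdd f x) ⟨y, hy0, hyx, rfl⟩

lemma fpos_le {x : X} (hx : 0 ≤ x) {c : ℝ} (h : ∀ y, 0 ≤ y → y ≤ x → f y ≤ c) :
    fpos f x ≤ c := by
  have hne : (Vals f x).Nonempty := ⟨f 0, 0, le_refl _, hx, rfl⟩
  apply csSup_le hne
  rintro r ⟨y, hy0, hyx, rfl⟩
  exact h y hy0 hyx

lemma fpos_nonneg {x : X} (hx : 0 ≤ x) : 0 ≤ fpos f x := by
  have := le_fpos f (le_refl (0 : X)) hx
  rwa [map_zero] at this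

lemma fpos_add {x y : X} (hx : 0 ≤ x) (hy : 0 ≤ y) :
    fpos f (x + y) = fpos f x + fpos f y := by
  apply le_antisymm
  · apply fpos_le f (add_nonneg hx hy)
    intro w hw0 hw
    have h1 : f w = f (w ⊓ x) + f (w - w ⊓ x) := by rw [← map_add]; congr 1; abel
    rw [h1]
    apply add_le_add
    · exact le_fpos f (le_inf hw0 hx) inf_le_right
    · apply le_fpos f (sub_nonneg.2 inf_le_left)
      rw [sub_le_iff_le_add']
      -- `w ≤ w ⊓ x + y`
      have h2 : w ≤ (w + y) ⊓ (x + y) := le_inf (le_add_of_nonneg_right hy) hw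
      rwa [← inf_add] at h2
  · have h : ∀ w, 0 ≤ w → w ≤ x → f w ≤ fpos f (x + y) - fpos f y := by
      intro w hw0 hwx
      rw [le_sub_iff_add_le, ← le_sub_iff_add_le']
      apply fpos_le f hy
      intro v hv0 hvy
      rw [le_sub_iff_add_le', ← map_add]
      exact le_fpos f (add_nonneg hw0 hv0) (add_le_add hwx hvy)
    have := fpos_le f hx h
    linarith

lemma fpos_cone {f : X →L[ℝ] ℝ} (hf : IsOrderContinuous f)
    (ha : ∀ a, IsLatticeAtom a → f a = 0) : Cone (fpos f) where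
  nonneg x hx := fpos_nonneg f hx
  add x y hx hy := fpos_add f hx hy
  oc S hS hS0 hdir hinf δ hδ := by
    obtain ⟨w₀, hw₀⟩ := hS
    have hw₀0 := hS0 w₀ hw₀
    obtain ⟨y, hy0, hyw, hy⟩ : ∃ y, 0 ≤ y ∧ y ≤ w₀ ∧ fpos f w₀ - δ / 2 < f y := by
      by_contra hcon
      push Not at hcon
      have := fpos_le f hw₀0 hcon
      linarith
    let ι : Type u := (↥S)ᵒᵈ
    have hdirι : IsDirectedOrder ι := ⟨by
      intro a b
      obtain ⟨z, hz, hza, hzb⟩ := hdir (OrderDual.ofDual a).1 (OrderDual.ofDual a).2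
        (OrderDual.ofDual b).1 (OrderDual.ofDual b).2
      exact ⟨OrderDual.toDual ⟨z, hz⟩, hza, hzb⟩⟩
    have hne : Nonempty ι := ⟨OrderDual.toDual ⟨w₀, hw₀⟩⟩
    let g : ι → X := fun i => y ⊓ (OrderDual.ofDual i).1
    have hanti : Antitone g := by
      intro i j hij
      exact inf_le_inf_left y hij
    have hglb : IsGLB (Set.range g) 0 := by
      constructor
      · rintro _ ⟨i, rfl⟩
        exact le_inf hy0 (hS0 _ (OrderDual.ofDual i).2)
      · intro z hz
        apply hinf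
        intro w hw
        exact (hz ⟨OrderDual.toDual ⟨w, hw⟩, rfl⟩).trans inf_le_right
    have hlim := hf ι g hanti hglb
    obtain ⟨i₀, hi₀⟩ := Filter.eventually_atTop.1
      (hlim.eventually (gt_mem_nhds (show (0 : ℝ) < δ / 2 by positivity)))
    obtain ⟨w, hw, hw1, hw2⟩ := hdir w₀ hw₀ (OrderDual.ofDual i₀).1 (OrderDual.ofDual i₀).2
    refine ⟨w, hw, ?_⟩
    have h1 : f (y ⊓ w) < δ / 2 := hi₀ (OrderDual.toDual ⟨w, hw⟩) hw2
    have h2 : fpos f w₀ = fpos f w + fpos f (w₀ - w) := by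
      rw [← fpos_add f (hS0 w hw) (sub_nonneg.2 hw1), add_sub_cancel]
    have h3 : f (y - y ⊓ w) ≤ fpos f (w₀ - w) := by
      apply le_fpos f (sub_nonneg.2 inf_le_left)
      rw [sub_le_iff_le_add']
      have h4 : y ≤ (y + (w₀ - w)) ⊓ (w + (w₀ - w)) :=
        le_inf (le_add_of_nonneg_right (sub_nonneg.2 hw1)) (by rw [add_sub_cancel]; exact hyw)
      rwa [← inf_add] at h4
    rw [map_sub] at h3
    linarith
  atom a hat := by
    apply le_antisymm _ (fpos_nonneg f hat.1.le)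
    apply fpos_le f hat.1.le
    intro y hy0 hya
    obtain ⟨l, _, rfl⟩ := hat.2 y hy0 hya
    rw [map_smul, ha a hat, smul_zero]

/-- The order continuous functionals on a projective Banach lattice are determined by the
atoms. -/
theorem main (hX : IsProjective X) (f : X →L[ℝ] ℝ) (hf : IsOrderContinuous f)
    (ha : ∀ a, IsLatticeAtom a → f a = 0) : f = 0 := by
  obtain ⟨ρ⟩ := exists_rho hX
  have h1 : ∀ x, 0 ≤ x → f x ≤ 0 := by
    intro x hx
    rw [← (fpos_cone hf ha).eq_zero ρ hx]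
    exact le_fpos f hx (le_refl x)
  have hf' : IsOrderContinuous (-f) := by
    intro ι _ _ _ x hx hglb
    have := (hf ι x hx hglb).neg
    rwa [neg_zero] at this
  have ha' : ∀ a, IsLatticeAtom a → (-f) a = 0 := by
    intro a hat
    show -(f a) = 0
    rw [ha a hat, neg_zero]
  have h2 : ∀ x, 0 ≤ x → 0 ≤ f x := by
    intro x hx
    have h3 : (-f) x ≤ 0 := by
      rw [← (fpos_cone hf' ha').eq_zero ρ hx]
      exact le_fpos (-f) hx (le_refl x)
    have h4 : -(f x) ≤ 0 := h3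
    linarith
  have h3 : ∀ x, 0 ≤ x → f x = 0 := fun x hx => le_antisymm (h1 x hx) (h2 x hx)
  ext x
  have h4 : x = x⁺ - x⁻ := (posPart_sub_negPart x).symm
  rw [h4, map_sub, h3 _ (posPart_nonneg x), h3 _ (negPart_nonneg x), sub_zero]
  rfl

end Pool.Agent.Helper68.Projective
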