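import Pool.Agent.Helper68.FblRep

set_option autoImplicit false
set_option linter.unusedSectionVars false
open scoped ENNReal NNReal
open Topology Filter

universe u v

namespace Pool.Agent.Helper68.Fbl

variable {A : Type u}

/-- domination of a function on the cube by `∑ c_a |t_a|` -/
def Dom (G : K A → ℝ) (c : A → ℝ≥0∞) : Prop := ∀ t : K A, ‖G t‖ₑ ≤ ∑' a, c a * ‖t.1 a‖ₑ

/-- the extended norm -/
noncomputable def EN (G : K A → ℝ) : ℝ≥0∞ := ⨅ c : {c : A → ℝ≥0∞ // Dom G c}, ∑' a, c.1 a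

lemma EN_le {G : K A → ℝ} {c : A → ℝ≥0∞} (h : Dom G c) : EN G ≤ ∑' a, c a :=
  iInf_le (fun c : {c : A → ℝ≥0∞ // Dom G c} => ∑' a, c.1 a) ⟨c, h⟩

lemma exists_dom {G : K A → ℝ} {r : ℝ≥0∞} (h : EN G < r) :
    ∃ c : A → ℝ≥0∞, Dom G c ∧ ∑' a, c a < r := by
  obtain ⟨c, hc⟩ := iInf_lt_iff.1 h
  exact ⟨c.1, c.2, hc⟩

lemma enorm_coord_le (t : K A) (a : A) : ‖t.1 a‖ₑ ≤ 1 := by
  rw [Real.enorm_eq_ofReal_abs]
  calc ENNReal.ofReal |t.1 a| ≤ ENNReal.ofReal 1 := ENNReal.ofReal_le_ofReal (t.2 a)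
    _ = 1 := ENNReal.ofReal_one

lemma enorm_le_EN (G : K A → ℝ) (t : K A) : ‖G t‖ₑ ≤ EN G := by
  refine le_iInf fun c => (c.2 t).trans ?_
  apply ENNReal.tsum_le_tsum
  intro a
  calc c.1 a * ‖t.1 a‖ₑ ≤ c.1 a * 1 := by gcongr; exact enorm_coord_le t a
    _ = c.1 a := mul_one _

lemma EN_mono {G G' : K A → ℝ} (h : ∀ t, ‖G t‖ₑ ≤ ‖G' t‖ₑ) : EN G ≤ EN G' :=
  le_iInf fun c => EN_le fun t => (h t).trans (c.2 t)

lemma EN_add (G G' : K A → ℝ) : EN (G + G') ≤ EN G + EN G' := by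
  have h : EN G + EN G' = ⨅ c : {c : A → ℝ≥0∞ // Dom G c}, ⨅ c' : {c : A → ℝ≥0∞ // Dom G' c},
      (∑' a, c.1 a + ∑' a, c'.1 a) := by
    unfold EN
    rw [ENNReal.iInf_add]
    simp_rw [ENNReal.add_iInf]
  rw [h]
  refine le_iInf fun c => le_iInf fun c' => ?_
  rw [← ENNReal.tsum_add]
  apply EN_le
  intro t
  calc ‖(G + G') t‖ₑ ≤ ‖G t‖ₑ + ‖G' t‖ₑ := enorm_add_le _ _
    _ ≤ ∑' a, c.1 a * ‖t.1 a‖ₑ + ∑' a, c'.1 a * ‖t.1 a‖ₑ := add_le_add (c.2 t) (c'.2 t)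
    _ = ∑' a, (c.1 a + c'.1 a) * ‖t.1 a‖ₑ := by
        rw [← ENNReal.tsum_add]
        simp_rw [add_mul]

lemma EN_zero : EN (0 : K A → ℝ) = 0 := by
  have h : Dom (0 : K A → ℝ) (fun _ => 0) := fun t => by simp
  have := EN_le h
  simpa using this

lemma EN_neg (G : K A → ℝ) : EN (-G) = EN G :=
  le_antisymm (EN_mono fun t => by simp) (EN_mono fun t => by simp)

lemma EN_smul_le (r : ℝ) (G : K A → ℝ) : EN (r • G) ≤ ‖r‖ₑ * EN G := by
  by_cases hr : r = 0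
  · subst hr
    rw [zero_smul, EN_zero]
    exact bot_le
  · have h0 : ‖r‖ₑ ≠ 0 := by simpa using hr
    have h1 : ‖r‖ₑ ≠ ⊤ := by simp
    have h2 : ‖r‖ₑ * EN G = ⨅ c : {c : A → ℝ≥0∞ // Dom G c}, ‖r‖ₑ * ∑' a, c.1 a :=
      ENNReal.mul_iInf_of_ne h0 h1
    rw [h2]
    refine le_iInf fun c => ?_
    rw [← ENNReal.tsum_mul_left]
    apply EN_le
    intro t
    rw [Pi.smul_apply, smul_eq_mul, enorm_mul]
    calc ‖r‖ₑ * ‖G t‖ₑ ≤ ‖r‖ₑ * ∑' a, c.1 a * ‖t.1 a‖ₑ := by gcongr; exact c.2 t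
      _ = ∑' a, ‖r‖ₑ * c.1 a * ‖t.1 a‖ₑ := by
          rw [← ENNReal.tsum_mul_left]
          simp_rw [mul_assoc]

lemma EN_tsum {G : ℕ → K A → ℝ} {S : K A → ℝ} (hS : ∀ t, HasSum (fun n => G n t) (S t)) :
    EN S ≤ ∑' n, EN (G n) := by
  by_cases htop : ∑' n, EN (G n) = ⊤
  · rw [htop]; exact le_top
  · have hn : ∀ n, EN (G n) ≠ ⊤ := fun n => ENNReal.ne_top_of_tsum_ne_top htop n
    apply ENNReal.le_of_forall_pos_le_add
    intro ε hε _
    obtain ⟨δ, hδ, hδε⟩ := ENNReal.exists_pos_sum_of_countable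
      (ε := (ε : ℝ≥0∞)) (by exact_mod_cast hε.ne') ℕ
    have hlt : ∀ n, EN (G n) < EN (G n) + δ n := fun n =>
      ENNReal.lt_add_right (hn n) (by exact_mod_cast (hδ n).ne')
    choose c hc1 hc2 using fun n => exists_dom (hlt n)
    have hdom : Dom S (fun a => ∑' n, c n a) := by
      intro t
      calc ‖S t‖ₑ = ‖∑' n, G n t‖ₑ := by rw [(hS t).tsum_eq]
        _ ≤ ∑' n, ‖G n t‖ₑ := enorm_tsum_le_tsum_enorm
        _ ≤ ∑' n, ∑' a, c n a * ‖t.1 a‖ₑ := ENNReal.tsum_le_tsum fun n => hc1 n t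
        _ = ∑' a, ∑' n, c n a * ‖t.1 a‖ₑ := ENNReal.tsum_comm
        _ = ∑' a, (∑' n, c n a) * ‖t.1 a‖ₑ := by simp_rw [ENNReal.tsum_mul_right]
    calc EN S ≤ ∑' a, ∑' n, c n a := EN_le hdom
      _ = ∑' n, ∑' a, c n a := ENNReal.tsum_comm
      _ ≤ ∑' n, (EN (G n) + δ n) := ENNReal.tsum_le_tsum fun n => (hc2 n).le
      _ = ∑' n, EN (G n) + ∑' n, (δ n : ℝ≥0∞) := ENNReal.tsum_add
      _ ≤ ∑' n, EN (G n) + ε := by gcongr

/-- the functions of finite norm -/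
def HS (A : Type u) : Submodule ℝ (K A → ℝ) where
  carrier := {G | EN G < ⊤}
  add_mem' := fun {G G'} h h' => (EN_add G G').trans_lt (ENNReal.add_lt_top.2 ⟨h, h'⟩)
  zero_mem' := by
    show EN 0 < ⊤
    rw [EN_zero]; exact ENNReal.zero_lt_top
  smul_mem' := fun r G h => (EN_smul_le r G).trans_lt (ENNReal.mul_lt_top (by simp) h)

/-- the Banach lattice of functions of finite norm -/
def HH (A : Type u) : Type u := ↥(HS A)

namespace HH

noncomputable instance : AddCommGroup (HH A) := inferInstanceAs (AddCommGroup ↥(HS A))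
noncomputable instance : Module ℝ (HH A) := inferInstanceAs (Module ℝ ↥(HS A))

/-- underlying function -/
def fn (G : HH A) : K A → ℝ := G.1

@[ext] lemma ext {G G' : HH A} (h : ∀ t, G.fn t = G'.fn t) : G = G' :=
  Subtype.ext (funext h)

@[simp] lemma fn_add (G G' : HH A) : (G + G').fn = G.fn + G'.fn := rfl
@[simp] lemma fn_sub (G G' : HH A) : (G - G').fn = G.fn - G'.fn := rfl
@[simp] lemma fn_neg (G : HH A) : (-G).fn = -G.fn := rfl
@[simp] lemma fn_zero : (0 : HH A).fn = 0 := rfl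
@[simp] lemma fn_smul (r : ℝ) (G : HH A) : (r • G).fn = r • G.fn := rfl

lemma EN_lt (G : HH A) : EN G.fn < ⊤ := G.2

/-- the norm -/
noncomputable def nm : AddGroupNorm (HH A) where
  toFun G := (EN G.fn).toReal
  map_zero' := by rw [fn_zero, EN_zero]; rfl
  add_le' G G' := by
    rw [fn_add, ← ENNReal.toReal_add (EN_lt G).ne (EN_lt G').ne]
    exact ENNReal.toReal_mono (ENNReal.add_lt_top.2 ⟨EN_lt G, EN_lt G'⟩).ne (EN_add _ _)
  neg' G := by rw [fn_neg, EN_neg]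
  eq_zero_of_map_eq_zero' G h := by
    have h1 : EN G.fn = 0 := by
      rcases (ENNReal.toReal_eq_zero_iff _).1 h with h | h
      · exact h
      · exact absurd h (EN_lt G).ne
    ext t
    have h2 := enorm_le_EN G.fn t
    rw [h1] at h2
    simpa using h2

noncomputable instance : NormedAddCommGroup (HH A) := AddGroupNorm.toNormedAddCommGroup nm

lemma norm_def (G : HH A) : ‖G‖ = (EN G.fn).toReal := rfl

lemma ofReal_norm (G : HH A) : ENNReal.ofReal ‖G‖ = EN G.fn := by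
  rw [norm_def, ENNReal.ofReal_toReal (EN_lt G).ne]

noncomputable instance : NormedSpace ℝ (HH A) where
  norm_smul_le r G := by
    rw [norm_def, norm_def, fn_smul]
    have h := ENNReal.toReal_mono (ENNReal.mul_lt_top (by simp) (EN_lt G)).ne
      (EN_smul_le r G.fn)
    rw [ENNReal.toReal_mul, toReal_enorm] at h
    exact h

lemma abs_fn_le (G : HH A) (t : K A) : |G.fn t| ≤ ‖G‖ := by
  have h := ENNReal.toReal_mono (EN_lt G).ne (enorm_le_EN G.fn t)
  rw [toReal_enorm, Real.norm_eq_abs] at h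
  exact h

lemma fn_sum (s : Finset ℕ) (u : ℕ → HH A) (t : K A) :
    (∑ i ∈ s, u i).fn t = ∑ i ∈ s, (u i).fn t := by
  classical
  induction s using Finset.induction_on with
  | empty => simp
  | insert i s his ih => rw [Finset.sum_insert his, Finset.sum_insert his, fn_add,
      Pi.add_apply, ih]

instance : CompleteSpace (HH A) := by
  apply NormedAddCommGroup.completeSpace_of_summable_imp_tendsto
  intro u hu
  have hpt : ∀ t, Summable fun n => (u n).fn t := fun t =>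
    Summable.of_norm_bounded hu fun n => by
      rw [Real.norm_eq_abs]; exact abs_fn_le (u n) t
  have hEN : ∀ N, ∑' n, EN (u (n + N)).fn = ENNReal.ofReal (∑' n, ‖u (n + N)‖) := by
    intro N
    rw [ENNReal.ofReal_tsum_of_nonneg (fun n => norm_nonneg _) ((summable_nat_add_iff N).2 hu)]
    simp_rw [ofReal_norm]
  set S : K A → ℝ := fun t => ∑' n, (u n).fn t with hS
  have hSlt : EN S < ⊤ := by
    have h1 := EN_tsum (G := fun n => (u n).fn) (S := S) (fun t => (hpt t).hasSum)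
    have h2 := hEN 0
    simp only [add_zero] at h2
    rw [h2] at h1
    exact h1.trans_lt ENNReal.ofReal_lt_top
  let SS : HH A := ⟨S, hSlt⟩
  refine ⟨SS, ?_⟩
  rw [tendsto_iff_norm_sub_tendsto_zero]
  have hlim : Tendsto (fun N => ∑' n, ‖u (n + N)‖) atTop (𝓝 0) :=
    tendsto_sum_nat_add fun n => ‖u n‖
  refine squeeze_zero (fun _ => norm_nonneg _) (fun N => ?_) hlim
  rw [norm_sub_rev]
  have h3 : EN (SS - ∑ i ∈ Finset.range N, u i).fn ≤ ∑' n, EN (u (n + N)).fn := by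
    apply EN_tsum
    intro t
    have h4 : (SS - ∑ i ∈ Finset.range N, u i).fn t = S t - ∑ i ∈ Finset.range N, (u i).fn t := by
      rw [fn_sub, Pi.sub_apply, fn_sum]; rfl
    rw [h4]
    exact (hasSum_nat_add_iff' N).2 (hpt t).hasSum
  rw [hEN] at h3
  have h5 := ENNReal.toReal_mono ENNReal.ofReal_lt_top.ne h3
  rw [ENNReal.toReal_ofReal (tsum_nonneg fun n => norm_nonneg _)] at h5
  exact h5

/-! ### lattice structure -/

lemma EN_sup_lt (G G' : HH A) : EN (G.fn ⊔ G'.fn) < ⊤ := by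
  have h : EN (G.fn ⊔ G'.fn) ≤ EN ((fun t => |G.fn t|) + fun t => |G'.fn t|) := by
    apply EN_mono
    intro t
    rw [Real.enorm_eq_ofReal_abs, Real.enorm_eq_ofReal_abs]
    apply ENNReal.ofReal_le_ofReal
    have h1 : |(G.fn ⊔ G'.fn) t| ≤ max |G.fn t| |G'.fn t| := abs_max_le_max_abs_abs
    have h2 : max |G.fn t| |G'.fn t| ≤ |G.fn t| + |G'.fn t| :=
      max_le (le_add_of_nonneg_right (abs_nonneg _)) (le_add_of_nonneg_left (abs_nonneg _))
    exact (h1.trans h2).trans (le_abs_self _)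
  have h1 : EN (fun t => |G.fn t|) ≤ EN G.fn := EN_mono fun t => by simp
  have h2 : EN (fun t => |G'.fn t|) ≤ EN G'.fn := EN_mono fun t => by simp
  exact h.trans_lt ((EN_add _ _).trans_lt (ENNReal.add_lt_top.2
    ⟨h1.trans_lt (EN_lt G), h2.trans_lt (EN_lt G')⟩))

lemma EN_inf_lt (G G' : HH A) : EN (G.fn ⊓ G'.fn) < ⊤ := by
  have h : G.fn ⊓ G'.fn = -((-G).fn ⊔ (-G').fn) := by
    rw [fn_neg, fn_neg, neg_sup, neg_neg, neg_neg]
  rw [h, EN_neg]
  exact EN_sup_lt _ _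

instance : PartialOrder (HH A) := PartialOrder.lift fn fun _ _ h => ext fun t => congrFun h t

lemma le_iff (G G' : HH A) : G ≤ G' ↔ G.fn ≤ G'.fn := Iff.rfl

noncomputable instance : Lattice (HH A) where
  sup G G' := ⟨G.fn ⊔ G'.fn, EN_sup_lt G G'⟩
  inf G G' := ⟨G.fn ⊓ G'.fn, EN_inf_lt G G'⟩
  le_sup_left G G' := (le_sup_left : G.fn ≤ G.fn ⊔ G'.fn)
  le_sup_right G G' := (le_sup_right : G'.fn ≤ G.fn ⊔ G'.fn)
  sup_le G G' G'' h h' := (sup_le h h' : G.fn ⊔ G'.fn ≤ G''.fn)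
  inf_le_left G G' := (inf_le_left : G.fn ⊓ G'.fn ≤ G.fn)
  inf_le_right G G' := (inf_le_right : G.fn ⊓ G'.fn ≤ G'.fn)
  le_inf G G' G'' h h' := (le_inf h h' : G.fn ≤ G'.fn ⊓ G''.fn)

@[simp] lemma fn_sup (G G' : HH A) : (G ⊔ G').fn = G.fn ⊔ G'.fn := rfl
@[simp] lemma fn_inf (G G' : HH A) : (G ⊓ G').fn = G.fn ⊓ G'.fn := rfl
@[simp] lemma fn_abs (G : HH A) : (|G|).fn = |G.fn| := rfl

instance : IsOrderedAddMonoid (HH A) where
  add_le_add_left G G' h G'' := by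
    have h1 : G.fn ≤ G'.fn := h
    have h2 : G.fn + G''.fn ≤ G'.fn + G''.fn := add_le_add_left h1 _
    exact h2

instance : PosSMulMono ℝ (HH A) where
  smul_le_smul_of_nonneg_left r hr G G' h := by
    rw [le_iff] at h ⊢
    intro t
    exact mul_le_mul_of_nonneg_left (h t) hr

instance : HasSolidNorm (HH A) where
  solid G G' h := by
    rw [norm_def, norm_def]
    apply ENNReal.toReal_mono (EN_lt G').ne
    apply EN_mono
    intro t
    rw [Real.enorm_eq_ofReal_abs, Real.enorm_eq_ofReal_abs]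
    exact ENNReal.ofReal_le_ofReal (h t)

end HH

end Pool.Agent.Helper68.Fbl
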