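import Pool.Agent.Helper68.FblCone

set_option autoImplicit false
set_option linter.unusedSectionVars false
open scoped ENNReal NNReal
open Topology Filter
open Pool.Agent.Helper68.Fbl

universe u v

namespace Pool.Agent.Helper68.Projective

/-! ### finitely supported rational points -/

/-- finitely supported rational points with support in `B` -/
def DD {A : Type u} (B : Set A) : Set (K A) :=
  {d | ∃ F : Finset A, (↑F : Set A) ⊆ B ∧ (∀ a, a ∉ F → d.1 a = 0) ∧ ∀ a ∈ F, ∃ q : ℚ, d.1 a = q}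

lemma DD_mono {A : Type u} {B B' : Set A} (h : B ⊆ B') : DD B ⊆ DD B' := by
  rintro d ⟨F, h1, h2, h3⟩
  exact ⟨F, h1.trans h, h2, h3⟩

lemma DD_countable {A : Type u} {B : Set A} (hB : B.Countable) : (DD B).Countable := by
  classical
  have h1 : {F : Finset A | (↑F : Set A) ⊆ B}.Countable := by
    have h2 := Set.countable_ofPred_finite_subset hB
    have h3 : {F : Finset A | (↑F : Set A) ⊆ B} ⊆
        (fun F : Finset A => (↑F : Set A)) ⁻¹' {t | t.Finite ∧ t ⊆ B} := by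
      intro F hF
      exact ⟨Finset.finite_toSet F, hF⟩
    exact (h2.preimage_of_injOn (Finset.coe_injective.injOn)).mono h3
  have h4 : DD B ⊆ ⋃ F ∈ {F : Finset A | (↑F : Set A) ⊆ B}, ⋃ q : F → ℚ,
      {d : K A | (∀ a, a ∉ F → d.1 a = 0) ∧ ∀ a : F, d.1 a = q a} := by
    rintro d ⟨F, h5, h6, h7⟩
    choose q hq using h7
    refine Set.mem_biUnion (x := F) h5 ?_
    exact Set.mem_iUnion.2 ⟨fun a => q a.1 a.2, h6, fun a => hq a.1 a.2⟩
  refine Set.Countable.mono h4 (Set.Countable.biUnion h1 fun F _ => ?_)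
  refine Set.countable_iUnion fun q => Set.Subsingleton.countable ?_
  rintro d ⟨h5, h6⟩ d' ⟨h7, h8⟩
  apply Subtype.ext
  funext a
  by_cases ha : a ∈ F
  · have e1 := h6 ⟨a, ha⟩
    have e2 := h8 ⟨a, ha⟩
    exact e1.trans e2.symm
  · exact (h5 a ha).trans (h7 a ha).symm

lemma DD_iUnion {A : Type u} {B : ℕ → Set A} (hB : Monotone B) {d : K A}
    (hd : d ∈ DD (⋃ n, B n)) : ∃ n, d ∈ DD (B n) := by
  classical
  obtain ⟨F, h1, h2, h3⟩ := hd
  have h4 : ∃ n, (↑F : Set A) ⊆ B n := by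
    clear h2 h3
    induction F using Finset.induction_on with
    | empty => exact ⟨0, by simp⟩
    | insert a F haF ih =>
      rw [Finset.coe_insert] at h1
      obtain ⟨n, hn⟩ := ih ((Set.subset_insert _ _).trans h1)
      obtain ⟨m, hm⟩ := Set.mem_iUnion.1 (h1 (Set.mem_insert a _))
      refine ⟨max n m, ?_⟩
      rw [Finset.coe_insert]
      exact Set.insert_subset (hB (le_max_right n m) hm) (hn.trans (hB (le_max_left n m)))
  obtain ⟨n, hn⟩ := h4
  exact ⟨n, F, hn, h2, h3⟩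

/-- the zero point -/
def zeroPt (A : Type u) : K A := ⟨fun _ => 0, fun _ => by simp⟩

lemma zeroPt_mem {A : Type u} (B : Set A) : zeroPt A ∈ DD B :=
  ⟨∅, by simp, fun _ _ => rfl, by simp⟩

/-- closing off -/
lemma exists_closed {A : Type u} (C : K A → ℕ → Set A) (hC : ∀ d j, (C d j).Countable) :
    ∃ B : Set A, B.Countable ∧ ∀ d ∈ DD B, ∀ j, C d j ⊆ B := by
  let B : ℕ → Set A := fun n => Nat.rec ∅ (fun _ B => B ∪ ⋃ d ∈ DD B, ⋃ j, C d j) n
  have hB0 : B 0 = ∅ := rfl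
  have hBs : ∀ n, B (n + 1) = B n ∪ ⋃ d ∈ DD (B n), ⋃ j, C d j := fun n => rfl
  have hBc : ∀ n, (B n).Countable := by
    intro n
    induction n with
    | zero => rw [hB0]; exact Set.countable_empty
    | succ n ih =>
      rw [hBs]
      exact ih.union ((DD_countable ih).biUnion fun d _ => Set.countable_iUnion fun j => hC d j)
  have hmono : Monotone B := monotone_nat_of_le_succ fun n => by
    rw [hBs]; exact Set.subset_union_left
  refine ⟨⋃ n, B n, Set.countable_iUnion hBc, fun d hd j => ?_⟩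
  obtain ⟨n, hn⟩ := DD_iUnion hmono hd
  refine Set.Subset.trans ?_ (Set.subset_iUnion B (n + 1))
  rw [hBs]
  refine Set.Subset.trans ?_ Set.subset_union_right
  intro a ha
  exact Set.mem_biUnion hn (Set.mem_iUnion.2 ⟨j, ha⟩)

/-- approximation of a point by a point of `DD B`, on the coordinates in `B` -/
lemma exists_approx {A : Type u} (B : Set A) {U : Set (K A)} (hU : IsOpen U) {s : K A}
    (hs : s ∈ U) : ∃ d ∈ DD B, ∃ t ∈ U, ∀ a ∈ B, t.1 a = d.1 a := by
  classical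
  obtain ⟨V, hV, hVU⟩ := isOpen_induced_iff.1 hU
  have hsV : s.1 ∈ V := by
    have : s ∈ (Subtype.val ⁻¹' V : Set (K A)) := by rw [hVU]; exact hs
    exact this
  obtain ⟨F, W, hW, hWV⟩ := isOpen_pi_iff.1 hV s.1 hsV
  have hq : ∀ a ∈ F, ∃ q : ℚ, (q : ℝ) ∈ W a ∧ |(q : ℝ)| ≤ 1 := by
    intro a ha
    have h1 : s.1 a ∈ closure (Set.Ioo (-1 : ℝ) 1) := by
      rw [closure_Ioo (by norm_num)]
      exact abs_le.1 (s.2 a)
    obtain ⟨y, hy1, hy2⟩ := mem_closure_iff.1 h1 (W a) (hW a ha).1 (hW a ha).2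
    obtain ⟨q, hq⟩ := Rat.denseRange_cast.exists_mem_open
      ((hW a ha).1.inter isOpen_Ioo) ⟨y, hy1, hy2⟩
    exact ⟨q, hq.1, abs_le.2 ⟨hq.2.1.le, hq.2.2.le⟩⟩
  choose! q hq1 hq2 using hq
  let d : K A := ⟨fun a => if a ∈ F ∧ a ∈ B then (q a : ℝ) else 0, fun a => by
    show |if a ∈ F ∧ a ∈ B then (q a : ℝ) else 0| ≤ 1
    split_ifs with h
    · exact hq2 a h.1
    · simp⟩
  have hd1 : ∀ a, a ∈ F → a ∈ B → d.1 a = q a := fun a h1 h2 => if_pos ⟨h1, h2⟩
  have hd2 : ∀ a, ¬ (a ∈ F ∧ a ∈ B) → d.1 a = 0 := fun a h => if_neg h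
  let t : K A := ⟨fun a => if a ∈ B then d.1 a else s.1 a, fun a => by
    show |if a ∈ B then d.1 a else s.1 a| ≤ 1
    split_ifs
    · exact d.2 a
    · exact s.2 a⟩
  have ht1 : ∀ a ∈ B, t.1 a = d.1 a := fun a h => if_pos h
  have ht2 : ∀ a, a ∉ B → t.1 a = s.1 a := fun a h => if_neg h
  refine ⟨d, ⟨F.filter (· ∈ B), ?_, ?_, ?_⟩, t, ?_, ht1⟩
  · intro a ha
    rw [Finset.coe_filter] at ha
    exact ha.2
  · intro a ha
    apply hd2
    intro h
    exact ha (Finset.mem_filter.2 h)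
  · intro a ha
    obtain ⟨h1, h2⟩ := Finset.mem_filter.1 ha
    exact ⟨q a, hd1 a h1 h2⟩
  · have h1 : t.1 ∈ V := by
      apply hWV
      intro a ha
      by_cases h2 : a ∈ B
      · rw [ht1 a h2, hd1 a ha h2]
        exact hq1 a ha
      · rw [ht2 a h2]
        exact (hW a ha).2
    rw [← hVU]
    exact h1

variable {X : Type u} [NormedAddCommGroup X] [NormedSpace ℝ X] [Lattice X]
  [IsOrderedAddMonoid X] [PosSMulMono ℝ X] [HasSolidNorm X] [CompleteSpace X]

/-- evaluation -/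
noncomputable def Rho.ev {A : Type u} (ρ : Rho X A) (d : K A) : X →ₗ[ℝ] ℝ :=
  (LinearMap.proj d).comp ρ.r

lemma Rho.ev_apply {A : Type u} (ρ : Rho X A) (d : K A) (x : X) : ρ.ev d x = ρ.r x d := rfl

lemma Rho.ev_sup {A : Type u} (ρ : Rho X A) (d : K A) (a b : X) :
    ρ.ev d (a ⊔ b) = ρ.ev d a ⊔ ρ.ev d b := by
  rw [ρ.ev_apply, ρ.sup]
  rfl

/-- order continuous functionals vanishing at the atoms vanish -/
theorem Cone.eq_zero {A : Type u} (ρ : Rho X A) {N : X → ℝ} (hN : Cone N) {x : X} (hx : 0 ≤ x) :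
    N x = 0 := by
  classical
  have hwit : ∀ (d : K A) (j : ℕ), ∃ u, 0 ≤ u ∧ u ≤ x ∧ N u < (1 / 2 : ℝ) ^ j ∧
      ρ.ev d (x - u) < (1 / 2 : ℝ) ^ j := fun d j =>
    hN.disjoint (ρ.ev_sup d) hx (by positivity)
  choose u hu0 hux hNu hev using hwit
  choose Bd hBd1 hBd2 using ρ.dep
  obtain ⟨B, hBc, hB⟩ := exists_closed (fun d j => Bd (x - u d j)) (fun d j => hBd1 _)
  obtain ⟨e, he⟩ := (DD_countable hBc).exists_eq_range ⟨_, zeroPt_mem B⟩
  have heB : ∀ i, e i ∈ DD B := fun i => by rw [he]; exact ⟨i, rfl⟩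
  apply le_antisymm _ (hN.nonneg x hx)
  apply le_of_forall_pos_le_add
  intro ε hε
  obtain ⟨j₀, hj₀⟩ : ∃ j₀ : ℕ, (1 / 2 : ℝ) ^ j₀ < ε / 4 :=
    exists_pow_lt_of_lt_one (by positivity) (by norm_num)
  set w : ℕ → X := fun m => u (e (Nat.unpair m).1) (m + j₀) with hw
  have hw0 : ∀ m, 0 ≤ w m := fun m => hu0 _ _
  have hwx : ∀ m, w m ≤ x := fun m => hux _ _
  have hNw : ∀ m, N (w m) ≤ (1 / 2 : ℝ) ^ (m + j₀) := fun m => (hNu _ _).le
  let y : ℕ → X := fun n => Nat.rec 0 (fun m z => z ⊔ w m) n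
  have hy0' : y 0 = 0 := rfl
  have hys : ∀ m, y (m + 1) = y m ⊔ w m := fun m => rfl
  have hymono : Monotone y := monotone_nat_of_le_succ fun m => by rw [hys]; exact le_sup_left
  have hy0 : ∀ m, 0 ≤ y m := fun m => by
    have := hymono (Nat.zero_le m)
    rwa [hy0'] at this
  have hyx : ∀ m, y m ≤ x := by
    intro m
    induction m with
    | zero => rw [hy0']; exact hx
    | succ m ih => rw [hys]; exact _root_.sup_le ih (hwx m)
  have hNy : ∀ m, N (y m) ≤ 2 * (1 / 2 : ℝ) ^ j₀ - 2 * (1 / 2 : ℝ) ^ (m + j₀) := by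
    intro m
    induction m with
    | zero => rw [hy0', hN.zero, zero_add, sub_self]
    | succ m ih =>
      rw [hys]
      refine (hN.sup_le (hy0 m) (hw0 m)).trans ?_
      have h1 := hNw m
      have h2 : (1 / 2 : ℝ) ^ (m + 1 + j₀) = (1 / 2 : ℝ) ^ (m + j₀) * (1 / 2) := by
        rw [← pow_succ]; congr 1; omega
      rw [h2]
      linarith
  have hNy' : ∀ m, N (y m) ≤ ε / 2 := by
    intro m
    have h1 : (0 : ℝ) < (1 / 2 : ℝ) ^ (m + j₀) := by positivity
    linarith [hNy m]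
  obtain ⟨v, ⟨m, rfl⟩, hv2⟩ := hN.oc (Set.range fun m => x - y m) ⟨_, 0, rfl⟩
    (by rintro _ ⟨m, rfl⟩; exact sub_nonneg.2 (hyx m))
    (by
      rintro _ ⟨m, rfl⟩ _ ⟨n, rfl⟩
      refine ⟨_, ⟨max m n, rfl⟩, ?_, ?_⟩
      · exact sub_le_sub_left (hymono (le_max_left m n)) x
      · exact sub_le_sub_left (hymono (le_max_right m n)) x)
    (by
      intro v hv
      -- the lower bound vanishes
      have hv1 : ∀ m, v ⊔ 0 ≤ x - w m := by
        intro m
        have h1 : v ≤ x - y (m + 1) := hv _ ⟨m + 1, rfl⟩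
        have h2 : w m ≤ y (m + 1) := by rw [hys]; exact le_sup_right
        have h3 : v ⊔ 0 ≤ x - y (m + 1) := _root_.sup_le h1 (sub_nonneg.2 (hyx (m + 1)))
        exact h3.trans (sub_le_sub_left h2 x)
      suffices hzero : ρ.r (v ⊔ 0) = 0 by
        have := ρ.inj _ hzero
        rw [← this]
        exact le_sup_left
      by_contra hne
      obtain ⟨s, hs⟩ := Function.ne_iff.1 hne
      rw [Pi.zero_apply] at hs
      have hs0 : 0 < ρ.r (v ⊔ 0) s :=
        lt_of_le_of_ne (hom_nonneg (ρ.ev_sup s) le_sup_right) (Ne.symm hs)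
      set η : ℝ := ρ.r (v ⊔ 0) s / 2 with hη
      have hη0 : 0 < η := by positivity
      have hopen : IsOpen {t : K A | η < ρ.r (v ⊔ 0) t} :=
        isOpen_lt continuous_const (ρ.cont _)
      obtain ⟨d, hd, t, ht, htd⟩ := exists_approx B hopen
        (show s ∈ {t : K A | η < ρ.r (v ⊔ 0) t} by
          show η < ρ.r (v ⊔ 0) s
          linarith)
      rw [he] at hd
      obtain ⟨i, rfl⟩ := hd
      obtain ⟨k, hk⟩ : ∃ k : ℕ, (1 / 2 : ℝ) ^ k < η :=
        exists_pow_lt_of_lt_one hη0 (by norm_num)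
      set m : ℕ := Nat.pair i k with hm
      have hum : (Nat.unpair m).1 = i := by rw [hm, Nat.unpair_pair]
      have hkm : k ≤ m := Nat.right_le_pair i k
      have h1 : ρ.r (v ⊔ 0) t ≤ ρ.r (x - w m) t := hom_mono (ρ.ev_sup t) (hv1 m)
      have h2 : ρ.r (x - w m) t = ρ.r (x - w m) (e i) := by
        apply hBd2
        intro a ha
        apply htd
        apply hB (e i) (heB i) (m + j₀)
        have h3 : w m = u (e i) (m + j₀) := by rw [hw]; simp only [hum]
        rwa [h3] at ha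
      have h4 : ρ.r (x - w m) (e i) < (1 / 2 : ℝ) ^ (m + j₀) := by
        have h3 : w m = u (e i) (m + j₀) := by rw [hw]; simp only [hum]
        rw [h3]
        exact hev (e i) (m + j₀)
      have h5 : (1 / 2 : ℝ) ^ (m + j₀) ≤ (1 / 2 : ℝ) ^ k :=
        pow_le_pow_of_le_one (by norm_num) (by norm_num) (by omega)
      have h6 : η < ρ.r (v ⊔ 0) t := ht
      linarith) (ε / 2) (by positivity)
  have h1 := hN.sub_eq (hy0 m) (hyx m)
  have h2 := hNy' m
  rw [zero_add]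
  linarith

end Pool.Agent.Helper68.Projective
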