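import Mathlib

set_option autoImplicit false
open scoped ENNReal
open Topology Filter

universe u v

set_option linter.unusedSectionVars false

namespace Pool.Agent.Helper68.Fbl

/-- Gordan's lemma -/
lemma gordan {F ι : Type*} [Fintype F] [Fintype ι] (c : ι → F → ℝ)
    (h : ∀ t : F → ℝ, ∃ i, 0 ≤ ∑ a, c i a * t a) :
    ∃ l : ι → ℝ, (∀ i, 0 ≤ l i) ∧ ∑ i, l i = 1 ∧ ∀ a, ∑ i, l i * c i a = 0 := by
  classical
  by_contra hcon
  have h0 : (0 : F → ℝ) ∉ convexHull ℝ (Set.range c) := by
    intro hmem
    rw [convexHull_range_eq_exists_affineCombination] at hmem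
    obtain ⟨s, w, hw0, hw1, hw2⟩ := hmem
    rw [Finset.affineCombination_eq_linear_combination s c w hw1] at hw2
    refine hcon ⟨fun i => if i ∈ s then w i else 0, fun i => ?_, ?_, fun a => ?_⟩
    · show 0 ≤ if i ∈ s then w i else 0
      split_ifs with hi
      · exact hw0 i hi
      · exact le_refl _
    · simpa using hw1
    · have := congrFun hw2 a
      simp only [Finset.sum_apply, Pi.smul_apply, smul_eq_mul, Pi.zero_apply] at this
      simpa [ite_mul] using this
  have hcl : IsClosed (convexHull ℝ (Set.range c)) :=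
    ((Set.finite_range c).isCompact_convexHull (𝕜 := ℝ)).isClosed
  obtain ⟨f, u, hf1, hf2⟩ := geometric_hahn_banach_closed_point (convex_convexHull ℝ _) hcl h0
  rw [map_zero] at hf2
  obtain ⟨i, hi⟩ := h (fun a => f (Pi.single a 1))
  have h1 : f (c i) = ∑ a, c i a * f (Pi.single a 1) := by
    have h2 : c i = ∑ a, c i a • (Pi.single a (1 : ℝ) : F → ℝ) := by
      ext a
      simp [Finset.sum_apply, Pi.single_apply]
    conv_lhs => rw [h2]
    rw [map_sum]
    simp
  have h3 := hf1 (c i) (subset_convexHull ℝ _ ⟨i, rfl⟩)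
  rw [h1] at h3
  linarith

/-- the cube -/
def K (A : Type u) : Type u := {t : A → ℝ // ∀ a, |t a| ≤ 1}

/-- the value of a linear form at a point of the cube -/
noncomputable def lint {A : Type u} (c : A →₀ ℝ) (t : K A) : ℝ :=
  Finsupp.linearCombination ℝ t.1 c

section VL

variable {V : Type v} [AddCommGroup V] [Lattice V] [IsOrderedAddMonoid V] [Module ℝ V]
  [PosSMulMono ℝ V]

lemma smul_sup' {r : ℝ} (hr : 0 ≤ r) (a b : V) : r • (a ⊔ b) = r • a ⊔ r • b := by
  rcases hr.eq_or_lt with h | h
  · rw [← h]; simp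
  · apply le_antisymm
    · have h1 : a ⊔ b ≤ r⁻¹ • (r • a ⊔ r • b) := by
        apply sup_le
        · have := smul_le_smul_of_nonneg_left (le_sup_left : r • a ≤ r • a ⊔ r • b)
            (inv_nonneg.2 hr)
          rwa [smul_smul, inv_mul_cancel₀ h.ne', one_smul] at this
        · have := smul_le_smul_of_nonneg_left (le_sup_right : r • b ≤ r • a ⊔ r • b)
            (inv_nonneg.2 hr)
          rwa [smul_smul, inv_mul_cancel₀ h.ne', one_smul] at this
      have := smul_le_smul_of_nonneg_left h1 hr
      rwa [smul_smul, mul_inv_cancel₀ h.ne', one_smul] at this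
    · exact sup_le (smul_le_smul_of_nonneg_left le_sup_left hr)
        (smul_le_smul_of_nonneg_left le_sup_right hr)

/-- pairs (function on the cube, element of `V`) given by finite suprema of linear forms -/
inductive SupRep {A : Type u} (x : A → V) : (K A → ℝ) → V → Prop
  | lin (c : A →₀ ℝ) : SupRep x (lint c) (Finsupp.linearCombination ℝ x c)
  | sup {g : K A → ℝ} {v : V} {h : K A → ℝ} {w : V} : SupRep x g v → SupRep x h w →
      SupRep x (g ⊔ h) (v ⊔ w)

variable {A : Type u} {x : A → V}

lemma lint_add (c d : A →₀ ℝ) : lint (c + d) = lint c + lint d := by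
  ext t; simp [lint]

lemma lint_smul (r : ℝ) (c : A →₀ ℝ) : lint (r • c) = r • lint c := by
  ext t; simp [lint]

lemma lint_sub (c d : A →₀ ℝ) : lint (c - d) = lint c - lint d := by
  ext t; simp [lint]

lemma SupRep.add_lin {g : K A → ℝ} {v : V} (h : SupRep x g v) (c : A →₀ ℝ) :
    SupRep x (g + lint c) (v + Finsupp.linearCombination ℝ x c) := by
  induction h with
  | lin d =>
    rw [← lint_add, ← map_add]
    exact SupRep.lin _
  | sup h1 h2 ih1 ih2 =>
    rw [sup_add, sup_add]
    exact ih1.sup ih2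

lemma SupRep.add {g h : K A → ℝ} {v w : V} (h1 : SupRep x g v) (h2 : SupRep x h w) :
    SupRep x (g + h) (v + w) := by
  induction h1 with
  | lin d =>
    rw [add_comm (lint d), add_comm _ w]
    exact h2.add_lin d
  | sup h3 h4 ih1 ih2 =>
    rw [sup_add, sup_add]
    exact ih1.sup ih2

lemma SupRep.smul {g : K A → ℝ} {v : V} (h : SupRep x g v) {r : ℝ} (hr : 0 ≤ r) :
    SupRep x (r • g) (r • v) := by
  induction h with
  | lin d =>
    rw [← lint_smul, ← map_smul]
    exact SupRep.lin _
  | sup h1 h2 ih1 ih2 =>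
    rw [smul_sup' hr, smul_sup' hr]
    exact ih1.sup ih2

lemma SupRep.finite {g : K A → ℝ} {v : V} (h : SupRep x g v) :
    ∃ (ι : Type) (_ : Fintype ι) (c : ι → A →₀ ℝ), (∀ t, ∃ i, g t = lint (c i) t) ∧
      ∀ i, Finsupp.linearCombination ℝ x (c i) ≤ v := by
  induction h with
  | lin d => exact ⟨Unit, inferInstance, fun _ => d, fun t => ⟨(), rfl⟩, fun _ => le_refl _⟩
  | @sup g v h w h1 h2 ih1 ih2 =>
    obtain ⟨ι, _, c, hc1, hc2⟩ := ih1
    obtain ⟨κ, _, d, hd1, hd2⟩ := ih2
    refine ⟨ι ⊕ κ, inferInstance, Sum.elim c d, fun t => ?_, fun i => ?_⟩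
    · rcases le_total (g t) (h t) with hle | hle
      · obtain ⟨i, hi⟩ := hd1 t
        refine ⟨Sum.inr i, ?_⟩
        show g t ⊔ h t = lint (d i) t
        rw [sup_eq_right.2 hle, hi]
      · obtain ⟨i, hi⟩ := hc1 t
        refine ⟨Sum.inl i, ?_⟩
        show g t ⊔ h t = lint (c i) t
        rw [sup_eq_left.2 hle, hi]
    · rcases i with i | i
      · exact (hc2 i).trans le_sup_left
      · exact (hd2 i).trans le_sup_right

/-- evaluating at a scaled finitely supported point -/
lemma exists_point (F : Finset A) (t : F → ℝ) : ∃ (s : ℝ) (t' : K A), 0 < s ∧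
    ∀ c : A →₀ ℝ, c.support ⊆ F → lint c t' = s * ∑ a : F, c a * t a := by
  classical
  set S : ℝ := ∑ a : F, |t a| with hS
  have hS0 : 0 ≤ S := Finset.sum_nonneg fun a _ => abs_nonneg _
  have hpos : 0 < (1 + S)⁻¹ := by positivity
  refine ⟨(1 + S)⁻¹, ⟨fun a => if h : a ∈ F then (1 + S)⁻¹ * t ⟨a, h⟩ else 0, fun a => ?_⟩,
    hpos, fun c hc => ?_⟩
  · show |if h : a ∈ F then (1 + S)⁻¹ * t ⟨a, h⟩ else 0| ≤ 1
    by_cases h : a ∈ F
    · rw [dif_pos h, abs_mul, abs_of_pos hpos, inv_mul_le_iff₀ (by positivity), mul_one]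
      have : |t ⟨a, h⟩| ≤ S := Finset.single_le_sum (f := fun a : F => |t a|)
        (fun a _ => abs_nonneg _) (Finset.mem_univ (⟨a, h⟩ : F))
      linarith
    · rw [dif_neg h]; simp
  · unfold lint
    rw [Finsupp.linearCombination_apply, Finsupp.sum_of_support_subset c hc _ (by simp)]
    rw [Finset.mul_sum, ← Finset.sum_coe_sort F]
    apply Finset.sum_congr rfl
    intro a _
    simp only [smul_eq_mul]
    rw [dif_pos a.2]
    ring

lemma transfer_lin {g : K A → ℝ} {w : V} (h : SupRep x g w) (c : A →₀ ℝ)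
    (hc : ∀ t, lint c t ≤ g t) : Finsupp.linearCombination ℝ x c ≤ w := by
  classical
  obtain ⟨ι, _, d, hd1, hd2⟩ := h.finite
  set F : Finset A := c.support ∪ Finset.univ.biUnion (fun i => (d i).support) with hF
  have hcF : c.support ⊆ F := Finset.subset_union_left
  have hdF : ∀ i, (d i).support ⊆ F := fun i =>
    (Finset.subset_biUnion_of_mem (fun i => (d i).support) (Finset.mem_univ i)).trans
      Finset.subset_union_right
  have hdcF : ∀ i, (d i - c).support ⊆ F := fun i =>
    Finsupp.support_sub.trans (Finset.union_subset (hdF i) hcF)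
  obtain ⟨l, hl0, hl1, hl2⟩ := gordan (F := F) (fun i a => (d i - c) a) (fun t => by
    obtain ⟨s, t', hs, ht'⟩ := exists_point F t
    obtain ⟨i, hi⟩ := hd1 t'
    refine ⟨i, ?_⟩
    have h1 := hc t'
    rw [hi] at h1
    have h2 : 0 ≤ lint (d i - c) t' := by
      rw [lint_sub]; simpa using h1
    rw [ht' _ (hdcF i)] at h2
    exact nonneg_of_mul_nonneg_right h2 hs)
  have h3 : ∑ i, l i • (d i - c) = 0 := by
    ext a
    rw [Finsupp.finsetSum_apply]
    by_cases ha : a ∈ F
    · have := hl2 ⟨a, ha⟩
      simpa using this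
    · apply Finset.sum_eq_zero
      intro i _
      have : (d i - c) a = 0 := by
        by_contra hne
        exact ha (hdcF i (Finsupp.mem_support_iff.2 hne))
      rw [Finsupp.smul_apply, this, smul_zero]
  have h4 : c = ∑ i, l i • d i := by
    have h5 : ∑ i, l i • (d i - c) = ∑ i, l i • d i - (∑ i, l i) • c := by
      rw [Finset.sum_smul, ← Finset.sum_sub_distrib]
      simp [smul_sub]
    rw [h5, hl1, one_smul, sub_eq_zero] at h3
    exact h3.symm
  rw [h4, map_sum]
  calc ∑ i, Finsupp.linearCombination ℝ x (l i • d i)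
      = ∑ i, l i • Finsupp.linearCombination ℝ x (d i) := by simp
    _ ≤ ∑ i, l i • w := Finset.sum_le_sum fun i _ =>
        smul_le_smul_of_nonneg_left (hd2 i) (hl0 i)
    _ = w := by rw [← Finset.sum_smul, hl1, one_smul]

/-- inequalities between functions on the cube transfer to `V` -/
lemma transfer {g h : K A → ℝ} {v w : V} (hg : SupRep x g v) (hh : SupRep x h w)
    (hle : ∀ t, g t ≤ h t) : v ≤ w := by
  induction hg with
  | lin c => exact transfer_lin hh c hle
  | @sup g v g' v' h1 h2 ih1 ih2 =>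
    apply sup_le
    · exact ih1 fun t => le_sup_left.trans (hle t)
    · exact ih2 fun t => le_sup_right.trans (hle t)

/-- coordinates -/
def coord (a : A) : K A → ℝ := fun t => t.1 a

lemma SupRep.coord (x : A → V) (a : A) : SupRep x (coord a) (x a) := by
  have h := SupRep.lin (x := x) (Finsupp.single a 1)
  have h1 : lint (Finsupp.single a (1 : ℝ)) = Fbl.coord a := by
    ext t; simp [lint, Fbl.coord]
  rw [h1, Finsupp.linearCombination_single, one_smul] at h
  exact h

lemma SupRep.zero (x : A → V) : SupRep x (0 : K A → ℝ) 0 := by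
  have h := SupRep.lin (x := x) 0
  have h1 : lint (0 : A →₀ ℝ) = (0 : K A → ℝ) := by
    ext t; simp [lint]
  rw [h1, map_zero] at h
  exact h

lemma SupRep.neg_coord (x : A → V) (a : A) : SupRep x (-Fbl.coord a) (-x a) := by
  have h := SupRep.lin (x := x) (Finsupp.single a (-1))
  have h1 : lint (Finsupp.single a (-1 : ℝ)) = -Fbl.coord a := by
    ext t; simp [lint, Fbl.coord]
  rw [h1, Finsupp.linearCombination_single, neg_smul, one_smul] at h
  exact h

lemma SupRep.abs_coord (x : A → V) (a : A) : SupRep x (|Fbl.coord a|) (|x a|) :=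
  (SupRep.coord x a).sup (SupRep.neg_coord x a)

lemma SupRep.sum {ι : Type*} (s : Finset ι) {g : ι → K A → ℝ} {v : ι → V}
    (h : ∀ i ∈ s, SupRep x (g i) (v i)) : SupRep x (∑ i ∈ s, g i) (∑ i ∈ s, v i) := by
  classical
  induction s using Finset.induction_on with
  | empty => simpa using SupRep.zero x
  | insert i s his ih =>
    rw [Finset.sum_insert his, Finset.sum_insert his]
    exact (h i (Finset.mem_insert_self _ _)).add (ih fun k hk => h k (Finset.mem_insert_of_mem hk))

/-- finite dependence -/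
lemma SupRep.dep {g : K A → ℝ} {v : V} (h : SupRep x g v) :
    ∃ F : Finset A, ∀ t t' : K A, (∀ a ∈ F, t.1 a = t'.1 a) → g t = g t' := by
  classical
  induction h with
  | lin c =>
    refine ⟨c.support, fun t t' ht => ?_⟩
    unfold lint
    rw [Finsupp.linearCombination_apply, Finsupp.linearCombination_apply]
    apply Finset.sum_congr rfl
    intro a ha
    show c a • t.1 a = c a • t'.1 a
    rw [ht a ha]
  | sup h1 h2 ih1 ih2 =>
    obtain ⟨F, hF⟩ := ih1
    obtain ⟨F', hF'⟩ := ih2
    refine ⟨F ∪ F', fun t t' ht => ?_⟩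
    rw [Pi.sup_apply, Pi.sup_apply, hF t t' (fun a ha => ht a (Finset.mem_union_left _ ha)),
      hF' t t' (fun a ha => ht a (Finset.mem_union_right _ ha))]

instance (A : Type u) : TopologicalSpace (K A) := instTopologicalSpaceSubtype

lemma continuous_coord (a : A) : Continuous (coord a) :=
  (continuous_apply a).comp continuous_subtype_val

lemma SupRep.continuous {g : K A → ℝ} {v : V} (h : SupRep x g v) : Continuous g := by
  induction h with
  | lin c =>
    have : lint c = fun t : K A => ∑ a ∈ c.support, c a * Fbl.coord a t := by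
      ext t
      unfold lint
      rw [Finsupp.linearCombination_apply]
      rfl
    rw [this]
    exact continuous_finsetSum _ fun a _ => continuous_const.mul (continuous_coord a)
  | sup h1 h2 ih1 ih2 => exact ih1.sup ih2

end VL

end Pool.Agent.Helper68.Fbl
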