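import Pool.Agent.Helper68.FblY
import Pool.Agent.Helper68.FblDefs

set_option autoImplicit false
set_option linter.unusedSectionVars false
open scoped ENNReal NNReal
open Topology Filter
open Pool.Agent.Helper68.Fbl

universe u v

namespace Pool.Agent.Helper68.Projective

/-- an injective lattice homomorphism into the continuous functions on a cube -/
structure Rho (X : Type u) [NormedAddCommGroup X] [NormedSpace ℝ X] [Lattice X] (A : Type u) where
  r : X →ₗ[ℝ] (K A → ℝ)
  sup : ∀ x y, r (x ⊔ y) = r x ⊔ r y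
  inj : ∀ x, r x = 0 → x = 0
  cont : ∀ x, Continuous (r x)
  dep : ∀ x, ∃ B : Set A, B.Countable ∧ ∀ t t' : K A, (∀ a ∈ B, t.1 a = t'.1 a) →
    r x t = r x t'

section

variable {A : Type u} {X : Type v} [NormedAddCommGroup X] [NormedSpace ℝ X] [Lattice X]
  [IsOrderedAddMonoid X] [PosSMulMono ℝ X] [HasSolidNorm X] [CompleteSpace X]

lemma cont_dep_of_mem_LL {x : A → X} {w : HH A × X} (hw : w ∈ LL x) : Continuous w.1.fn ∧
    ∃ B : Set A, B.Countable ∧ ∀ t t' : K A, (∀ a ∈ B, t.1 a = t'.1 a) →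
      w.1.fn t = w.1.fn t' := by
  classical
  obtain ⟨g, v, h, v', h1, h2, h3, h4⟩ := hw
  rw [h3]
  obtain ⟨F1, hF1⟩ := h1.dep
  obtain ⟨F2, hF2⟩ := h2.dep
  refine ⟨h1.continuous.sub h2.continuous, ↑(F1 ∪ F2), Finset.countable_toSet _,
    fun t t' ht => ?_⟩
  rw [Pi.sub_apply, Pi.sub_apply,
    hF1 t t' (fun a ha => ht a (Finset.mem_coe.2 (Finset.mem_union_left _ ha))),
    hF2 t t' (fun a ha => ht a (Finset.mem_coe.2 (Finset.mem_union_right _ ha)))]

lemma cont_dep_of_mem_CL {x : A → X} {w : HH A × X} (hw : w ∈ CL x) : Continuous w.1.fn ∧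
    ∃ B : Set A, B.Countable ∧ ∀ t t' : K A, (∀ a ∈ B, t.1 a = t'.1 a) →
      w.1.fn t = w.1.fn t' := by
  obtain ⟨s, hs1, hs2⟩ := mem_closure_iff_seq_limit.1 hw
  have hs3 : Tendsto (fun n => (s n).1) atTop (𝓝 w.1) := (continuous_fst.tendsto w).comp hs2
  have hs4 : Tendsto (fun n => ‖(s n).1 - w.1‖) atTop (𝓝 0) :=
    tendsto_iff_norm_sub_tendsto_zero.1 hs3
  have hle : ∀ n t, |(s n).1.fn t - w.1.fn t| ≤ ‖(s n).1 - w.1‖ := fun n t =>
    HH.abs_fn_le ((s n).1 - w.1) t
  have hunif : TendstoUniformly (fun n => (s n).1.fn) w.1.fn atTop := by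
    rw [Metric.tendstoUniformly_iff]
    intro ε hε
    filter_upwards [hs4.eventually_lt_const hε] with n hn t
    rw [dist_comm, Real.dist_eq]
    exact (hle n t).trans_lt hn
  have hpt : ∀ t, Tendsto (fun n => (s n).1.fn t) atTop (𝓝 (w.1.fn t)) := fun t =>
    hunif.tendsto_at t
  refine ⟨hunif.continuous (Frequently.of_forall fun n => (cont_dep_of_mem_LL (hs1 n)).1), ?_⟩
  choose B hB1 hB2 using fun n => (cont_dep_of_mem_LL (hs1 n)).2
  refine ⟨⋃ n, B n, Set.countable_iUnion hB1, fun t t' ht => ?_⟩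
  refine tendsto_nhds_unique (hpt t) ?_
  have : (fun n => (s n).1.fn t) = fun n => (s n).1.fn t' := by
    ext n
    exact hB2 n t t' fun a ha => ht a (Set.mem_iUnion.2 ⟨n, ha⟩)
  rw [this]
  exact hpt t'

end

variable {X : Type u} [NormedAddCommGroup X] [NormedSpace ℝ X] [Lattice X]
  [IsOrderedAddMonoid X] [PosSMulMono ℝ X] [HasSolidNorm X] [CompleteSpace X]

/-- the unit ball as index set -/
def BA (X : Type u) [NormedAddCommGroup X] : Type u := {a : X // ‖a‖ ≤ 1}

/-- the generators -/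
def gen (a : BA X) : X := a.1

lemma dom_coord {A : Type u} [DecidableEq A] (a : A) :
    Dom (coord a) (fun b => if b = a then 1 else 0) := by
  intro t
  have h1 : ∑' b, (if b = a then (1 : ℝ≥0∞) else 0) * ‖t.1 b‖ₑ = ‖t.1 a‖ₑ := by
    rw [tsum_eq_single a (fun b hb => by simp [hb])]
    simp
  rw [h1]
  exact le_refl _

lemma EN_coord_le {A : Type u} (a : A) : EN (coord a) ≤ 1 := by
  classical
  refine (EN_le (dom_coord a)).trans ?_
  rw [tsum_eq_single a (fun b hb => if_neg hb), if_pos rfl]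

/-- the coordinate functions as elements of `HH` -/
noncomputable def co (a : BA X) : HH (BA X) :=
  ⟨coord a, (EN_coord_le a).trans_lt ENNReal.one_lt_top⟩

lemma norm_co (a : BA X) : ‖co a‖ ≤ 1 := by
  rw [HH.norm_def]
  have h2 := ENNReal.toReal_mono ENNReal.one_ne_top (EN_coord_le a)
  rw [ENNReal.toReal_one] at h2
  exact h2

lemma co_mem (a : BA X) : (co a, gen a) ∈ CL (gen (X := X)) := by
  apply Submodule.le_topologicalClosure
  refine ⟨coord a, gen a, 0, 0, SupRep.coord _ a, SupRep.zero _, ?_, ?_⟩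
  · rw [sub_zero]; rfl
  · rw [sub_zero]

/-- the quotient map -/
noncomputable def QQ (X : Type u) [NormedAddCommGroup X] [NormedSpace ℝ X] [Lattice X]
    [IsOrderedAddMonoid X] [PosSMulMono ℝ X] [HasSolidNorm X] [CompleteSpace X] :
    YY (gen (X := X)) →L[ℝ] X :=
  (ContinuousLinearMap.snd ℝ (HH (BA X)) X).comp YY.incl

lemma QQ_apply (y : YY (gen (X := X))) : QQ X y = (YY.incl y).2 := rfl

lemma QQ_quot : IsLatticeQuotient (QQ X) := by
  have hmin : ∀ z : X, ∃ y, QQ X y = z ∧ ‖y‖ = ‖z‖ := by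
    intro z
    by_cases hz : z = 0
    · refine ⟨0, ?_, ?_⟩
      · rw [map_zero, hz]
      · rw [hz, norm_zero, norm_zero]
    · have hz0 : 0 < ‖z‖ := norm_pos_iff.2 hz
      let a : BA X := ⟨‖z‖⁻¹ • z, by
        rw [norm_smul, norm_inv, norm_norm, inv_mul_cancel₀ hz0.ne']⟩
      let y0 : YY (gen (X := X)) := ⟨(co a, gen a), co_mem a⟩
      have hy0 : YY.incl y0 = (co a, gen a) := rfl
      have h1 : QQ X (‖z‖ • y0) = z := by
        rw [map_smul, QQ_apply, hy0]
        show ‖z‖ • (‖z‖⁻¹ • z) = z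
        rw [smul_smul, mul_inv_cancel₀ hz0.ne', one_smul]
      refine ⟨‖z‖ • y0, h1, le_antisymm ?_ ?_⟩
      · rw [norm_smul, norm_norm]
        have h2 : ‖y0‖ ≤ 1 := by
          rw [← YY.norm_incl, hy0, Prod.norm_def]
          exact max_le (norm_co a) a.2
        exact mul_le_of_le_one_right hz0.le h2
      · calc ‖z‖ = ‖(YY.incl (‖z‖ • y0)).2‖ := by rw [← QQ_apply, h1]
          _ ≤ ‖YY.incl (‖z‖ • y0)‖ := norm_snd_le _
          _ = ‖‖z‖ • y0‖ := YY.norm_incl _
  refine ⟨fun a b => rfl, fun z => ?_, fun z => ⟨?_, ?_⟩⟩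
  · obtain ⟨y, hy, _⟩ := hmin z
    exact ⟨y, hy⟩
  · rintro r ⟨y, hy, rfl⟩
    calc ‖z‖ = ‖(YY.incl y).2‖ := by rw [← hy]; rfl
      _ ≤ ‖YY.incl y‖ := norm_snd_le _
      _ = ‖y‖ := YY.norm_incl _
  · intro r hr
    obtain ⟨y, hy, hn⟩ := hmin z
    rw [← hn]
    exact hr ⟨y, hy, rfl⟩

/-- projective Banach lattices are represented by continuous functions on a cube -/
theorem exists_rho (hX : IsProjective X) : Nonempty (Rho X (BA X)) := by
  obtain ⟨S, hS1, hS2, _⟩ := hX (YY (gen (X := X))) X (QQ X) QQ_quot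
    (ContinuousLinearMap.id ℝ X) (fun _ _ => rfl) 1 one_pos
  refine ⟨⟨{ toFun := fun x => (YY.incl (S x)).1.fn
             map_add' := fun x y => by
              rw [map_add, map_add]; rfl
             map_smul' := fun c x => by
              rw [map_smul, map_smul]; rfl }, ?_, ?_, ?_, ?_⟩⟩
  · intro x y
    show (YY.incl (S (x ⊔ y))).1.fn = (YY.incl (S x)).1.fn ⊔ (YY.incl (S y)).1.fn
    rw [hS1, YY.incl_sup]
    rfl
  · intro x hx
    have h0 : (YY.incl (S x)).1.fn = 0 := hx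
    have h1 : (YY.incl (S x)).1 = 0 := HH.ext fun t => congrFun h0 t
    have h2 := norm_le_of_mem_CL (x := gen (X := X)) (fun a => a.2) (YY.incl_mem (S x))
    rw [h1, norm_zero] at h2
    have h3 : (YY.incl (S x)).2 = 0 := norm_le_zero_iff.1 h2
    have h4 := hS2 x
    rw [QQ_apply, h3] at h4
    exact h4.symm
  · intro x
    exact (cont_dep_of_mem_CL (YY.incl_mem (S x))).1
  · intro x
    exact (cont_dep_of_mem_CL (YY.incl_mem (S x))).2

end Pool.Agent.Helper68.Projective
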