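import Pool.Agent.Helper68.FblH

set_option autoImplicit false
set_option linter.unusedSectionVars false
open scoped ENNReal NNReal
open Topology Filter

universe u v

namespace Pool.Agent.Helper68.Fbl

variable {A : Type u} {X : Type v} [NormedAddCommGroup X] [NormedSpace ℝ X] [Lattice X]
  [IsOrderedAddMonoid X] [PosSMulMono ℝ X] [HasSolidNorm X] [CompleteSpace X]

/-- the sublattice generated by the pairs `(coord a, x a)` -/
def LL (x : A → X) : Submodule ℝ (HH A × X) where
  carrier := {w | ∃ (g : K A → ℝ) (v : X) (h : K A → ℝ) (v' : X), SupRep x g v ∧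
    SupRep x h v' ∧ w.1.fn = g - h ∧ w.2 = v - v'}
  add_mem' := by
    rintro w w' ⟨g, v, h, v', h1, h2, h3, h4⟩ ⟨k, u, l, u', h5, h6, h7, h8⟩
    refine ⟨g + k, v + u, h + l, v' + u', h1.add h5, h2.add h6, ?_, ?_⟩
    · rw [Prod.fst_add, HH.fn_add, h3, h7]; abel
    · rw [Prod.snd_add, h4, h8]; abel
  zero_mem' := ⟨0, 0, 0, 0, SupRep.zero x, SupRep.zero x, by simp, by simp⟩
  smul_mem' := by
    rintro r w ⟨g, v, h, v', h1, h2, h3, h4⟩
    rcases le_total 0 r with hr | hr
    · refine ⟨r • g, r • v, r • h, r • v', h1.smul hr, h2.smul hr, ?_, ?_⟩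
      · rw [Prod.smul_fst, HH.fn_smul, h3, smul_sub]
      · rw [Prod.smul_snd, h4, smul_sub]
    · have hr' : 0 ≤ -r := neg_nonneg.2 hr
      refine ⟨(-r) • h, (-r) • v', (-r) • g, (-r) • v, h2.smul hr', h1.smul hr', ?_, ?_⟩
      · rw [Prod.smul_fst, HH.fn_smul, h3, smul_sub, neg_smul, neg_smul]; abel
      · rw [Prod.smul_snd, h4, smul_sub, neg_smul, neg_smul]; abel

lemma LL_sup {x : A → X} {w w' : HH A × X} (hw : w ∈ LL x) (hw' : w' ∈ LL x) :
    w ⊔ w' ∈ LL x := by
  obtain ⟨g, v, h, v', h1, h2, h3, h4⟩ := hw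
  obtain ⟨k, u, l, u', h5, h6, h7, h8⟩ := hw'
  refine ⟨(g + l) ⊔ (k + h), (v + u') ⊔ (u + v'), h + l, v' + u', (h1.add h6).sup (h5.add h2),
    h2.add h6, ?_, ?_⟩
  · rw [Prod.fst_sup, HH.fn_sup, h3, h7]
    have e1 : g - h = (g + l) - (h + l) := by abel
    have e2 : k - l = (k + h) - (h + l) := by abel
    rw [e1, e2, sub_eq_add_neg, sub_eq_add_neg (k + h), ← sup_add, ← sub_eq_add_neg]
  · rw [Prod.snd_sup, h4, h8]
    have e1 : v - v' = (v + u') - (v' + u') := by abel
    have e2 : u - u' = (u + v') - (v' + u') := by abel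
    rw [e1, e2, sub_eq_add_neg, sub_eq_add_neg (u + v'), ← sup_add, ← sub_eq_add_neg]

open Classical in
/-- restriction of a point to a finite set of coordinates -/
noncomputable def restr (F : Finset A) (t : K A) : K A :=
  ⟨fun a => if a ∈ F then t.1 a else 0, fun a => by
    show |if a ∈ F then t.1 a else 0| ≤ 1
    split_ifs
    · exact t.2 a
    · simp⟩

lemma restr_mem {F : Finset A} {t : K A} {a : A} (h : a ∈ F) : (restr F t).1 a = t.1 a :=
  if_pos h

lemma restr_not_mem {F : Finset A} {t : K A} {a : A} (h : a ∉ F) : (restr F t).1 a = 0 :=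
  if_neg h

lemma norm_le_of_mem_LL {x : A → X} (hx : ∀ a, ‖x a‖ ≤ 1) {w : HH A × X} (hw : w ∈ LL x) :
    ‖w.2‖ ≤ ‖w.1‖ := by
  classical
  obtain ⟨g, v, h, v', h1, h2, h3, h4⟩ := hw
  have key : ‖w.2‖ₑ ≤ EN w.1.fn := by
    refine le_iInf fun c => ?_
    by_cases htop : ∑' a, c.1 a = ⊤
    · rw [htop]; exact le_top
    have hca : ∀ a, c.1 a ≠ ⊤ := fun a => ENNReal.ne_top_of_tsum_ne_top htop a
    obtain ⟨F1, hF1⟩ := h1.dep
    obtain ⟨F2, hF2⟩ := h2.dep
    set F : Finset A := F1 ∪ F2 with hF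
    have hdep : ∀ t, w.1.fn t = w.1.fn (restr F t) := by
      intro t
      rw [h3, Pi.sub_apply, Pi.sub_apply,
        hF1 t (restr F t) (fun a ha => (restr_mem (Finset.mem_union_left _ ha)).symm),
        hF2 t (restr F t) (fun a ha => (restr_mem (Finset.mem_union_right _ ha)).symm)]
    set r : A → ℝ := fun a => (c.1 a).toReal with hr
    have hr0 : ∀ a, 0 ≤ r a := fun a => ENNReal.toReal_nonneg
    have hbd : ∀ t, |w.1.fn t| ≤ ∑ a ∈ F, r a * |t.1 a| := by
      intro t
      have h5 := c.2 (restr F t)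
      have h6 : ∑' a, c.1 a * ‖(restr F t).1 a‖ₑ = ∑ a ∈ F, c.1 a * ‖t.1 a‖ₑ := by
        rw [tsum_eq_sum (s := F) (fun a ha => by rw [restr_not_mem ha]; simp)]
        exact Finset.sum_congr rfl fun a ha => by rw [restr_mem ha]
      rw [h6, ← hdep t] at h5
      have h7 : ∑ a ∈ F, c.1 a * ‖t.1 a‖ₑ ≠ ⊤ :=
        (ENNReal.sum_lt_top.2 fun a _ => ENNReal.mul_lt_top (hca a).lt_top (by simp)).ne
      have h8 := ENNReal.toReal_mono h7 h5
      rw [toReal_enorm, ENNReal.toReal_sum (fun a _ =>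
        (ENNReal.mul_lt_top (hca a).lt_top (by simp)).ne), Real.norm_eq_abs] at h8
      refine h8.trans (le_of_eq ?_)
      apply Finset.sum_congr rfl
      intro a _
      rw [ENNReal.toReal_mul, toReal_enorm, Real.norm_eq_abs]
    have hS : SupRep x (∑ a ∈ F, r a • |coord a|) (∑ a ∈ F, r a • |x a|) :=
      SupRep.sum F fun a _ => (SupRep.abs_coord x a).smul (hr0 a)
    have hSt : ∀ t, (∑ a ∈ F, r a • |coord a|) t = ∑ a ∈ F, r a * |t.1 a| := by
      intro t
      rw [Finset.sum_apply]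
      rfl
    have h9 : v ≤ v' + ∑ a ∈ F, r a • |x a| := by
      apply transfer h1 (h2.add hS)
      intro t
      rw [Pi.add_apply, hSt]
      have h10 := (abs_le.1 (hbd t)).2
      rw [h3, Pi.sub_apply] at h10
      linarith
    have h11 : v' ≤ v + ∑ a ∈ F, r a • |x a| := by
      apply transfer h2 (h1.add hS)
      intro t
      rw [Pi.add_apply, hSt]
      have h10 := (abs_le.1 (hbd t)).1
      rw [h3, Pi.sub_apply] at h10
      linarith
    have h12 : |w.2| ≤ ∑ a ∈ F, r a • |x a| := by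
      rw [h4]
      apply sup_le
      · rw [sub_le_iff_le_add']; exact h9
      · rw [neg_sub, sub_le_iff_le_add']; exact h11
    have h13 : ‖w.2‖ ≤ ∑ a ∈ F, r a := by
      calc ‖w.2‖ ≤ ‖∑ a ∈ F, r a • |x a|‖ := norm_le_norm_of_abs_le_abs (h12.trans (le_abs_self _))
        _ ≤ ∑ a ∈ F, ‖r a • |x a|‖ := norm_sum_le _ _
        _ ≤ ∑ a ∈ F, r a := by
            apply Finset.sum_le_sum
            intro a _
            rw [norm_smul, Real.norm_of_nonneg (hr0 a), norm_abs_eq_norm]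
            exact mul_le_of_le_one_right (hr0 a) (hx a)
    calc ‖w.2‖ₑ = ENNReal.ofReal ‖w.2‖ := (ofReal_norm _).symm
      _ ≤ ENNReal.ofReal (∑ a ∈ F, r a) := ENNReal.ofReal_le_ofReal h13
      _ = ∑ a ∈ F, ENNReal.ofReal (r a) := ENNReal.ofReal_sum_of_nonneg fun a _ => hr0 a
      _ = ∑ a ∈ F, c.1 a := Finset.sum_congr rfl fun a _ => ENNReal.ofReal_toReal (hca a)
      _ ≤ ∑' a, c.1 a := ENNReal.sum_le_tsum F
  have := ENNReal.toReal_mono (HH.EN_lt w.1).ne key
  rw [toReal_enorm] at this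
  exact this

/-- the closure of the generated sublattice -/
noncomputable def CL (x : A → X) : Submodule ℝ (HH A × X) := (LL x).topologicalClosure

lemma continuous_sup_prod : Continuous (Function.uncurry fun p q : HH A × X => p ⊔ q) := by
  have h1 : Continuous (fun z : (HH A × X) × (HH A × X) => z.1.1 ⊔ z.2.1) :=
    (continuous_fst.comp continuous_fst).sup (continuous_fst.comp continuous_snd)
  have h2 : Continuous (fun z : (HH A × X) × (HH A × X) => z.1.2 ⊔ z.2.2) :=
    (continuous_snd.comp continuous_fst).sup (continuous_snd.comp continuous_snd)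
  exact h1.prodMk h2

lemma CL_sup {x : A → X} {w w' : HH A × X} (hw : w ∈ CL x) (hw' : w' ∈ CL x) :
    w ⊔ w' ∈ CL x :=
  map_mem_closure₂ continuous_sup_prod hw hw' fun _ ha _ hb => LL_sup ha hb

lemma CL_inf {x : A → X} {w w' : HH A × X} (hw : w ∈ CL x) (hw' : w' ∈ CL x) :
    w ⊓ w' ∈ CL x := by
  have h : w ⊓ w' = -(-w ⊔ -w') := by
    apply Prod.ext
    · rw [Prod.fst_inf, Prod.fst_neg, Prod.fst_sup, Prod.fst_neg, Prod.fst_neg, neg_sup, neg_neg,
        neg_neg]
    · rw [Prod.snd_inf, Prod.snd_neg, Prod.snd_sup, Prod.snd_neg, Prod.snd_neg, neg_sup, neg_neg,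
        neg_neg]
  rw [h]
  exact neg_mem (CL_sup (neg_mem hw) (neg_mem hw'))

lemma norm_le_of_mem_CL {x : A → X} (hx : ∀ a, ‖x a‖ ≤ 1) {w : HH A × X} (hw : w ∈ CL x) :
    ‖w.2‖ ≤ ‖w.1‖ := by
  have hcl : IsClosed {w : HH A × X | ‖w.2‖ ≤ ‖w.1‖} :=
    isClosed_le continuous_snd.norm continuous_fst.norm
  exact closure_minimal (fun w hw => norm_le_of_mem_LL hx hw) hcl hw

/-- the Banach lattice `Y` -/
def YY (x : A → X) : Type (max u v) := ↥(CL x)

namespace YY

variable {x : A → X}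

noncomputable instance : NormedAddCommGroup (YY x) :=
  inferInstanceAs (NormedAddCommGroup ↥(CL x))
noncomputable instance : NormedSpace ℝ (YY x) := inferInstanceAs (NormedSpace ℝ ↥(CL x))
instance : CompleteSpace (YY x) :=
  (Submodule.isClosed_topologicalClosure (LL x)).completeSpace_coe

/-- the inclusion -/
noncomputable def incl : YY x →L[ℝ] HH A × X := (CL x).subtypeL

lemma incl_mem (y : YY x) : incl y ∈ CL x := y.2

lemma incl_inj {y y' : YY x} (h : incl y = incl y') : y = y' := Subtype.ext h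

lemma norm_incl (y : YY x) : ‖incl y‖ = ‖y‖ := rfl

noncomputable instance : PartialOrder (YY x) := PartialOrder.lift incl fun _ _ h => incl_inj h

lemma le_def {y y' : YY x} : y ≤ y' ↔ incl y ≤ incl y' := Iff.rfl

noncomputable instance : Lattice (YY x) where
  sup y y' := ⟨incl y ⊔ incl y', CL_sup y.2 y'.2⟩
  inf y y' := ⟨incl y ⊓ incl y', CL_inf y.2 y'.2⟩
  le_sup_left y y' := (le_sup_left : incl y ≤ incl y ⊔ incl y')
  le_sup_right y y' := (le_sup_right : incl y' ≤ incl y ⊔ incl y')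
  sup_le y y' y'' h h' := (sup_le h h' : incl y ⊔ incl y' ≤ incl y'')
  inf_le_left y y' := (inf_le_left : incl y ⊓ incl y' ≤ incl y)
  inf_le_right y y' := (inf_le_right : incl y ⊓ incl y' ≤ incl y')
  le_inf y y' y'' h h' := (le_inf h h' : incl y ≤ incl y' ⊓ incl y'')

lemma incl_sup (y y' : YY x) : incl (y ⊔ y') = incl y ⊔ incl y' := rfl

lemma incl_abs (y : YY x) : incl |y| = incl y ⊔ -incl y := by
  show incl (y ⊔ -y) = _
  rw [incl_sup, map_neg]

instance : IsOrderedAddMonoid (YY x) where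
  add_le_add_left y y' h y'' := by
    have h1 : incl y ≤ incl y' := h
    have h2 : incl (y + y'') ≤ incl (y' + y'') := by
      rw [map_add, map_add]
      exact ⟨add_le_add_left h1.1 _, add_le_add_left h1.2 _⟩
    exact h2

instance : PosSMulMono ℝ (YY x) where
  smul_le_smul_of_nonneg_left r hr y y' h := by
    have h1 : incl y ≤ incl y' := h
    have h2 : incl (r • y) ≤ incl (r • y') := by
      rw [map_smul, map_smul]
      exact ⟨smul_le_smul_of_nonneg_left h1.1 hr, smul_le_smul_of_nonneg_left h1.2 hr⟩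
    exact h2

instance : HasSolidNorm (YY x) where
  solid y y' h := by
    have h1 : incl |y| ≤ incl |y'| := h
    rw [incl_abs, incl_abs] at h1
    rw [← norm_incl y, ← norm_incl y', Prod.norm_def, Prod.norm_def]
    apply max_le_max
    · exact HasSolidNorm.solid h1.1
    · exact HasSolidNorm.solid h1.2

end YY

end Pool.Agent.Helper68.Fbl
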