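import Pool.Agent.Helper68.IcBidual

set_option autoImplicit false
set_option linter.unusedSectionVars false
open Topology Filter
open scoped ENNReal

namespace Pool.Agent.Helper68.Ic

section

variable {X : Type*} [NormedAddCommGroup X] [NormedSpace ℝ X]

/-- criterion -/
lemma isAUS_of (h : ∀ x : X, ‖x‖ = 1 → ∀ t : ℝ, 0 < t → ∃ Y : Submodule ℝ X,
    IsClosed (Y : Set X) ∧ FiniteDimensional ℝ (X ⧸ Y) ∧
      ∀ y ∈ Y, ‖y‖ ≤ t → ‖x + y‖ - 1 ≤ t ^ 2) : IsAUS X 2 := by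
  refine ⟨1, one_pos, fun t h0 _ => ?_⟩
  unfold rhoBar
  apply iSup_le
  rintro ⟨x, hx⟩
  obtain ⟨Y, hY1, hY2, hY3⟩ := h x hx t h0
  refine (iInf_le _ ⟨Y, hY1, hY2⟩).trans ?_
  apply iSup_le
  rintro ⟨y, hy1, hy2⟩
  apply EReal.coe_le_coe
  rw [one_mul, Real.rpow_two]
  exact hY3 y hy1 hy2

lemma finite_quot {V : Type*} [AddCommGroup V] [Module ℝ V] [FiniteDimensional ℝ V]
    (f : X →ₗ[ℝ] V) : FiniteDimensional ℝ (X ⧸ LinearMap.ker f) :=
  Module.Finite.equiv f.quotKerEquivRange.symm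

end

lemma sqrt_one_add_sq {t : ℝ} (ht : 0 < t) : √(1 + t ^ 2) ≤ 1 + t ^ 2 / 2 := by
  apply Real.sqrt_le_iff.2
  constructor
  · positivity
  · nlinarith [sq_nonneg (t ^ 2)]

theorem isAUS_H : IsAUS H 2 := by
  apply isAUS_of
  intro x hx t ht
  refine ⟨LinearMap.ker (innerSL ℝ x).toLinearMap, (innerSL ℝ x).isClosed_ker,
    finite_quot _, fun y hy hyt => ?_⟩
  have h1 : inner ℝ x y = 0 := hy
  have h2 : ‖x + y‖ ^ 2 ≤ 1 + t ^ 2 := by
    rw [norm_add_sq_real, h1, hx]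
    have := pow_le_pow_left₀ (norm_nonneg _) hyt 2
    linarith
  have h3 : ‖x + y‖ ≤ √(1 + t ^ 2) := Real.le_sqrt_of_sq_le h2
  have h4 := sqrt_one_add_sq ht
  nlinarith [sq_nonneg t]

/-- the range of the stopping operator -/
noncomputable def Rn (n : ℕ) : Submodule ℝ E := LinearMap.range (E.Tn n).toLinearMap

lemma Rn_p {n : ℕ} {y : E} (hy : y ∈ Rn n) (t : ℕ) : y.p t = y.p (min t n) := by
  obtain ⟨x, rfl⟩ := hy
  show (E.Tn n x).p t = (E.Tn n x).p (min t n)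
  rw [E.Tn_p, E.Tn_p]
  congr 1
  omega

instance (n : ℕ) : FiniteDimensional ℝ (Rn n) := by
  let L : Rn n →ₗ[ℝ] (∀ i : Fin (n + 1), VV (i : ℕ)) :=
    { toFun := fun y i => ⟨(y : E).p i, (y : E).p_mem i⟩
      map_add' := fun v w => by funext i; rfl
      map_smul' := fun c v => by funext i; rfl }
  apply FiniteDimensional.of_injective L
  intro v w h
  apply Subtype.ext
  apply E.ext
  intro t
  rw [Rn_p v.2, Rn_p w.2]
  have h1 := congrFun h ⟨min t n, by omega⟩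
  exact congrArg (Subtype.val) h1

/-- restriction to the range of the stopping operator -/
noncomputable def Gn (n : ℕ) : XX →ₗ[ℝ] StrongDual ℝ (Rn n) where
  toFun ψ := (inX ψ).comp (Rn n).subtypeL
  map_add' a b := by
    rw [map_add]
    rfl
  map_smul' c a := by
    rw [map_smul]
    rfl

lemma mem_ker_Gn {n : ℕ} {ψ : XX} : ψ ∈ LinearMap.ker (Gn n) ↔ ∀ x, inX ψ (E.Tn n x) = 0 := by
  constructor
  · intro h x
    have h1 : Gn n ψ = 0 := h
    have h2 : Gn n ψ ⟨E.Tn n x, ⟨x, rfl⟩⟩ = 0 := by rw [h1]; rfl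
    exact h2
  · intro h
    show Gn n ψ = 0
    ext y
    obtain ⟨y, x, rfl⟩ := y
    exact h x

lemma isClosed_ker_Gn (n : ℕ) : IsClosed (LinearMap.ker (Gn n) : Set XX) := by
  have h : (LinearMap.ker (Gn n) : Set XX) = ⋂ x : E, {ψ : XX | inX ψ (E.Tn n x) = 0} := by
    ext ψ
    rw [SetLike.mem_coe, mem_ker_Gn, Set.mem_iInter]
    rfl
  rw [h]
  apply isClosed_iInter
  intro x
  have hc : Continuous fun ψ : XX => inX ψ (E.Tn n x) :=
    (ContinuousLinearMap.apply ℝ ℝ (E.Tn n x)).continuous.comp inX.continuous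
  exact isClosed_eq hc continuous_const

theorem isAUS_XX : IsAUS XX 2 := by
  apply isAUS_of
  intro φ hφ t ht
  obtain ⟨n, hn⟩ := FF_comp_Tn (inX_mem φ) (ε := t ^ 2 / 2) (by positivity)
  refine ⟨LinearMap.ker (Gn n), isClosed_ker_Gn n, finite_quot _, fun ψ hψ hψt => ?_⟩
  rw [mem_ker_Gn] at hψ
  have hφ' : ‖inX φ‖ = 1 := by rw [norm_inX]; exact hφ
  have hψ' : ‖inX ψ‖ ≤ t := by rw [norm_inX]; exact hψt
  have key : ‖inX (φ + ψ)‖ ≤ 1 + t ^ 2 := by
    refine ContinuousLinearMap.opNorm_le_bound _ (by positivity) fun x => ?_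
    have h1 : inX (φ + ψ) x = inX φ (E.Tn n x) + inX ψ (x - E.Tn n x) +
        inX φ (x - E.Tn n x) := by
      rw [map_add, add_apply, map_sub (inX ψ), map_sub (inX φ), hψ x]
      ring
    have h2 : |inX φ (E.Tn n x)| ≤ ‖E.Tn n x‖ := by
      have := (inX φ).le_opNorm (E.Tn n x)
      rwa [hφ', one_mul] at this
    have h3 : |inX ψ (x - E.Tn n x)| ≤ t * ‖x - E.Tn n x‖ :=
      ((inX ψ).le_opNorm _).trans (mul_le_mul_of_nonneg_right hψ' (norm_nonneg _))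
    have h4 := hn n (le_refl n) x
    have h5 := E.norm_sq_Tn_add n x
    have h6 : ‖E.Tn n x‖ + t * ‖x - E.Tn n x‖ ≤ √(1 + t ^ 2) * ‖x‖ := by
      rw [← pow_le_pow_iff_left₀ (by positivity) (by positivity) two_ne_zero, mul_pow,
        Real.sq_sqrt (by positivity)]
      nlinarith [sq_nonneg (t * ‖E.Tn n x‖ - ‖x - E.Tn n x‖), sq_nonneg t]
    have h7 := mul_le_mul_of_nonneg_right (sqrt_one_add_sq ht) (norm_nonneg x)
    rw [h1, Real.norm_eq_abs]
    have h8 := abs_add_three (inX φ (E.Tn n x)) (inX ψ (x - E.Tn n x)) (inX φ (x - E.Tn n x))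
    nlinarith
  rw [norm_inX] at key
  linarith

theorem quotient_AUSable : IsAUSable (BidualQuotient XX) 2 :=
  ⟨H, inferInstance, inferInstance, ⟨WW.symm⟩, isAUS_H⟩

end Pool.Agent.Helper68.Ic
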