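import Mathlib

set_option autoImplicit false
open scoped ENNReal

namespace Pool.Agent.Helper68.Ic

section Defs

universe u

variable (X : Type u) [NormedAddCommGroup X] [NormedSpace ℝ X]

/-- the modulus of asymptotic uniform smoothness: the supremum over the unit vectors `x` of the
infimum over the closed subspaces `Y` of finite codimension of the supremum of `‖x + y‖ - 1`
over the `y` in `Y` with `‖y‖ ≤ t` -/
noncomputable def rhoBar (t : ℝ) : EReal :=
  ⨆ x : {x : X // ‖x‖ = 1},
    ⨅ Y : {Y : Submodule ℝ X // IsClosed (Y : Set X) ∧ FiniteDimensional ℝ (X ⧸ Y)},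
      ⨆ y : {y : X // y ∈ Y.1 ∧ ‖y‖ ≤ t}, ((‖x.1 + y.1‖ - 1 : ℝ) : EReal)

/-- `X` is `p`-AUS -/
def IsAUS (p : ℝ) : Prop :=
  ∃ c : ℝ, 0 < c ∧ ∀ t : ℝ, 0 < t → t ≤ 1 → rhoBar X t ≤ ((c * t ^ p : ℝ) : EReal)

/-- `X` is `p`-AUSable: it is isomorphic to a `p`-AUS space (so it has an equivalent
`p`-AUS norm) -/
def IsAUSable (p : ℝ) : Prop :=
  ∃ (Y : Type u) (_ : NormedAddCommGroup Y) (_ : NormedSpace ℝ Y),
    Nonempty (X ≃L[ℝ] Y) ∧ IsAUS Y p

/-- reflexivity -/
def IsReflexive : Prop := Function.Surjective (NormedSpace.inclusionInDoubleDual ℝ X)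

/-- the bidual -/
def Bidual : Type _ := StrongDual ℝ (StrongDual ℝ X)

noncomputable instance : NormedAddCommGroup (Bidual X) :=
  inferInstanceAs (NormedAddCommGroup (StrongDual ℝ (StrongDual ℝ X)))
noncomputable instance : NormedSpace ℝ (Bidual X) :=
  inferInstanceAs (NormedSpace ℝ (StrongDual ℝ (StrongDual ℝ X)))
instance : CompleteSpace (Bidual X) :=
  inferInstanceAs (CompleteSpace (StrongDual ℝ (StrongDual ℝ X)))

/-- the canonical embedding of `X` in its bidual -/
noncomputable def toBidual : X →ₗᵢ[ℝ] Bidual X := NormedSpace.inclusionInDoubleDualLi ℝ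

/-- the canonical image of `X` in its bidual -/
noncomputable def canonicalImage : Submodule ℝ (Bidual X) :=
  LinearMap.range (toBidual X).toLinearMap

instance canonicalImage_isClosed [CompleteSpace X] :
    IsClosed (canonicalImage X : Set (Bidual X)) := by
  have h : (canonicalImage X : Set (Bidual X)) = Set.range (toBidual X) := by
    unfold canonicalImage
    rw [LinearMap.coe_range]
    rfl
  rw [h]
  exact (toBidual X).isometry.isClosedEmbedding.isClosed_range

/-- the quotient `X** / X` with the quotient norm -/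
abbrev BidualQuotient : Type _ := Bidual X ⧸ canonicalImage X

/-- The `p`-interlaced concentration inequality. The `k`-subsets of `ℕ` are the strictly
increasing maps `Fin k ↪o ℕ`; `K` is any Lipschitz constant of `f` for the Hamming metric. -/
def InterlacedConcentration (p : ℝ) : Prop :=
  ∃ C : ℝ, 0 < C ∧ ∀ (k : ℕ) (f : (Fin k ↪o ℕ) → X) (K : ℝ), 0 ≤ K →
    (∀ n m : Fin k ↪o ℕ, ‖f n - f m‖ ≤ K * (hammingDist (⇑n) (⇑m) : ℝ)) →
    ∀ ε : ℝ, 0 < ε → ∃ M : Set ℕ, M.Infinite ∧
      ∀ n m : Fin k ↪o ℕ, (∀ i, n i ∈ M) → (∀ i, m i ∈ M) → (∀ i, n i < m i) →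
        (∀ i j, i < j → m i < n j) → ‖f n - f m‖ ≤ C * K * (k : ℝ) ^ (1 / p) + ε

end Defs

end Pool.Agent.Helper68.Ic
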