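import Pool.Agent.Helper68.IcDecomp
import Pool.Agent.Helper68.IcDefs

set_option autoImplicit false
set_option linter.unusedSectionVars false
open Topology Filter
open scoped ENNReal

namespace Pool.Agent.Helper68.Ic

/-- `X** = E*` -/
noncomputable def Jd : Bidual XX ≃L[ℝ] StrongDual ℝ E :=
  show (StrongDual ℝ (StrongDual ℝ XX)) ≃L[ℝ] StrongDual ℝ E from
    ContinuousLinearEquiv.arrowCongr Re.symm (ContinuousLinearEquiv.refl ℝ ℝ)

lemma Jd_apply (Φ : StrongDual ℝ (StrongDual ℝ XX)) (x : E) :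
    Jd (show Bidual XX from Φ) x = Φ (Re x) := rfl

lemma Jd_toBidual (φ : XX) : Jd (toBidual XX φ) = inX φ := by
  ext x
  rfl

lemma mem_canonicalImage {Φ : Bidual XX} : Φ ∈ canonicalImage XX ↔ Jd Φ ∈ FF := by
  constructor
  · rintro ⟨φ, rfl⟩
    show Jd (toBidual XX φ) ∈ FF
    rw [Jd_toBidual]
    exact inX_mem φ
  · intro h
    refine ⟨mkX (Jd Φ) h, ?_⟩
    apply Jd.injective
    exact Jd_toBidual _

/-- the functionals at infinity -/
noncomputable def LL : H →L[ℝ] StrongDual ℝ E :=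
  LinearMap.mkContinuous
    { toFun := fun z => (innerSL ℝ z).comp E.lim
      map_add' := fun z w => by
        rw [map_add]
        rfl
      map_smul' := fun c z => by
        rw [map_smul]
        rfl } 1 fun z => by
    rw [one_mul]
    refine ContinuousLinearMap.opNorm_le_bound _ (norm_nonneg _) fun x => ?_
    have h1 : |inner ℝ z (E.lim x)| ≤ ‖z‖ * ‖E.lim x‖ := abs_real_inner_le_norm _ _
    have h2 : ‖E.lim x‖ ≤ ‖x‖ :=
      le_of_tendsto (E.tendsto_lim x).norm (Eventually.of_forall fun t => E.norm_p_le x t)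
    exact h1.trans (mul_le_mul_of_nonneg_left h2 (norm_nonneg _))

lemma LL_apply (z : H) : LL z = (innerSL ℝ z).comp E.lim := rfl

/-- the projection of the bidual -/
noncomputable def PP : Bidual XX →L[ℝ] Bidual XX :=
  ContinuousLinearMap.id ℝ _ -
    (Jd.symm : StrongDual ℝ E →L[ℝ] Bidual XX).comp
      (LL.comp (ZZ.comp (Jd : Bidual XX →L[ℝ] StrongDual ℝ E)))

lemma PP_apply (Φ : Bidual XX) : PP Φ = Φ - Jd.symm (LL (ZZ (Jd Φ))) := rfl

lemma PP_mem (Φ : Bidual XX) : PP Φ ∈ canonicalImage XX := by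
  rw [mem_canonicalImage, PP_apply, map_sub, ContinuousLinearEquiv.apply_symm_apply, LL_apply]
  exact ZZ_spec _

lemma PP_of_mem {Φ : Bidual XX} (h : Φ ∈ canonicalImage XX) : PP Φ = Φ := by
  rw [PP_apply, ZZ_of_mem (mem_canonicalImage.1 h), map_zero, map_zero, sub_zero]

theorem complemented : (canonicalImage XX).ClosedComplemented :=
  ⟨PP.codRestrict (canonicalImage XX) PP_mem, fun x => Subtype.ext (PP_of_mem x.2)⟩

/-- the map from `H` to the quotient -/
noncomputable def GG : H →L[ℝ] BidualQuotient XX :=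
  LinearMap.mkContinuous
    ((canonicalImage XX).mkQ.comp
      ((Jd.symm : StrongDual ℝ E →L[ℝ] Bidual XX).comp LL).toLinearMap)
    ‖(Jd.symm : StrongDual ℝ E →L[ℝ] Bidual XX).comp LL‖ fun z => by
    refine (Submodule.Quotient.norm_mk_le (canonicalImage XX)
      (((Jd.symm : StrongDual ℝ E →L[ℝ] Bidual XX).comp LL) z)).trans ?_
    exact ContinuousLinearMap.le_opNorm _ z

lemma GG_apply (z : H) : GG z = Submodule.Quotient.mk (Jd.symm (LL z)) := rfl

lemma GG_inj : Function.Injective GG := by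
  rw [injective_iff_map_eq_zero]
  intro z hz
  rw [GG_apply, Submodule.Quotient.mk_eq_zero, mem_canonicalImage,
    ContinuousLinearEquiv.apply_symm_apply] at hz
  exact eq_zero_of_comp_lim_mem hz

lemma GG_surj : Function.Surjective GG := by
  intro q
  obtain ⟨Φ, rfl⟩ := Submodule.Quotient.mk_surjective _ q
  refine ⟨ZZ (Jd Φ), ?_⟩
  rw [GG_apply]
  apply ((Submodule.Quotient.eq (canonicalImage XX)).2 _).symm
  exact PP_mem Φ

/-- the quotient is Hilbertian -/
noncomputable def WW : H ≃L[ℝ] BidualQuotient XX :=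
  ContinuousLinearEquiv.ofBijective GG (LinearMap.ker_eq_bot.2 GG_inj)
    (LinearMap.range_eq_top.2 GG_surj)

section

variable {X Y : Type*} [NormedAddCommGroup X] [NormedSpace ℝ X] [NormedAddCommGroup Y]
  [NormedSpace ℝ Y]

lemma isReflexive_of_equiv (T : X ≃L[ℝ] Y) (hY : IsReflexive Y) : IsReflexive X := by
  intro Φ
  set A : StrongDual ℝ Y ≃L[ℝ] StrongDual ℝ X :=
    ContinuousLinearEquiv.arrowCongr T.symm (ContinuousLinearEquiv.refl ℝ ℝ) with hA
  obtain ⟨y, hy⟩ := hY (Φ.comp (A : StrongDual ℝ Y →L[ℝ] StrongDual ℝ X))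
  refine ⟨T.symm y, ?_⟩
  ext η
  have h1 : Φ η = Φ (A (A.symm η)) := by rw [ContinuousLinearEquiv.apply_symm_apply]
  have h2 : Φ (A (A.symm η)) = (NormedSpace.inclusionInDoubleDual ℝ Y y) (A.symm η) := by
    rw [hy]
    rfl
  rw [h1, h2]
  rfl

end

lemma isReflexive_H : IsReflexive H := by
  intro Φ
  set L0 : H →ₗ[ℝ] ℝ :=
    { toFun := fun v => Φ (innerSL ℝ v)
      map_add' := fun v w => by rw [map_add, map_add]
      map_smul' := fun c v => by
        rw [map_smul]
        exact map_smul Φ c (innerSL ℝ v) } with hL0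
  have hb : ∀ v, ‖L0 v‖ ≤ ‖Φ‖ * ‖v‖ := by
    intro v
    have h1 := Φ.le_opNorm (innerSL ℝ v)
    rw [innerSL_apply_norm] at h1
    exact h1
  set L : StrongDual ℝ H := L0.mkContinuous ‖Φ‖ hb with hL
  refine ⟨(InnerProductSpace.toDual ℝ H).symm L, ?_⟩
  ext θ
  have h1 : innerSL ℝ ((InnerProductSpace.toDual ℝ H).symm θ) = θ := by
    ext v
    show inner ℝ ((InnerProductSpace.toDual ℝ H).symm θ) v = θ v
    rw [InnerProductSpace.toDual_symm_apply]
  show θ ((InnerProductSpace.toDual ℝ H).symm L) = Φ θ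
  have h2 : θ ((InnerProductSpace.toDual ℝ H).symm L) =
      inner ℝ ((InnerProductSpace.toDual ℝ H).symm θ) ((InnerProductSpace.toDual ℝ H).symm L) := by
    rw [InnerProductSpace.toDual_symm_apply]
  rw [h2, real_inner_comm, InnerProductSpace.toDual_symm_apply]
  show Φ (innerSL ℝ ((InnerProductSpace.toDual ℝ H).symm θ)) = Φ θ
  rw [h1]

theorem quotient_reflexive : IsReflexive (BidualQuotient XX) :=
  isReflexive_of_equiv WW.symm isReflexive_H

end Pool.Agent.Helper68.Ic
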