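import Mathlib

set_option autoImplicit false
set_option linter.unusedSectionVars false
open Topology Filter

namespace Pool.Agent.Helper68.Ic

section

variable {V : Type*} [AddCommGroup V] [Module ℝ V]

lemma sum_range_mul' (g : ℕ → V) (m n : ℕ) :
    ∑ i ∈ Finset.range (m * n), g i =
      ∑ l ∈ Finset.range m, ∑ ρ ∈ Finset.range n, g (l * n + ρ) := by
  induction m with
  | zero => simp
  | succ m ih => rw [Nat.succ_mul, Finset.sum_range_add, ih, Finset.sum_range_succ]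

lemma alt_sum (c : ℕ → V) (q : ℕ) :
    ∑ l ∈ Finset.range (2 * q), ((-1 : ℝ) ^ (l + 1)) • c l =
      ∑ l ∈ Finset.range q, (c (2 * l + 1) - c (2 * l)) := by
  induction q with
  | zero => simp
  | succ q ih =>
    have h : 2 * (q + 1) = 2 * q + 1 + 1 := by ring
    rw [h, Finset.sum_range_succ, Finset.sum_range_succ, ih, Finset.sum_range_succ]
    have h1 : (-1 : ℝ) ^ (2 * q + 1) = -1 := by
      rw [pow_succ, pow_mul]; simp
    have h2 : (-1 : ℝ) ^ (2 * q + 1 + 1) = 1 := by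
      rw [pow_succ, h1]; simp
    rw [h1, h2, one_smul, neg_one_smul]
    abel

lemma sum_even_le {g : ℕ → ℝ} (hg : ∀ i, 0 ≤ g i) (q : ℕ) :
    ∑ l ∈ Finset.range q, g (2 * l) ≤ ∑ l ∈ Finset.range (2 * q), g l := by
  induction q with
  | zero => simp
  | succ q ih =>
    have h : 2 * (q + 1) = 2 * q + 1 + 1 := by ring
    rw [h, Finset.sum_range_succ, Finset.sum_range_succ, Finset.sum_range_succ]
    linarith [hg (2 * q + 1)]

/-- the matrix -/
noncomputable def aa (L r σ i : ℕ) : ℝ :=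
  if i % 2 ^ r = σ % 2 ^ r then √((2 : ℝ) ^ r / (L * 2 ^ L)) * (-1) ^ (i / 2 ^ r + 1) else 0

/-- summing along a column -/
lemma col_sum (L r σ q : ℕ) (G : ℕ → V) :
    ∑ i ∈ Finset.range (2 * q * 2 ^ r), aa L r σ i • G i =
      √((2 : ℝ) ^ r / (L * 2 ^ L)) • ∑ l ∈ Finset.range q,
        (G ((2 * l + 1) * 2 ^ r + σ % 2 ^ r) - G (2 * l * 2 ^ r + σ % 2 ^ r)) := by
  have hpos : 0 < 2 ^ r := by positivity
  rw [sum_range_mul']
  have h1 : ∀ l, ∑ ρ ∈ Finset.range (2 ^ r), aa L r σ (l * 2 ^ r + ρ) • G (l * 2 ^ r + ρ) =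
      √((2 : ℝ) ^ r / (L * 2 ^ L)) • (((-1 : ℝ) ^ (l + 1)) • G (l * 2 ^ r + σ % 2 ^ r)) := by
    intro l
    rw [Finset.sum_eq_single (σ % 2 ^ r)]
    · have e1 : (l * 2 ^ r + σ % 2 ^ r) % 2 ^ r = σ % 2 ^ r := by
        rw [mul_comm, Nat.mul_add_mod, Nat.mod_mod]
      have e2 : (l * 2 ^ r + σ % 2 ^ r) / 2 ^ r = l := by
        rw [mul_comm, Nat.mul_add_div hpos, Nat.div_eq_of_lt (Nat.mod_lt _ hpos), add_zero]
      unfold aa
      rw [if_pos e1, e2, mul_smul]
    · intro ρ hρ hne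
      have e1 : (l * 2 ^ r + ρ) % 2 ^ r = ρ := by
        rw [mul_comm, Nat.mul_add_mod, Nat.mod_eq_of_lt (Finset.mem_range.1 hρ)]
      unfold aa
      rw [e1, if_neg hne, zero_smul]
    · intro h
      exact absurd (Finset.mem_range.2 (Nat.mod_lt _ hpos)) h
  rw [Finset.sum_congr rfl fun l _ => h1 l, ← Finset.smul_sum,
    alt_sum (fun l => G (l * 2 ^ r + σ % 2 ^ r))]

end

/-- the number of rows as a multiple of the period -/
lemma rows_eq {L r : ℕ} (h : r < L) : L * 2 ^ L = 2 * (L * 2 ^ (L - r - 1)) * 2 ^ r := by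
  have h1 : 2 ^ L = 2 ^ (L - r - 1) * 2 ^ r * 2 := by
    rw [← pow_add, ← pow_succ]
    congr 1
    omega
  rw [h1]
  ring

lemma rows_eq' {L r : ℕ} (h : r < L) :
    (L : ℝ) * 2 ^ L = 2 * ((L * 2 ^ (L - r - 1) : ℕ) : ℝ) * 2 ^ r := by
  have := rows_eq h
  exact_mod_cast this

/-- rows are normalised -/
lemma row_sum {L : ℕ} (hL : 0 < L) (i : ℕ) :
    ∑ j ∈ Finset.range (L * 2 ^ L), aa L (j / 2 ^ L) (j % 2 ^ L) i ^ 2 = 1 := by
  have hpos : 0 < 2 ^ L := by positivity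
  rw [sum_range_mul']
  have h1 : ∀ r ∈ Finset.range L, ∑ σ ∈ Finset.range (2 ^ L),
      aa L ((r * 2 ^ L + σ) / 2 ^ L) ((r * 2 ^ L + σ) % 2 ^ L) i ^ 2 = (1 / L : ℝ) := by
    intro r hr
    have hr' := Finset.mem_range.1 hr
    have h2 : ∀ σ ∈ Finset.range (2 ^ L),
        aa L ((r * 2 ^ L + σ) / 2 ^ L) ((r * 2 ^ L + σ) % 2 ^ L) i ^ 2 =
        if i % 2 ^ r = σ % 2 ^ r then (2 : ℝ) ^ r / (L * 2 ^ L) else 0 := by
      intro σ hσ
      have e1 : (r * 2 ^ L + σ) / 2 ^ L = r := by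
        rw [mul_comm, Nat.mul_add_div hpos, Nat.div_eq_of_lt (Finset.mem_range.1 hσ), add_zero]
      have e2 : (r * 2 ^ L + σ) % 2 ^ L = σ := by
        rw [mul_comm, Nat.mul_add_mod, Nat.mod_eq_of_lt (Finset.mem_range.1 hσ)]
      rw [e1, e2]
      unfold aa
      split_ifs with h
      · rw [mul_pow, Real.sq_sqrt (by positivity), ← pow_mul, mul_comm (i / 2 ^ r + 1) 2, pow_mul]
        simp
      · simp
    rw [Finset.sum_congr rfl h2]
    have h3 : 2 ^ L = 2 ^ (L - r) * 2 ^ r := by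
      rw [← pow_add]
      congr 1
      omega
    have h4 : ∑ σ ∈ Finset.range (2 ^ L),
        (if i % 2 ^ r = σ % 2 ^ r then (2 : ℝ) ^ r / (L * 2 ^ L) else 0) =
        (2 : ℝ) ^ (L - r) * ((2 : ℝ) ^ r / (L * 2 ^ L)) := by
      rw [h3, sum_range_mul']
      have h5 : ∀ l ∈ Finset.range (2 ^ (L - r)), ∑ ρ ∈ Finset.range (2 ^ r),
          (if i % 2 ^ r = (l * 2 ^ r + ρ) % 2 ^ r then (2 : ℝ) ^ r / (L * 2 ^ L) else 0) =
          (2 : ℝ) ^ r / (L * 2 ^ L) := by
        intro l _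
        rw [Finset.sum_eq_single (i % 2 ^ r)]
        · rw [if_pos]
          rw [mul_comm, Nat.mul_add_mod, Nat.mod_mod]
        · intro ρ hρ hne
          rw [if_neg]
          rw [mul_comm, Nat.mul_add_mod, Nat.mod_eq_of_lt (Finset.mem_range.1 hρ)]
          exact fun h => hne h.symm
        · intro h
          exact absurd (Finset.mem_range.2 (Nat.mod_lt _ (by positivity))) h
      rw [Finset.sum_congr rfl h5, Finset.sum_const, Finset.card_range, nsmul_eq_mul]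
      push_cast
      ring
    rw [h4]
    have h6 : (2 : ℝ) ^ L = 2 ^ (L - r) * 2 ^ r := by exact_mod_cast h3
    have hL' : (L : ℝ) ≠ 0 := by positivity
    rw [h6]
    field_simp
  rw [Finset.sum_congr rfl h1, Finset.sum_const, Finset.card_range, nsmul_eq_mul]
  have hL' : (L : ℝ) ≠ 0 := by positivity
  field_simp

lemma dyadic_sum {u : ℕ → ℝ} {d : ℝ} (hd : 0 ≤ d) (h1 : ∀ r, u r ≤ 2 ^ r)
    (h2 : ∀ r, u r ≤ d ^ 2 / 2 ^ r) (L : ℕ) : ∑ r ∈ Finset.range L, u r ≤ 4 * d := by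
  have key : ∀ L : ℕ, ((2 : ℝ) ^ L ≤ 2 * d → ∑ r ∈ Finset.range L, u r ≤ 2 ^ L) ∧
      (d ≤ 2 ^ L → ∑ r ∈ Finset.range L, u r + 2 * d ^ 2 / 2 ^ L ≤ 4 * d) := by
    intro L
    induction L with
    | zero =>
      constructor
      · intro _
        simp
      · intro h
        simp only [Finset.range_zero, Finset.sum_empty, pow_zero, div_one, zero_add] at h ⊢
        nlinarith
    | succ L ih =>
      obtain ⟨ihA, ihB⟩ := ih
      have hp : (0 : ℝ) < 2 ^ L := by positivity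
      have hps : (2 : ℝ) ^ (L + 1) = 2 * 2 ^ L := by rw [pow_succ]; ring
      constructor
      · intro h
        rw [hps] at h
        rw [Finset.sum_range_succ, hps]
        have := ihA (by linarith)
        linarith [h1 L]
      · intro h
        rw [Finset.sum_range_succ, hps]
        have e1 : 2 * d ^ 2 / (2 * 2 ^ L) = d ^ 2 / 2 ^ L := by
          rw [mul_div_mul_left _ _ (by norm_num)]
        rw [e1]
        by_cases hc : d ≤ 2 ^ L
        · have e2 := ihB hc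
          have e3 : 2 * d ^ 2 / 2 ^ L = d ^ 2 / 2 ^ L + d ^ 2 / 2 ^ L := by ring
          linarith [h2 L]
        · push Not at hc
          have e2 := ihA (by linarith)
          have e3 : d ^ 2 / 2 ^ L ≤ 2 * d := by
            rw [div_le_iff₀ hp]
            rw [hps] at h
            nlinarith
          linarith [h1 L]
  by_cases hc : d ≤ 2 ^ L
  · have := (key L).2 hc
    have h3 : 0 ≤ 2 * d ^ 2 / 2 ^ L := by positivity
    linarith
  · push Not at hc
    have := (key L).1 (by linarith)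
    linarith

/-- distance to the multiples of `2 ^ (r + 1)` -/
noncomputable def DD (r : ℕ) (u : ℝ) : ℝ := ‖(u : AddCircle ((2 : ℝ) ^ (r + 1)))‖

lemma DD_nonneg (r : ℕ) (u : ℝ) : 0 ≤ DD r u := norm_nonneg _

lemma DD_le (r : ℕ) (u : ℝ) : DD r u ≤ 2 ^ r := by
  have hp : (2 : ℝ) ^ (r + 1) ≠ 0 := by positivity
  have h := AddCircle.norm_le_half_period ((2 : ℝ) ^ (r + 1)) (x := (u : AddCircle _)) hp
  unfold DD
  refine h.trans (le_of_eq ?_)
  rw [abs_of_pos (by positivity), pow_succ]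
  ring

lemma DD_lip (r : ℕ) (u v : ℝ) : |DD r u - DD r v| ≤ |u - v| := by
  unfold DD
  refine (abs_norm_sub_norm_le _ _).trans ?_
  rw [← AddCircle.coe_sub]
  exact QuotientAddGroup.norm_mk_le_norm

lemma DD_even (r l : ℕ) : DD r ((2 * l : ℕ) * 2 ^ r) = 0 := by
  unfold DD
  have h : (((2 * l : ℕ) : ℝ) * 2 ^ r : ℝ) = (l : ℤ) • ((2 : ℝ) ^ (r + 1)) := by
    rw [zsmul_eq_mul, pow_succ]
    push_cast
    ring
  rw [h, AddCircle.coe_zsmul, AddCircle.coe_period, smul_zero, norm_zero]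

lemma DD_odd (r l : ℕ) : DD r ((2 * l + 1 : ℕ) * 2 ^ r) = 2 ^ r := by
  unfold DD
  have h : (((2 * l + 1 : ℕ) : ℝ) * 2 ^ r : ℝ) =
      (l : ℤ) • ((2 : ℝ) ^ (r + 1)) + (2 : ℝ) ^ (r + 1) / 2 := by
    rw [zsmul_eq_mul, pow_succ]
    push_cast
    ring
  rw [h, AddCircle.coe_add, AddCircle.coe_zsmul, AddCircle.coe_period, smul_zero, zero_add,
    AddCircle.norm_half_period_eq, abs_of_pos (by positivity), pow_succ]
  ring

end Pool.Agent.Helper68.Ic
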