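import Pool.Agent.Helper68.IcDual

set_option autoImplicit false
set_option linter.unusedSectionVars false
open Topology Filter
open scoped ENNReal

namespace Pool.Agent.Helper68.Ic

/-- the weak limit of the jump functionals -/
lemma exists_L (Ψ : StrongDual ℝ E) : ∃ L : StrongDual ℝ H, ‖L‖ ≤ ‖Ψ‖ ∧
    ∀ v, Tendsto (fun n => Ψ (E.Cn n v)) (hyperfilter ℕ : Filter ℕ) (𝓝 (L v)) := by
  have hb : ∀ v n, |Ψ (E.Cn n v)| ≤ ‖Ψ‖ * ‖v‖ := fun v n =>
    (Ψ.le_opNorm _).trans (mul_le_mul_of_nonneg_left (E.norm_Cn_le n v) (norm_nonneg _))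
  have h1 : ∀ v, ∃ y, Tendsto (fun n => Ψ (E.Cn n v)) (hyperfilter ℕ : Filter ℕ) (𝓝 y) := by
    intro v
    have hc : IsCompact (Set.Icc (-(‖Ψ‖ * ‖v‖)) (‖Ψ‖ * ‖v‖)) := isCompact_Icc
    obtain ⟨y, _, hy⟩ := hc.ultrafilter_le_nhds ((hyperfilter ℕ).map fun n => Ψ (E.Cn n v)) (by
      rw [Ultrafilter.coe_map, le_principal_iff, mem_map]
      exact Filter.Eventually.of_forall fun n => abs_le.1 (hb v n))
    exact ⟨y, hy⟩
  choose y hy using h1
  have hbd : ∀ v, |y v| ≤ ‖Ψ‖ * ‖v‖ := fun v =>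
    le_of_tendsto (hy v).abs (Eventually.of_forall fun n => hb v n)
  let L0 : H →ₗ[ℝ] ℝ :=
    { toFun := y
      map_add' := fun v w => tendsto_nhds_unique (hy (v + w)) (by
        have := (hy v).add (hy w)
        refine this.congr fun n => ?_
        rw [map_add, map_add])
      map_smul' := fun c v => tendsto_nhds_unique (hy (c • v)) (by
        have := (hy v).const_mul c
        refine this.congr fun n => ?_
        rw [map_smul, map_smul, smul_eq_mul]) }
  refine ⟨L0.mkContinuous ‖Ψ‖ hbd, LinearMap.mkContinuous_norm_le _ (norm_nonneg _) _, ?_⟩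
  intro v
  exact hy v

lemma WB_single (u : E) {B : ℝ} (hB : 4 * ‖u‖ ^ 2 ≤ B) : WB u.p B := by
  intro a l hl
  rw [vl_eq]
  have h1 := E.vs_le' u hl
  have h2 := pow_le_pow_left₀ (norm_nonneg _) (E.norm_p_le u (lst a l)) 2
  have h3 := pow_le_pow_left₀ (norm_nonneg _) (E.norm_p_le u a) 2
  linarith

lemma norm_sq_le_of_WB {x : E} {B : ℝ} (h : WB x.p B) : ‖x‖ ^ 2 ≤ B := by
  have hB : 0 ≤ B := by
    have := h 0 [] trivial
    simp only [vl] at this
    nlinarith [sq_nonneg ‖x.p 0‖]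
  apply E.norm_sq_le hB
  intro l hl
  have h1 := h 0 l hl
  rw [vl_eq] at h1
  have h2 := sq_nonneg ‖x.p 0‖
  have h3 := sq_nonneg ‖x.p (lst 0 l)‖
  linarith

/-- functionals without mass at infinity have small tails -/
lemma tail_small {Ψ : StrongDual ℝ E} {L : StrongDual ℝ H}
    (hL : ∀ v, Tendsto (fun n => Ψ (E.Cn n v)) (hyperfilter ℕ : Filter ℕ) (𝓝 (L v)))
    {ε : ℝ} (hε : 0 < ε) :
    ∃ n, ∀ x : E, (Ψ - L.comp E.lim) (x - E.Tn n x) ≤ ε * ‖x‖ := by
  by_contra hcon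
  push Not at hcon
  set Ψ0 : StrongDual ℝ E := Ψ - L.comp E.lim with hΨ0
  -- a block with large value
  have step : ∀ n : ℕ, ∃ u : E, ∃ m, n < m ∧ (∀ t, t ≤ n → u.p t = 0) ∧
      (∀ t, m ≤ t → u.p t = 0) ∧ ‖u‖ ≤ 2 ∧ ε / 2 ≤ Ψ0 u := by
    intro n
    obtain ⟨x, hx⟩ := hcon n
    have hx0 : 0 < ‖x‖ := by
      by_contra h0
      have : x = 0 := norm_le_zero_iff.1 (not_lt.1 h0)
      rw [this] at hx
      simp at hx
    set y : E := ‖x‖⁻¹ • (x - E.Tn n x) with hy
    have hynorm : ‖y‖ ≤ 1 := by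
      rw [hy, norm_smul, norm_inv, norm_norm, inv_mul_le_iff₀ hx0, mul_one]
      exact E.norm_sub_Tn_le n x
    have hy0 : ∀ t, t ≤ n → y.p t = 0 := by
      intro t ht
      rw [hy, E.p_smul, Pi.smul_apply, E.sub_Tn_p, max_eq_right ht, sub_self, smul_zero]
    have hyΨ : ε < Ψ0 y := by
      rw [hy, map_smul, smul_eq_mul, lt_inv_mul_iff₀ hx0, mul_comm]
      exact hx
    have hylim := E.tendsto_lim y
    have l1 : Tendsto (fun m => Ψ0 (y - E.Tn m y)) (hyperfilter ℕ : Filter ℕ) (𝓝 0) := by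
      have h1 : Tendsto (fun m => ‖Ψ0‖ * ‖y - E.Tn m y‖) atTop (𝓝 0) := by
        have := (E.tendsto_sub_Tn y).const_mul ‖Ψ0‖
        rwa [mul_zero] at this
      have h2 : Tendsto (fun m => Ψ0 (y - E.Tn m y)) atTop (𝓝 0) :=
        squeeze_zero_norm (fun m => Ψ0.le_opNorm _) h1
      exact h2.mono_left Nat.hyperfilter_le_atTop
    have l2 : Tendsto (fun m => Ψ0 (E.Cn m (y.p m))) (hyperfilter ℕ : Filter ℕ) (𝓝 0) := by
      have h1 : ∀ m, Ψ0 (E.Cn m (y.p m)) = Ψ (E.Cn m (E.lim y)) +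
          Ψ (E.Cn m (y.p m - E.lim y)) - L (y.p m) := by
        intro m
        rw [hΨ0, sub_apply, ContinuousLinearMap.comp_apply, E.lim_Cn, pr_self (y.p_mem m),
          ← map_add, ← map_add, add_sub_cancel]
      have h2 : Tendsto (fun m => Ψ (E.Cn m (y.p m - E.lim y))) atTop (𝓝 0) := by
        have h3 : Tendsto (fun m => ‖Ψ‖ * ‖y.p m - E.lim y‖) atTop (𝓝 0) := by
          have := (tendsto_iff_norm_sub_tendsto_zero.1 hylim).const_mul ‖Ψ‖
          rwa [mul_zero] at this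
        exact squeeze_zero_norm (fun m => (Ψ.le_opNorm _).trans
          (mul_le_mul_of_nonneg_left (E.norm_Cn_le m _) (norm_nonneg _))) h3
      have h4 : Tendsto (fun m => L (y.p m)) (hyperfilter ℕ : Filter ℕ) (𝓝 (L (E.lim y))) :=
        ((L.continuous.tendsto _).comp hylim).mono_left Nat.hyperfilter_le_atTop
      have h5 := ((hL (E.lim y)).add (h2.mono_left Nat.hyperfilter_le_atTop)).sub h4
      rw [add_zero, sub_self] at h5
      exact h5.congr fun m => (h1 m).symm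
    have l3 : ∀ᶠ m in (hyperfilter ℕ : Filter ℕ), n < m :=
      (eventually_gt_atTop n).filter_mono Nat.hyperfilter_le_atTop
    have hε4 : 0 < ε / 4 := by positivity
    obtain ⟨m, ⟨hm1, hm2⟩, hm3⟩ := (((l1.eventually (gt_mem_nhds hε4)).and
      (l2.eventually (gt_mem_nhds hε4))).and l3).exists
    set u : E := E.Tn m y - E.Cn m (y.p m) with hu
    have hup : ∀ t, u.p t = if m ≤ t then 0 else y.p t := by
      intro t
      rw [hu, E.p_sub, Pi.sub_apply, E.Tn_p, E.Cn_p, pr_self (y.p_mem m)]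
      by_cases h : m ≤ t
      · rw [if_pos h, if_pos h, min_eq_right h, sub_self]
      · rw [if_neg h, if_neg h, min_eq_left (by omega), sub_zero]
    refine ⟨u, m, hm3, ?_, ?_, ?_, ?_⟩
    · intro t ht
      rw [hup, if_neg (by omega), hy0 t ht]
    · intro t ht
      rw [hup, if_pos ht]
    · calc ‖u‖ ≤ ‖E.Tn m y‖ + ‖E.Cn m (y.p m)‖ := norm_sub_le _ _
        _ ≤ 1 + 1 := by
            apply add_le_add
            · exact (E.norm_Tn_le m y).trans hynorm
            · exact (E.norm_Cn_le m _).trans ((E.norm_p_le y m).trans hynorm)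
        _ = 2 := by norm_num
    · have h6 : Ψ0 y = Ψ0 u + Ψ0 (E.Cn m (y.p m)) + Ψ0 (y - E.Tn m y) := by
        rw [← map_add, ← map_add, hu]
        congr 1
        abel
      linarith
  have blocks : ∀ N n : ℕ, ∃ x : E, ∃ m, (∀ t, t ≤ n → x.p t = 0) ∧
      (∀ t, m ≤ t → x.p t = 0) ∧ WB x.p (20 * N) ∧ (N : ℝ) * (ε / 2) ≤ Ψ0 x := by
    intro N
    induction N with
    | zero =>
      intro n
      refine ⟨0, 0, fun t _ => rfl, fun t _ => rfl, ?_, by simp⟩
      exact WB_single 0 (by simp)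
    | succ N ih =>
      intro n
      obtain ⟨u, m, hnm, hu1, hu2, hu3, hu4⟩ := step n
      obtain ⟨x, m', hx1, hx2, hx3, hx4⟩ := ih m
      refine ⟨u + x, max m m', ?_, ?_, ?_, ?_⟩
      · intro t ht
        rw [E.p_add, Pi.add_apply, hu1 t ht, hx1 t (ht.trans hnm.le), add_zero]
      · intro t ht
        rw [E.p_add, Pi.add_apply, hu2 t ((le_max_left _ _).trans ht),
          hx2 t ((le_max_right _ _).trans ht), add_zero]
      · have hB : 4 * ‖u‖ ^ 2 ≤ 20 := by nlinarith [norm_nonneg u]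
        have h7 := WB_add hu2 hx1 (WB_single u hB) hx3
        rw [E.p_add]
        push_cast
        have h8 : (20 : ℝ) * (N + 1) = 20 + 20 * N := by ring
        rw [h8]
        exact h7
      · rw [map_add]
        push_cast
        linarith
  -- contradiction
  obtain ⟨N, hN⟩ := exists_nat_gt (80 * ‖Ψ0‖ ^ 2 / ε ^ 2)
  obtain ⟨x, m, _, _, hx3, hx4⟩ := blocks N 0
  have h1 := norm_sq_le_of_WB hx3
  have h2 : (N : ℝ) * (ε / 2) ≤ ‖Ψ0‖ * ‖x‖ :=
    hx4.trans ((le_abs_self _).trans (Ψ0.le_opNorm x))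
  have hN0 : 0 < (N : ℝ) := lt_of_le_of_lt (by positivity) hN
  have h3 : ((N : ℝ) * (ε / 2)) ^ 2 ≤ (‖Ψ0‖ * ‖x‖) ^ 2 := pow_le_pow_left₀ (by positivity) h2 2
  have h4 : (‖Ψ0‖ * ‖x‖) ^ 2 ≤ ‖Ψ0‖ ^ 2 * (20 * N) := by
    rw [mul_pow]
    exact mul_le_mul_of_nonneg_left h1 (by positivity)
  rw [div_lt_iff₀ (by positivity)] at hN
  nlinarith

/-- the decomposition `E* = X ⊕ H` -/
theorem exists_decomp (Ψ : StrongDual ℝ E) : ∃ z : H, ‖z‖ ≤ ‖Ψ‖ ∧
    Ψ - (innerSL ℝ z).comp E.lim ∈ FF := by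
  obtain ⟨L, hL1, hL2⟩ := exists_L Ψ
  set z : H := (InnerProductSpace.toDual ℝ H).symm L with hz
  have hzL : innerSL ℝ z = L := by
    ext v
    show inner ℝ z v = L v
    rw [hz, InnerProductSpace.toDual_symm_apply]
  refine ⟨z, by rw [hz, LinearIsometryEquiv.norm_map]; exact hL1, ?_⟩
  rw [hzL]
  set Ψ0 : StrongDual ℝ E := Ψ - L.comp E.lim with hΨ0
  have hcomp : ∀ n, Ψ0.comp (E.Tn n) ∈ FF := by
    intro n
    have h1 : Ψ0.comp (E.Tn n) = ∑ i ∈ Finset.range n,
        (sf (i + 1) ((InnerProductSpace.toDual ℝ H).symm (Ψ0.comp (E.Cn (i + 1)))) -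
          sf i ((InnerProductSpace.toDual ℝ H).symm (Ψ0.comp (E.Cn (i + 1))))) := by
      ext x
      rw [ContinuousLinearMap.comp_apply, E.Tn_eq_sum, map_sum, sum_apply]
      apply Finset.sum_congr rfl
      intro i _
      have h2 : ∀ w : H, (sf (i + 1) w - sf i w) x = inner ℝ w (x.p (i + 1) - x.p i) := by
        intro w
        rw [inner_sub_right]
        rfl
      rw [h2, InnerProductSpace.toDual_symm_apply]
      rfl
    rw [h1]
    exact Submodule.sum_mem _ fun i _ => FF.sub_mem (sf_mem _ _) (sf_mem _ _)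
  have hcl : IsClosed (FF : Set (StrongDual ℝ E)) := Submodule.isClosed_topologicalClosure _
  have hmem : Ψ0 ∈ closure (FF : Set (StrongDual ℝ E)) := by
    rw [Metric.mem_closure_iff]
    intro ε hε
    obtain ⟨n, hn⟩ := tail_small hL2 (ε := ε / 2) (by positivity)
    refine ⟨Ψ0.comp (E.Tn n), hcomp n, ?_⟩
    rw [dist_eq_norm]
    refine lt_of_le_of_lt ?_ (half_lt_self hε)
    refine ContinuousLinearMap.opNorm_le_bound _ (by positivity) fun x => ?_
    rw [sub_apply, ContinuousLinearMap.comp_apply, ← map_sub, Real.norm_eq_abs]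
    apply abs_le.2
    constructor
    · have h1 := hn (-x)
      have h2 : -x - E.Tn n (-x) = -(x - E.Tn n x) := by rw [map_neg]; abel
      rw [h2, map_neg, norm_neg] at h1
      linarith
    · exact hn x
  rw [hcl.closure_eq] at hmem
  exact hmem

lemma eq_zero_of_comp_lim_mem {z : H} (h : (innerSL ℝ z).comp E.lim ∈ FF) : z = 0 := by
  by_contra hz
  have hz0 : 0 < ‖z‖ := norm_pos_iff.2 hz
  obtain ⟨n, hn⟩ := FF_comp_Tn h (ε := ‖z‖ / 2) (by positivity)
  have h1 : ∀ᶠ m in atTop, ‖z‖ ^ 2 * (3 / 4) < inner ℝ z (pr m z) := by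
    have h2 : Tendsto (fun m => inner ℝ z (pr m z)) atTop (𝓝 (inner ℝ z z)) :=
      tendsto_const_nhds.inner (tendsto_pr z)
    rw [real_inner_self_eq_norm_sq] at h2
    apply h2.eventually_const_lt
    have : 0 < ‖z‖ ^ 2 := by positivity
    linarith
  obtain ⟨m, hm1, hm2⟩ := (h1.and (eventually_gt_atTop n)).exists
  have h3 := hn (m - 1) (by omega) (E.Cn m z)
  have h4 : E.Tn (m - 1) (E.Cn m z) = 0 := by
    apply E.ext
    intro t
    rw [E.Tn_p, E.Cn_p, if_neg (by omega)]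
    rfl
  rw [h4, sub_zero, ContinuousLinearMap.comp_apply, E.lim_Cn] at h3
  have h5 : (innerSL ℝ z) (pr m z) = inner ℝ z (pr m z) := rfl
  rw [h5] at h3
  have h6 : ‖z‖ / 2 * ‖E.Cn m z‖ ≤ ‖z‖ / 2 * ‖z‖ :=
    mul_le_mul_of_nonneg_left (E.norm_Cn_le m z) (by positivity)
  have h7 := le_abs_self (inner ℝ z (pr m z))
  nlinarith

/-- the component at infinity -/
noncomputable def ZZ : StrongDual ℝ E →L[ℝ] H :=
  LinearMap.mkContinuous
    { toFun := fun Ψ => (exists_decomp Ψ).choose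
      map_add' := fun Ψ Ψ' => by
        have h1 := (exists_decomp Ψ).choose_spec.2
        have h2 := (exists_decomp Ψ').choose_spec.2
        have h3 := (exists_decomp (Ψ + Ψ')).choose_spec.2
        have h4 := FF.sub_mem (FF.add_mem h1 h2) h3
        have h5 : (innerSL ℝ ((exists_decomp (Ψ + Ψ')).choose -
            ((exists_decomp Ψ).choose + (exists_decomp Ψ').choose))).comp E.lim ∈ FF := by
          convert h4 using 1
          rw [map_sub, map_add]
          ext x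
          simp only [ContinuousLinearMap.comp_apply, sub_apply, add_apply]
          ring
        exact sub_eq_zero.1 (eq_zero_of_comp_lim_mem h5)
      map_smul' := fun c Ψ => by
        have h1 := (exists_decomp Ψ).choose_spec.2
        have h3 := (exists_decomp (c • Ψ)).choose_spec.2
        have h4 := FF.sub_mem (FF.smul_mem c h1) h3
        have h5 : (innerSL ℝ ((exists_decomp (c • Ψ)).choose -
            c • (exists_decomp Ψ).choose)).comp E.lim ∈ FF := by
          convert h4 using 1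
          rw [map_sub, map_smul]
          ext x
          simp only [ContinuousLinearMap.comp_apply, sub_apply, smul_apply, smul_eq_mul]
          ring
        exact sub_eq_zero.1 (eq_zero_of_comp_lim_mem h5) } 1 fun Ψ => by
    rw [one_mul]
    exact (exists_decomp Ψ).choose_spec.1

lemma ZZ_spec (Ψ : StrongDual ℝ E) : Ψ - (innerSL ℝ (ZZ Ψ)).comp E.lim ∈ FF :=
  (exists_decomp Ψ).choose_spec.2

lemma ZZ_eq {Ψ : StrongDual ℝ E} {z : H} (h : Ψ - (innerSL ℝ z).comp E.lim ∈ FF) :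
    ZZ Ψ = z := by
  have h1 := FF.sub_mem h (ZZ_spec Ψ)
  have h2 : (innerSL ℝ (ZZ Ψ - z)).comp E.lim ∈ FF := by
    convert h1 using 1
    rw [map_sub]
    ext x
    simp only [ContinuousLinearMap.comp_apply, sub_apply]
    ring
  exact sub_eq_zero.1 (eq_zero_of_comp_lim_mem h2)

lemma ZZ_of_mem {Ψ : StrongDual ℝ E} (h : Ψ ∈ FF) : ZZ Ψ = 0 := by
  apply ZZ_eq
  rw [map_zero]
  simpa using h

lemma ZZ_lim (z : H) : ZZ ((innerSL ℝ z).comp E.lim) = z := by
  apply ZZ_eq
  rw [sub_self]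
  exact FF.zero_mem

end Pool.Agent.Helper68.Ic
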