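import Pool.Agent.Helper68.IcOps

set_option autoImplicit false
set_option linter.unusedSectionVars false
open Topology Filter
open scoped ENNReal

namespace Pool.Agent.Helper68.Ic

/-- the space `X` -/
def XX : Type := ↥FF

noncomputable instance : NormedAddCommGroup XX := inferInstanceAs (NormedAddCommGroup ↥FF)
noncomputable instance : NormedSpace ℝ XX := inferInstanceAs (NormedSpace ℝ ↥FF)
instance : CompleteSpace XX :=
  (Submodule.isClosed_topologicalClosure
    (Submodule.span ℝ (Set.range fun q : ℕ × H => sf q.1 q.2))).completeSpace_coe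

/-- inclusion in the dual of `E` -/
noncomputable def inX : XX →ₗᵢ[ℝ] StrongDual ℝ E := FF.subtypeₗᵢ

lemma inX_mem (φ : XX) : inX φ ∈ FF := φ.2

lemma inX_inj {φ ψ : XX} (h : inX φ = inX ψ) : φ = ψ := Subtype.ext h

lemma norm_inX (φ : XX) : ‖inX φ‖ = ‖φ‖ := inX.norm_map φ

/-- constructor -/
def mkX (φ : StrongDual ℝ E) (h : φ ∈ FF) : XX := ⟨φ, h⟩

lemma inX_mkX (φ : StrongDual ℝ E) (h : φ ∈ FF) : inX (mkX φ h) = φ := rfl

lemma sf_norm_apply_le (t : ℕ) (v : H) (x : E) : |sf t v x| ≤ ‖v‖ * ‖x‖ := by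
  rw [sf_apply]
  exact (abs_real_inner_le_norm _ _).trans
    (mul_le_mul_of_nonneg_left (E.norm_p_le x t) (norm_nonneg _))

lemma norm_sf_le (t : ℕ) (v : H) : ‖sf t v‖ ≤ ‖v‖ :=
  ContinuousLinearMap.opNorm_le_bound _ (norm_nonneg _) fun x => sf_norm_apply_le t v x

/-- point evaluations as elements of `X` -/
noncomputable def sfL (t : ℕ) : H →L[ℝ] XX :=
  LinearMap.mkContinuous
    { toFun := fun v => mkX (sf t v) (sf_mem t v)
      map_add' := fun v w => inX_inj (sf_add t v w)
      map_smul' := fun c v => inX_inj (sf_smul t c v) } 1 fun v => by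
    rw [one_mul]
    exact norm_sf_le t v

lemma inX_sfL (t : ℕ) (v : H) : inX (sfL t v) = sf t v := rfl

lemma inX_sfL_apply (t : ℕ) (v : H) (x : E) : inX (sfL t v) x = inner ℝ v (x.p t) := rfl

lemma norm_sfL_le (t : ℕ) (v : H) : ‖sfL t v‖ ≤ ‖v‖ := norm_sf_le t v

/-- the canonical map from `E` to the dual of `X` -/
noncomputable def RR : E →L[ℝ] StrongDual ℝ XX :=
  LinearMap.mkContinuous
    { toFun := fun x => (NormedSpace.inclusionInDoubleDual ℝ E x).comp
        inX.toContinuousLinearMap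
      map_add' := fun x y => by
        ext φ
        exact map_add (inX φ) x y
      map_smul' := fun c x => by
        ext φ
        exact map_smul (inX φ) c x } 1 fun x => by
    rw [one_mul]
    refine ContinuousLinearMap.opNorm_le_bound _ (norm_nonneg _) fun φ => ?_
    have := (inX φ).le_opNorm x
    rw [norm_inX] at this
    rw [mul_comm]
    exact this

lemma RR_apply (x : E) (φ : XX) : RR x φ = inX φ x := rfl

lemma cs_step {a b A B : ℝ} (hA : 0 ≤ A) (hB : 0 ≤ B) :
    a * b + √A * √B ≤ √(a ^ 2 + A) * √(b ^ 2 + B) := by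
  rw [← Real.sqrt_mul (show 0 ≤ a ^ 2 + A by positivity)]
  apply Real.le_sqrt_of_sq_le
  have h3 : √A ^ 2 = A := Real.sq_sqrt hA
  have h4 : √B ^ 2 = B := Real.sq_sqrt hB
  nlinarith [sq_nonneg (a * √B - b * √A)]

/-- norming functionals -/
noncomputable def psi (y : ℕ → H) : ℕ → List ℕ → XX
  | _, [] => 0
  | a, b :: l => (sfL b (y b - y a) - sfL a (y b - y a)) + psi y b l

lemma psi_apply_le (y : ℕ → H) (x : E) : ∀ (l : List ℕ) (a : ℕ),
    |inX (psi y a l) x| ≤ √(vs y a l) * √(vs x.p a l)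
  | [], _ => by simp [psi, vs]
  | b :: l, a => by
    have ih := psi_apply_le y x l b
    simp only [psi, vs]
    have h1 : inX ((sfL b (y b - y a) - sfL a (y b - y a)) + psi y b l) x =
        inner ℝ (y b - y a) (x.p b - x.p a) + inX (psi y b l) x := by
      rw [map_add, map_sub, add_apply, sub_apply, inX_sfL_apply, inX_sfL_apply, inner_sub_right]
    rw [h1]
    refine (abs_add_le _ _).trans ?_
    refine (add_le_add (abs_real_inner_le_norm _ _) ih).trans ?_
    exact cs_step (vs_nonneg _ _ _) (vs_nonneg _ _ _)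

/-- `X* = E` -/
theorem RR_surj (θ : StrongDual ℝ XX) : ∃ x : E, RR x = θ := by
  set y : ℕ → H := fun t => (InnerProductSpace.toDual ℝ H).symm (θ.comp (sfL t)) with hy
  have hyv : ∀ t v, inner ℝ (y t) v = θ (sfL t v) := by
    intro t v
    rw [hy]
    simp only [InnerProductSpace.toDual_symm_apply]
    rfl
  have hmem : ∀ t, y t ∈ VV t := by
    intro t i hi
    rw [← inner_e, real_inner_comm, hyv]
    have h1 : sfL t (e i) = 0 := by
      apply inX_inj
      ext x
      rw [inX_sfL_apply, inner_e]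
      exact x.p_mem t i hi
    rw [h1, map_zero]
  have hpsi : ∀ (l : List ℕ) (a : ℕ), θ (psi y a l) = vs y a l := by
    intro l
    induction l with
    | nil => intro a; simp [psi, vs]
    | cons b l ih =>
      intro a
      simp only [psi, vs]
      have h2 : θ (sfL b (y b - y a) - sfL a (y b - y a)) = ‖y b - y a‖ ^ 2 := by
        rw [map_sub θ (sfL b (y b - y a)) (sfL a (y b - y a)), ← hyv, ← hyv, ← inner_sub_left,
          real_inner_self_eq_norm_sq]
      rw [map_add, ih, h2]
  have hvs : ∀ l, ch 0 l → vs y 0 l ≤ ‖θ‖ ^ 2 := by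
    intro l hl
    have h1 : ‖psi y 0 l‖ ≤ √(vs y 0 l) := by
      rw [← norm_inX]
      refine ContinuousLinearMap.opNorm_le_bound _ (Real.sqrt_nonneg _) fun x => ?_
      refine (psi_apply_le y x l 0).trans (mul_le_mul_of_nonneg_left ?_ (Real.sqrt_nonneg _))
      exact Real.sqrt_le_iff.2 ⟨norm_nonneg _, E.vs_le x hl⟩
    have h2 : vs y 0 l ≤ ‖θ‖ * √(vs y 0 l) := by
      rw [← hpsi l 0]
      refine (le_abs_self _).trans ((θ.le_opNorm _).trans ?_)
      rw [hpsi l 0]
      exact mul_le_mul_of_nonneg_left h1 (norm_nonneg _)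
    have h3 : √(vs y 0 l) ^ 2 = vs y 0 l := Real.sq_sqrt (vs_nonneg _ _ _)
    have h4 : 0 ≤ √(vs y 0 l) := Real.sqrt_nonneg _
    rcases h4.eq_or_lt with h5 | h5
    · rw [← h3, ← h5]; simp
    · have h6 : √(vs y 0 l) ≤ ‖θ‖ := by
        have h7 : √(vs y 0 l) * √(vs y 0 l) ≤ ‖θ‖ * √(vs y 0 l) := by
          rw [← sq, h3]; exact h2
        exact le_of_mul_le_mul_right h7 h5
      rw [← h3]
      exact pow_le_pow_left₀ h4 h6 2
  refine ⟨E.mk' y hmem (norm_nonneg θ) hvs, ?_⟩
  set x : E := E.mk' y hmem (norm_nonneg θ) hvs with hx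
  -- the two functionals agree on a dense set
  have hdense : ∀ φ : StrongDual ℝ E, ∀ h : φ ∈ FF, φ x = θ (mkX φ h) := by
    have hspan : ∀ φ : StrongDual ℝ E,
        φ ∈ Submodule.span ℝ (Set.range fun q : ℕ × H => sf q.1 q.2) →
        ∀ h : φ ∈ FF, φ x = θ (mkX φ h) := by
      intro φ hφ
      refine Submodule.span_induction (p := fun φ _ => ∀ h : φ ∈ FF, φ x = θ (mkX φ h))
        ?_ ?_ ?_ ?_ hφ
      · rintro _ ⟨⟨t, v⟩, rfl⟩ h
        show sf t v x = θ (sfL t v)
        rw [← hyv, sf_apply, real_inner_comm]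
        rfl
      · intro h
        have : mkX 0 h = 0 := rfl
        rw [this, map_zero]
        rfl
      · intro a b ha hb h1 h2 h
        have ha' : a ∈ FF := Submodule.le_topologicalClosure _ ha
        have hb' : b ∈ FF := Submodule.le_topologicalClosure _ hb
        have : mkX (a + b) h = mkX a ha' + mkX b hb' := rfl
        rw [this, map_add, add_apply, h1 ha', h2 hb']
      · intro c a ha h1 h
        have ha' : a ∈ FF := Submodule.le_topologicalClosure _ ha
        have : mkX (c • a) h = c • mkX a ha' := rfl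
        rw [this, map_smul, smul_apply, h1 ha']
    intro φ h
    obtain ⟨s, hs1, hs2⟩ := mem_closure_iff_seq_limit.1 h
    have hs3 : ∀ n, s n ∈ FF := fun n => Submodule.le_topologicalClosure _ (hs1 n)
    have e1 : Tendsto (fun n => s n x) atTop (𝓝 (φ x)) :=
      ((ContinuousLinearMap.apply ℝ ℝ x).continuous.tendsto φ).comp hs2
    have e2 : Tendsto (fun n => mkX (s n) (hs3 n)) atTop (𝓝 (mkX φ h)) := by
      rw [tendsto_iff_norm_sub_tendsto_zero] at hs2 ⊢
      exact hs2
    have e3 : Tendsto (fun n => θ (mkX (s n) (hs3 n))) atTop (𝓝 (θ (mkX φ h))) :=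
      (θ.continuous.tendsto _).comp e2
    refine tendsto_nhds_unique e1 ?_
    refine e3.congr fun n => ?_
    exact (hspan (s n) (hs1 n) (hs3 n)).symm
  ext φ
  rw [RR_apply]
  exact hdense (inX φ) (inX_mem φ)

lemma RR_inj : Function.Injective RR := by
  intro x x' h
  apply E.ext
  intro t
  apply ext_inner_left ℝ
  intro v
  have h1 : RR x (sfL t v) = RR x' (sfL t v) := by rw [h]
  exact h1

/-- the identification `X* = E` -/
noncomputable def Re : E ≃L[ℝ] StrongDual ℝ XX :=
  ContinuousLinearEquiv.ofBijective RR (LinearMap.ker_eq_bot.2 RR_inj)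
    (LinearMap.range_eq_top.2 RR_surj)

lemma Re_apply (x : E) : Re x = RR x := rfl

end Pool.Agent.Helper68.Ic
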