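import Pool.Agent.Helper68.IcPath

set_option autoImplicit false
set_option linter.unusedSectionVars false
open Topology Filter
open scoped ENNReal

namespace Pool.Agent.Helper68.Ic

/-- constant extension of a tuple -/
def xt {k : ℕ} (hk : 0 < k) (n : Fin k ↪o ℕ) (j : ℕ) : ℕ := n ⟨min j (k - 1), by omega⟩

lemma xt_of_lt {k : ℕ} (hk : 0 < k) (n : Fin k ↪o ℕ) {j : ℕ} (hj : j < k) :
    xt hk n j = n ⟨j, hj⟩ := by
  unfold xt
  congr 1
  apply Fin.ext
  show min j (k - 1) = j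
  omega

lemma xt_mono {k : ℕ} (hk : 0 < k) (n : Fin k ↪o ℕ) : Monotone (xt hk n) := by
  intro a b hab
  unfold xt
  apply n.monotone
  show min a (k - 1) ≤ min b (k - 1)
  omega

lemma xt_inj {k : ℕ} (hk : 0 < k) (n : Fin k ↪o ℕ) {T : ℕ} (hT : T ≤ k) :
    Set.InjOn (xt hk n) (Finset.range T) := by
  intro a ha b hb hab
  rw [Finset.coe_range, Set.mem_Iio] at ha hb
  rw [xt_of_lt hk n (ha.trans_le hT), xt_of_lt hk n (hb.trans_le hT)] at hab
  have := n.injective hab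
  exact congrArg Fin.val this

lemma sum_hamming {k : ℕ} (hk : 0 < k) (n m : Fin k ↪o ℕ) :
    ∑ j ∈ Finset.range k, (if xt hk n j ≠ xt hk m j then (1 : ℝ) else 0) =
      (hammingDist (⇑n) (⇑m) : ℝ) := by
  rw [← Fin.sum_univ_eq_sum_range (fun j => if xt hk n j ≠ xt hk m j then (1 : ℝ) else 0) k]
  unfold hammingDist
  rw [Finset.card_filter]
  push_cast
  apply Finset.sum_congr rfl
  intro i _
  rw [xt_of_lt hk n i.2, xt_of_lt hk m i.2]

theorem fails : ¬ InterlacedConcentration XX 2 := by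
  rintro ⟨C, hC, h⟩
  obtain ⟨L, hL⟩ := exists_nat_gt (16 * (4 * C + 1) ^ 2)
  have hL0' : (0 : ℝ) < L := lt_of_le_of_lt (by positivity) hL
  have hL0 : 0 < L := by exact_mod_cast hL0'
  set T := L * 2 ^ L with hT
  have hTpos : 0 < T := by positivity
  have hk : 0 < T + T := by omega
  obtain ⟨M, hM, hM2⟩ := h (T + T) (fun n => ff L (xt hk n)) 2 (by norm_num) (by
    intro n m
    have h1 := ff_lip hL0 (ν := xt hk n) (μ := xt hk m) (xt_inj hk n (by omega)) (xt_mono hk m)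
    rwa [← hT, sum_hamming hk n m] at h1) 1 one_pos
  have hM' : (setOf fun a => a ∈ M).Infinite := hM
  set u : ℕ → ℕ := Nat.nth (fun a => a ∈ M) with hu
  have hu1 : StrictMono u := Nat.nth_strictMono hM'
  have hu2 : ∀ i, u i ∈ M := Nat.nth_mem_of_infinite hM'
  set n : Fin (T + T) ↪o ℕ := OrderEmbedding.ofStrictMono (fun i => u (2 * i))
    (fun i j hij => hu1 (by
      have : (i : ℕ) < j := hij
      omega)) with hn
  set m : Fin (T + T) ↪o ℕ := OrderEmbedding.ofStrictMono (fun i => u (2 * i + 1))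
    (fun i j hij => hu1 (by
      have : (i : ℕ) < j := hij
      omega)) with hm
  have h2 := hM2 n m (fun i => hu2 _) (fun i => hu2 _) (fun i => hu1 (Nat.lt_succ_self _))
    (fun i j hij => hu1 (by
      have : (i : ℕ) < j := hij
      omega))
  have hInter : Inter L (xt hk n) (xt hk m) := by
    refine ⟨xt_mono hk n, ?_, ?_⟩
    · intro j hj
      rw [xt_of_lt hk n hj, xt_of_lt hk m hj]
      exact hu1 (Nat.lt_succ_self _)
    · intro j hj
      rw [xt_of_lt hk n hj, xt_of_lt hk m (Nat.lt_of_succ_lt hj)]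
      apply hu1
      show 2 * j + 1 < 2 * (j + 1)
      omega
  have h3 := (lower hL0 hInter).trans h2
  have hT1 : (1 : ℝ) ≤ (L : ℝ) * 2 ^ L := by
    have : (1 : ℝ) ≤ ((L * 2 ^ L : ℕ) : ℝ) := by exact_mod_cast hTpos
    push_cast at this
    exact this
  set R : ℝ := (L : ℝ) * 2 ^ L with hR
  have hsR : 1 ≤ √R := Real.one_le_sqrt.2 hT1
  have hk2 : (((T + T : ℕ) : ℝ)) ^ (1 / (2 : ℝ)) ≤ 2 * √R := by
    rw [← Real.sqrt_eq_rpow]
    apply Real.sqrt_le_iff.2
    refine ⟨by positivity, ?_⟩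
    rw [mul_pow, Real.sq_sqrt (by positivity)]
    have : ((T + T : ℕ) : ℝ) = R + R := by
      rw [hT, hR]
      push_cast
      ring
    rw [this]
    linarith
  have h4 : C * 2 * (((T + T : ℕ) : ℝ)) ^ (1 / (2 : ℝ)) + 1 ≤ (4 * C + 1) * √R := by
    have h5 := mul_le_mul_of_nonneg_left hk2 (show 0 ≤ C * 2 by positivity)
    linarith
  have h6 : √R * √L / 4 ≤ (4 * C + 1) * √R := h3.trans h4
  have h7 : √L ≤ 4 * (4 * C + 1) := by
    have h8 : √R * √L ≤ √R * (4 * (4 * C + 1)) := by linarith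
    exact le_of_mul_le_mul_left h8 (by linarith)
  have h9 : (L : ℝ) ≤ (4 * (4 * C + 1)) ^ 2 := by
    calc (L : ℝ) = √L ^ 2 := (Real.sq_sqrt hL0'.le).symm
      _ ≤ _ := pow_le_pow_left₀ (Real.sqrt_nonneg _) h7 2
  have h10 : (4 * (4 * C + 1)) ^ 2 = 16 * (4 * C + 1) ^ 2 := by ring
  linarith

end Pool.Agent.Helper68.Ic
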