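import Pool.Agent.Helper68.IcAus
import Pool.Agent.Helper68.IcComb

set_option autoImplicit false
set_option linter.unusedSectionVars false
open Topology Filter
open scoped ENNReal

namespace Pool.Agent.Helper68.Ic

lemma sum_increments_le (x : E) {τ : ℕ → ℕ} (hτ : Monotone τ) (q : ℕ) :
    ∑ l ∈ Finset.range q, ‖x.p (τ (2 * l + 1)) - x.p (τ (2 * l))‖ ^ 2 ≤ ‖x‖ ^ 2 := by
  have h1 := sum_even_le (g := fun i => ‖x.p (τ (i + 1)) - x.p (τ i)‖ ^ 2)
    (fun i => by positivity) q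
  refine h1.trans ?_
  rw [← vs_map_range x.p (2 * q) τ]
  have h2 := E.vs_le' x (ch_map_range (2 * q) τ hτ)
  nlinarith [sq_nonneg ‖x.p (τ 0)‖]

/-- the columns are bounded -/
lemma norm_col_le {L r : ℕ} (hr : r < L) (σ : ℕ) {τ : ℕ → ℕ} (hτ : Monotone τ) (w : H) :
    ‖∑ i ∈ Finset.range (L * 2 ^ L), aa L r σ i • sfL (τ i) w‖ ≤ ‖w‖ := by
  set q := L * 2 ^ (L - r - 1) with hq
  have hL : 0 < L := by omega
  have hq0 : 0 < q := by positivity
  rw [← norm_inX]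
  refine ContinuousLinearMap.opNorm_le_bound _ (norm_nonneg _) fun x => ?_
  have h1 : inX (∑ i ∈ Finset.range (L * 2 ^ L), aa L r σ i • sfL (τ i) w) x =
      ∑ i ∈ Finset.range (2 * q * 2 ^ r), aa L r σ i • (inner ℝ w (x.p (τ i)) : ℝ) := by
    rw [map_sum, sum_apply, rows_eq hr]
    apply Finset.sum_congr rfl
    intro i _
    rw [map_smul, smul_apply, inX_sfL_apply]
  rw [h1, col_sum]
  set ρ := σ % 2 ^ r with hρ
  have hmono : Monotone fun l => τ (l * 2 ^ r + ρ) := fun a b hab =>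
    hτ (Nat.add_le_add_right (Nat.mul_le_mul_right _ hab) _)
  have h2 := sum_increments_le x hmono q
  set d : ℕ → ℝ := fun l => ‖x.p (τ ((2 * l + 1) * 2 ^ r + ρ)) - x.p (τ (2 * l * 2 ^ r + ρ))‖
    with hd
  have h2' : ∑ l ∈ Finset.range q, d l ^ 2 ≤ ‖x‖ ^ 2 := h2
  have h3 : |∑ l ∈ Finset.range q, ((inner ℝ w (x.p (τ ((2 * l + 1) * 2 ^ r + ρ))) : ℝ) -
      inner ℝ w (x.p (τ (2 * l * 2 ^ r + ρ))))| ≤ ‖w‖ * ∑ l ∈ Finset.range q, d l := by
    refine (Finset.abs_sum_le_sum_abs _ _).trans ?_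
    rw [Finset.mul_sum]
    apply Finset.sum_le_sum
    intro l _
    rw [← inner_sub_right]
    exact abs_real_inner_le_norm _ _
  have h4 : (∑ l ∈ Finset.range q, d l) ^ 2 ≤ q * ∑ l ∈ Finset.range q, d l ^ 2 := by
    have := sq_sum_le_card_mul_sum_sq (s := Finset.range q) (f := d)
    rwa [Finset.card_range] at this
  have hbq : (2 : ℝ) ^ r / (L * 2 ^ L) * q ≤ 1 := by
    rw [rows_eq' hr, div_mul_eq_mul_div, div_le_one (by positivity)]
    have h5 : (0 : ℝ) < 2 ^ r := by positivity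
    have h6 : (0 : ℝ) < (q : ℝ) := by exact_mod_cast hq0
    nlinarith
  have hb0 : (0 : ℝ) ≤ 2 ^ r / (L * 2 ^ L) := by positivity
  have hS0 : 0 ≤ ∑ l ∈ Finset.range q, d l := Finset.sum_nonneg fun l _ => norm_nonneg _
  have h7 : √((2 : ℝ) ^ r / (L * 2 ^ L)) * ∑ l ∈ Finset.range q, d l ≤ ‖x‖ := by
    rw [← pow_le_pow_iff_left₀ (by positivity) (norm_nonneg _) two_ne_zero, mul_pow,
      Real.sq_sqrt hb0]
    calc (2 : ℝ) ^ r / (L * 2 ^ L) * (∑ l ∈ Finset.range q, d l) ^ 2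
        ≤ (2 : ℝ) ^ r / (L * 2 ^ L) * (q * ∑ l ∈ Finset.range q, d l ^ 2) :=
          mul_le_mul_of_nonneg_left h4 hb0
      _ = ((2 : ℝ) ^ r / (L * 2 ^ L) * q) * ∑ l ∈ Finset.range q, d l ^ 2 := by ring
      _ ≤ 1 * ‖x‖ ^ 2 := by
          apply mul_le_mul hbq h2' (Finset.sum_nonneg fun l _ => by positivity) zero_le_one
      _ = ‖x‖ ^ 2 := one_mul _
  rw [smul_eq_mul, Real.norm_eq_abs, abs_mul, abs_of_nonneg (Real.sqrt_nonneg _)]
  calc √((2 : ℝ) ^ r / (L * 2 ^ L)) * |∑ l ∈ Finset.range q,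
        ((inner ℝ w (x.p (τ ((2 * l + 1) * 2 ^ r + ρ))) : ℝ) -
          inner ℝ w (x.p (τ (2 * l * 2 ^ r + ρ))))|
      ≤ √((2 : ℝ) ^ r / (L * 2 ^ L)) * (‖w‖ * ∑ l ∈ Finset.range q, d l) :=
        mul_le_mul_of_nonneg_left h3 (Real.sqrt_nonneg _)
    _ = ‖w‖ * (√((2 : ℝ) ^ r / (L * 2 ^ L)) * ∑ l ∈ Finset.range q, d l) := by ring
    _ ≤ ‖w‖ * ‖x‖ := mul_le_mul_of_nonneg_left h7 (norm_nonneg _)

lemma inner_e_e {a b : ℕ} (h : a ≠ b) : inner ℝ (e a) (e b) = (0 : ℝ) := by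
  rw [inner_e, e_apply_ne h]

lemma inner_e_self (a : ℕ) : inner ℝ (e a) (e a) = (1 : ℝ) := by
  rw [inner_e, e_apply_self]

lemma norm_sq_sum_e (c : ℕ → ℝ) {ν : ℕ → ℕ} (s : Finset ℕ) (hν : Set.InjOn ν s) :
    ‖∑ j ∈ s, c j • e (ν j)‖ ^ 2 = ∑ j ∈ s, c j ^ 2 := by
  classical
  induction s using Finset.induction_on with
  | empty => simp
  | insert a s ha ih =>
    have h1 : Set.InjOn ν s := hν.mono (by simp)
    rw [Finset.sum_insert ha, Finset.sum_insert ha, norm_add_sq_real, ih h1, inner_sum]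
    have h2 : ∀ j ∈ s, inner ℝ (c a • e (ν a)) (c j • e (ν j)) = (0 : ℝ) := by
      intro j hj
      rw [inner_smul_left, inner_smul_right, inner_e_e, mul_zero, mul_zero]
      intro h
      have := hν (by simp) (by simp [hj]) h
      exact ha (this ▸ hj)
    rw [Finset.sum_eq_zero h2, norm_smul, norm_e, mul_one, Real.norm_eq_abs, sq_abs]
    ring

/-- the row vectors -/
noncomputable def vrow (L : ℕ) (ν : ℕ → ℕ) (i : ℕ) : H :=
  ∑ j ∈ Finset.range (L * 2 ^ L), aa L (j / 2 ^ L) (j % 2 ^ L) i • e (ν j)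

lemma norm_vrow {L : ℕ} (hL : 0 < L) {ν : ℕ → ℕ}
    (hν : Set.InjOn ν (Finset.range (L * 2 ^ L))) (i : ℕ) : ‖vrow L ν i‖ = 1 := by
  have h := norm_sq_sum_e (fun j => aa L (j / 2 ^ L) (j % 2 ^ L) i) _ hν
  rw [row_sum hL] at h
  have h1 : ‖vrow L ν i‖ ^ 2 = 1 := h
  exact (pow_eq_one_iff_of_nonneg (norm_nonneg _) two_ne_zero).1 h1

/-- the function -/
noncomputable def ff (L : ℕ) (ν : ℕ → ℕ) : XX :=
  ∑ i ∈ Finset.range (L * 2 ^ L), sfL (ν (L * 2 ^ L + i)) (vrow L ν i)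

theorem ff_lip {L : ℕ} (hL : 0 < L) {ν μ : ℕ → ℕ}
    (hν : Set.InjOn ν (Finset.range (L * 2 ^ L))) (hμ : Monotone μ) :
    ‖ff L ν - ff L μ‖ ≤ 2 * ∑ j ∈ Finset.range (L * 2 ^ L + L * 2 ^ L),
      (if ν j ≠ μ j then (1 : ℝ) else 0) := by
  set T := L * 2 ^ L with hT
  have h1 : ff L ν - ff L μ =
      ∑ i ∈ Finset.range T, (sfL (ν (T + i)) (vrow L ν i) - sfL (μ (T + i)) (vrow L ν i)) +
      ∑ j ∈ Finset.range T, ∑ i ∈ Finset.range T,
        aa L (j / 2 ^ L) (j % 2 ^ L) i • sfL (μ (T + i)) (e (ν j) - e (μ j)) := by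
    rw [Finset.sum_comm, Finset.sum_sub_distrib]
    have h2 : ∀ i, ∑ j ∈ Finset.range T,
        aa L (j / 2 ^ L) (j % 2 ^ L) i • sfL (μ (T + i)) (e (ν j) - e (μ j)) =
        sfL (μ (T + i)) (vrow L ν i) - sfL (μ (T + i)) (vrow L μ i) := by
      intro i
      rw [← map_sub, vrow, vrow, ← Finset.sum_sub_distrib, map_sum]
      apply Finset.sum_congr rfl
      intro j _
      rw [← smul_sub, map_smul]
    rw [Finset.sum_congr rfl fun i _ => h2 i, Finset.sum_sub_distrib]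
    unfold ff
    abel
  rw [h1, Finset.sum_range_add, mul_add, add_comm]
  apply (norm_add_le _ _).trans
  apply add_le_add
  · refine (norm_sum_le _ _).trans ?_
    rw [Finset.mul_sum]
    apply Finset.sum_le_sum
    intro j hj
    have hj' : j / 2 ^ L < L := by
      rw [Nat.div_lt_iff_lt_mul (by positivity)]
      exact Finset.mem_range.1 hj
    refine (norm_col_le hj' (j % 2 ^ L) (τ := fun i => μ (T + i))
      (fun a b hab => hμ (by omega)) _).trans ?_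
    by_cases h : ν j = μ j
    · rw [h, sub_self, norm_zero]
      simp
    · rw [if_pos h]
      have := norm_sub_le (e (ν j)) (e (μ j))
      rw [norm_e, norm_e] at this
      linarith
  · refine (norm_sum_le _ _).trans ?_
    rw [Finset.mul_sum]
    apply Finset.sum_le_sum
    intro i _
    by_cases h : ν (T + i) = μ (T + i)
    · rw [h, sub_self, norm_zero]
      simp
    · rw [if_pos h]
      have e1 := norm_sub_le (sfL (ν (T + i)) (vrow L ν i)) (sfL (μ (T + i)) (vrow L ν i))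
      have e2 := norm_sfL_le (ν (T + i)) (vrow L ν i)
      have e3 := norm_sfL_le (μ (T + i)) (vrow L ν i)
      rw [norm_vrow hL hν] at e2 e3
      linarith

end Pool.Agent.Helper68.Ic
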