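import Pool.Agent.Helper68.IcSpace

set_option autoImplicit false
set_option linter.unusedSectionVars false
open Topology Filter
open scoped ENNReal

namespace Pool.Agent.Helper68.Ic

namespace E

lemma mono_min (n : ℕ) : Monotone (fun t => min t n) := fun _ _ h => min_le_min_right n h
lemma mono_max (n : ℕ) : Monotone (fun t => max t n) := fun _ _ h => max_le_max_right n h

lemma vs_stop (n : ℕ) (x : E) (l : List ℕ) (hl : ch 0 l) :
    vs (fun t => x.p (min t n)) 0 l ≤ ‖x‖ ^ 2 := by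
  rw [vs_comp x.p (fun t => min t n)]
  have h := ch_map (mono_min n) l 0 hl
  have h0 : min 0 n = 0 := Nat.zero_min n
  simp only [h0] at h ⊢
  exact vs_le x h

lemma mem_stop (n : ℕ) (x : E) (t : ℕ) : x.p (min t n) ∈ VV t :=
  VV_mono (min_le_left t n) (x.p_mem _)

/-- stopping a path at time `n` -/
noncomputable def Tn (n : ℕ) : E →L[ℝ] E :=
  LinearMap.mkContinuous
    { toFun := fun x => mk' (fun t => x.p (min t n)) (mem_stop n x) (norm_nonneg x) (vs_stop n x)
      map_add' := fun _ _ => rfl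
      map_smul' := fun _ _ => rfl } 1 fun x => by
    rw [one_mul]; exact norm_mk' _ (mem_stop n x) (norm_nonneg x) (vs_stop n x)

lemma Tn_p (n : ℕ) (x : E) (t : ℕ) : (Tn n x).p t = x.p (min t n) := rfl

lemma norm_Tn_le (n : ℕ) (x : E) : ‖Tn n x‖ ≤ ‖x‖ :=
  norm_mk' _ (mem_stop n x) (norm_nonneg x) (vs_stop n x)

lemma sub_Tn_p (n : ℕ) (x : E) (t : ℕ) : (x - Tn n x).p t = x.p (max t n) - x.p n := by
  rw [p_sub, Pi.sub_apply, Tn_p]
  rcases le_total t n with h | h
  · rw [min_eq_left h, max_eq_right h, sub_self, sub_self]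
  · rw [min_eq_right h, max_eq_left h]

lemma vs_sub_Tn (n : ℕ) (x : E) (l : List ℕ) :
    vs (x - Tn n x).p 0 l = vs x.p n (l.map fun t => max t n) := by
  have h1 : (x - Tn n x).p = fun t => x.p (max t n) - x.p n := funext fun t => sub_Tn_p n x t
  rw [h1, vs_sub_const (fun t => x.p (max t n)) (x.p n), vs_comp x.p (fun t => max t n)]
  simp

lemma ch_max {l : List ℕ} (hl : ch 0 l) (n : ℕ) : ch n (l.map fun t => max t n) := by
  have h := ch_map (mono_max n) l 0 hl
  simpa using h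

/-- superadditivity -/
lemma norm_sq_Tn_add (n : ℕ) (x : E) : ‖Tn n x‖ ^ 2 + ‖x - Tn n x‖ ^ 2 ≤ ‖x‖ ^ 2 := by
  have key : ∀ l l', ch 0 l → ch 0 l' →
      vs (Tn n x).p 0 l + vs (x - Tn n x).p 0 l' ≤ ‖x‖ ^ 2 := by
    intro l l' hl hl'
    rw [vs_sub_Tn]
    have h1 : vs (Tn n x).p 0 l = vs x.p 0 (l.map fun t => min t n) := by
      have h2 : (Tn n x).p = fun t => x.p (min t n) := rfl
      rw [h2, vs_comp x.p (fun t => min t n)]
      simp
    rw [h1]
    have hc1 : ch 0 (l.map fun t => min t n) := by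
      have h := ch_map (mono_min n) l 0 hl
      simpa using h
    have hlst : lst 0 (l.map fun t => min t n) ≤ n := by
      have h := lst_map (g := fun t => min t n) l 0
      have h0 : min 0 n = 0 := Nat.zero_min n
      simp only [h0] at h
      rw [h]
      exact min_le_right _ _
    have hc : ch 0 ((l.map fun t => min t n) ++ (n :: l'.map fun t => max t n)) := by
      rw [ch_append]
      exact ⟨hc1, hlst, ch_max hl' n⟩
    have h3 := vs_le x hc
    rw [vs_append] at h3
    simp only [vs] at h3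
    nlinarith [sq_nonneg ‖x.p n - x.p (lst 0 (l.map fun t => min t n))‖]
  have h1 : ∀ l, ch 0 l → ‖x - Tn n x‖ ^ 2 ≤ ‖x‖ ^ 2 - vs (Tn n x).p 0 l := by
    intro l hl
    apply norm_sq_le
    · have := key l [] hl trivial
      simp only [vs] at this
      linarith
    · intro l' hl'
      linarith [key l l' hl hl']
  have h2 : ‖Tn n x‖ ^ 2 ≤ ‖x‖ ^ 2 - ‖x - Tn n x‖ ^ 2 := by
    apply norm_sq_le
    · have := h1 [] trivial
      simp only [vs] at this
      linarith
    · intro l hl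
      linarith [h1 l hl]
  linarith

lemma norm_sub_Tn_le (n : ℕ) (x : E) : ‖x - Tn n x‖ ≤ ‖x‖ := by
  have h := norm_sq_Tn_add n x
  have h1 : ‖x - Tn n x‖ ^ 2 ≤ ‖x‖ ^ 2 := by nlinarith [sq_nonneg ‖Tn n x‖]
  exact (pow_le_pow_iff_left₀ (norm_nonneg _) (norm_nonneg _) two_ne_zero).1 h1

/-- tails are small -/
lemma exists_tail (x : E) {ε : ℝ} (hε : 0 < ε) : ∃ n, ∀ m, n ≤ m → ‖x - Tn m x‖ ≤ ε := by
  obtain ⟨l, hl, hlt⟩ : ∃ l, ch 0 l ∧ ‖x‖ ^ 2 - ε ^ 2 < vs x.p 0 l := by
    by_contra hcon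
    push Not at hcon
    rcases le_total 0 (‖x‖ ^ 2 - ε ^ 2) with h | h
    · have := norm_sq_le h hcon
      nlinarith
    · have h1 := hcon [] trivial
      simp only [vs] at h1
      have h2 : ‖x‖ ^ 2 ≤ ‖x‖ ^ 2 - ε ^ 2 := norm_sq_le h1 hcon
      nlinarith
  refine ⟨lst 0 l, fun m hm => ?_⟩
  apply norm_le hε.le
  intro l' hl'
  rw [vs_sub_Tn]
  have hc : ch 0 (l ++ (m :: l'.map fun t => max t m)) := by
    rw [ch_append]
    exact ⟨hl, hm, ch_max hl' m⟩
  have h3 := vs_le x hc
  rw [vs_append] at h3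
  simp only [vs] at h3
  nlinarith [sq_nonneg ‖x.p m - x.p (lst 0 l)‖]

lemma tendsto_sub_Tn (x : E) : Tendsto (fun n => ‖x - Tn n x‖) atTop (𝓝 0) := by
  rw [Metric.tendsto_atTop]
  intro ε hε
  obtain ⟨n, hn⟩ := exists_tail x (ε := ε / 2) (by positivity)
  refine ⟨n, fun m hm => ?_⟩
  rw [Real.dist_eq, sub_zero, abs_of_nonneg (norm_nonneg _)]
  linarith [hn m hm]

lemma norm_p_sub_le (x : E) {m t : ℕ} (h : m ≤ t) : ‖x.p t - x.p m‖ ≤ ‖x - Tn m x‖ := by
  have h1 := norm_p_le (x - Tn m x) t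
  rwa [sub_Tn_p, max_eq_left h] at h1

lemma exists_lim (x : E) : ∃ y, Tendsto x.p atTop (𝓝 y) := by
  apply cauchySeq_tendsto_of_complete
  rw [Metric.cauchySeq_iff']
  intro ε hε
  obtain ⟨n, hn⟩ := exists_tail x (ε := ε / 2) (by positivity)
  refine ⟨n, fun m hm => ?_⟩
  rw [dist_eq_norm]
  have := (norm_p_sub_le x hm).trans (hn n (le_refl n))
  linarith

/-- the limit of a path -/
noncomputable def lim : E →L[ℝ] H :=
  LinearMap.mkContinuous
    { toFun := fun x => (exists_lim x).choose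
      map_add' := fun x y => tendsto_nhds_unique (exists_lim (x + y)).choose_spec
        ((exists_lim x).choose_spec.add (exists_lim y).choose_spec)
      map_smul' := fun c x => tendsto_nhds_unique (exists_lim (c • x)).choose_spec
        ((exists_lim x).choose_spec.const_smul c) } 1 fun x => by
    rw [one_mul]
    exact le_of_tendsto (exists_lim x).choose_spec.norm
      (Eventually.of_forall fun t => norm_p_le x t)

lemma tendsto_lim (x : E) : Tendsto x.p atTop (𝓝 (lim x)) := (exists_lim x).choose_spec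

lemma lim_eq {x : E} {y : H} {n : ℕ} (h : ∀ t, n ≤ t → x.p t = y) : lim x = y := by
  refine tendsto_nhds_unique (tendsto_lim x) ?_
  apply tendsto_const_nhds.congr'
  filter_upwards [eventually_ge_atTop n] with t ht
  exact (h t ht).symm

lemma vs_jump (n : ℕ) (w : H) : ∀ (l : List ℕ) (a : ℕ), ch a l →
    vs (fun t => if n ≤ t then w else 0) a l ≤ if n ≤ a then 0 else ‖w‖ ^ 2
  | [], a, _ => by
    simp only [vs]
    split_ifs
    · exact le_refl _
    · positivity
  | b :: l, a, h => by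
    have ih := vs_jump n w l b h.2
    simp only [vs]
    by_cases ha : n ≤ a
    · have hb : n ≤ b := ha.trans h.1
      rw [if_pos hb] at ih
      rw [if_pos ha, if_pos ha, if_pos hb, sub_self]
      simpa using ih
    · rw [if_neg ha, if_neg ha]
      by_cases hb : n ≤ b
      · rw [if_pos hb] at ih
        rw [if_pos hb, sub_zero]
        linarith
      · rw [if_neg hb] at ih
        rw [if_neg hb, sub_self]
        simpa using ih

lemma mem_jump (n : ℕ) (v : H) (t : ℕ) : (if n ≤ t then pr n v else 0) ∈ VV t := by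
  split_ifs with h
  · exact VV_mono h (pr_mem n v)
  · exact (VV t).zero_mem

lemma vs_jump' (n : ℕ) (v : H) (l : List ℕ) (hl : ch 0 l) :
    vs (fun t => if n ≤ t then pr n v else 0) 0 l ≤ ‖v‖ ^ 2 := by
  refine (vs_jump n (pr n v) l 0 hl).trans ?_
  split_ifs
  · positivity
  · exact pow_le_pow_left₀ (norm_nonneg _) (norm_pr_le n v) 2

/-- jump at time `n` -/
noncomputable def Cn (n : ℕ) : H →L[ℝ] E :=
  LinearMap.mkContinuous
    { toFun := fun v => mk' (fun t => if n ≤ t then pr n v else 0) (mem_jump n v) (norm_nonneg v)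
        (vs_jump' n v)
      map_add' := fun v w => by
        apply ext
        intro t
        show (if n ≤ t then pr n (v + w) else 0) =
          (if n ≤ t then pr n v else 0) + (if n ≤ t then pr n w else 0)
        split_ifs
        · exact map_add _ _ _
        · rw [add_zero]
      map_smul' := fun c v => by
        apply ext
        intro t
        show (if n ≤ t then pr n (c • v) else 0) = c • (if n ≤ t then pr n v else 0)
        split_ifs
        · exact map_smul _ _ _
        · rw [smul_zero] } 1 fun v => by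
    rw [one_mul]; exact norm_mk' _ (mem_jump n v) (norm_nonneg v) (vs_jump' n v)

lemma Cn_p (n : ℕ) (v : H) (t : ℕ) : (Cn n v).p t = if n ≤ t then pr n v else 0 := rfl

lemma norm_Cn_le (n : ℕ) (v : H) : ‖Cn n v‖ ≤ ‖v‖ :=
  norm_mk' _ (mem_jump n v) (norm_nonneg v) (vs_jump' n v)

lemma lim_Cn (n : ℕ) (v : H) : lim (Cn n v) = pr n v :=
  lim_eq (n := n) fun t ht => by rw [Cn_p, if_pos ht]

lemma p_sum (s : Finset ℕ) (u : ℕ → E) (t : ℕ) : (∑ i ∈ s, u i).p t = ∑ i ∈ s, (u i).p t := by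
  classical
  induction s using Finset.induction_on with
  | empty => simp
  | insert i s his ih => rw [Finset.sum_insert his, Finset.sum_insert his, p_add,
      Pi.add_apply, ih]

/-- decomposition of a stopped path into jumps -/
lemma Tn_eq_sum (n : ℕ) (x : E) :
    Tn n x = ∑ i ∈ Finset.range n, Cn (i + 1) (x.p (i + 1) - x.p i) := by
  apply ext
  intro t
  rw [p_sum, Tn_p]
  have h1 : ∀ i, (Cn (i + 1) (x.p (i + 1) - x.p i)).p t =
      if i + 1 ≤ t then x.p (i + 1) - x.p i else 0 := by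
    intro i
    rw [Cn_p, pr_self]
    exact (VV (i + 1)).sub_mem (x.p_mem _) (VV_mono (Nat.le_succ i) (x.p_mem _))
  simp_rw [h1]
  have h2 : ∀ m, ∑ i ∈ Finset.range m, (if i + 1 ≤ t then x.p (i + 1) - x.p i else 0) =
      x.p (min t m) := by
    intro m
    induction m with
    | zero => simp [p_at_zero]
    | succ m ih =>
      rw [Finset.sum_range_succ, ih]
      by_cases h : m + 1 ≤ t
      · rw [if_pos h, min_eq_right h, min_eq_right ((Nat.le_succ m).trans h)]
        abel
      · rw [if_neg h, add_zero, min_eq_left (by omega), min_eq_left (by omega)]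
  exact (h2 n).symm

end E

/-- point evaluations -/
noncomputable def sf (t : ℕ) (v : H) : StrongDual ℝ E := (innerSL ℝ v).comp (E.ev t)

lemma sf_apply (t : ℕ) (v : H) (x : E) : sf t v x = inner ℝ v (x.p t) := rfl

lemma sf_add (t : ℕ) (v w : H) : sf t (v + w) = sf t v + sf t w := by
  ext x
  rw [add_apply, sf_apply, sf_apply, sf_apply, inner_add_left]

lemma sf_smul (t : ℕ) (c : ℝ) (v : H) : sf t (c • v) = c • sf t v := by
  ext x
  rw [smul_apply, sf_apply, sf_apply, inner_smul_left]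
  rfl

/-- the predual -/
noncomputable def FF : Submodule ℝ (StrongDual ℝ E) :=
  (Submodule.span ℝ (Set.range fun q : ℕ × H => sf q.1 q.2)).topologicalClosure

lemma sf_mem (t : ℕ) (v : H) : sf t v ∈ FF :=
  Submodule.le_topologicalClosure _ (Submodule.subset_span ⟨(t, v), rfl⟩)

lemma FF_comp_Tn {φ : StrongDual ℝ E} (hφ : φ ∈ FF) {ε : ℝ} (hε : 0 < ε) :
    ∃ n, ∀ m, n ≤ m → ∀ x : E, |φ (x - E.Tn m x)| ≤ ε * ‖x‖ := by
  obtain ⟨ψ, hψ, hd⟩ := Metric.mem_closure_iff.1 hφ ε hε
  have h1 : ∃ n, ∀ m, n ≤ m → ∀ x : E, ψ (x - E.Tn m x) = 0 := by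
    refine Submodule.span_induction (p := fun ψ _ => ∃ n, ∀ m, n ≤ m → ∀ x : E,
      (ψ : StrongDual ℝ E) (x - E.Tn m x) = 0) ?_ ?_ ?_ ?_ hψ
    · rintro _ ⟨⟨t, v⟩, rfl⟩
      refine ⟨t, fun m hm x => ?_⟩
      show sf t v (x - E.Tn m x) = 0
      rw [sf_apply, E.sub_Tn_p, max_eq_right hm, sub_self, inner_zero_right]
    · exact ⟨0, fun m _ x => rfl⟩
    · rintro a b _ _ ⟨n, hn⟩ ⟨n', hn'⟩
      refine ⟨max n n', fun m hm x => ?_⟩
      rw [add_apply, hn m ((le_max_left _ _).trans hm) x,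
        hn' m ((le_max_right _ _).trans hm) x, add_zero]
    · rintro c a _ ⟨n, hn⟩
      refine ⟨n, fun m hm x => ?_⟩
      rw [smul_apply, hn m hm x, smul_zero]
  obtain ⟨n, hn⟩ := h1
  refine ⟨n, fun m hm x => ?_⟩
  have h2 : φ (x - E.Tn m x) = (φ - ψ) (x - E.Tn m x) := by
    rw [sub_apply, hn m hm x, sub_zero]
  rw [h2]
  calc |(φ - ψ) (x - E.Tn m x)| ≤ ‖φ - ψ‖ * ‖x - E.Tn m x‖ := (φ - ψ).le_opNorm _
    _ ≤ ε * ‖x‖ := by
        rw [dist_eq_norm] at hd
        exact mul_le_mul hd.le (E.norm_sub_Tn_le m x) (norm_nonneg _) hε.le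

end Pool.Agent.Helper68.Ic
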