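import Pool.Agent.Helper68.IcLip

set_option autoImplicit false
set_option linter.unusedSectionVars false
open Topology Filter
open scoped ENNReal

namespace Pool.Agent.Helper68.Ic

/-- the amplitudes of the test path -/
noncomputable def pp (L : ℕ) (α : ℝ) (i j : ℕ) : ℝ :=
  α * (√((2 : ℝ) ^ (j / 2 ^ L)))⁻¹ *
    (DD (j / 2 ^ L) ((i : ℝ) - ((j % 2 ^ L % 2 ^ (j / 2 ^ L) : ℕ) : ℝ)) -
      DD (j / 2 ^ L) (-((j % 2 ^ L % 2 ^ (j / 2 ^ L) : ℕ) : ℝ)))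

lemma pp_zero (L : ℕ) (α : ℝ) (j : ℕ) : pp L α 0 j = 0 := by
  unfold pp
  rw [Nat.cast_zero, zero_sub, sub_self, mul_zero]

lemma pp_sub (L : ℕ) (α : ℝ) (i i' j : ℕ) : pp L α i j - pp L α i' j =
    α * (√((2 : ℝ) ^ (j / 2 ^ L)))⁻¹ *
    (DD (j / 2 ^ L) ((i : ℝ) - ((j % 2 ^ L % 2 ^ (j / 2 ^ L) : ℕ) : ℝ)) -
      DD (j / 2 ^ L) ((i' : ℝ) - ((j % 2 ^ L % 2 ^ (j / 2 ^ L) : ℕ) : ℝ))) := by
  unfold pp
  ring

/-- the positions -/
noncomputable def YY (L : ℕ) (α : ℝ) (ν μ : ℕ → ℕ) (i : ℕ) : H :=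
  ∑ j ∈ Finset.range (L * 2 ^ L), pp L α i j • (e (ν j) - e (μ j))

lemma YY_zero (L : ℕ) (α : ℝ) (ν μ : ℕ → ℕ) : YY L α ν μ 0 = 0 := by
  unfold YY
  apply Finset.sum_eq_zero
  intro j _
  rw [pp_zero, zero_smul]

lemma sum_pp_sub_sq (L : ℕ) (α : ℝ) (i i' : ℕ) :
    ∑ j ∈ Finset.range (L * 2 ^ L), (pp L α i j - pp L α i' j) ^ 2 ≤
      4 * α ^ 2 * 2 ^ L * |(i : ℝ) - i'| := by
  rw [sum_range_mul', Finset.sum_comm]
  have h1 : ∀ σ ∈ Finset.range (2 ^ L), ∑ r ∈ Finset.range L,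
      (pp L α i (r * 2 ^ L + σ) - pp L α i' (r * 2 ^ L + σ)) ^ 2 ≤
        α ^ 2 * (4 * |(i : ℝ) - i'|) := by
    intro σ hσ
    have hσ' := Finset.mem_range.1 hσ
    have h2 : ∀ r, (pp L α i (r * 2 ^ L + σ) - pp L α i' (r * 2 ^ L + σ)) ^ 2 =
        α ^ 2 * ((DD r ((i : ℝ) - ((σ % 2 ^ r : ℕ) : ℝ)) -
          DD r ((i' : ℝ) - ((σ % 2 ^ r : ℕ) : ℝ))) ^ 2 / 2 ^ r) := by
      intro r
      have e1 : (r * 2 ^ L + σ) / 2 ^ L = r := by
        rw [mul_comm, Nat.mul_add_div (by positivity), Nat.div_eq_of_lt hσ', add_zero]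
      have e2 : (r * 2 ^ L + σ) % 2 ^ L = σ := by
        rw [mul_comm, Nat.mul_add_mod, Nat.mod_eq_of_lt hσ']
      rw [pp_sub, e1, e2, mul_pow, mul_pow, inv_pow, Real.sq_sqrt (by positivity)]
      field_simp
    rw [Finset.sum_congr rfl fun r _ => h2 r, ← Finset.mul_sum]
    apply mul_le_mul_of_nonneg_left _ (sq_nonneg α)
    apply dyadic_sum (abs_nonneg _)
    · intro r
      rw [div_le_iff₀ (by positivity)]
      have a1 := DD_nonneg r ((i : ℝ) - ((σ % 2 ^ r : ℕ) : ℝ))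
      have a2 := DD_nonneg r ((i' : ℝ) - ((σ % 2 ^ r : ℕ) : ℝ))
      have a3 := DD_le r ((i : ℝ) - ((σ % 2 ^ r : ℕ) : ℝ))
      have a4 := DD_le r ((i' : ℝ) - ((σ % 2 ^ r : ℕ) : ℝ))
      have a5 : (0 : ℝ) < 2 ^ r := by positivity
      nlinarith
    · intro r
      apply div_le_div_of_nonneg_right _ (by positivity)
      have h3 := DD_lip r ((i : ℝ) - ((σ % 2 ^ r : ℕ) : ℝ)) ((i' : ℝ) - ((σ % 2 ^ r : ℕ) : ℝ))
      rw [sub_sub_sub_cancel_right] at h3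
      have h4 := pow_le_pow_left₀ (abs_nonneg _) h3 2
      rwa [sq_abs] at h4
  refine (Finset.sum_le_sum h1).trans ?_
  rw [Finset.sum_const, Finset.card_range, nsmul_eq_mul]
  push_cast
  apply le_of_eq
  ring

lemma norm_YY_sub {L : ℕ} (α : ℝ) {ν μ : ℕ → ℕ}
    (hν : Set.InjOn ν (Finset.range (L * 2 ^ L))) (hμ : Set.InjOn μ (Finset.range (L * 2 ^ L)))
    (i i' : ℕ) :
    ‖YY L α ν μ i - YY L α ν μ i'‖ ^ 2 ≤ 16 * α ^ 2 * 2 ^ L * |(i : ℝ) - i'| := by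
  have h1 : YY L α ν μ i - YY L α ν μ i' =
      ∑ j ∈ Finset.range (L * 2 ^ L), (pp L α i j - pp L α i' j) • e (ν j) -
      ∑ j ∈ Finset.range (L * 2 ^ L), (pp L α i j - pp L α i' j) • e (μ j) := by
    unfold YY
    rw [← Finset.sum_sub_distrib, ← Finset.sum_sub_distrib]
    apply Finset.sum_congr rfl
    intro j _
    rw [← smul_sub, ← sub_smul]
  have h2 := norm_sq_sum_e (fun j => pp L α i j - pp L α i' j) _ hν
  have h3 := norm_sq_sum_e (fun j => pp L α i j - pp L α i' j) _ hμ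
  have h4 := sum_pp_sub_sq L α i i'
  rw [h1]
  have h5 := norm_sub_le (∑ j ∈ Finset.range (L * 2 ^ L), (pp L α i j - pp L α i' j) • e (ν j))
    (∑ j ∈ Finset.range (L * 2 ^ L), (pp L α i j - pp L α i' j) • e (μ j))
  have h6 := pow_le_pow_left₀ (norm_nonneg _) h5 2
  nlinarith [sq_nonneg (‖∑ j ∈ Finset.range (L * 2 ^ L), (pp L α i j - pp L α i' j) • e (ν j)‖ -
    ‖∑ j ∈ Finset.range (L * 2 ^ L), (pp L α i j - pp L α i' j) • e (μ j)‖)]

lemma vs_le_of {x : ℕ → H} {g : ℕ → ℝ} {c : ℝ}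
    (h : ∀ a b, a ≤ b → ‖x b - x a‖ ^ 2 ≤ c * (g b - g a)) : ∀ (l : List ℕ) (a : ℕ),
    ch a l → vs x a l ≤ c * (g (lst a l) - g a)
  | [], a, _ => by simp [vs, lst]
  | b :: l, a, hc => by
    have ih := vs_le_of h l b hc.2
    have h1 := h a b hc.1
    simp only [vs, lst]
    linarith

/-- the clock -/
def gg (ν : ℕ → ℕ) (T t : ℕ) : ℕ := ((Finset.Ico 1 T).filter fun i => ν (T + i) ≤ t).card

lemma gg_mono (ν : ℕ → ℕ) (T : ℕ) : Monotone (gg ν T) := by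
  intro a b hab
  apply Finset.card_le_card
  intro i hi
  rw [Finset.mem_filter] at hi ⊢
  exact ⟨hi.1, hi.2.trans hab⟩

lemma gg_le (ν : ℕ → ℕ) (T t : ℕ) : gg ν T t ≤ T := by
  refine (Finset.card_filter_le _ _).trans ?_
  rw [Nat.card_Ico]
  omega

lemma gg_eq {ν : ℕ → ℕ} {T t i : ℕ} (hν : Monotone ν) (hi : i < T) (h1 : ν (T + i) ≤ t)
    (h2 : i + 1 < T → t < ν (T + (i + 1))) : gg ν T t = i := by
  have h : (Finset.Ico 1 T).filter (fun i => ν (T + i) ≤ t) = Finset.Ico 1 (i + 1) := by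
    ext j
    rw [Finset.mem_filter, Finset.mem_Ico, Finset.mem_Ico]
    constructor
    · rintro ⟨⟨h3, h4⟩, h5⟩
      refine ⟨h3, ?_⟩
      by_contra hc
      push Not at hc
      have h6 := h2 (by omega)
      have h7 := hν (show T + (i + 1) ≤ T + j by omega)
      omega
    · rintro ⟨h3, h4⟩
      exact ⟨⟨h3, by omega⟩, (hν (show T + j ≤ T + i by omega)).trans h1⟩
  unfold gg
  rw [h, Nat.card_Ico]
  omega

section

variable {L : ℕ} {ν μ : ℕ → ℕ}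

/-- interlaced sequences -/
structure Inter (L : ℕ) (ν μ : ℕ → ℕ) : Prop where
  mono : Monotone ν
  lt : ∀ j, j < L * 2 ^ L + L * 2 ^ L → ν j < μ j
  lt' : ∀ j, j + 1 < L * 2 ^ L + L * 2 ^ L → μ j < ν (j + 1)

lemma Inter.ne (h : Inter L ν μ) {j j' : ℕ} (hj : j < L * 2 ^ L) (hj' : j' < L * 2 ^ L) :
    ν j ≠ μ j' := by
  rcases le_or_gt j j' with h1 | h1
  · have h2 := h.mono h1
    have h3 := h.lt j' (by omega)
    omega
  · have h2 := h.lt' j' (by omega)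
    have h3 := h.mono (show j' + 1 ≤ j by omega)
    omega

lemma Inter.inj (h : Inter L ν μ) : Set.InjOn ν (Finset.range (L * 2 ^ L)) := by
  intro a ha b hb hab
  rw [Finset.coe_range, Set.mem_Iio] at ha hb
  rcases lt_trichotomy a b with h1 | h1 | h1
  · have h2 := h.lt a (by omega)
    have h3 := h.lt' a (by omega)
    have h4 := h.mono (show a + 1 ≤ b by omega)
    omega
  · exact h1
  · have h2 := h.lt b (by omega)
    have h3 := h.lt' b (by omega)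
    have h4 := h.mono (show b + 1 ≤ a by omega)
    omega

lemma Inter.inj' (h : Inter L ν μ) : Set.InjOn μ (Finset.range (L * 2 ^ L)) := by
  intro a ha b hb hab
  rw [Finset.coe_range, Set.mem_Iio] at ha hb
  rcases lt_trichotomy a b with h1 | h1 | h1
  · have h2 := h.lt b (by omega)
    have h3 := h.lt' a (by omega)
    have h4 := h.mono (show a + 1 ≤ b by omega)
    omega
  · exact h1
  · have h2 := h.lt a (by omega)
    have h3 := h.lt' b (by omega)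
    have h4 := h.mono (show b + 1 ≤ a by omega)
    omega

lemma Inter.mem (h : Inter L ν μ) (α : ℝ) (t : ℕ) :
    YY L α ν μ (gg ν (L * 2 ^ L) t) ∈ VV t := by
  by_cases hg : gg ν (L * 2 ^ L) t = 0
  · rw [hg, YY_zero]
    exact (VV t).zero_mem
  · unfold gg at hg
    obtain ⟨i, hi⟩ := Finset.card_ne_zero.1 hg
    rw [Finset.mem_filter, Finset.mem_Ico] at hi
    obtain ⟨⟨hi1, hi2⟩, hi3⟩ := hi
    unfold YY
    apply Submodule.sum_mem
    intro j hj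
    have hj' := Finset.mem_range.1 hj
    apply Submodule.smul_mem
    have h1 := h.lt j (by omega)
    have h2 := h.lt' j (by omega)
    have h3 := h.mono (show j + 1 ≤ L * 2 ^ L + i by omega)
    apply Submodule.sub_mem
    · exact e_mem (by omega)
    · exact e_mem (by omega)

lemma Inter.vs_le (h : Inter L ν μ) {α : ℝ} (hα : 16 * α ^ 2 * 2 ^ L * (L * 2 ^ L) ≤ 1)
    (l : List ℕ) (hl : ch 0 l) :
    vs (fun t => YY L α ν μ (gg ν (L * 2 ^ L) t)) 0 l ≤ 1 ^ 2 := by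
  have h1 := vs_le_of (x := fun t => YY L α ν μ (gg ν (L * 2 ^ L) t))
    (g := fun t => (gg ν (L * 2 ^ L) t : ℝ)) (c := 16 * α ^ 2 * 2 ^ L) (by
      intro a b hab
      have h2 := norm_YY_sub α h.inj h.inj' (gg ν (L * 2 ^ L) b) (gg ν (L * 2 ^ L) a)
      have h3 : (gg ν (L * 2 ^ L) a : ℝ) ≤ gg ν (L * 2 ^ L) b := by
        exact_mod_cast gg_mono ν _ hab
      rwa [abs_of_nonneg (by linarith)] at h2) l 0 hl
  refine h1.trans ?_
  have h4 : (gg ν (L * 2 ^ L) (lst 0 l) : ℝ) - gg ν (L * 2 ^ L) 0 ≤ L * 2 ^ L := by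
    have h5 : (gg ν (L * 2 ^ L) (lst 0 l) : ℝ) ≤ ((L * 2 ^ L : ℕ) : ℝ) := by
      exact_mod_cast gg_le ν _ _
    push_cast at h5
    have h6 : (0 : ℝ) ≤ gg ν (L * 2 ^ L) 0 := Nat.cast_nonneg _
    linarith
  have h7 : (0 : ℝ) ≤ 16 * α ^ 2 * 2 ^ L := by positivity
  have h8 := mul_le_mul_of_nonneg_left h4 h7
  rw [one_pow]
  linarith

/-- the test path -/
noncomputable def Inter.path (h : Inter L ν μ) {α : ℝ}
    (hα : 16 * α ^ 2 * 2 ^ L * (L * 2 ^ L) ≤ 1) : E :=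
  E.mk' (fun t => YY L α ν μ (gg ν (L * 2 ^ L) t)) (h.mem α) zero_le_one (h.vs_le hα)

lemma Inter.norm_path_le (h : Inter L ν μ) {α : ℝ}
    (hα : 16 * α ^ 2 * 2 ^ L * (L * 2 ^ L) ≤ 1) : ‖h.path hα‖ ≤ 1 :=
  E.norm_mk' _ (h.mem α) zero_le_one (h.vs_le hα)

lemma Inter.path_ν (h : Inter L ν μ) {α : ℝ}
    (hα : 16 * α ^ 2 * 2 ^ L * (L * 2 ^ L) ≤ 1) {i : ℕ} (hi : i < L * 2 ^ L) :
    (h.path hα).p (ν (L * 2 ^ L + i)) = YY L α ν μ i := by
  show YY L α ν μ (gg ν (L * 2 ^ L) (ν (L * 2 ^ L + i))) = YY L α ν μ i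
  rw [gg_eq h.mono hi (le_refl _)]
  intro h1
  have h2 := h.lt (L * 2 ^ L + i) (by omega)
  have h3 := h.lt' (L * 2 ^ L + i) (by omega)
  have h4 : L * 2 ^ L + (i + 1) = L * 2 ^ L + i + 1 := by ring
  rw [h4]
  omega

lemma Inter.path_μ (h : Inter L ν μ) {α : ℝ}
    (hα : 16 * α ^ 2 * 2 ^ L * (L * 2 ^ L) ≤ 1) {i : ℕ} (hi : i < L * 2 ^ L) :
    (h.path hα).p (μ (L * 2 ^ L + i)) = YY L α ν μ i := by
  show YY L α ν μ (gg ν (L * 2 ^ L) (μ (L * 2 ^ L + i))) = YY L α ν μ i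
  rw [gg_eq h.mono hi (h.lt _ (by omega)).le]
  intro h1
  have h3 := h.lt' (L * 2 ^ L + i) (by omega)
  have h4 : L * 2 ^ L + (i + 1) = L * 2 ^ L + i + 1 := by ring
  rw [h4]
  exact h3

lemma Inter.inner_ν (h : Inter L ν μ) (α : ℝ) (i : ℕ) {j : ℕ} (hj : j < L * 2 ^ L) :
    inner ℝ (e (ν j)) (YY L α ν μ i) = pp L α i j := by
  unfold YY
  rw [inner_sum, Finset.sum_eq_single j]
  · rw [inner_smul_right, inner_sub_right, inner_e_self, inner_e_e (h.ne hj hj), sub_zero, mul_one]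
  · intro j' hj' hne
    rw [inner_smul_right, inner_sub_right, inner_e_e (h.ne hj (Finset.mem_range.1 hj')),
      inner_e_e, sub_zero, mul_zero]
    intro h1
    exact hne (h.inj (Finset.mem_coe.2 (Finset.mem_range.2 hj)) (Finset.mem_coe.2 hj') h1).symm
  · intro h1
    exact absurd (Finset.mem_range.2 hj) h1

lemma Inter.inner_μ (h : Inter L ν μ) (α : ℝ) (i : ℕ) {j : ℕ} (hj : j < L * 2 ^ L) :
    inner ℝ (e (μ j)) (YY L α ν μ i) = -pp L α i j := by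
  unfold YY
  rw [inner_sum, Finset.sum_eq_single j]
  · rw [inner_smul_right, inner_sub_right, inner_e_self, inner_e_e (h.ne hj hj).symm]
    ring
  · intro j' hj' hne
    rw [inner_smul_right, inner_sub_right, inner_e_e (h.ne (Finset.mem_range.1 hj') hj).symm,
      inner_e_e, sub_zero, mul_zero]
    intro h1
    exact hne (h.inj' (Finset.mem_coe.2 (Finset.mem_range.2 hj)) (Finset.mem_coe.2 hj') h1).symm
  · intro h1
    exact absurd (Finset.mem_range.2 hj) h1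

/-- the pairing -/
noncomputable def SS (L : ℕ) (α : ℝ) : ℝ :=
  ∑ i ∈ Finset.range (L * 2 ^ L), ∑ j ∈ Finset.range (L * 2 ^ L),
    aa L (j / 2 ^ L) (j % 2 ^ L) i * pp L α i j

lemma Inter.ff_ν (h : Inter L ν μ) {α : ℝ}
    (hα : 16 * α ^ 2 * 2 ^ L * (L * 2 ^ L) ≤ 1) : inX (ff L ν) (h.path hα) = SS L α := by
  unfold ff SS
  rw [map_sum, sum_apply]
  apply Finset.sum_congr rfl
  intro i hi
  rw [inX_sfL_apply, h.path_ν hα (Finset.mem_range.1 hi)]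
  unfold vrow
  rw [sum_inner]
  apply Finset.sum_congr rfl
  intro j hj
  rw [real_inner_smul_left, h.inner_ν α i (Finset.mem_range.1 hj)]

lemma Inter.ff_μ (h : Inter L ν μ) {α : ℝ}
    (hα : 16 * α ^ 2 * 2 ^ L * (L * 2 ^ L) ≤ 1) : inX (ff L μ) (h.path hα) = -SS L α := by
  unfold ff SS
  rw [map_sum, sum_apply, ← Finset.sum_neg_distrib]
  apply Finset.sum_congr rfl
  intro i hi
  rw [inX_sfL_apply, h.path_μ hα (Finset.mem_range.1 hi)]
  unfold vrow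
  rw [sum_inner, ← Finset.sum_neg_distrib]
  apply Finset.sum_congr rfl
  intro j hj
  rw [real_inner_smul_left, h.inner_μ α i (Finset.mem_range.1 hj)]
  ring

end

lemma SS_eq {L : ℕ} (hL : 0 < L) (α : ℝ) :
    SS L α = (L * 2 ^ L) * (α * (√((L : ℝ) * 2 ^ L) / 2)) := by
  unfold SS
  rw [Finset.sum_comm]
  have hT : (0 : ℝ) < (L : ℝ) * 2 ^ L := by positivity
  have h1 : ∀ j ∈ Finset.range (L * 2 ^ L), ∑ i ∈ Finset.range (L * 2 ^ L),
      aa L (j / 2 ^ L) (j % 2 ^ L) i * pp L α i j = α * (√((L : ℝ) * 2 ^ L) / 2) := by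
    intro j hj
    have hr : j / 2 ^ L < L := by
      rw [Nat.div_lt_iff_lt_mul (by positivity)]
      exact Finset.mem_range.1 hj
    set r := j / 2 ^ L with hrdef
    set q := L * 2 ^ (L - r - 1) with hq
    have h2 : ∑ i ∈ Finset.range (L * 2 ^ L), aa L r (j % 2 ^ L) i * pp L α i j =
        ∑ i ∈ Finset.range (2 * q * 2 ^ r), aa L r (j % 2 ^ L) i • pp L α i j := by
      rw [rows_eq hr]
      rfl
    rw [h2, col_sum]
    have h3 : ∀ l ∈ Finset.range q, pp L α ((2 * l + 1) * 2 ^ r + j % 2 ^ L % 2 ^ r) j -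
        pp L α (2 * l * 2 ^ r + j % 2 ^ L % 2 ^ r) j = α * (√((2 : ℝ) ^ r))⁻¹ * 2 ^ r := by
      intro l _
      rw [pp_sub, ← hrdef]
      have e1 : (((2 * l + 1) * 2 ^ r + j % 2 ^ L % 2 ^ r : ℕ) : ℝ) -
          ((j % 2 ^ L % 2 ^ r : ℕ) : ℝ) = ((2 * l + 1 : ℕ) : ℝ) * 2 ^ r := by
        push_cast
        ring
      have e2 : ((2 * l * 2 ^ r + j % 2 ^ L % 2 ^ r : ℕ) : ℝ) -
          ((j % 2 ^ L % 2 ^ r : ℕ) : ℝ) = ((2 * l : ℕ) : ℝ) * 2 ^ r := by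
        push_cast
        ring
      rw [e1, e2, DD_odd, DD_even, sub_zero]
    rw [Finset.sum_congr rfl h3, Finset.sum_const, Finset.card_range, nsmul_eq_mul, smul_eq_mul,
      Real.sqrt_div (by positivity)]
    have h4 := rows_eq' hr
    have h5 : (q : ℝ) * 2 ^ r = (L : ℝ) * 2 ^ L / 2 := by
      rw [h4]
      ring
    have h6 : √((2 : ℝ) ^ r) ≠ 0 := by positivity
    have h7 : √((L : ℝ) * 2 ^ L) ≠ 0 := by positivity
    have h8 : √((L : ℝ) * 2 ^ L) ^ 2 = (L : ℝ) * 2 ^ L := Real.sq_sqrt hT.le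
    have h9 : √((2 : ℝ) ^ r) / √((L : ℝ) * 2 ^ L) * ((q : ℝ) * (α * (√((2 : ℝ) ^ r))⁻¹ * 2 ^ r)) =
        α * ((q : ℝ) * 2 ^ r) / √((L : ℝ) * 2 ^ L) := by
      field_simp
    rw [h9, h5]
    nth_rewrite 1 [← h8]
    field_simp
  rw [Finset.sum_congr rfl h1, Finset.sum_const, Finset.card_range, nsmul_eq_mul]
  push_cast
  ring

theorem lower {L : ℕ} (hL : 0 < L) {ν μ : ℕ → ℕ} (h : Inter L ν μ) :
    √((L : ℝ) * 2 ^ L) * √L / 4 ≤ ‖ff L ν - ff L μ‖ := by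
  have hL' : (0 : ℝ) < L := by exact_mod_cast hL
  have hN : (0 : ℝ) < 2 ^ L := by positivity
  set T : ℝ := (L : ℝ) * 2 ^ L with hT
  have hT0 : 0 < T := by positivity
  set α : ℝ := 1 / (4 * (√(2 ^ L) * √T)) with hαdef
  have hsN : √((2 : ℝ) ^ L) ^ 2 = 2 ^ L := Real.sq_sqrt hN.le
  have hsT : √T ^ 2 = T := Real.sq_sqrt hT0.le
  have hsN0 : 0 < √((2 : ℝ) ^ L) := Real.sqrt_pos.2 hN
  have hsT0 : 0 < √T := Real.sqrt_pos.2 hT0
  have hα2 : α ^ 2 = 1 / (16 * (2 ^ L * T)) := by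
    rw [hαdef, div_pow, mul_pow, mul_pow, hsN, hsT]
    norm_num
  have hα : 16 * α ^ 2 * 2 ^ L * ((L : ℝ) * 2 ^ L) ≤ 1 := by
    rw [hα2, ← hT]
    apply le_of_eq
    field_simp
  have h1 : inX (ff L ν - ff L μ) (h.path hα) = 2 * SS L α := by
    rw [map_sub, sub_apply, h.ff_ν hα, h.ff_μ hα]
    ring
  have h2 : inX (ff L ν - ff L μ) (h.path hα) ≤ ‖ff L ν - ff L μ‖ := by
    have h3 := (inX (ff L ν - ff L μ)).le_opNorm (h.path hα)
    rw [norm_inX] at h3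
    have h4 := mul_le_mul_of_nonneg_left (h.norm_path_le hα) (norm_nonneg (ff L ν - ff L μ))
    rw [mul_one] at h4
    exact (le_abs_self _).trans (h3.trans h4)
  rw [h1, SS_eq hL, ← hT] at h2
  refine le_trans (le_of_eq ?_) h2
  have h5 : T = √T * (√L * √((2 : ℝ) ^ L)) := by
    rw [← Real.sqrt_mul hL'.le, ← hT, ← sq, hsT]
  rw [hαdef]
  have h6 : 2 * (T * (1 / (4 * (√(2 ^ L) * √T)) * (√T / 2))) = T / (4 * √(2 ^ L)) := by
    field_simp
  rw [h6]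
  nth_rewrite 2 [h5]
  field_simp

end Pool.Agent.Helper68.Ic
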