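import Pool.Agent.Helper68.IcVar

set_option autoImplicit false
set_option linter.unusedSectionVars false
open Topology Filter
open scoped ENNReal

namespace Pool.Agent.Helper68.Ic

/-- the Hilbert space `ℓ²` -/
abbrev H : Type := lp (fun _ : ℕ => ℝ) 2

/-- the coordinate vectors -/
noncomputable def e (n : ℕ) : H := lp.single 2 n (1 : ℝ)

lemma e_apply_self (n : ℕ) : (e n : ℕ → ℝ) n = 1 := lp.single_apply_self 2 n 1

lemma e_apply_ne {n i : ℕ} (h : i ≠ n) : (e n : ℕ → ℝ) i = 0 := lp.single_apply_ne 2 n 1 h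

lemma norm_e (n : ℕ) : ‖e n‖ = 1 := by
  unfold e
  rw [lp.norm_single (by norm_num)]
  simp

lemma inner_e (n : ℕ) (v : H) : inner ℝ (e n) v = v n := by
  unfold e
  rw [lp.inner_single_left]
  simp

/-- the subspace of the first `t` coordinates -/
def VV (t : ℕ) : Submodule ℝ H where
  carrier := {v | ∀ i, t ≤ i → v i = 0}
  add_mem' := by
    intro v w hv hw i hi
    rw [lp.coeFn_add, Pi.add_apply, hv i hi, hw i hi, add_zero]
  zero_mem' := by
    intro i _
    rfl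
  smul_mem' := by
    intro c v hv i hi
    rw [lp.coeFn_smul, Pi.smul_apply, hv i hi, smul_zero]

lemma mem_VV {t : ℕ} {v : H} : v ∈ VV t ↔ ∀ i, t ≤ i → v i = 0 := Iff.rfl

lemma VV_mono {s t : ℕ} (h : s ≤ t) : VV s ≤ VV t := fun _ hv i hi => hv i (h.trans hi)

lemma VV_zero {v : H} (hv : v ∈ VV 0) : v = 0 := by
  apply lp.ext
  funext i
  exact hv i (Nat.zero_le _)

lemma e_mem {n t : ℕ} (h : n < t) : e n ∈ VV t := fun i hi =>
  e_apply_ne (by omega)

instance (t : ℕ) : FiniteDimensional ℝ (VV t) := by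
  let L : VV t →ₗ[ℝ] (Fin t → ℝ) :=
    { toFun := fun v i => (v : H) i
      map_add' := fun v w => by funext i; rfl
      map_smul' := fun c v => by funext i; rfl }
  apply FiniteDimensional.of_injective L
  intro v w h
  apply Subtype.ext
  apply lp.ext
  funext i
  by_cases hi : i < t
  · exact congrFun h ⟨i, hi⟩
  · rw [v.2 i (not_lt.1 hi), w.2 i (not_lt.1 hi)]

lemma VV_dense : ⊤ ≤ (⨆ t, VV t).topologicalClosure := by
  intro v _
  have h := lp.hasSum_single (p := 2) (by norm_num) v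
  refine mem_closure_of_tendsto h (Eventually.of_forall fun s => ?_)
  refine Submodule.sum_mem _ fun i _ => ?_
  refine Submodule.mem_iSup_of_mem (i + 1) ?_
  intro j hj
  exact lp.single_apply_ne 2 i _ (by omega)

/-- projection onto the first coordinates -/
noncomputable def pr (t : ℕ) : H →L[ℝ] H := (VV t).starProjection

lemma pr_mem (t : ℕ) (v : H) : pr t v ∈ VV t := Submodule.starProjection_apply_mem _ v

lemma pr_self {t : ℕ} {v : H} (h : v ∈ VV t) : pr t v = v :=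
  Submodule.starProjection_eq_self_iff.2 h

lemma norm_pr_le (t : ℕ) (v : H) : ‖pr t v‖ ≤ ‖v‖ := Submodule.norm_starProjection_apply_le _ v

lemma tendsto_pr (v : H) : Tendsto (fun t => pr t v) atTop (𝓝 v) :=
  Submodule.starProjection_tendsto_self VV (fun _ _ h => VV_mono h) v VV_dense

/-- paths of finite 2-variation -/
def ES : Submodule ℝ (ℕ → H) where
  carrier := {x | (∀ t, x t ∈ VV t) ∧ ∃ C, ∀ l, ch 0 l → √(vs x 0 l) ≤ C}
  add_mem' := by
    rintro x y ⟨h1, C, h2⟩ ⟨h3, D, h4⟩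
    exact ⟨fun t => (VV t).add_mem (h1 t) (h3 t), C + D, fun l hl =>
      (sqrt_vs_add x y l 0).trans (add_le_add (h2 l hl) (h4 l hl))⟩
  zero_mem' := by
    refine ⟨fun t => (VV t).zero_mem, 0, fun l _ => ?_⟩
    have h : vs (0 : ℕ → H) 0 l = 0 := by
      have := vs_smul 0 (0 : ℕ → H) l 0
      simpa using this
    rw [h, Real.sqrt_zero]
  smul_mem' := by
    rintro c x ⟨h1, C, h2⟩
    refine ⟨fun t => (VV t).smul_mem c (h1 t), |c| * C, fun l hl => ?_⟩
    rw [vs_smul, Real.sqrt_mul (sq_nonneg c), Real.sqrt_sq_eq_abs]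
    exact mul_le_mul_of_nonneg_left (h2 l hl) (abs_nonneg c)

/-- the Banach space of paths -/
def E : Type := ↥ES

namespace E

noncomputable instance : AddCommGroup E := inferInstanceAs (AddCommGroup ↥ES)
noncomputable instance : Module ℝ E := inferInstanceAs (Module ℝ ↥ES)

/-- the underlying path -/
def p (x : E) : ℕ → H := x.1

lemma ext {x y : E} (h : ∀ t, x.p t = y.p t) : x = y := Subtype.ext (funext h)

@[simp] lemma p_add (x y : E) : (x + y).p = x.p + y.p := rfl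
@[simp] lemma p_sub (x y : E) : (x - y).p = x.p - y.p := rfl
@[simp] lemma p_neg (x : E) : (-x).p = -x.p := rfl
@[simp] lemma p_zero : (0 : E).p = 0 := rfl
@[simp] lemma p_smul (c : ℝ) (x : E) : (c • x).p = c • x.p := rfl

lemma p_mem (x : E) (t : ℕ) : x.p t ∈ VV t := x.2.1 t

lemma p_at_zero (x : E) : x.p 0 = 0 := VV_zero (x.p_mem 0)

/-- all values -/
def vals (x : E) : Set ℝ := {r | ∃ l, ch 0 l ∧ r = √(vs x.p 0 l)}

lemma vals_bdd (x : E) : BddAbove (vals x) := by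
  obtain ⟨_, C, hC⟩ := x.2
  refine ⟨C, ?_⟩
  rintro r ⟨l, hl, rfl⟩
  exact hC l hl

lemma vals_ne (x : E) : (vals x).Nonempty := ⟨_, [], trivial, rfl⟩

/-- the norm -/
noncomputable def nrm (x : E) : ℝ := sSup (vals x)

lemma sqrt_le_nrm (x : E) {l : List ℕ} (hl : ch 0 l) : √(vs x.p 0 l) ≤ nrm x :=
  le_csSup (vals_bdd x) ⟨l, hl, rfl⟩

lemma nrm_nonneg (x : E) : 0 ≤ nrm x := by
  have := sqrt_le_nrm x (l := []) trivial
  exact (Real.sqrt_nonneg _).trans this

lemma nrm_le {x : E} {C : ℝ} (h : ∀ l, ch 0 l → √(vs x.p 0 l) ≤ C) : nrm x ≤ C := by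
  apply csSup_le (vals_ne x)
  rintro r ⟨l, hl, rfl⟩
  exact h l hl

lemma norm_p_le_nrm (x : E) (t : ℕ) : ‖x.p t‖ ≤ nrm x := by
  have h := sqrt_le_nrm x (l := [t]) ⟨Nat.zero_le _, trivial⟩
  simp only [vs] at h
  rw [p_at_zero, sub_zero, add_zero, Real.sqrt_sq (norm_nonneg _)] at h
  exact h

/-- the norm as a group norm -/
noncomputable def gn : AddGroupNorm E where
  toFun := nrm
  map_zero' := by
    apply le_antisymm _ (nrm_nonneg 0)
    apply nrm_le
    intro l _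
    have h : vs (0 : E).p 0 l = 0 := by
      have := vs_smul 0 (0 : ℕ → H) l 0
      simpa using this
    rw [h, Real.sqrt_zero]
  add_le' x y := by
    apply nrm_le
    intro l hl
    exact (sqrt_vs_add x.p y.p l 0).trans (add_le_add (sqrt_le_nrm x hl) (sqrt_le_nrm y hl))
  neg' x := by
    apply le_antisymm
    · apply nrm_le
      intro l hl
      rw [p_neg, vs_neg]
      exact sqrt_le_nrm x hl
    · apply nrm_le
      intro l hl
      have := sqrt_le_nrm (-x) hl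
      rwa [p_neg, vs_neg] at this
  eq_zero_of_map_eq_zero' x h := by
    apply ext
    intro t
    have h1 := norm_p_le_nrm x t
    rw [h] at h1
    exact norm_le_zero_iff.1 h1

noncomputable instance : NormedAddCommGroup E := AddGroupNorm.toNormedAddCommGroup gn

lemma norm_def (x : E) : ‖x‖ = nrm x := rfl

lemma vs_le (x : E) {l : List ℕ} (hl : ch 0 l) : vs x.p 0 l ≤ ‖x‖ ^ 2 := by
  have h := sqrt_le_nrm x hl
  rw [← norm_def] at h
  calc vs x.p 0 l = √(vs x.p 0 l) ^ 2 := (Real.sq_sqrt (vs_nonneg _ _ _)).symm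
    _ ≤ ‖x‖ ^ 2 := pow_le_pow_left₀ (Real.sqrt_nonneg _) h 2

lemma norm_le {x : E} {C : ℝ} (hC : 0 ≤ C) (h : ∀ l, ch 0 l → vs x.p 0 l ≤ C ^ 2) : ‖x‖ ≤ C :=
  nrm_le fun l hl => Real.sqrt_le_iff.2 ⟨hC, h l hl⟩

lemma norm_sq_le {x : E} {C : ℝ} (hC : 0 ≤ C) (h : ∀ l, ch 0 l → vs x.p 0 l ≤ C) :
    ‖x‖ ^ 2 ≤ C := by
  have h1 : ‖x‖ ≤ √C := norm_le (Real.sqrt_nonneg _) fun l hl => by
    rw [Real.sq_sqrt hC]; exact h l hl
  calc ‖x‖ ^ 2 ≤ √C ^ 2 := pow_le_pow_left₀ (norm_nonneg _) h1 2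
    _ = C := Real.sq_sqrt hC

noncomputable instance : NormedSpace ℝ E where
  norm_smul_le c x := by
    apply norm_le (by positivity)
    intro l hl
    rw [p_smul, vs_smul, mul_pow, Real.norm_eq_abs, sq_abs]
    exact mul_le_mul_of_nonneg_left (vs_le x hl) (sq_nonneg c)

lemma norm_p_le (x : E) (t : ℕ) : ‖x.p t‖ ≤ ‖x‖ := norm_p_le_nrm x t

lemma vs_le' (x : E) {a : ℕ} {l : List ℕ} (hl : ch a l) : ‖x.p a‖ ^ 2 + vs x.p a l ≤ ‖x‖ ^ 2 := by
  have h := vs_le x (l := a :: l) ⟨Nat.zero_le _, hl⟩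
  simp only [vs] at h
  rwa [p_at_zero, sub_zero] at h

/-- constructor -/
def mk' (x : ℕ → H) (h1 : ∀ t, x t ∈ VV t) {C : ℝ} (hC : 0 ≤ C)
    (h2 : ∀ l, ch 0 l → vs x 0 l ≤ C ^ 2) : E :=
  ⟨x, h1, C, fun l hl => Real.sqrt_le_iff.2 ⟨hC, h2 l hl⟩⟩

lemma p_mk' (x : ℕ → H) (h1 : ∀ t, x t ∈ VV t) {C : ℝ} (hC : 0 ≤ C)
    (h2 : ∀ l, ch 0 l → vs x 0 l ≤ C ^ 2) : (mk' x h1 hC h2).p = x := rfl

lemma norm_mk' (x : ℕ → H) (h1 : ∀ t, x t ∈ VV t) {C : ℝ} (hC : 0 ≤ C)
    (h2 : ∀ l, ch 0 l → vs x 0 l ≤ C ^ 2) : ‖mk' x h1 hC h2‖ ≤ C := norm_le hC h2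

/-- evaluation at a time -/
noncomputable def ev (t : ℕ) : E →L[ℝ] H :=
  LinearMap.mkContinuous
    { toFun := fun x => x.p t
      map_add' := fun _ _ => rfl
      map_smul' := fun _ _ => rfl } 1 fun x => by
    rw [one_mul]; exact norm_p_le x t

lemma ev_apply (t : ℕ) (x : E) : ev t x = x.p t := rfl

instance : CompleteSpace E := by
  apply Metric.complete_of_cauchySeq_tendsto
  intro u hu
  have h1 : ∀ t, ∃ y, Tendsto (fun n => (u n).p t) atTop (𝓝 y) := by
    intro t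
    have h2 : CauchySeq (fun n => (u n).p t) := (ev t).uniformContinuous.comp_cauchySeq hu
    exact cauchySeq_tendsto_of_complete h2
  choose y hy using h1
  have hmem : ∀ t, y t ∈ VV t := fun t =>
    (Submodule.closed_of_finiteDimensional (VV t)).mem_of_tendsto (hy t)
      (Eventually.of_forall fun n => (u n).p_mem t)
  obtain ⟨R, hR⟩ := hu.norm_bddAbove
  have hR' : ∀ n, ‖u n‖ ≤ R := fun n => hR ⟨n, rfl⟩
  have hR0 : 0 ≤ R := (norm_nonneg _).trans (hR' 0)
  have hvs : ∀ l, ch 0 l → vs y 0 l ≤ R ^ 2 := by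
    intro l hl
    refine le_of_tendsto (continuous_vs hy l 0) (Eventually.of_forall fun n => ?_)
    exact (vs_le (u n) hl).trans (pow_le_pow_left₀ (norm_nonneg _) (hR' n) 2)
  refine ⟨mk' y hmem hR0 hvs, ?_⟩
  rw [Metric.tendsto_atTop]
  intro ε hε
  obtain ⟨N, hN⟩ := Metric.cauchySeq_iff.1 hu (ε / 2) (by positivity)
  refine ⟨N, fun n hn => ?_⟩
  rw [dist_eq_norm]
  refine lt_of_le_of_lt ?_ (half_lt_self hε)
  apply norm_le (by positivity)
  intro l hl
  have h3 : ∀ t, Tendsto (fun m => (u n - u m).p t) atTop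
      (𝓝 ((u n - mk' y hmem hR0 hvs).p t)) := by
    intro t
    exact tendsto_const_nhds.sub (hy t)
  refine le_of_tendsto (continuous_vs h3 l 0) ?_
  filter_upwards [eventually_ge_atTop N] with m hm
  refine (vs_le (u n - u m) hl).trans (pow_le_pow_left₀ (norm_nonneg _) ?_ 2)
  have := hN n hn m hm
  rw [dist_eq_norm] at this
  exact this.le

end E

end Pool.Agent.Helper68.Ic
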