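import Mathlib

set_option autoImplicit false
set_option linter.unusedSectionVars false
open Topology Filter

namespace Pool.Agent.Helper68.Ic

/-- increasing lists of times starting at `a` -/
def ch : ℕ → List ℕ → Prop
  | _, [] => True
  | a, b :: l => a ≤ b ∧ ch b l

/-- last time -/
def lst : ℕ → List ℕ → ℕ
  | a, [] => a
  | _, b :: l => lst b l

lemma le_lst : ∀ (l : List ℕ) (a : ℕ), ch a l → a ≤ lst a l
  | [], _, _ => le_refl _
  | _ :: l, _, h => h.1.trans (le_lst l _ h.2)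

lemma ch_append : ∀ (l : List ℕ) (a : ℕ) (l' : List ℕ), ch a (l ++ l') ↔ ch a l ∧ ch (lst a l) l'
  | [], a, l' => by simp [ch, lst]
  | b :: l, a, l' => by
    simp only [List.cons_append, ch, lst]
    rw [ch_append l b l', and_assoc]

lemma ch_map {g : ℕ → ℕ} (hg : Monotone g) : ∀ (l : List ℕ) (a : ℕ), ch a l → ch (g a) (l.map g)
  | [], _, _ => trivial
  | _ :: l, _, h => ⟨hg h.1, ch_map hg l _ h.2⟩

lemma lst_map {g : ℕ → ℕ} : ∀ (l : List ℕ) (a : ℕ), lst (g a) (l.map g) = g (lst a l)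
  | [], _ => rfl
  | _ :: l, _ => lst_map l _

lemma ch_of_le : ∀ (l : List ℕ) (a b : ℕ), b ≤ a → ch a l → ch b l
  | [], _, _, _, _ => trivial
  | _ :: _, _, _, h, h' => ⟨h.trans h'.1, h'.2⟩

section

variable {H : Type*} [NormedAddCommGroup H] [NormedSpace ℝ H]

/-- sum of the squared increments along a list of times -/
def vs (x : ℕ → H) : ℕ → List ℕ → ℝ
  | _, [] => 0
  | a, b :: l => ‖x b - x a‖ ^ 2 + vs x b l

lemma vs_nonneg (x : ℕ → H) : ∀ (l : List ℕ) (a : ℕ), 0 ≤ vs x a l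
  | [], _ => le_refl _
  | _ :: l, _ => add_nonneg (by positivity) (vs_nonneg x l _)

lemma vs_append (x : ℕ → H) : ∀ (l : List ℕ) (a : ℕ) (l' : List ℕ),
    vs x a (l ++ l') = vs x a l + vs x (lst a l) l'
  | [], a, l' => by simp [vs, lst]
  | b :: l, a, l' => by
    simp only [List.cons_append, vs, lst]
    rw [vs_append x l b l']
    ring

lemma vs_smul (c : ℝ) (x : ℕ → H) : ∀ (l : List ℕ) (a : ℕ), vs (c • x) a l = c ^ 2 * vs x a l
  | [], _ => by simp [vs]
  | b :: l, a => by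
    simp only [vs]
    rw [vs_smul c x l b, Pi.smul_apply, Pi.smul_apply, ← smul_sub, norm_smul, mul_pow,
      Real.norm_eq_abs, sq_abs]
    ring

lemma vs_neg (x : ℕ → H) (l : List ℕ) (a : ℕ) : vs (-x) a l = vs x a l := by
  have h : -x = (-1 : ℝ) • x := by simp
  rw [h, vs_smul]
  ring

lemma vs_comp (x : ℕ → H) (g : ℕ → ℕ) : ∀ (l : List ℕ) (a : ℕ),
    vs (fun t => x (g t)) a l = vs x (g a) (l.map g)
  | [], _ => rfl
  | b :: l, a => by
    simp only [List.map_cons, vs]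
    rw [vs_comp x g l b]

lemma vs_sub_const (x : ℕ → H) (v : H) : ∀ (l : List ℕ) (a : ℕ),
    vs (fun t => x t - v) a l = vs x a l
  | [], _ => rfl
  | b :: l, a => by
    simp only [vs]
    rw [vs_sub_const x v l b, sub_sub_sub_cancel_right]

lemma hypot_add {a b A B c C : ℝ} (ha : 0 ≤ a) (hb : 0 ≤ b) (hA : 0 ≤ A) (hB : 0 ≤ B)
    (hc : 0 ≤ c) (hC : 0 ≤ C) (h1 : c ≤ a + b) (h2 : √C ≤ √A + √B) :
    √(c ^ 2 + C) ≤ √(a ^ 2 + A) + √(b ^ 2 + B) := by
  have e1 : C ≤ (√A + √B) ^ 2 := by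
    rw [← Real.sq_sqrt hC]
    exact pow_le_pow_left₀ (Real.sqrt_nonneg _) h2 2
  have e2 : c ^ 2 ≤ (a + b) ^ 2 := pow_le_pow_left₀ hc h1 2
  have e3 : a * b + √A * √B ≤ √(a ^ 2 + A) * √(b ^ 2 + B) := by
    rw [← Real.sqrt_mul (show 0 ≤ a ^ 2 + A by positivity)]
    apply Real.le_sqrt_of_sq_le
    have h3 : √A ^ 2 = A := Real.sq_sqrt hA
    have h4 : √B ^ 2 = B := Real.sq_sqrt hB
    nlinarith [sq_nonneg (a * √B - b * √A)]
  apply Real.sqrt_le_iff.2
  refine ⟨by positivity, ?_⟩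
  have h5 : √(a ^ 2 + A) ^ 2 = a ^ 2 + A := Real.sq_sqrt (by positivity)
  have h6 : √(b ^ 2 + B) ^ 2 = b ^ 2 + B := Real.sq_sqrt (by positivity)
  have h3 : √A ^ 2 = A := Real.sq_sqrt hA
  have h4 : √B ^ 2 = B := Real.sq_sqrt hB
  nlinarith

lemma sqrt_vs_add (x y : ℕ → H) : ∀ (l : List ℕ) (a : ℕ),
    √(vs (x + y) a l) ≤ √(vs x a l) + √(vs y a l)
  | [], _ => by simp [vs]
  | b :: l, a => by
    simp only [vs]
    apply hypot_add (norm_nonneg _) (norm_nonneg _) (vs_nonneg _ _ _) (vs_nonneg _ _ _)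
      (norm_nonneg _) (vs_nonneg _ _ _) _ (sqrt_vs_add x y l b)
    have h : (x + y) b - (x + y) a = (x b - x a) + (y b - y a) := by
      rw [Pi.add_apply, Pi.add_apply]; abel
    rw [h]
    exact norm_add_le _ _

lemma continuous_vs {α : Type*} [TopologicalSpace α] {f : α → ℕ → H} {F : Filter α} {x : ℕ → H}
    (h : ∀ t, Tendsto (fun i => f i t) F (𝓝 (x t))) : ∀ (l : List ℕ) (a : ℕ),
      Tendsto (fun i => vs (f i) a l) F (𝓝 (vs x a l))
  | [], _ => tendsto_const_nhds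
  | b :: l, a => by
    simp only [vs]
    exact (((h b).sub (h a)).norm.pow 2).add (continuous_vs h l b)

/-- increments along a monotone sequence of times -/
lemma vs_map_range (x : ℕ → H) : ∀ (n : ℕ) (τ : ℕ → ℕ),
    vs x (τ 0) ((List.range n).map fun i => τ (i + 1)) =
      ∑ i ∈ Finset.range n, ‖x (τ (i + 1)) - x (τ i)‖ ^ 2
  | 0, _ => by simp [vs]
  | n + 1, τ => by
    rw [List.range_succ_eq_map, List.map_cons, List.map_map]
    have h := vs_map_range x n (fun i => τ (i + 1))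
    simp only [vs]
    rw [Finset.sum_range_succ']
    have h2 : ((fun i => τ (i + 1)) ∘ Nat.succ) = fun i => τ (i + 1 + 1) := by
      funext i; rfl
    rw [h2, zero_add, h, add_comm]

lemma ch_map_range : ∀ (n : ℕ) (τ : ℕ → ℕ), Monotone τ →
    ch (τ 0) ((List.range n).map fun i => τ (i + 1))
  | 0, _, _ => trivial
  | n + 1, τ, h => by
    rw [List.range_succ_eq_map, List.map_cons, List.map_map]
    refine ⟨h (Nat.zero_le _), ?_⟩
    exact ch_map_range n (fun i => τ (i + 1)) (fun i j hij => h (Nat.succ_le_succ hij))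

/-- bonus for the last time -/
def vl (x : ℕ → H) : ℕ → List ℕ → ℝ
  | a, [] => 2 * ‖x a‖ ^ 2
  | a, b :: l => ‖x b - x a‖ ^ 2 + vl x b l

lemma vl_nonneg (x : ℕ → H) : ∀ (l : List ℕ) (a : ℕ), 0 ≤ vl x a l
  | [], _ => by simp only [vl]; positivity
  | _ :: l, _ => add_nonneg (by positivity) (vl_nonneg x l _)

lemma vl_eq (x : ℕ → H) : ∀ (l : List ℕ) (a : ℕ), vl x a l = vs x a l + 2 * ‖x (lst a l)‖ ^ 2
  | [], _ => by simp [vl, vs, lst]
  | b :: l, a => by
    simp only [vl, vs, lst]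
    rw [vl_eq x l b]
    ring

/-- a functional bounded by the block norm -/
def WB (x : ℕ → H) (B : ℝ) : Prop := ∀ a l, ch a l → 2 * ‖x a‖ ^ 2 + vl x a l ≤ B

lemma vl_congr {x y : ℕ → H} {m : ℕ} (h : ∀ t, m ≤ t → x t = y t) : ∀ (l : List ℕ) (a : ℕ),
    m ≤ a → ch a l → vl x a l = vl y a l
  | [], a, ha, _ => by simp only [vl]; rw [h a ha]
  | b :: l, a, ha, hc => by
    simp only [vl]
    rw [h a ha, h b (ha.trans hc.1), vl_congr h l b (ha.trans hc.1) hc.2]

lemma WB_add {x y : ℕ → H} {m : ℕ} {B B' : ℝ} (hx : ∀ t, m ≤ t → x t = 0)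
    (hy : ∀ t, t ≤ m → y t = 0) (h1 : WB x B) (h2 : WB y B') : WB (x + y) (B + B') := by
  have hB : 0 ≤ B := by
    have := h1 0 [] trivial
    simp only [vl] at this
    nlinarith [sq_nonneg ‖x 0‖]
  have hB' : 0 ≤ B' := by
    have := h2 0 [] trivial
    simp only [vl] at this
    nlinarith [sq_nonneg ‖y 0‖]
  have key : ∀ (l : List ℕ) (a : ℕ), a ≤ m → ch a l →
      ∃ l1, ch a l1 ∧ vl (x + y) a l ≤ vl x a l1 + B' := by
    intro l
    induction l with
    | nil =>
      intro a ha _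
      refine ⟨[], trivial, ?_⟩
      simp only [vl]
      rw [Pi.add_apply, hy a ha, add_zero]
      linarith
    | cons b l ih =>
      intro a ha hc
      by_cases hb : b ≤ m
      · obtain ⟨l1, hl1, hle⟩ := ih b hb hc.2
        refine ⟨b :: l1, ⟨hc.1, hl1⟩, ?_⟩
        simp only [vl]
        rw [Pi.add_apply, Pi.add_apply, hy a ha, hy b hb, add_zero, add_zero]
        linarith
      · push Not at hb
        refine ⟨[], trivial, ?_⟩
        simp only [vl]
        have e1 : vl (x + y) b l = vl y b l :=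
          vl_congr (m := m) (fun t ht => by rw [Pi.add_apply, hx t ht, zero_add]) l b hb.le hc.2
        rw [e1, Pi.add_apply, Pi.add_apply, hy a ha, hx b hb.le, add_zero, zero_add]
        have e2 := h2 b l hc.2
        have e3 : ‖y b - x a‖ ^ 2 ≤ 2 * ‖y b‖ ^ 2 + 2 * ‖x a‖ ^ 2 := by
          have h3 := norm_sub_le (y b) (x a)
          have h4 := pow_le_pow_left₀ (norm_nonneg _) h3 2
          nlinarith [sq_nonneg (‖y b‖ - ‖x a‖)]
        linarith
  intro a l hc
  by_cases ha : a ≤ m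
  · obtain ⟨l1, hl1, hle⟩ := key l a ha hc
    rw [Pi.add_apply, hy a ha, add_zero]
    linarith [h1 a l1 hl1]
  · push Not at ha
    have e1 : vl (x + y) a l = vl y a l :=
      vl_congr (m := m) (fun t ht => by rw [Pi.add_apply, hx t ht, zero_add]) l a ha.le hc
    rw [e1, Pi.add_apply, hx a ha.le, zero_add]
    linarith [h2 a l hc]

end

end Pool.Agent.Helper68.Ic
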