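import Mathlib

set_option autoImplicit false
open Real MeasureTheory Filter Topology

namespace Pool.Agent.Helper68.Riesz

/-- unnormalised Fourier coefficient on `[0, 2π]` -/
noncomputable def fc (f : ℝ → ℂ) (n : ℤ) : ℂ :=
  ∫ x in (0 : ℝ)..2 * π, Complex.exp (-(n : ℂ) * Complex.I * (x : ℂ)) * f x

/-- smooth and `2π`-periodic -/
def SP (f : ℝ → ℂ) : Prop :=
  ContDiff ℝ ((⊤ : ℕ∞) : WithTop ℕ∞) f ∧ Function.Periodic f (2 * π)

/-- weighted bound on the negative Fourier coefficients -/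
def NB (k : ℕ) (f : ℝ → ℂ) (C : ℝ) : Prop :=
  ∀ n : ℕ, 1 ≤ n → (n : ℝ) ^ k * ‖fc f (-(n : ℤ))‖ ≤ C

lemma SP.continuous {f : ℝ → ℂ} (hf : SP f) : Continuous f := hf.1.continuous

lemma SP.add {f g : ℝ → ℂ} (hf : SP f) (hg : SP g) : SP (fun x => f x + g x) :=
  ⟨hf.1.add hg.1, fun x => by simp [hf.2 x, hg.2 x]⟩

lemma SP.sub {f g : ℝ → ℂ} (hf : SP f) (hg : SP g) : SP (fun x => f x - g x) :=
  ⟨hf.1.sub hg.1, fun x => by simp [hf.2 x, hg.2 x]⟩

lemma SP.mul {f g : ℝ → ℂ} (hf : SP f) (hg : SP g) : SP (fun x => f x * g x) :=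
  ⟨hf.1.mul hg.1, fun x => by simp [hf.2 x, hg.2 x]⟩

lemma SP.const (c : ℂ) : SP (fun _ => c) :=
  ⟨contDiff_const, fun _ => rfl⟩

lemma SP.pow {f : ℝ → ℂ} (hf : SP f) (m : ℕ) : SP (fun x => f x ^ m) :=
  ⟨hf.1.pow m, fun x => by simp [hf.2 x]⟩

lemma SP.sum {ι : Type*} (s : Finset ι) {f : ι → ℝ → ℂ} (hf : ∀ i ∈ s, SP (f i)) :
    SP (fun x => ∑ i ∈ s, f i x) :=
  ⟨ContDiff.sum fun i hi => (hf i hi).1, fun x =>
    Finset.sum_congr rfl fun i hi => (hf i hi).2 x⟩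

lemma SP.inv {f : ℝ → ℂ} (hf : SP f) (h0 : ∀ x, f x ≠ 0) : SP (fun x => (f x)⁻¹) :=
  ⟨hf.1.inv h0, fun x => by simp [hf.2 x]⟩

lemma SP.div {f g : ℝ → ℂ} (hf : SP f) (hg : SP g) (h0 : ∀ x, g x ≠ 0) :
    SP (fun x => f x / g x) := by
  have := hf.mul (hg.inv h0)
  simpa [div_eq_mul_inv] using this

lemma SP.deriv {f : ℝ → ℂ} (hf : SP f) : SP (deriv f) := by
  refine ⟨?_, ?_⟩
  · have h := hf.1
    have h2 : ContDiff ℝ (((⊤ : ℕ∞) : WithTop ℕ∞) + 1) f := by simpa using h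
    exact (contDiff_succ_iff_deriv.1 h2).2.2
  · intro x
    have : (fun y => f (y + 2 * π)) = f := funext hf.2
    rw [← deriv_comp_add_const, this]

lemma cexp_int_two_pi (n : ℤ) : Complex.exp ((n : ℂ) * Complex.I * (2 * π : ℝ)) = 1 := by
  have := Complex.exp_int_mul_two_pi_mul_I n
  rw [← this]
  congr 1
  push_cast
  ring

/-- the exponential `e^{ilx}` is in the class -/
lemma SP.e (l : ℤ) : SP (fun x => Complex.exp ((l : ℂ) * Complex.I * (x : ℂ))) := by
  refine ⟨?_, ?_⟩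
  · apply ContDiff.cexp
    apply ContDiff.mul contDiff_const
    exact Complex.ofRealCLM.contDiff
  · intro x
    have : ((l : ℂ) * Complex.I * ((x + 2 * π : ℝ) : ℂ)) =
        (l : ℂ) * Complex.I * (x : ℂ) + (l : ℂ) * Complex.I * (2 * π : ℝ) := by
      push_cast; ring
    simp only [this, Complex.exp_add, cexp_int_two_pi, mul_one]

lemma norm_cexp_int (l : ℤ) (x : ℝ) :
    ‖Complex.exp ((l : ℂ) * Complex.I * (x : ℂ))‖ = 1 := by
  have : ((l : ℂ) * Complex.I * (x : ℂ)) = ((l * x : ℝ) : ℂ) * Complex.I := by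
    push_cast; ring
  rw [this, Complex.norm_exp_ofReal_mul_I]

lemma norm_cexp_neg_int (n : ℤ) (x : ℝ) :
    ‖Complex.exp (-(n : ℂ) * Complex.I * (x : ℂ))‖ = 1 := by
  have := norm_cexp_int (-n) x
  simpa using this

lemma continuous_cexp_neg (n : ℤ) :
    Continuous (fun x : ℝ => Complex.exp (-(n : ℂ) * Complex.I * (x : ℂ))) := by
  fun_prop

lemma norm_fc_le {f : ℝ → ℂ} {C : ℝ} (h : ∀ x, ‖f x‖ ≤ C) (n : ℤ) :
    ‖fc f n‖ ≤ 2 * π * C := by
  unfold fc
  have := intervalIntegral.norm_integral_le_of_norm_le_const (a := 0) (b := 2 * π) (C := C)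
    (f := fun x : ℝ => Complex.exp (-(n : ℂ) * Complex.I * (x : ℂ)) * f x) ?_
  · refine this.trans (le_of_eq ?_)
    rw [sub_zero, abs_of_pos (by positivity)]; ring
  · intro x _
    rw [norm_mul, norm_cexp_neg_int, one_mul]
    exact h x

lemma fc_int {f : ℝ → ℂ} (hf : Continuous f) (n : ℤ) :
    IntervalIntegrable (fun x : ℝ => Complex.exp (-(n : ℂ) * Complex.I * (x : ℂ)) * f x)
      volume 0 (2 * π) :=
  ((continuous_cexp_neg n).mul hf).intervalIntegrable _ _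

lemma fc_add {f g : ℝ → ℂ} (hf : Continuous f) (hg : Continuous g) (n : ℤ) :
    fc (fun x => f x + g x) n = fc f n + fc g n := by
  unfold fc
  rw [← intervalIntegral.integral_add (fc_int hf n) (fc_int hg n)]
  simp only [mul_add]

lemma fc_sub {f g : ℝ → ℂ} (hf : Continuous f) (hg : Continuous g) (n : ℤ) :
    fc (fun x => f x - g x) n = fc f n - fc g n := by
  unfold fc
  rw [← intervalIntegral.integral_sub (fc_int hf n) (fc_int hg n)]
  simp only [mul_sub]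

lemma fc_const_mul (c : ℂ) (f : ℝ → ℂ) (n : ℤ) :
    fc (fun x => c * f x) n = c * fc f n := by
  unfold fc
  rw [← intervalIntegral.integral_const_mul]
  congr 1
  ext x
  ring

lemma fc_sum {ι : Type*} (s : Finset ι) {f : ι → ℝ → ℂ} (hf : ∀ i ∈ s, Continuous (f i))
    (n : ℤ) : fc (fun x => ∑ i ∈ s, f i x) n = ∑ i ∈ s, fc (f i) n := by
  unfold fc
  rw [← intervalIntegral.integral_finsetSum (fun i hi => fc_int (hf i hi) n)]
  simp only [Finset.mul_sum]

/-- multiplication by `e^{ilx}` shifts the coefficients -/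
lemma fc_e_mul (l : ℤ) (f : ℝ → ℂ) (n : ℤ) :
    fc (fun x => Complex.exp ((l : ℂ) * Complex.I * (x : ℂ)) * f x) n = fc f (n - l) := by
  unfold fc
  congr 1
  ext x
  rw [← mul_assoc, ← Complex.exp_add]
  congr 2
  push_cast
  ring

lemma fc_deriv {f : ℝ → ℂ} (hf : SP f) (n : ℤ) :
    fc (deriv f) n = (n : ℂ) * Complex.I * fc f n := by
  have hd : ∀ x, HasDerivAt f (deriv f x) x := fun x =>
    (hf.1.differentiable (by simp) x).hasDerivAt
  have he : ∀ x : ℝ, HasDerivAt (fun x : ℝ => Complex.exp (-(n : ℂ) * Complex.I * (x : ℂ)))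
      (-(n : ℂ) * Complex.I * Complex.exp (-(n : ℂ) * Complex.I * (x : ℂ))) x := by
    intro x
    have h1 : HasDerivAt (fun x : ℝ => (-(n : ℂ) * Complex.I * (x : ℂ)))
        (-(n : ℂ) * Complex.I) x := by
      have := (Complex.ofRealCLM.hasDerivAt (x := x)).const_mul (-(n : ℂ) * Complex.I)
      simpa using this
    have := h1.cexp
    convert this using 1
    ring
  unfold fc
  have hc1 : Continuous (deriv f) := hf.deriv.continuous
  rw [intervalIntegral.integral_mul_deriv_eq_deriv_mul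
    (u := fun x : ℝ => Complex.exp (-(n : ℂ) * Complex.I * (x : ℂ))) (v := f)
    (u' := fun x : ℝ => -(n : ℂ) * Complex.I * Complex.exp (-(n : ℂ) * Complex.I * (x : ℂ)))
    (v' := deriv f) (fun x _ => he x) (fun x _ => hd x)
    (Continuous.intervalIntegrable (by fun_prop) _ _)
    (hc1.intervalIntegrable _ _)]
  have h2 : f (2 * π) = f 0 := by simpa using hf.2 0
  have h3 : Complex.exp (-(n : ℂ) * Complex.I * ((2 * π : ℝ) : ℂ)) = 1 := by
    have := cexp_int_two_pi (-n)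
    simpa using this
  rw [h2, h3]
  simp only [Complex.ofReal_zero, mul_zero, Complex.exp_zero, one_mul, sub_self, zero_sub]
  rw [← intervalIntegral.integral_neg, ← intervalIntegral.integral_const_mul]
  congr 1
  ext x
  ring

lemma SP.bounded {f : ℝ → ℂ} (hf : SP f) : ∃ C, 0 ≤ C ∧ ∀ x, ‖f x‖ ≤ C := by
  obtain ⟨C, hC⟩ := (isCompact_Icc (a := (0:ℝ)) (b := 2 * π)).exists_bound_of_continuousOn
    hf.continuous.continuousOn
  refine ⟨C, (norm_nonneg _).trans (hC 0 ⟨le_rfl, by positivity⟩), fun x => ?_⟩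
  obtain ⟨y, hy, hxy⟩ := hf.2.exists_mem_Ico₀ (by positivity) x
  rw [hxy]
  exact hC y ⟨hy.1, hy.2.le⟩

/-- rapid decay of the Fourier coefficients of smooth periodic functions -/
lemma SP.decay (k : ℕ) : ∀ {f : ℝ → ℂ}, SP f →
    ∃ C, 0 ≤ C ∧ ∀ n : ℤ, |(n : ℝ)| ^ k * ‖fc f n‖ ≤ C := by
  induction k with
  | zero =>
    intro f hf
    obtain ⟨C, hC0, hC⟩ := hf.bounded
    exact ⟨2 * π * C, by positivity, fun n => by simpa using norm_fc_le hC n⟩
  | succ k ih =>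
    intro f hf
    obtain ⟨C, hC0, hC⟩ := ih hf.deriv
    refine ⟨C, hC0, fun n => ?_⟩
    have := hC n
    rw [fc_deriv hf n] at this
    have h2 : ‖(n : ℂ) * Complex.I * fc f n‖ = |(n : ℝ)| * ‖fc f n‖ := by
      rw [norm_mul, norm_mul, Complex.norm_I, mul_one]
      congr 1
      simp
    rw [h2] at this
    calc |(n : ℝ)| ^ (k + 1) * ‖fc f n‖ = |(n : ℝ)| ^ k * (|(n : ℝ)| * ‖fc f n‖) := by ring
      _ ≤ C := this

end Pool.Agent.Helper68.Riesz
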