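import Pool.Agent.Helper68.RieszTrunc

set_option autoImplicit false
open Real MeasureTheory Filter Topology

namespace Pool.Agent.Helper68.Riesz

/-- smooth functions vanishing on `[1,∞)` -/
def CS (S : ℝ → ℂ) : Prop :=
  ContDiff ℝ ((⊤ : ℕ∞) : WithTop ℕ∞) S ∧ ∀ t, 1 ≤ t → S t = 0

lemma CS.deriv {S : ℝ → ℂ} (hS : CS S) : CS (deriv S) := by
  have h2 : ContDiff ℝ (((⊤ : ℕ∞) : WithTop ℕ∞) + 1) S := by simpa using hS.1
  have hc := (contDiff_succ_iff_deriv.1 h2).2.2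
  refine ⟨hc, ?_⟩
  -- derivative vanishes on the open half line, hence on the closed one by continuity
  have h3 : ∀ t, 1 < t → _root_.deriv S t = 0 := by
    intro t ht
    have : S =ᶠ[𝓝 t] fun _ => 0 := by
      filter_upwards [lt_mem_nhds ht] with y hy
      exact hS.2 y hy.le
    rw [this.deriv_eq]
    simp
  intro t ht
  have hcl : IsClosed {s | _root_.deriv S s = 0} := isClosed_eq hc.continuous continuous_const
  have hsub : Set.Ioi (1 : ℝ) ⊆ {s | _root_.deriv S s = 0} := fun s hs => h3 s hs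
  have : closure (Set.Ioi (1 : ℝ)) ⊆ {s | _root_.deriv S s = 0} := hcl.closure_subset_iff.2 hsub
  rw [closure_Ioi] at this
  exact this ht

lemma CS.bounded {S : ℝ → ℂ} (hS : CS S) : ∃ C, 0 ≤ C ∧ ∀ t, -1 ≤ t → ‖S t‖ ≤ C := by
  obtain ⟨C, hC⟩ := (isCompact_Icc (a := (-1 : ℝ)) (b := 1)).exists_bound_of_continuousOn
    hS.1.continuous.continuousOn
  have hC0 : 0 ≤ C := (norm_nonneg _).trans (hC 0 ⟨by norm_num, by norm_num⟩)
  refine ⟨C, hC0, fun t ht => ?_⟩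
  by_cases h : t ≤ 1
  · exact hC t ⟨ht, h⟩
  · rw [hS.2 t (by linarith)]; simpa using hC0

/-- the localised function -/
noncomputable def F (m : ℕ) (q S : ℝ → ℂ) (μ : ℝ) (x : ℝ) : ℂ :=
  (1 - ez x) ^ m * q x * S (μ * (1 - Real.cos x) - 1)

lemma SP.F (m : ℕ) {q S : ℝ → ℂ} (hq : SP q) (hS : CS S) (μ : ℝ) : SP (F m q S μ) := by
  have h1 : SP (fun x => S (μ * (1 - Real.cos x) - 1)) := by
    refine ⟨?_, fun x => by simp [Real.cos_add_two_pi]⟩
    apply hS.1.comp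
    exact ((contDiff_const.mul (contDiff_const.sub Real.contDiff_cos))).sub contDiff_const
  exact ((((SP.const 1).sub SP.ez).pow m).mul hq).mul h1

lemma norm_one_sub_ez_sq (x : ℝ) : ‖1 - ez x‖ ^ 2 = 2 * (1 - Real.cos x) := by
  have h1 : ez x = Complex.exp ((x : ℂ) * Complex.I) := by
    unfold ez; rw [mul_comm]
  rw [← Complex.normSq_eq_norm_sq, Complex.normSq_apply, h1]
  simp only [Complex.sub_re, Complex.one_re, Complex.exp_ofReal_mul_I_re, Complex.sub_im,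
    Complex.one_im, Complex.exp_ofReal_mul_I_im]
  have := Real.sin_sq_add_cos_sq x
  nlinarith

lemma norm_one_sub_ez_le (x : ℝ) : ‖1 - ez x‖ ≤ 2 := by
  calc ‖1 - ez x‖ ≤ ‖(1 : ℂ)‖ + ‖ez x‖ := norm_sub_le _ _
    _ = 2 := by rw [norm_one, norm_ez]; norm_num

lemma F_sup (m r : ℕ) (hmr : 2 * r ≤ m) {q S : ℝ → ℂ} (hq : SP q) (hS : CS S) :
    ∃ C, 0 ≤ C ∧ ∀ μ : ℝ, 1 ≤ μ → ∀ x, ‖F m q S μ x‖ ≤ C / μ ^ r := by
  obtain ⟨Q, hQ0, hQ⟩ := hq.bounded
  obtain ⟨D, hD0, hD⟩ := hS.bounded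
  refine ⟨4 ^ r * 2 ^ (m - 2 * r) * Q * D, by positivity, fun μ hμ x => ?_⟩
  have hμ0 : 0 < μ := by linarith
  by_cases hx : 1 ≤ μ * (1 - Real.cos x) - 1
  · unfold F
    rw [hS.2 _ hx, mul_zero, norm_zero]
    positivity
  · push Not at hx
    have hcos : Real.cos x ≤ 1 := Real.cos_le_one x
    have h1 : ‖1 - ez x‖ ^ 2 ≤ 4 / μ := by
      rw [norm_one_sub_ez_sq, le_div_iff₀ hμ0]
      nlinarith
    have h2 : ‖1 - ez x‖ ^ m ≤ (4 / μ) ^ r * 2 ^ (m - 2 * r) := by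
      calc ‖1 - ez x‖ ^ m = (‖1 - ez x‖ ^ 2) ^ r * ‖1 - ez x‖ ^ (m - 2 * r) := by
            rw [← pow_mul, ← pow_add]; congr 1; omega
        _ ≤ (4 / μ) ^ r * 2 ^ (m - 2 * r) := by
            gcongr
            exact norm_one_sub_ez_le x
    unfold F
    rw [norm_mul, norm_mul, norm_pow]
    have h3 : ‖S (μ * (1 - Real.cos x) - 1)‖ ≤ D := hD _ (by nlinarith)
    calc ‖1 - ez x‖ ^ m * ‖q x‖ * ‖S (μ * (1 - Real.cos x) - 1)‖
        ≤ ((4 / μ) ^ r * 2 ^ (m - 2 * r)) * Q * D := by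
          gcongr
          exact hQ x
      _ = 4 ^ r * 2 ^ (m - 2 * r) * Q * D / μ ^ r := by
          rw [div_pow]; ring

lemma hasDerivAt_ez (x : ℝ) : HasDerivAt ez (Complex.I * ez x) x := by
  have h1 : HasDerivAt (fun x : ℝ => Complex.I * (x : ℂ)) Complex.I x := by
    have := (Complex.ofRealCLM.hasDerivAt (x := x)).const_mul Complex.I
    simpa using this
  have h2 : HasDerivAt (fun x : ℝ => Complex.exp (Complex.I * (x : ℂ)))
      (Complex.exp (Complex.I * (x : ℂ)) * Complex.I) x := h1.cexp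
  have h3 : Complex.I * ez x = Complex.exp (Complex.I * (x : ℂ)) * Complex.I := by
    unfold ez; ring
  rw [h3]
  exact h2

lemma F_deriv (m : ℕ) {q S : ℝ → ℂ} (hq : SP q) (hS : CS S) (μ : ℝ) :
    deriv (F (m + 1) q S μ) = fun x =>
      F m (fun x => (-((m + 1 : ℕ) : ℂ) * Complex.I) * ez x * q x) S μ x +
      F (m + 1) (deriv q) S μ x +
      (μ : ℂ) * F (m + 1) (fun x => q x * (Real.sin x : ℂ)) (deriv S) μ x := by
  ext x
  have hq' : HasDerivAt q (deriv q x) x := (hq.1.differentiable (by simp) x).hasDerivAt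
  have hS' : HasDerivAt S (deriv S (μ * (1 - Real.cos x) - 1)) (μ * (1 - Real.cos x) - 1) :=
    (hS.1.differentiable (by simp) _).hasDerivAt
  have hin : HasDerivAt (fun x : ℝ => μ * (1 - Real.cos x) - 1) (μ * Real.sin x) x := by
    have := (((Real.hasDerivAt_cos x).const_sub 1).const_mul μ).sub_const 1
    simpa using this
  have hcomp : HasDerivAt (fun x : ℝ => S (μ * (1 - Real.cos x) - 1))
      ((μ * Real.sin x) • deriv S (μ * (1 - Real.cos x) - 1)) x :=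
    HasDerivAt.scomp x hS' hin
  have hpow : HasDerivAt (fun x : ℝ => (1 - ez x) ^ (m + 1))
      (((m + 1 : ℕ) : ℂ) * (1 - ez x) ^ m * (-(Complex.I * ez x))) x := by
    have := ((hasDerivAt_ez x).const_sub 1).fun_pow (m + 1)
    simpa using this
  have htot := (hpow.mul hq').mul hcomp
  have : F (m + 1) q S μ = ((fun x : ℝ => (1 - ez x) ^ (m + 1)) * q) *
      (fun x : ℝ => S (μ * (1 - Real.cos x) - 1)) := by
    ext y; rfl
  rw [this, htot.deriv]
  simp only [F, Pi.mul_apply, Complex.real_smul]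
  push_cast
  ring

lemma SP.sin : SP (fun x => (Real.sin x : ℂ)) :=
  ⟨Complex.ofRealCLM.contDiff.comp Real.contDiff_sin, fun x => by simp⟩

/-- (A) all weighted coefficients are small when `m` is large -/
lemma F_coef (k : ℕ) : ∀ (m r : ℕ), 2 * r + k ≤ m → ∀ {q S : ℝ → ℂ}, SP q → CS S →
    ∃ C, 0 ≤ C ∧ ∀ μ : ℝ, 1 ≤ μ → ∀ n : ℤ,
      |(n : ℝ)| ^ k * ‖fc (F m q S μ) n‖ ≤ C * μ ^ k / μ ^ r := by
  induction k with
  | zero =>
    intro m r hmr q S hq hS
    obtain ⟨C, hC0, hC⟩ := F_sup m r (by omega) hq hS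
    refine ⟨2 * π * C, by positivity, fun μ hμ n => ?_⟩
    have := norm_fc_le (hC μ hμ) n
    simp only [pow_zero, one_mul, mul_one]
    calc ‖fc (F m q S μ) n‖ ≤ 2 * π * (C / μ ^ r) := this
      _ = 2 * π * C / μ ^ r := by ring
  | succ k ih =>
    intro m r hmr q S hq hS
    obtain ⟨m', rfl⟩ : ∃ m', m = m' + 1 := ⟨m - 1, by omega⟩
    have hq1 : SP (fun x => (-((m' + 1 : ℕ) : ℂ) * Complex.I) * ez x * q x) :=
      ((SP.const _).mul SP.ez).mul hq
    have hq3 : SP (fun x => q x * (Real.sin x : ℂ)) := hq.mul SP.sin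
    obtain ⟨C1, hC10, hC1⟩ := ih m' r (by omega) hq1 hS
    obtain ⟨C2, hC20, hC2⟩ := ih (m' + 1) r (by omega) hq.deriv hS
    obtain ⟨C3, hC30, hC3⟩ := ih (m' + 1) r (by omega) hq3 hS.deriv
    refine ⟨C1 + C2 + C3, by positivity, fun μ hμ n => ?_⟩
    have hμ0 : 0 < μ := by linarith
    have hFS : SP (F (m' + 1) q S μ) := SP.F _ hq hS μ
    have h1 := fc_deriv hFS n
    rw [F_deriv m' hq hS μ] at h1
    have hc1 : Continuous (F m' (fun x => (-((m' + 1 : ℕ) : ℂ) * Complex.I) * ez x * q x) S μ) :=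
      (SP.F _ hq1 hS μ).continuous
    have hc2 : Continuous (F (m' + 1) (deriv q) S μ) := (SP.F _ hq.deriv hS μ).continuous
    have hc3 : Continuous (F (m' + 1) (fun x => q x * (Real.sin x : ℂ)) (deriv S) μ) :=
      (SP.F _ hq3 hS.deriv μ).continuous
    rw [fc_add (f := fun x => F m' (fun x => (-((m' + 1 : ℕ) : ℂ) * Complex.I) * ez x * q x) S μ x
        + F (m' + 1) (deriv q) S μ x)
      (g := fun x => (μ : ℂ) * F (m' + 1) (fun x => q x * (Real.sin x : ℂ)) (deriv S) μ x)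
      (hc1.add hc2) (continuous_const.mul hc3), fc_add hc1 hc2, fc_const_mul] at h1
    have h2 : ‖(n : ℂ) * Complex.I * fc (F (m' + 1) q S μ) n‖ =
        |(n : ℝ)| * ‖fc (F (m' + 1) q S μ) n‖ := by
      rw [norm_mul, norm_mul, Complex.norm_I, mul_one]
      congr 1
      simp
    have e1 := hC1 μ hμ n
    have e2 := hC2 μ hμ n
    have e3 := hC3 μ hμ n
    have hle : (μ ^ k / μ ^ r) ≤ μ ^ (k + 1) / μ ^ r := by
      gcongr
      omega
    have hn0 : 0 ≤ |(n : ℝ)| ^ k := by positivity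
    calc |(n : ℝ)| ^ (k + 1) * ‖fc (F (m' + 1) q S μ) n‖
        = |(n : ℝ)| ^ k * (|(n : ℝ)| * ‖fc (F (m' + 1) q S μ) n‖) := by ring
      _ ≤ |(n : ℝ)| ^ k * (‖fc (F m' (fun x => (-((m' + 1 : ℕ) : ℂ) * Complex.I) *
            ez x * q x) S μ) n‖ + ‖fc (F (m' + 1) (deriv q) S μ) n‖ +
            μ * ‖fc (F (m' + 1) (fun x => q x * (Real.sin x : ℂ)) (deriv S) μ) n‖) := by
          gcongr
          rw [← h2, ← h1]
          refine (norm_add_le _ _).trans ?_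
          gcongr
          · exact norm_add_le _ _
          · rw [norm_mul, Complex.norm_real, Real.norm_of_nonneg hμ0.le]
      _ = |(n : ℝ)| ^ k * ‖fc (F m' (fun x => (-((m' + 1 : ℕ) : ℂ) * Complex.I) *
            ez x * q x) S μ) n‖ + |(n : ℝ)| ^ k * ‖fc (F (m' + 1) (deriv q) S μ) n‖ +
            μ * (|(n : ℝ)| ^ k *
              ‖fc (F (m' + 1) (fun x => q x * (Real.sin x : ℂ)) (deriv S) μ) n‖) := by ring
      _ ≤ C1 * μ ^ k / μ ^ r + C2 * μ ^ k / μ ^ r + μ * (C3 * μ ^ k / μ ^ r) := by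
          gcongr
      _ = C1 * (μ ^ k / μ ^ r) + C2 * (μ ^ k / μ ^ r) + C3 * (μ ^ (k + 1) / μ ^ r) := by ring
      _ ≤ C1 * (μ ^ (k + 1) / μ ^ r) + C2 * (μ ^ (k + 1) / μ ^ r) +
            C3 * (μ ^ (k + 1) / μ ^ r) := by gcongr
      _ = (C1 + C2 + C3) * μ ^ (k + 1) / μ ^ r := by ring

end Pool.Agent.Helper68.Riesz
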