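import Pool.Agent.Helper68.RieszSeq

set_option autoImplicit false
open Real MeasureTheory Filter Topology

namespace Pool.Agent.Helper68.Riesz

/-- extreme smallness near `0` contradicts integrability of the logarithm -/
lemma not_log_integrable {f : ℝ → ℂ}
    (hs : ∀ K : ℕ, ∃ ε : ℝ, 0 < ε ∧ ε < 1 / (K + 1) ∧ ∀ x, |x| < ε → ‖f x‖ ≤ Real.exp (-1 / ε))
    (h1 : ∀ᵐ x ∂(volume.restrict (Set.Ioc (0 : ℝ) (2 * π))), f x ≠ 0)
    (h2 : IntegrableOn (fun x => Real.log ‖f x‖) (Set.Ioc 0 (2 * π))) : False := by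
  choose ε he0 he1 he2 using hs
  have hεlim : Tendsto ε atTop (𝓝 0) := by
    refine squeeze_zero (fun K => (he0 K).le) (fun K => (he1 K).le) ?_
    exact tendsto_one_div_add_atTop_nhds_zero_nat
  have habs : IntegrableOn (fun x => |Real.log ‖f x‖|) (Set.Ioc 0 (2 * π)) := h2.abs
  have hpi : (3 : ℝ) < π := Real.pi_gt_three
  have hsub : ∀ K, Set.Ioo 0 (ε K) ⊆ Set.Ioc 0 (2 * π) := by
    intro K x hx
    refine ⟨hx.1, ?_⟩
    have h3 : ε K < 1 := (he1 K).trans_le (by
      rw [div_le_one (by positivity)]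
      have : (0 : ℝ) ≤ K := by positivity
      linarith)
    linarith [hx.2]
  have hmeas : Tendsto ((volume.restrict (Set.Ioc (0 : ℝ) (2 * π))) ∘ fun K => Set.Ioo 0 (ε K))
      atTop (𝓝 0) := by
    have h3 : Tendsto (fun K => ENNReal.ofReal (ε K)) atTop (𝓝 0) := by
      have := ENNReal.tendsto_ofReal hεlim
      simpa using this
    refine tendsto_of_tendsto_of_tendsto_of_le_of_le tendsto_const_nhds h3
      (fun K => zero_le) (fun K => ?_)
    simp only [Function.comp]
    refine (Measure.restrict_apply_le _ _).trans ?_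
    rw [Real.volume_Ioo, sub_zero]
  have hlim := Integrable.tendsto_setIntegral_nhds_zero habs hmeas
  have hge : ∀ K, 1 ≤ ∫ x in Set.Ioo 0 (ε K), |Real.log ‖f x‖|
      ∂(volume.restrict (Set.Ioc (0 : ℝ) (2 * π))) := by
    intro K
    rw [Measure.restrict_restrict measurableSet_Ioo,
      Set.inter_eq_self_of_subset_left (hsub K)]
    have h3 : ∫ x in Set.Ioo 0 (ε K), (1 / ε K) = 1 := by
      rw [setIntegral_const, Measure.real, Real.volume_Ioo, sub_zero,
        ENNReal.toReal_ofReal (he0 K).le, smul_eq_mul]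
      have := he0 K
      field_simp
    rw [← h3]
    apply setIntegral_mono_on_ae
    · exact integrableOn_const (by simp) (by simp)
    · exact habs.mono_set (hsub K)
    · exact measurableSet_Ioo
    · have h4 := ae_imp_of_ae_restrict h1
      filter_upwards [h4] with x hx hxK
      have hne : f x ≠ 0 := hx (hsub K hxK)
      have h5 := he2 K x (by rw [abs_of_pos hxK.1]; exact hxK.2)
      have hpos : 0 < ‖f x‖ := norm_pos_iff.2 hne
      have h6 : Real.log ‖f x‖ ≤ -1 / ε K := by
        have := Real.log_le_log hpos h5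
        rwa [Real.log_exp] at this
      have h7 : -1 / ε K < 0 := div_neg_of_neg_of_pos (by norm_num) (he0 K)
      rw [abs_of_neg (by linarith)]
      have h8 : 1 / ε K = -(-1 / ε K) := by ring
      rw [h8]
      linarith
  have := ge_of_tendsto hlim (Eventually.of_forall hge)
  linarith

end Pool.Agent.Helper68.Riesz
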