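import Pool.Agent.Helper68.RieszBasic

set_option autoImplicit false
open Real MeasureTheory Filter Topology

namespace Pool.Agent.Helper68.Riesz

lemma fact_two_pi : Fact ((0 : ℝ) < 2 * π) := ⟨by positivity⟩

/-- Fourier inversion for continuous periodic functions with summable coefficients -/
lemma hasSum_fc {f : ℝ → ℂ} (hc : Continuous f) (hp : Function.Periodic f (2 * π))
    (hs : Summable (fun n : ℤ => ‖fc f n‖)) (x : ℝ) :
    HasSum (fun n : ℤ => (1 / (2 * π) : ℂ) * fc f n *
      Complex.exp ((n : ℂ) * Complex.I * (x : ℂ))) (f x) := by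
  haveI := fact_two_pi
  let F : C(AddCircle (2 * π), ℂ) := ⟨hp.lift, by
    apply continuous_coinduced_dom.2
    exact hc⟩
  have hF : ∀ y : ℝ, F (y : AddCircle (2 * π)) = f y := fun y => rfl
  have hcoef : ∀ n : ℤ, fourierCoeff F n = (1 / (2 * π) : ℂ) * fc f n := by
    intro n
    rw [fourierCoeff_eq_intervalIntegral F n 0]
    unfold fc
    rw [zero_add]
    have : ∀ x : ℝ, (fourier (-n)) (x : AddCircle (2 * π)) • F (x : AddCircle (2 * π)) =
        Complex.exp (-(n : ℂ) * Complex.I * (x : ℂ)) * f x := by
      intro x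
      rw [hF, fourier_coe_apply, smul_eq_mul]
      congr 2
      have : (π : ℂ) ≠ 0 := by exact_mod_cast Real.pi_ne_zero
      push_cast
      field_simp
    simp only [this]
    rw [Complex.real_smul]
    push_cast
    ring
  have hsum : Summable (fourierCoeff F) := by
    have : Summable (fun n : ℤ => (1 / (2 * π) : ℂ) * fc f n) :=
      (hs.of_norm).mul_left _
    refine this.congr fun n => (hcoef n).symm
  have h := has_pointwise_sum_fourier_series_of_summable hsum (x : AddCircle (2 * π))
  rw [hF] at h
  refine h.congr_fun ?_ |> fun h => h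
  intro n
  rw [hcoef, smul_eq_mul, fourier_coe_apply]
  congr 2
  have : (π : ℂ) ≠ 0 := by exact_mod_cast Real.pi_ne_zero
  push_cast
  field_simp

end Pool.Agent.Helper68.Riesz
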