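import Pool.Agent.Helper68.RieszStep

set_option autoImplicit false
open Real MeasureTheory Filter Topology

namespace Pool.Agent.Helper68.Riesz

/-- states of the construction -/
structure St where
  f : ℝ → ℂ
  N : ℕ
  δ : ℝ
  sp : SP f
  van : Van f
  δpos : 0 < δ
  bd : ∀ x, ‖f x‖ + 2 * δ ≤ 3

/-- successor relation -/
def R (s t : St) : Prop :=
  s.N < t.N ∧ (∀ x, ‖t.f x - s.f x‖ ≤ s.δ) ∧ NB s.N (fun x => t.f x - s.f x) s.δ ∧
  t.δ ≤ s.δ / 2 ∧ NB t.N t.f (41 * (t.N : ℝ) ^ t.N) ∧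
  ∃ ε : ℝ, 0 < ε ∧ ε < 1 / (t.N + 1) ∧ (∀ x, |x| < ε → t.f x = 0) ∧ t.δ ≤ Real.exp (-1 / ε) / 2

lemma exists_R (s : St) : ∃ t, R s t := by
  have hB : ∀ x, ‖s.f x‖ ≤ 3 - 2 * s.δ := fun x => by linarith [s.bd x]
  obtain ⟨f', N, h1, h2, h3, h4, h5, h6⟩ :=
    one_step s.sp s.van s.N (s.N + 1) s.δpos hB
  obtain ⟨a, ha, hfa⟩ := h2
  set ε : ℝ := min (1 / ((N : ℝ) + 2)) (min a 1) with hε
  have hε0 : 0 < ε := by
    rw [hε]; positivity
  have hεN : ε < 1 / ((N : ℝ) + 1) := by
    have : ε ≤ 1 / ((N : ℝ) + 2) := min_le_left _ _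
    refine this.trans_lt ?_
    apply one_div_lt_one_div_of_lt <;> [positivity; linarith]
  have hεa : ε ≤ a := (min_le_right _ _).trans (min_le_left _ _)
  have hε1 : ε ≤ 1 := (min_le_right _ _).trans (min_le_right _ _)
  have hd := s.δpos
  have hd3 : s.δ ≤ 3 / 2 := by
    have := s.bd 0
    have := norm_nonneg (s.f 0)
    linarith
  refine ⟨⟨f', N, min (s.δ / 2) (Real.exp (-1 / ε) / 2), h1, ⟨a, ha, hfa⟩, ?_, ?_⟩, ?_⟩
  · positivity
  · intro x
    have e1 : min (s.δ / 2) (Real.exp (-1 / ε) / 2) ≤ s.δ / 2 := min_le_left _ _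
    have e2 : ‖f' x‖ ≤ ‖s.f x‖ + ‖f' x - s.f x‖ := by
      have : f' x = s.f x + (f' x - s.f x) := by ring
      calc ‖f' x‖ = ‖s.f x + (f' x - s.f x)‖ := by rw [← this]
        _ ≤ _ := norm_add_le _ _
    have e3 := h4 x
    have e4 := s.bd x
    linarith
  · refine ⟨by show s.N < N; omega, h4, h5, min_le_left _ _, ?_, ε, hε0, hεN, ?_, min_le_right _ _⟩
    · refine h6.mono ?_
      show (N : ℝ) ^ N * (2 * π * (3 - 2 * s.δ + s.δ)) + s.δ ≤ 41 * (N : ℝ) ^ N
      have hN1 : (1 : ℝ) ≤ (N : ℝ) ^ N := by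
        have : 1 ≤ N := by omega
        exact one_le_pow₀ (by exact_mod_cast this)
      have hpi : π ≤ 4 := Real.pi_le_four
      have hpi0 := Real.pi_pos
      have e5 : 2 * π * (3 - 2 * s.δ + s.δ) ≤ 24 := by nlinarith
      nlinarith
    · intro x hx
      apply hfa
      have e6 := Real.one_sub_sq_div_two_le_cos (x := x)
      have e7 : x ^ 2 ≤ ε ^ 2 := by
        rw [← sq_abs x]
        exact pow_le_pow_left₀ (abs_nonneg _) hx.le 2
      nlinarith

/-- main existence result -/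
theorem exists_limit : ∃ f : ℝ → ℂ, Continuous f ∧ Function.Periodic f (2 * π) ∧
    fc f (-1) ≠ 0 ∧ (∀ K : ℕ, ∃ N, K ≤ N ∧ NB N f (50 * (N : ℝ) ^ N)) ∧
    (∀ K : ℕ, ∃ ε : ℝ, 0 < ε ∧ ε < 1 / (K + 1) ∧ ∀ x, |x| < ε → ‖f x‖ ≤ Real.exp (-1 / ε)) := by
  -- the initial function
  set f0 : ℝ → ℂ := fun x => Complex.exp (((-1 : ℤ) : ℂ) * Complex.I * (x : ℂ)) *
    ((Real.smoothTransition (-Real.cos x) : ℝ) : ℂ) with hf0
  have hf0S : SP f0 := by
    refine (SP.e (-1)).mul ⟨?_, fun x => by simp⟩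
    apply Complex.ofRealCLM.contDiff.comp
    exact Real.smoothTransition.contDiff.comp Real.contDiff_cos.neg
  have hf0V : Van f0 := by
    refine ⟨1, one_pos, fun x hx => ?_⟩
    have : Real.smoothTransition (-Real.cos x) = 0 :=
      Real.smoothTransition.zero_of_nonpos (by linarith)
    simp [hf0, this]
  have hf0B : ∀ x, ‖f0 x‖ ≤ 1 := by
    intro x
    simp only [hf0]
    rw [norm_mul, norm_cexp_int, one_mul, Complex.norm_real,
      Real.norm_of_nonneg (Real.smoothTransition.nonneg _)]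
    exact Real.smoothTransition.le_one _
  have hf0c : fc f0 (-1) ≠ 0 := by
    have h1 : fc f0 (-1) = ((∫ x in (0 : ℝ)..2 * π,
        Real.smoothTransition (-Real.cos x) : ℝ) : ℂ) := by
      unfold fc
      rw [← intervalIntegral.integral_ofReal]
      congr 1
      ext x
      simp only [hf0]
      rw [← mul_assoc, ← Complex.exp_add]
      have : (-((-1 : ℤ) : ℂ) * Complex.I * (x : ℂ) + ((-1 : ℤ) : ℂ) * Complex.I * (x : ℂ)) = 0 := by
        ring
      rw [this, Complex.exp_zero, one_mul]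
    rw [h1]
    have h2 : 0 < ∫ x in (0 : ℝ)..2 * π, Real.smoothTransition (-Real.cos x) := by
      apply intervalIntegral.integral_pos (by positivity)
      · exact (Real.smoothTransition.continuous.comp Real.continuous_cos.neg).continuousOn
      · intro x _
        exact Real.smoothTransition.nonneg _
      · refine ⟨π, ⟨by positivity, by linarith [Real.pi_pos]⟩, ?_⟩
        rw [Real.cos_pi, neg_neg]
        simp
    exact_mod_cast h2.ne'
  set d0 : ℝ := min 1 (‖fc f0 (-1)‖ / 3) with hd0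
  have hd0pos : 0 < d0 := by
    have := norm_pos_iff.2 hf0c
    rw [hd0]; positivity
  let s0 : St := ⟨f0, 0, d0, hf0S, hf0V, hd0pos, fun x => by
    have e1 : d0 ≤ 1 := min_le_left _ _
    have e2 := hf0B x
    linarith⟩
  choose g hg using exists_R
  let s : ℕ → St := fun n => g^[n] s0
  have hs0 : s 0 = s0 := rfl
  have hs : ∀ n, R (s n) (s (n + 1)) := by
    intro n
    have : s (n + 1) = g (s n) := Function.iterate_succ_apply' g n s0
    rw [this]
    exact hg (s n)
  have hNmono : ∀ n i, (s n).N + i ≤ (s (n + i)).N := by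
    intro n i
    induction i with
    | zero => simp
    | succ i ih =>
      have := (hs (n + i)).1
      rw [← add_assoc n i 1]
      omega
  have hδ : ∀ n i, (s (n + i)).δ ≤ (s n).δ / 2 ^ i := by
    intro n i
    induction i with
    | zero => simp
    | succ i ih =>
      have := (hs (n + i)).2.2.2.1
      rw [← add_assoc n i 1]
      calc (s (n + i + 1)).δ ≤ (s (n + i)).δ / 2 := this
        _ ≤ (s n).δ / 2 ^ i / 2 := by gcongr
        _ = (s n).δ / 2 ^ (i + 1) := by rw [pow_succ, div_div]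
  -- pointwise limit
  have hdist : ∀ (n i : ℕ) (x : ℝ), dist ((s (n + i)).f x) ((s (n + (i + 1))).f x) ≤
      (2 * (s n).δ) / 2 / 2 ^ i := by
    intro n i x
    rw [dist_comm, dist_eq_norm]
    have h1 := (hs (n + i)).2.1 x
    have h2 := hδ n i
    rw [← add_assoc n i 1]
    calc _ ≤ (s (n + i)).δ := h1
      _ ≤ (s n).δ / 2 ^ i := h2
      _ = (2 * (s n).δ) / 2 / 2 ^ i := by ring
  have hcau : ∀ x, CauchySeq (fun n => (s n).f x) := by
    intro x
    apply cauchySeq_of_le_geometric_two (C := 2 * (s 0).δ)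
    intro n
    have := hdist 0 n x
    simpa using this
  choose f hf using fun x => cauchySeq_tendsto_of_complete (hcau x)
  have hfn : ∀ (n : ℕ) (x : ℝ), ‖f x - (s n).f x‖ ≤ 2 * (s n).δ := by
    intro n x
    have h1 : Tendsto (fun i => (s (n + i)).f x) atTop (𝓝 (f x)) := by
      have := (hf x).comp (tendsto_add_atTop_nat n)
      refine this.congr fun i => ?_
      simp only [Function.comp]
      rw [add_comm]
    have := dist_le_of_le_geometric_two_of_tendsto₀ (C := 2 * (s n).δ) (fun i => hdist n i x) h1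
    rw [dist_comm, dist_eq_norm] at this
    simpa using this
  have hδ0 : Tendsto (fun n => 2 * (s n).δ) atTop (𝓝 0) := by
    have h1 : Tendsto (fun n : ℕ => 2 * ((s 0).δ * (1 / 2) ^ n)) atTop (𝓝 0) := by
      have := (tendsto_pow_atTop_nhds_zero_of_lt_one (r := (1 / 2 : ℝ)) (by norm_num)
        (by norm_num)).const_mul (s 0).δ
      have := this.const_mul 2
      simpa using this
    refine squeeze_zero (fun n => ?_) (fun n => ?_) h1
    · have := (s n).δpos; positivity
    · have := hδ 0 n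
      rw [zero_add] at this
      rw [one_div, inv_pow, ← div_eq_mul_inv]
      gcongr
  have hunif : TendstoUniformly (fun n x => (s n).f x) f atTop := by
    rw [Metric.tendstoUniformly_iff]
    intro e he
    filter_upwards [hδ0.eventually (gt_mem_nhds he)] with n hn x
    rw [dist_eq_norm]
    exact (hfn n x).trans_lt hn
  have hcont : Continuous f :=
    hunif.continuous (Frequently.of_forall fun n => (s n).sp.continuous)
  have hper : Function.Periodic f (2 * π) := by
    intro x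
    have h1 := hf (x + 2 * π)
    have h2 : (fun n => (s n).f (x + 2 * π)) = fun n => (s n).f x := by
      ext n; exact (s n).sp.2 x
    rw [h2] at h1
    exact tendsto_nhds_unique h1 (hf x)
  -- Fourier coefficients converge
  have hfc : ∀ m : ℤ, Tendsto (fun n => fc (s n).f m) atTop (𝓝 (fc f m)) := by
    intro m
    rw [tendsto_iff_norm_sub_tendsto_zero]
    have h1 : ∀ n, ‖fc (s n).f m - fc f m‖ ≤ 2 * π * (2 * (s n).δ) := by
      intro n
      rw [norm_sub_rev, ← fc_sub hcont (s n).sp.continuous]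
      exact norm_fc_le (hfn n) m
    refine squeeze_zero (fun _ => norm_nonneg _) h1 ?_
    have := hδ0.const_mul (2 * π)
    simpa using this
  have hcoef : ∀ (j n : ℕ), 1 ≤ n →
      (n : ℝ) ^ (s j).N * ‖fc f (-(n : ℤ)) - fc (s j).f (-(n : ℤ))‖ ≤ 2 * (s j).δ := by
    intro j n hn
    have hn1 : (1 : ℝ) ≤ n := by exact_mod_cast hn
    let c : ℕ → ℂ := fun i => (n : ℂ) ^ (s j).N * fc (s (j + i)).f (-(n : ℤ))
    have h1 : ∀ i, dist (c i) (c (i + 1)) ≤ (2 * (s j).δ) / 2 / 2 ^ i := by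
      intro i
      rw [dist_comm, dist_eq_norm]
      have e1 : c (i + 1) - c i = (n : ℂ) ^ (s j).N *
          (fc (s (j + i + 1)).f (-(n : ℤ)) - fc (s (j + i)).f (-(n : ℤ))) := by
        simp only [c]
        rw [← add_assoc j i 1]; ring
      rw [e1, norm_mul, norm_pow, Complex.norm_natCast,
        ← fc_sub (s (j + i + 1)).sp.continuous (s (j + i)).sp.continuous]
      have e2 := (hs (j + i)).2.2.1 n hn
      have e3 : (n : ℝ) ^ (s j).N ≤ (n : ℝ) ^ (s (j + i)).N :=
        pow_le_pow_right₀ hn1 (by have := hNmono j i; omega)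
      calc _ ≤ (n : ℝ) ^ (s (j + i)).N *
            ‖fc (fun x => (s (j + i + 1)).f x - (s (j + i)).f x) (-(n : ℤ))‖ := by gcongr
        _ ≤ (s (j + i)).δ := e2
        _ ≤ (s j).δ / 2 ^ i := hδ j i
        _ = (2 * (s j).δ) / 2 / 2 ^ i := by ring
    have h2 : Tendsto c atTop (𝓝 ((n : ℂ) ^ (s j).N * fc f (-(n : ℤ)))) := by
      apply Tendsto.const_mul
      have := (hfc (-(n : ℤ))).comp (tendsto_add_atTop_nat j)
      refine this.congr fun i => ?_
      simp only [Function.comp]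
      rw [add_comm]
    have h3 := dist_le_of_le_geometric_two_of_tendsto₀ (C := 2 * (s j).δ) h1 h2
    rw [dist_comm, dist_eq_norm] at h3
    have e4 : (n : ℂ) ^ (s j).N * fc f (-(n : ℤ)) - c 0 = (n : ℂ) ^ (s j).N *
        (fc f (-(n : ℤ)) - fc (s j).f (-(n : ℤ))) := by
      simp only [c, add_zero]; ring
    rw [e4, norm_mul, norm_pow, Complex.norm_natCast] at h3
    exact h3
  refine ⟨f, hcont, hper, ?_, ?_, ?_⟩
  · -- nonzero coefficient
    intro h0
    have h1 := hcoef 0 1 le_rfl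
    have h2 : (s 0).N = 0 := rfl
    have h3 : (s 0).f = f0 := rfl
    have h4 : (s 0).δ = d0 := rfl
    rw [h2, h3, h4] at h1
    simp only [Nat.cast_one, pow_zero, one_mul] at h1
    rw [h0, zero_sub, norm_neg] at h1
    have h5 : d0 ≤ ‖fc f0 (-1)‖ / 3 := min_le_right _ _
    have h6 := norm_pos_iff.2 hf0c
    linarith
  · intro K
    refine ⟨(s (K + 1)).N, ?_, ?_⟩
    · have := hNmono 0 (K + 1)
      rw [zero_add] at this
      omega
    · intro n hn
      have h1 := hcoef (K + 1) n hn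
      have h2 := (hs K).2.2.2.2.1 n hn
      have h3 : (s (K + 1)).δ ≤ 3 / 2 := by
        have := (s (K + 1)).bd 0
        have := norm_nonneg ((s (K + 1)).f 0)
        linarith
      have hN1 : (1 : ℝ) ≤ ((s (K + 1)).N : ℝ) ^ (s (K + 1)).N := by
        have : 1 ≤ (s (K + 1)).N := by
          have := hNmono 0 (K + 1)
          rw [zero_add] at this
          omega
        exact one_le_pow₀ (by exact_mod_cast this)
      have h4 : ‖fc f (-(n : ℤ))‖ ≤ ‖fc f (-(n : ℤ)) - fc (s (K + 1)).f (-(n : ℤ))‖ +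
          ‖fc (s (K + 1)).f (-(n : ℤ))‖ := by
        have : fc f (-(n : ℤ)) = (fc f (-(n : ℤ)) - fc (s (K + 1)).f (-(n : ℤ))) +
          fc (s (K + 1)).f (-(n : ℤ)) := by ring
        calc ‖fc f (-(n : ℤ))‖ = ‖(fc f (-(n : ℤ)) - fc (s (K + 1)).f (-(n : ℤ))) +
            fc (s (K + 1)).f (-(n : ℤ))‖ := by rw [← this]
          _ ≤ _ := norm_add_le _ _
      calc (n : ℝ) ^ (s (K + 1)).N * ‖fc f (-(n : ℤ))‖
          ≤ (n : ℝ) ^ (s (K + 1)).N * (‖fc f (-(n : ℤ)) - fc (s (K + 1)).f (-(n : ℤ))‖ +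
            ‖fc (s (K + 1)).f (-(n : ℤ))‖) := by gcongr
        _ = (n : ℝ) ^ (s (K + 1)).N * ‖fc f (-(n : ℤ)) - fc (s (K + 1)).f (-(n : ℤ))‖ +
            (n : ℝ) ^ (s (K + 1)).N * ‖fc (s (K + 1)).f (-(n : ℤ))‖ := by ring
        _ ≤ 2 * (s (K + 1)).δ + 41 * ((s (K + 1)).N : ℝ) ^ (s (K + 1)).N := add_le_add h1 h2
        _ ≤ 50 * ((s (K + 1)).N : ℝ) ^ (s (K + 1)).N := by nlinarith
  · intro K
    obtain ⟨ε, he0, he1, he2, he3⟩ := (hs K).2.2.2.2.2
    refine ⟨ε, he0, ?_, ?_⟩
    · have h1 : K + 1 ≤ (s (K + 1)).N := by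
        have := hNmono 0 (K + 1)
        rw [zero_add] at this
        omega
      have h2 : (1 : ℝ) / ((s (K + 1)).N + 1) ≤ 1 / ((K : ℝ) + 1) := by
        apply one_div_le_one_div_of_le (by positivity)
        have : ((K + 1 : ℕ) : ℝ) ≤ ((s (K + 1)).N : ℝ) := by exact_mod_cast h1
        push_cast at this
        linarith
      linarith
    · intro x hx
      have h1 := hfn (K + 1) x
      rw [he2 x hx, sub_zero] at h1
      linarith

end Pool.Agent.Helper68.Riesz
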