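import Pool.Agent.Helper68.RieszFourier

set_option autoImplicit false
open Real MeasureTheory Filter Topology

namespace Pool.Agent.Helper68.Riesz

/-- the point `e^{ix}` of the circle -/
noncomputable def ez (x : ℝ) : ℂ := Complex.exp (Complex.I * (x : ℂ))

lemma ez_eq (x : ℝ) : ez x = Complex.exp (((1 : ℤ) : ℂ) * Complex.I * (x : ℂ)) := by
  simp [ez]

lemma SP.ez : SP ez := by
  have := SP.e 1
  have h : (fun x : ℝ => Complex.exp (((1 : ℤ) : ℂ) * Complex.I * (x : ℂ))) =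
      Pool.Agent.Helper68.Riesz.ez := by
    ext x; rw [ez_eq]
  rwa [h] at this

lemma norm_ez (x : ℝ) : ‖ez x‖ = 1 := by
  rw [ez_eq]; exact norm_cexp_int 1 x

lemma ez_pow (x : ℝ) (q : ℕ) : ez x ^ q = Complex.exp ((q : ℂ) * Complex.I * (x : ℂ)) := by
  rw [ez, ← Complex.exp_nat_mul]
  congr 1
  ring

/-- denominators -/
noncomputable def den (ε : ℝ) (x : ℝ) : ℂ := 1 + (ε : ℂ) - ez x

/-- the factor `(1-z)/(1+ε-z)` -/
noncomputable def O (ε : ℝ) (x : ℝ) : ℂ := (1 - ez x) / den ε x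

lemma den_ne {ε : ℝ} (hε : 0 < ε) (x : ℝ) : den ε x ≠ 0 := by
  intro h
  have h1 : (1 + ε : ℂ) = ez x := by
    have := h; unfold den at this; linear_combination this
  have h2 : ‖(1 + ε : ℂ)‖ = 1 := by rw [h1, norm_ez]
  have h3 : ‖(1 + ε : ℂ)‖ = 1 + ε := by
    have : (1 + ε : ℂ) = ((1 + ε : ℝ) : ℂ) := by push_cast; ring
    rw [this, Complex.norm_real, Real.norm_of_nonneg (by linarith)]
  linarith

lemma SP.den (ε : ℝ) : SP (den ε) := by
  have := (SP.const (1 + (ε : ℂ))).sub SP.ez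
  exact this

lemma SP.O {ε : ℝ} (hε : 0 < ε) : SP (O ε) :=
  ((SP.const 1).sub SP.ez).div (SP.den ε) (den_ne hε)

lemma norm_O_le {ε : ℝ} (hε : 0 < ε) (x : ℝ) : ‖O ε x‖ ≤ 1 := by
  unfold O
  rw [norm_div]
  apply div_le_one_of_le₀ _ (norm_nonneg _)
  have hre : (ez x).re ≤ 1 := (Complex.re_le_norm _).trans (norm_ez x).le
  rw [← Real.sqrt_sq (norm_nonneg (1 - ez x)), ← Real.sqrt_sq (norm_nonneg (den ε x))]
  apply Real.sqrt_le_sqrt
  rw [← Complex.normSq_eq_norm_sq, ← Complex.normSq_eq_norm_sq, Complex.normSq_apply,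
    Complex.normSq_apply]
  simp only [den, Complex.sub_re, Complex.one_re, Complex.sub_im, Complex.one_im,
    Complex.add_re, Complex.ofReal_re, Complex.add_im, Complex.ofReal_im]
  nlinarith

/-- Cauchy: analytic functions have no negative coefficients -/
lemma cauchy_zero {U : ℂ → ℂ} (hU : ∀ z : ℂ, ‖z‖ ≤ 1 → DifferentiableAt ℂ U z) (q : ℕ)
    (hq : 1 ≤ q) :
    ∫ x in (0 : ℝ)..2 * π, Complex.exp ((q : ℂ) * Complex.I * (x : ℂ)) * U (ez x) = 0 := by
  have h := Complex.circleIntegral_eq_zero_of_differentiable_on_off_countable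
    (R := 1) zero_le_one (f := fun z => z ^ (q - 1) * U z) (c := 0) (s := ∅)
    Set.countable_empty ?_ ?_
  · unfold circleIntegral at h
    have h2 : ∀ θ : ℝ, deriv (circleMap 0 1) θ • ((circleMap 0 1 θ) ^ (q - 1) *
        U (circleMap 0 1 θ)) = Complex.I *
        (Complex.exp ((q : ℂ) * Complex.I * (θ : ℂ)) * U (ez θ)) := by
      intro θ
      have h3 : circleMap 0 1 θ = ez θ := by
        simp [circleMap, ez, mul_comm]
      rw [deriv_circleMap, h3, smul_eq_mul, ← ez_pow]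
      have h4 : ez θ ^ q = ez θ * ez θ ^ (q - 1) := by
        rw [← pow_succ']; congr 1; omega
      rw [h4]; ring
    simp only [h2] at h
    rw [intervalIntegral.integral_const_mul] at h
    exact (mul_eq_zero.1 h).resolve_left Complex.I_ne_zero
  · intro z hz
    have hz' : ‖z‖ ≤ 1 := by simpa using hz
    exact ((continuousAt_id.pow _).mul (hU z hz').continuousAt).continuousWithinAt
  · intro z hz
    have hz' : ‖z‖ ≤ 1 := by
      have := hz.1
      simp at this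
      exact this.le
    exact (differentiableAt_id.pow _).mul (hU z hz')

lemma fc_e_O_pow {ε : ℝ} (hε : 0 < ε) (m : ℕ) (l n : ℤ) (h : n < l) :
    fc (fun x => Complex.exp ((l : ℂ) * Complex.I * (x : ℂ)) * O ε x ^ m) n = 0 := by
  obtain ⟨q, hq⟩ : ∃ q : ℕ, (q : ℤ) = l - n := ⟨(l - n).toNat, Int.toNat_of_nonneg (by linarith)⟩
  have hq1 : 1 ≤ q := by omega
  have := cauchy_zero (U := fun z => ((1 - z) / (1 + (ε : ℂ) - z)) ^ m) ?_ q hq1
  · unfold fc
    rw [← this]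
    congr 1
    ext x
    rw [← mul_assoc, ← Complex.exp_add]
    congr 2
    have : ((q : ℤ) : ℂ) = ((l - n : ℤ) : ℂ) := by rw [hq]
    push_cast at this
    rw [this]
    ring
  · intro z hz
    apply DifferentiableAt.pow
    apply DifferentiableAt.div
    · fun_prop
    · fun_prop
    · intro h0
      have h1 : (1 + ε : ℂ) = z := by linear_combination h0
      have h3 : ‖(1 + ε : ℂ)‖ = 1 + ε := by
        have : (1 + ε : ℂ) = ((1 + ε : ℝ) : ℂ) := by push_cast; ring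
        rw [this, Complex.norm_real, Real.norm_of_nonneg (by linarith)]
      rw [h1] at h3
      linarith

lemma norm_O_pow_le {ε : ℝ} (hε : 0 < ε) (m : ℕ) (x : ℝ) : ‖O ε x ^ m‖ ≤ 1 := by
  rw [norm_pow]
  exact pow_le_one₀ (norm_nonneg _) (norm_O_le hε x)

lemma norm_fc_e_O_pow {ε : ℝ} (hε : 0 < ε) (m : ℕ) (l n : ℤ) :
    ‖fc (fun x => Complex.exp ((l : ℂ) * Complex.I * (x : ℂ)) * O ε x ^ m) n‖ ≤ 2 * π := by
  have := norm_fc_le (f := fun x => Complex.exp ((l : ℂ) * Complex.I * (x : ℂ)) * O ε x ^ m)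
    (C := 1) ?_ n
  · simpa using this
  · intro x
    rw [norm_mul, norm_cexp_int, one_mul]
    exact norm_O_pow_le hε m x

/-! ### the bound `NB` -/

lemma NB.mono {k : ℕ} {f : ℝ → ℂ} {C D : ℝ} (h : NB k f C) (hCD : C ≤ D) : NB k f D :=
  fun n hn => (h n hn).trans hCD

lemma NB.add {k : ℕ} {f g : ℝ → ℂ} {C D : ℝ} (hf : Continuous f) (hg : Continuous g)
    (h1 : NB k f C) (h2 : NB k g D) : NB k (fun x => f x + g x) (C + D) := by
  intro n hn
  rw [fc_add hf hg]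
  calc (n : ℝ) ^ k * ‖fc f (-(n : ℤ)) + fc g (-(n : ℤ))‖
      ≤ (n : ℝ) ^ k * (‖fc f (-(n : ℤ))‖ + ‖fc g (-(n : ℤ))‖) := by
        gcongr; exact norm_add_le _ _
    _ = (n : ℝ) ^ k * ‖fc f (-(n : ℤ))‖ + (n : ℝ) ^ k * ‖fc g (-(n : ℤ))‖ := by ring
    _ ≤ C + D := add_le_add (h1 n hn) (h2 n hn)

lemma NB.sub {k : ℕ} {f g : ℝ → ℂ} {C D : ℝ} (hf : Continuous f) (hg : Continuous g)
    (h1 : NB k f C) (h2 : NB k g D) : NB k (fun x => f x - g x) (C + D) := by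
  intro n hn
  rw [fc_sub hf hg]
  calc (n : ℝ) ^ k * ‖fc f (-(n : ℤ)) - fc g (-(n : ℤ))‖
      ≤ (n : ℝ) ^ k * (‖fc f (-(n : ℤ))‖ + ‖fc g (-(n : ℤ))‖) := by
        gcongr; exact norm_sub_le _ _
    _ = (n : ℝ) ^ k * ‖fc f (-(n : ℤ))‖ + (n : ℝ) ^ k * ‖fc g (-(n : ℤ))‖ := by ring
    _ ≤ C + D := add_le_add (h1 n hn) (h2 n hn)

lemma NB.const_mul {k : ℕ} {f : ℝ → ℂ} {C : ℝ} (c : ℝ) (hc : 0 ≤ c)
    (h1 : NB k f C) : NB k (fun x => (c : ℂ) * f x) (c * C) := by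
  intro n hn
  rw [fc_const_mul, norm_mul, Complex.norm_real, Real.norm_of_nonneg hc]
  calc (n : ℝ) ^ k * (c * ‖fc f (-(n : ℤ))‖) = c * ((n : ℝ) ^ k * ‖fc f (-(n : ℤ))‖) := by ring
    _ ≤ c * C := by gcongr; exact h1 n hn

/-- division by `1+ε-z` costs at most `1/ε` -/
lemma NB.div_den {k : ℕ} {v : ℝ → ℂ} (hv : SP v) {C ε : ℝ} (hε : 0 < ε) (h : NB k v C) :
    NB k (fun x => (ε : ℂ) * (v x / den ε x)) C := by
  set w : ℝ → ℂ := fun x => v x / den ε x with hw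
  have hwS : SP w := hv.div (SP.den ε) (den_ne hε)
  obtain ⟨D, hD0, hD⟩ := hwS.decay k
  -- the recursion
  have hrec : ∀ n : ℤ, (1 + (ε : ℂ)) * fc w n = fc v n + fc w (n - 1) := by
    intro n
    have h1 : ∀ x, (1 + (ε : ℂ)) * w x - Complex.exp (((1 : ℤ) : ℂ) * Complex.I * (x : ℂ)) * w x
        = v x := by
      intro x
      rw [← ez_eq, ← sub_mul, hw]
      show den ε x * (v x / den ε x) = v x
      field_simp [den_ne hε x]
    have h2 : fc v n = (1 + (ε : ℂ)) * fc w n - fc w (n - 1) := by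
      rw [← fc_e_mul 1 w n, ← fc_const_mul (1 + (ε : ℂ)) w n,
        ← fc_sub (by have := hwS.continuous; fun_prop) (by
          have := hwS.continuous; have := (SP.e 1).continuous; fun_prop)]
      congr 1
      ext x
      exact (h1 x).symm
    rw [h2]; ring
  let A : ℕ → ℝ := fun n => ((n + 1 : ℕ) : ℝ) ^ k * ‖fc w (-((n + 1 : ℕ) : ℤ))‖
  have hA : BddAbove (Set.range A) := by
    refine ⟨D, ?_⟩
    rintro _ ⟨n, rfl⟩
    have := hD (-((n + 1 : ℕ) : ℤ))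
    have h3 : |((-((n + 1 : ℕ) : ℤ) : ℤ) : ℝ)| = ((n + 1 : ℕ) : ℝ) := by
      push_cast
      rw [abs_neg, abs_of_nonneg (by positivity)]
    rw [h3] at this
    exact this
  have hstep : ∀ n, (1 + ε) * A n ≤ C + ⨆ m, A m := by
    intro n
    have h4 := hrec (-((n + 1 : ℕ) : ℤ))
    have h5 : (1 + ε) * ‖fc w (-((n + 1 : ℕ) : ℤ))‖ ≤
        ‖fc v (-((n + 1 : ℕ) : ℤ))‖ + ‖fc w (-((n + 1 + 1 : ℕ) : ℤ))‖ := by
      have h6 : ‖(1 + (ε : ℂ)) * fc w (-((n + 1 : ℕ) : ℤ))‖ =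
          (1 + ε) * ‖fc w (-((n + 1 : ℕ) : ℤ))‖ := by
        rw [norm_mul]
        congr 1
        have : (1 + ε : ℂ) = ((1 + ε : ℝ) : ℂ) := by push_cast; ring
        rw [this, Complex.norm_real, Real.norm_of_nonneg (by linarith)]
      rw [← h6, h4]
      have h7 : (-((n + 1 : ℕ) : ℤ) - 1) = (-((n + 1 + 1 : ℕ) : ℤ)) := by push_cast; ring
      rw [h7]
      exact norm_add_le _ _
    have h8 : ((n + 1 : ℕ) : ℝ) ^ k * ‖fc w (-((n + 1 + 1 : ℕ) : ℤ))‖ ≤ A (n + 1) := by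
      show _ ≤ ((n + 1 + 1 : ℕ) : ℝ) ^ k * ‖fc w (-((n + 1 + 1 : ℕ) : ℤ))‖
      gcongr
      simp
    have h9 := le_ciSup hA (n + 1)
    have h10 := h (n + 1) (by omega)
    calc (1 + ε) * A n = ((n + 1 : ℕ) : ℝ) ^ k * ((1 + ε) * ‖fc w (-((n + 1 : ℕ) : ℤ))‖) := by
          show (1 + ε) * (((n + 1 : ℕ) : ℝ) ^ k * ‖fc w (-((n + 1 : ℕ) : ℤ))‖) = _
          ring
      _ ≤ ((n + 1 : ℕ) : ℝ) ^ k * (‖fc v (-((n + 1 : ℕ) : ℤ))‖ +
            ‖fc w (-((n + 1 + 1 : ℕ) : ℤ))‖) := by gcongr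
      _ = ((n + 1 : ℕ) : ℝ) ^ k * ‖fc v (-((n + 1 : ℕ) : ℤ))‖ +
            ((n + 1 : ℕ) : ℝ) ^ k * ‖fc w (-((n + 1 + 1 : ℕ) : ℤ))‖ := by ring
      _ ≤ C + ⨆ m, A m := add_le_add h10 (h8.trans h9)
  have hsup : (1 + ε) * (⨆ m, A m) ≤ C + ⨆ m, A m := by
    have h11 : (⨆ m, A m) ≤ (C + ⨆ m, A m) / (1 + ε) := by
      apply ciSup_le
      intro n
      rw [le_div_iff₀ (by linarith)]
      have := hstep n
      linarith
    rw [le_div_iff₀ (by linarith)] at h11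
    linarith
  intro n hn
  obtain ⟨n', rfl⟩ : ∃ n', n = n' + 1 := ⟨n - 1, by omega⟩
  rw [fc_const_mul, norm_mul, Complex.norm_real, Real.norm_of_nonneg hε.le]
  have h12 : A n' ≤ ⨆ m, A m := le_ciSup hA n'
  calc ((n' + 1 : ℕ) : ℝ) ^ k * (ε * ‖fc w (-((n' + 1 : ℕ) : ℤ))‖) = ε * A n' := by
        show _ = ε * (((n' + 1 : ℕ) : ℝ) ^ k * ‖fc w (-((n' + 1 : ℕ) : ℤ))‖)
        ring
    _ ≤ ε * ⨆ m, A m := by gcongr
    _ ≤ C := by linarith

lemma O_mul_eq {ε : ℝ} (hε : 0 < ε) (v : ℝ → ℂ) (x : ℝ) :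
    O ε x * v x = v x - (ε : ℂ) * (v x / den ε x) := by
  have := den_ne hε x
  unfold O
  field_simp
  unfold den
  ring

lemma NB.O_mul {k : ℕ} {v : ℝ → ℂ} (hv : SP v) {C ε : ℝ} (hε : 0 < ε) (h : NB k v C) :
    NB k (fun x => O ε x * v x) (2 * C) := by
  have h1 := NB.div_den hv hε h
  have h2 : (fun x => O ε x * v x) = fun x => v x - (ε : ℂ) * (v x / den ε x) :=
    funext (O_mul_eq hε v)
  rw [h2, two_mul]
  apply NB.sub hv.continuous _ h h1
  exact ((SP.const (ε : ℂ)).mul (hv.div (SP.den ε) (den_ne hε))).continuous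

lemma NB.O_pow_mul {k : ℕ} {v : ℝ → ℂ} (hv : SP v) {C ε : ℝ} (hε : 0 < ε) (h : NB k v C)
    (m : ℕ) : NB k (fun x => O ε x ^ m * v x) (2 ^ m * C) := by
  induction m with
  | zero => simpa using h
  | succ m ih =>
    have h1 : SP (fun x => O ε x ^ m * v x) := ((SP.O hε).pow m).mul hv
    have := NB.O_mul h1 hε ih
    have h2 : (fun x => O ε x ^ (m + 1) * v x) = fun x => O ε x * (O ε x ^ m * v x) := by
      ext x; ring
    rw [h2, show (2 : ℝ) ^ (m + 1) * C = 2 * (2 ^ m * C) by ring]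
    exact this

/-- (B1) the factor `O^m` converges to `1` as `ε → 0`, on functions divisible by `1-z` -/
lemma NB.sub_O_pow {k : ℕ} {f v : ℝ → ℂ} (hv : SP v) (hf : ∀ x, f x = (1 - ez x) * v x)
    {C ε : ℝ} (hC : 0 ≤ C) (hε : 0 < ε) (h : NB k v C) (m : ℕ) :
    NB k (fun x => f x - O ε x ^ m * f x) (ε * (2 ^ (m + 1) * C)) := by
  have hfS : SP f := by
    have : f = fun x => (1 - ez x) * v x := funext hf
    rw [this]
    exact ((SP.const 1).sub SP.ez).mul hv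
  have key : ∀ x, f x - O ε x * f x = (ε : ℂ) * (O ε x * v x) := by
    intro x
    rw [hf x]
    have := den_ne hε x
    unfold O
    field_simp
    unfold den
    ring
  induction m with
  | zero =>
    intro n hn
    have : (fun x => f x - O ε x ^ 0 * f x) = fun _ => (0 : ℂ) := by ext x; simp
    rw [this]
    have : fc (fun _ => (0 : ℂ)) (-(n : ℤ)) = 0 := by simp [fc]
    rw [this]
    simp
    positivity
  | succ m ih =>
    have h1 : (fun x => f x - O ε x ^ (m + 1) * f x) =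
        fun x => (f x - O ε x ^ m * f x) + (ε : ℂ) * (O ε x ^ (m + 1) * v x) := by
      ext x
      have := key x
      have h2 : f x - O ε x ^ (m + 1) * f x = (f x - O ε x ^ m * f x) +
          O ε x ^ m * (f x - O ε x * f x) := by ring
      rw [h2, this]
      ring
    rw [h1]
    have h3 := NB.add (hfS.sub (((SP.O hε).pow m).mul hfS)).continuous
      ((SP.const (ε : ℂ)).mul (((SP.O hε).pow (m + 1)).mul hv)).continuous ih
      (NB.const_mul ε hε.le (NB.O_pow_mul hv hε h (m + 1)))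
    refine h3.mono (le_of_eq ?_)
    ring

lemma norm_sub_O_pow {f v : ℝ → ℂ} (hf : ∀ x, f x = (1 - ez x) * v x)
    {C ε : ℝ} (hε : 0 < ε) (h : ∀ x, ‖v x‖ ≤ C) (m : ℕ) (x : ℝ) :
    ‖f x - O ε x ^ m * f x‖ ≤ ε * (m * C) := by
  have hC : 0 ≤ C := (norm_nonneg _).trans (h x)
  have key : f x - O ε x * f x = (ε : ℂ) * (O ε x * v x) := by
    rw [hf x]
    have := den_ne hε x
    unfold O
    field_simp
    unfold den
    ring
  induction m with
  | zero => simp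
  | succ m ih =>
    have h2 : f x - O ε x ^ (m + 1) * f x = (f x - O ε x ^ m * f x) +
        (ε : ℂ) * (O ε x ^ (m + 1) * v x) := by
      have : f x - O ε x ^ (m + 1) * f x = (f x - O ε x ^ m * f x) +
          O ε x ^ m * (f x - O ε x * f x) := by ring
      rw [this, key]; ring
    rw [h2]
    have h3 : ‖(ε : ℂ) * (O ε x ^ (m + 1) * v x)‖ ≤ ε * C := by
      rw [norm_mul, norm_mul, Complex.norm_real, Real.norm_of_nonneg hε.le]
      gcongr
      calc ‖O ε x ^ (m + 1)‖ * ‖v x‖ ≤ 1 * C :=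
            mul_le_mul (norm_O_pow_le hε _ x) (h x) (norm_nonneg _) zero_le_one
        _ = C := one_mul C
    calc _ ≤ ‖f x - O ε x ^ m * f x‖ + ‖(ε : ℂ) * (O ε x ^ (m + 1) * v x)‖ := norm_add_le _ _
      _ ≤ ε * (m * C) + ε * C := add_le_add ih h3
      _ = ε * ((m + 1 : ℕ) * C) := by push_cast; ring

end Pool.Agent.Helper68.Riesz
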