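import Pool.Agent.Helper68.RieszLimit

set_option autoImplicit false
open Real MeasureTheory Filter Topology

namespace Pool.Agent.Helper68.Riesz

/-! ### Taylor bound and quasianalyticity -/

lemma taylor_zero (k : ℕ) : ∀ (g : ℝ → ℂ), ContDiff ℝ ((⊤ : ℕ∞) : WithTop ℕ∞) g →
    ∀ (a B : ℝ), (∀ i, i < k → iteratedDeriv i g a = 0) → (∀ y, ‖iteratedDeriv k g y‖ ≤ B) →
    ∀ x, a ≤ x → ‖g x‖ ≤ B * (x - a) ^ k / (k.factorial : ℝ) := by
  induction k with
  | zero =>
    intro g hg a B h0 hB x hx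
    simpa using hB x
  | succ k ih =>
    intro g hg a B h0 hB x hx
    have hB0 : 0 ≤ B := (norm_nonneg _).trans (hB 0)
    have h2 : ContDiff ℝ (((⊤ : ℕ∞) : WithTop ℕ∞) + 1) g := by simpa using hg
    have hg' : ContDiff ℝ ((⊤ : ℕ∞) : WithTop ℕ∞) (deriv g) := (contDiff_succ_iff_deriv.1 h2).2.2
    have ih' := ih (deriv g) hg' a B (fun i hi => by
      have := h0 (i + 1) (by omega)
      rwa [iteratedDeriv_succ'] at this) (fun y => by
      have := hB y
      rwa [iteratedDeriv_succ'] at this)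
    have hga : g a = 0 := by simpa using h0 0 (by omega)
    have hint : g x = ∫ y in a..x, deriv g y := by
      rw [intervalIntegral.integral_deriv_eq_sub (fun y _ => (hg.differentiable (by simp)) y)
        (hg'.continuous.intervalIntegrable _ _), hga, sub_zero]
    rw [hint]
    have h3 : ‖∫ y in a..x, deriv g y‖ ≤ ∫ y in a..x, B * (y - a) ^ k / (k.factorial : ℝ) := by
      apply intervalIntegral.norm_integral_le_of_norm_le hx
      · refine Eventually.of_forall fun y hy => ?_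
        exact ih' y hy.1.le
      · exact Continuous.intervalIntegrable (by fun_prop) _ _
    refine h3.trans (le_of_eq ?_)
    have h4 : (fun y : ℝ => B * (y - a) ^ k / (k.factorial : ℝ)) =
        fun y : ℝ => (B / (k.factorial : ℝ)) * (y - a) ^ k := by
      ext y; ring
    rw [h4, intervalIntegral.integral_const_mul,
      intervalIntegral.integral_comp_sub_right (fun y => y ^ k) a, integral_pow, sub_self]
    have h5 : (k.factorial : ℝ) ≠ 0 := by positivity
    rw [Nat.factorial_succ]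
    push_cast
    field_simp
    simp

/-- Quasianalyticity from infinitely many good indices. -/
lemma quasi {M : ℕ → ℝ} {A : ℝ} (hA : 0 < A)
    (hM : ∀ K : ℕ, ∃ N, K ≤ N ∧ M N ≤ A * ((N + 2 : ℕ) : ℝ) ^ (N + 2))
    {g : ℝ → ℂ} (hg : ContDiff ℝ ((⊤ : ℕ∞) : WithTop ℕ∞) g) (hp : Function.Periodic g (2 * π))
    {C Q : ℝ} (hC : 0 < C) (hQ : 0 < Q)
    (hb : ∀ n : ℕ, ∀ x : ℝ, ‖iteratedDeriv n g x‖ ≤ C * Q ^ n * M n)
    {x₀ : ℝ} (h0 : ∀ n : ℕ, iteratedDeriv n g x₀ = 0) : g = 0 := by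
  set ρ : ℝ := 1 / (2 * (Q * Real.exp 1)) with hρ
  have he := Real.exp_pos 1
  have hρ0 : 0 < ρ := by rw [hρ]; positivity
  -- vanishing on `[a, a+ρ]`
  have key : ∀ a, (∀ n : ℕ, iteratedDeriv n g a = 0) → ∀ x, a ≤ x → x ≤ a + ρ → g x = 0 := by
    intro a ha x hax hxa
    have hN : ∀ N : ℕ, M N ≤ A * ((N + 2 : ℕ) : ℝ) ^ (N + 2) →
        ‖g x‖ ≤ C * A * Real.exp 1 ^ 2 * ((N + 2 : ℕ) : ℝ) ^ 2 * (1 / 2) ^ N := by
      intro N hMN
      have h1 := taylor_zero N g hg a (C * Q ^ N * M N) (fun i _ => ha i) (hb N) x hax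
      have hf1 : ((N + 2 : ℕ) : ℝ) ^ (N + 2) / ((N + 2).factorial : ℝ) ≤ Real.exp 1 ^ (N + 2) := by
        have h2 := Real.pow_div_factorial_le_exp ((N + 2 : ℕ) : ℝ) (by positivity) (N + 2)
        refine h2.trans (le_of_eq ?_)
        rw [← Real.exp_nat_mul, mul_one]
      have hf2 : ((N + 2).factorial : ℝ) = ((N : ℝ) + 2) * ((N : ℝ) + 1) * (N.factorial : ℝ) := by
        rw [Nat.factorial_succ, Nat.factorial_succ]
        push_cast; ring
      have hf3 : ((N + 2 : ℕ) : ℝ) ^ (N + 2) / (N.factorial : ℝ) ≤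
          Real.exp 1 ^ (N + 2) * ((N + 2 : ℕ) : ℝ) ^ 2 := by
        have h5 : (0 : ℝ) < (N.factorial : ℝ) := by positivity
        have h6 : ((N + 2 : ℕ) : ℝ) ^ (N + 2) / (N.factorial : ℝ) =
            ((N + 2 : ℕ) : ℝ) ^ (N + 2) / ((N + 2).factorial : ℝ) *
              (((N : ℝ) + 2) * ((N : ℝ) + 1)) := by
          rw [hf2]; field_simp
        rw [h6]
        gcongr
        push_cast
        nlinarith [(Nat.cast_nonneg N : (0 : ℝ) ≤ N)]
      have hxa' : (x - a) ≤ ρ := by linarith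
      have hxa0 : 0 ≤ x - a := by linarith
      have hQρ : Q * Real.exp 1 * ρ = 1 / 2 := by
        rw [hρ]; field_simp
      calc ‖g x‖ ≤ C * Q ^ N * M N * (x - a) ^ N / (N.factorial : ℝ) := h1
        _ ≤ C * Q ^ N * (A * ((N + 2 : ℕ) : ℝ) ^ (N + 2)) * ρ ^ N / (N.factorial : ℝ) := by
            gcongr
        _ = C * A * (Q ^ N * ρ ^ N) * (((N + 2 : ℕ) : ℝ) ^ (N + 2) / (N.factorial : ℝ)) := by ring
        _ ≤ C * A * (Q ^ N * ρ ^ N) * (Real.exp 1 ^ (N + 2) * ((N + 2 : ℕ) : ℝ) ^ 2) := by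
            gcongr
        _ = C * A * Real.exp 1 ^ 2 * ((N + 2 : ℕ) : ℝ) ^ 2 * (Q * Real.exp 1 * ρ) ^ N := by
            rw [pow_add]; ring
        _ = C * A * Real.exp 1 ^ 2 * ((N + 2 : ℕ) : ℝ) ^ 2 * (1 / 2) ^ N := by rw [hQρ]
    have hlim : Tendsto (fun N : ℕ => C * A * Real.exp 1 ^ 2 * ((N + 2 : ℕ) : ℝ) ^ 2 *
        (1 / 2) ^ N) atTop (𝓝 0) := by
      have h1 := tendsto_pow_const_mul_const_pow_of_lt_one 2 (r := (1 / 2 : ℝ)) (by norm_num)
        (by norm_num)
      have h2 := (h1.comp (tendsto_add_atTop_nat 2)).const_mul (C * A * Real.exp 1 ^ 2 * 4)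
      rw [mul_zero] at h2
      refine h2.congr fun N => ?_
      simp only [Function.comp]
      rw [pow_add]
      ring
    by_contra hgx
    have hpos : 0 < ‖g x‖ := norm_pos_iff.2 hgx
    obtain ⟨N0, hN0⟩ := (hlim.eventually (gt_mem_nhds hpos)).exists_forall_of_atTop
    obtain ⟨N, hN1, hN2⟩ := hM N0
    have := hN N hN2
    have := hN0 N hN1
    linarith
  -- propagation
  have hprop : ∀ n : ℕ, ∀ i : ℕ, iteratedDeriv i g (x₀ + n * (ρ / 2)) = 0 := by
    intro n
    induction n with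
    | zero => intro i; simpa using h0 i
    | succ n ih =>
      intro i
      have h1 := key _ ih
      have h2 : g =ᶠ[𝓝 (x₀ + ((n + 1 : ℕ) : ℝ) * (ρ / 2))] fun _ => 0 := by
        have h3 : x₀ + ((n + 1 : ℕ) : ℝ) * (ρ / 2) ∈
            Set.Ioo (x₀ + n * (ρ / 2)) (x₀ + n * (ρ / 2) + ρ) := by
          push_cast
          constructor <;> nlinarith
        filter_upwards [isOpen_Ioo.mem_nhds h3] with y hy
        exact h1 y hy.1.le hy.2.le
      rw [h2.iteratedDeriv_eq]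
      simp
  have hright : ∀ x, x₀ ≤ x → g x = 0 := by
    intro x hx
    obtain ⟨n, hn⟩ := exists_nat_ge ((x - x₀) / (ρ / 2))
    rw [div_le_iff₀ (by positivity)] at hn
    -- choose the largest step below x
    set j : ℕ := ⌊(x - x₀) / (ρ / 2)⌋₊ with hj
    have hj1 : (j : ℝ) ≤ (x - x₀) / (ρ / 2) := Nat.floor_le (by
      apply div_nonneg <;> linarith)
    have hj2 : (x - x₀) / (ρ / 2) < j + 1 := Nat.lt_floor_add_one _
    rw [le_div_iff₀ (by positivity)] at hj1
    rw [div_lt_iff₀ (by positivity)] at hj2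
    exact key _ (hprop j) x (by linarith) (by nlinarith)
  ext x
  obtain ⟨n, hn⟩ := exists_nat_ge ((x₀ - x) / (2 * π))
  rw [div_le_iff₀ (by positivity)] at hn
  have h1 : g (x + n * (2 * π)) = g x := by
    have := hp.nat_mul n
    simpa using this x
  rw [← h1]
  exact hright _ (by linarith)

end Pool.Agent.Helper68.Riesz
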