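import Pool.Agent.Helper68.RieszQA

set_option autoImplicit false
open Real MeasureTheory Filter Topology

namespace Pool.Agent.Helper68.Riesz

/-- majorant of the negative coefficients -/
noncomputable def β (f : ℝ → ℂ) (l : ℤ) : ℝ := if l < 0 then ‖fc f l‖ + Real.exp l else 0

lemma β_nonneg (f : ℝ → ℂ) (l : ℤ) : 0 ≤ β f l := by
  unfold β; split_ifs <;> positivity

/-- the weight sequence -/
noncomputable def Mseq (f : ℝ → ℂ) (k : ℕ) : ℝ := ∑' l : ℤ, |(l : ℝ)| ^ k * β f l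

lemma β_bound {f : ℝ → ℂ} {N : ℕ} (h : NB N f (50 * (N : ℝ) ^ N)) (l : ℤ) :
    |(l : ℝ)| ^ N * β f l ≤ 51 * (N : ℝ) ^ N := by
  unfold β
  split_ifs with hl
  · obtain ⟨n, hn⟩ : ∃ n : ℕ, l = -(n : ℤ) := ⟨l.natAbs, by omega⟩
    have hn1 : 1 ≤ n := by omega
    have h1 := h n hn1
    rw [← hn] at h1
    have h2 : |(l : ℝ)| = (n : ℝ) := by rw [hn]; simp
    rw [h2]
    have h3 : (n : ℝ) ^ N * Real.exp l ≤ (N : ℝ) ^ N := by
      have e1 := Real.pow_div_factorial_le_exp (n : ℝ) (by positivity) N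
      have e2 : Real.exp (l : ℝ) = (Real.exp (n : ℝ))⁻¹ := by
        rw [← Real.exp_neg, hn]; simp
      rw [e2]
      have e3 : (0 : ℝ) < N.factorial := by positivity
      rw [div_le_iff₀ e3] at e1
      have e4 : (N.factorial : ℝ) ≤ (N : ℝ) ^ N := by exact_mod_cast Nat.factorial_le_pow N
      have e5 := Real.exp_pos (n : ℝ)
      rw [← div_eq_mul_inv, div_le_iff₀ e5]
      calc (n : ℝ) ^ N ≤ Real.exp n * N.factorial := e1
        _ ≤ Real.exp n * (N : ℝ) ^ N := by gcongr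
        _ = (N : ℝ) ^ N * Real.exp n := by ring
    calc (n : ℝ) ^ N * (‖fc f l‖ + Real.exp l) = (n : ℝ) ^ N * ‖fc f l‖ +
          (n : ℝ) ^ N * Real.exp l := by ring
      _ ≤ 50 * (N : ℝ) ^ N + (N : ℝ) ^ N := add_le_add h1 h3
      _ = 51 * (N : ℝ) ^ N := by ring
  · rw [mul_zero]; positivity

/-- the constant `∑ 1/l²` over the integers -/
noncomputable def Z : ℝ := ∑' l : ℤ, 1 / (l : ℝ) ^ 2

lemma summable_Z : Summable (fun l : ℤ => 1 / (l : ℝ) ^ 2) :=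
  (Real.summable_one_div_int_pow (p := 2)).2 (by norm_num)

lemma Z_pos : 0 < Z := by
  unfold Z
  apply summable_Z.tsum_pos (fun l => by positivity) 1
  norm_num

lemma term_bound {f : ℝ → ℂ} {N k : ℕ} (hk : k + 2 ≤ N) (h : NB N f (50 * (N : ℝ) ^ N)) (l : ℤ) :
    |(l : ℝ)| ^ k * β f l ≤ 51 * (N : ℝ) ^ N * (1 / (l : ℝ) ^ 2) := by
  by_cases hl : l < 0
  · have h1 := β_bound h l
    have hl1 : (1 : ℝ) ≤ |(l : ℝ)| := by
      have : 1 ≤ |l| := Int.one_le_abs (by omega)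
      exact_mod_cast this
    rw [mul_one_div, le_div_iff₀ (by
      have : (l : ℝ) ≠ 0 := by exact_mod_cast (by omega : l ≠ 0)
      positivity)]
    refine le_trans ?_ h1
    rw [← sq_abs (l : ℝ)]
    calc |(l : ℝ)| ^ k * β f l * |(l : ℝ)| ^ 2 = |(l : ℝ)| ^ (k + 2) * β f l := by ring
      _ ≤ |(l : ℝ)| ^ N * β f l := by
        have := β_nonneg f l
        gcongr
  · have : β f l = 0 := by unfold β; rw [if_neg hl]
    rw [this, mul_zero]
    positivity

lemma summable_M {f : ℝ → ℂ} (h : ∀ K : ℕ, ∃ N, K ≤ N ∧ NB N f (50 * (N : ℝ) ^ N)) (k : ℕ) :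
    Summable (fun l : ℤ => |(l : ℝ)| ^ k * β f l) := by
  obtain ⟨N, hkN, hN⟩ := h (k + 2)
  refine Summable.of_nonneg_of_le (fun l => ?_) (fun l => term_bound hkN hN l)
    (summable_Z.mul_left _)
  have := β_nonneg f l
  positivity

lemma M_pos {f : ℝ → ℂ} (h : ∀ K : ℕ, ∃ N, K ≤ N ∧ NB N f (50 * (N : ℝ) ^ N)) (k : ℕ) :
    0 < Mseq f k := by
  apply (summable_M h k).tsum_pos (fun l => by have := β_nonneg f l; positivity) (-1)
  have : β f (-1) = ‖fc f (-1)‖ + Real.exp ((-1 : ℤ) : ℝ) := by unfold β; rw [if_pos (by norm_num)]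
  rw [this]
  have := Real.exp_pos ((-1 : ℤ) : ℝ)
  have := norm_nonneg (fc f (-1))
  positivity

/-- log-convexity, by the discriminant -/
lemma M_logconvex {f : ℝ → ℂ} (h : ∀ K : ℕ, ∃ N, K ≤ N ∧ NB N f (50 * (N : ℝ) ^ N)) (n : ℕ)
    (hn : 1 ≤ n) : Mseq f n ^ 2 ≤ Mseq f (n - 1) * Mseq f (n + 1) := by
  obtain ⟨k, rfl⟩ : ∃ k, n = k + 1 := ⟨n - 1, by omega⟩
  rw [Nat.add_sub_cancel]
  have hq : ∀ t : ℝ, 0 ≤ Mseq f (k + 2) * (t * t) + (2 * Mseq f (k + 1)) * t + Mseq f k := by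
    intro t
    have h1 : HasSum (fun l : ℤ => |(l : ℝ)| ^ (k + 2) * β f l * (t * t) +
        2 * (|(l : ℝ)| ^ (k + 1) * β f l) * t + |(l : ℝ)| ^ k * β f l)
        (Mseq f (k + 2) * (t * t) + (2 * Mseq f (k + 1)) * t + Mseq f k) :=
      (((summable_M h (k + 2)).hasSum.mul_right _).add
        (((summable_M h (k + 1)).hasSum.mul_left 2).mul_right t)).add (summable_M h k).hasSum
    rw [← h1.tsum_eq]
    apply tsum_nonneg
    intro l
    have h2 : |(l : ℝ)| ^ (k + 2) * β f l * (t * t) +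
        2 * (|(l : ℝ)| ^ (k + 1) * β f l) * t + |(l : ℝ)| ^ k * β f l =
        |(l : ℝ)| ^ k * β f l * (|(l : ℝ)| * t + 1) ^ 2 := by ring
    rw [h2]
    have := β_nonneg f l
    positivity
  have := discrim_le_zero hq
  unfold discrim at this
  nlinarith

lemma M_tendsto {f : ℝ → ℂ} (h : ∀ K : ℕ, ∃ N, K ≤ N ∧ NB N f (50 * (N : ℝ) ^ N)) (x : ℝ)
    (hx : 0 ≤ x) : Tendsto (fun n : ℕ => x ^ n / Mseq f n) atTop (𝓝 0) := by
  obtain ⟨m, hm⟩ := exists_nat_gt x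
  have hm0 : (0 : ℝ) < m := lt_of_le_of_lt hx hm
  have hm1 : 1 ≤ m := by
    have : (0 : ℝ) < m := hm0
    exact_mod_cast this
  have hlow : ∀ n : ℕ, (m : ℝ) ^ n * Real.exp (-(m : ℝ)) ≤ Mseq f n := by
    intro n
    have h1 := (summable_M h n).le_tsum (-(m : ℤ)) (fun l _ => by
      have := β_nonneg f l; positivity)
    refine le_trans ?_ h1
    have h2 : |((-(m : ℤ) : ℤ) : ℝ)| = (m : ℝ) := by simp
    rw [h2]
    have h3 : Real.exp (-(m : ℝ)) ≤ β f (-(m : ℤ)) := by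
      unfold β
      rw [if_pos (by omega)]
      have : ((-(m : ℤ) : ℤ) : ℝ) = -(m : ℝ) := by push_cast; ring
      rw [this]
      have := norm_nonneg (fc f (-(m : ℤ)))
      linarith
    gcongr
  have hup : ∀ n : ℕ, x ^ n / Mseq f n ≤ (x / m) ^ n * Real.exp m := by
    intro n
    rw [div_le_iff₀ (M_pos h n)]
    calc x ^ n = (x / m) ^ n * Real.exp m * ((m : ℝ) ^ n * Real.exp (-(m : ℝ))) := by
          rw [div_pow, Real.exp_neg]
          have := Real.exp_pos (m : ℝ)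
          field_simp
      _ ≤ (x / m) ^ n * Real.exp m * Mseq f n := by
          gcongr
          exact hlow n
  refine squeeze_zero (fun n => div_nonneg (by positivity) (M_pos h n).le) hup ?_
  have h1 : x / m < 1 := by rw [div_lt_one hm0]; exact hm
  have := (tendsto_pow_atTop_nhds_zero_of_lt_one (div_nonneg hx hm0.le) h1).mul_const (Real.exp m)
  simpa using this

lemma M_good {f : ℝ → ℂ} (h : ∀ K : ℕ, ∃ N, K ≤ N ∧ NB N f (50 * (N : ℝ) ^ N)) (K : ℕ) :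
    ∃ N, K ≤ N ∧ Mseq f N ≤ (51 * Z) * ((N + 2 : ℕ) : ℝ) ^ (N + 2) := by
  obtain ⟨N, hkN, hN⟩ := h (K + 2)
  obtain ⟨N', rfl⟩ : ∃ N', N = N' + 2 := ⟨N - 2, by omega⟩
  refine ⟨N', by omega, ?_⟩
  have h1 : Mseq f N' ≤ ∑' l : ℤ, 51 * ((N' + 2 : ℕ) : ℝ) ^ (N' + 2) * (1 / (l : ℝ) ^ 2) :=
    (summable_M h N').tsum_le_tsum (fun l => term_bound le_rfl hN l) (summable_Z.mul_left _)
  rw [tsum_mul_left] at h1
  refine h1.trans (le_of_eq ?_)
  unfold Z
  ring

/-! ### the projection -/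

/-- coefficients of the projection -/
noncomputable def pc (f : ℝ → ℂ) (l : ℤ) : ℂ := if l < 0 then (1 / (2 * π) : ℂ) * fc f l else 0

lemma norm_pc_le (f : ℝ → ℂ) (l : ℤ) : ‖pc f l‖ ≤ β f l := by
  unfold pc β
  split_ifs with hl
  · rw [norm_mul, norm_one_div_two_pi]
    have h1 := one_div_two_pi_le
    have h2 := norm_nonneg (fc f l)
    have h3 := Real.exp_pos (l : ℝ)
    nlinarith
  · simp

/-- the projection -/
noncomputable def Pr (f : ℝ → ℂ) (x : ℝ) : ℂ :=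
  ∑' l : ℤ, pc f l * Complex.exp ((l : ℂ) * Complex.I * (x : ℂ))

lemma iteratedDeriv_exp (c : ℂ) (l : ℤ) (k : ℕ) :
    iteratedDeriv k (fun x : ℝ => c * Complex.exp ((l : ℂ) * Complex.I * (x : ℂ))) =
      fun x : ℝ => c * ((l : ℂ) * Complex.I) ^ k * Complex.exp ((l : ℂ) * Complex.I * (x : ℂ)) := by
  induction k with
  | zero => simp
  | succ k ih =>
    rw [iteratedDeriv_succ, ih]
    ext x
    have h1 : HasDerivAt (fun x : ℝ => ((l : ℂ) * Complex.I * (x : ℂ)))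
        ((l : ℂ) * Complex.I) x := by
      have := (Complex.ofRealCLM.hasDerivAt (x := x)).const_mul ((l : ℂ) * Complex.I)
      simpa using this
    have h2 := (h1.cexp.const_mul (c * ((l : ℂ) * Complex.I) ^ k)).deriv
    rw [h2]
    ring

lemma norm_iteratedFDeriv_term (f : ℝ → ℂ) (k : ℕ) (l : ℤ) (x : ℝ) :
    ‖iteratedFDeriv ℝ k (fun x : ℝ => pc f l * Complex.exp ((l : ℂ) * Complex.I * (x : ℂ))) x‖ ≤
      |(l : ℝ)| ^ k * β f l := by
  rw [norm_iteratedFDeriv_eq_norm_iteratedDeriv, iteratedDeriv_exp]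
  rw [norm_mul, norm_mul, norm_cexp_int, mul_one, norm_pow, norm_mul, Complex.norm_I, mul_one]
  have h1 : ‖(l : ℂ)‖ = |(l : ℝ)| := by simp
  rw [h1, mul_comm]
  gcongr
  exact norm_pc_le f l

lemma contDiff_term (f : ℝ → ℂ) (l : ℤ) : ContDiff ℝ ((⊤ : ℕ∞) : WithTop ℕ∞)
    (fun x : ℝ => pc f l * Complex.exp ((l : ℂ) * Complex.I * (x : ℂ))) :=
  ((SP.const (pc f l)).mul (SP.e l)).1

lemma Pr_contDiff {f : ℝ → ℂ} (h : ∀ K : ℕ, ∃ N, K ≤ N ∧ NB N f (50 * (N : ℝ) ^ N)) :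
    ContDiff ℝ ((⊤ : ℕ∞) : WithTop ℕ∞) (Pr f) :=
  contDiff_tsum (v := fun (k : ℕ) (l : ℤ) => |(l : ℝ)| ^ k * β f l)
    (f := fun (l : ℤ) (x : ℝ) => pc f l * Complex.exp ((l : ℂ) * Complex.I * (x : ℂ)))
    (fun l => contDiff_term f l)
    (fun k _ => summable_M h k) (fun k l x _ => norm_iteratedFDeriv_term f k l x)

lemma Pr_periodic (f : ℝ → ℂ) : Function.Periodic (Pr f) (2 * π) := by
  intro x
  unfold Pr
  congr 1
  ext l
  have := (SP.e l).2 x
  simp only at this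
  rw [this]

lemma Pr_bound {f : ℝ → ℂ} (h : ∀ K : ℕ, ∃ N, K ≤ N ∧ NB N f (50 * (N : ℝ) ^ N)) (k : ℕ) (x : ℝ) :
    ‖iteratedDeriv k (Pr f) x‖ ≤ Mseq f k := by
  rw [← norm_iteratedFDeriv_eq_norm_iteratedDeriv]
  have h1 := iteratedFDeriv_tsum_apply (N := ⊤)
    (v := fun (k : ℕ) (l : ℤ) => |(l : ℝ)| ^ k * β f l)
    (f := fun (l : ℤ) (x : ℝ) => pc f l * Complex.exp ((l : ℂ) * Complex.I * (x : ℂ)))
    (fun l => contDiff_term f l)
    (fun k _ => summable_M h k) (fun k l x _ => norm_iteratedFDeriv_term f k l x) (k := k)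
    le_top x
  have h2 : iteratedFDeriv ℝ k (Pr f) x = ∑' l : ℤ, iteratedFDeriv ℝ k
      (fun x : ℝ => pc f l * Complex.exp ((l : ℂ) * Complex.I * (x : ℂ))) x := h1
  rw [h2]
  exact tsum_of_norm_bounded (summable_M h k).hasSum
    (fun l => norm_iteratedFDeriv_term f k l x)

lemma fc_exp (l m : ℤ) : fc (fun x : ℝ => Complex.exp ((l : ℂ) * Complex.I * (x : ℂ))) m =
    if l = m then (2 * π : ℂ) else 0 := by
  have h1 := fc_e_mul l (fun _ => 1) m
  simp only [mul_one] at h1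
  rw [h1]
  unfold fc
  split_ifs with hlm
  · subst hlm
    simp
  · have hc : (-((m - l : ℤ) : ℂ) * Complex.I) ≠ 0 := by
      apply mul_ne_zero _ Complex.I_ne_zero
      rw [neg_ne_zero]
      exact_mod_cast sub_ne_zero.2 (Ne.symm hlm)
    simp only [mul_one]
    rw [integral_exp_mul_complex hc]
    have h2 : Complex.exp (-((m - l : ℤ) : ℂ) * Complex.I * ((2 * π : ℝ) : ℂ)) = 1 := by
      have := cexp_int_two_pi (-(m - l))
      rw [← this]
      congr 2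
      push_cast
      ring
    rw [h2]
    simp

lemma fc_Pr {f : ℝ → ℂ} (h : ∀ K : ℕ, ∃ N, K ≤ N ∧ NB N f (50 * (N : ℝ) ^ N)) (m : ℤ) :
    fc (Pr f) m = if m < 0 then fc f m else 0 := by
  have hs : Summable (fun l => ‖pc f l‖) := by
    refine Summable.of_nonneg_of_le (fun _ => norm_nonneg _) (fun l => norm_pc_le f l) ?_
    have := summable_M h 0
    simpa using this
  have h1 := hasSum_fc_mul (g := fun _ => 1) continuous_const (by simp) hs (f := Pr f)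
    (fun x => by
      apply Summable.hasSum
      apply Summable.of_norm
      refine hs.congr fun l => ?_
      rw [norm_mul, norm_cexp_int, mul_one]) m
  simp only [mul_one, one_mul] at h1
  have h2 : (fun l : ℤ => pc f l *
      fc (fun x : ℝ => Complex.exp ((l : ℂ) * Complex.I * (x : ℂ))) m) =
      fun l => if l = m then pc f m * (2 * π) else 0 := by
    ext l
    rw [fc_exp]
    split_ifs with hlm
    · rw [hlm]
    · rw [mul_zero]
  rw [h2] at h1
  have h3 := hasSum_ite_eq m (pc f m * (2 * π))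
  have h4 := h1.unique h3
  have h5 : fc (fun x => Pr f x) m = fc (Pr f) m := rfl
  rw [h5] at h4
  rw [h4]
  unfold pc
  split_ifs
  · have : (π : ℂ) ≠ 0 := by exact_mod_cast Real.pi_ne_zero
    field_simp
  · simp

end Pool.Agent.Helper68.Riesz
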