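import Pool.Agent.Helper68.RieszCut

set_option autoImplicit false
open Real MeasureTheory Filter Topology

namespace Pool.Agent.Helper68.Riesz

/-- vanishing near `2πℤ` -/
def Van (f : ℝ → ℂ) : Prop := ∃ a : ℝ, 0 < a ∧ ∀ x, 1 - Real.cos x < a → f x = 0

lemma ez_eq_one_iff (x : ℝ) : 1 - ez x = 0 ↔ 1 - Real.cos x = 0 := by
  have := norm_one_sub_ez_sq x
  constructor
  · intro h; rw [h] at this; simp at this; linarith
  · intro h; rw [h] at this; simpa using this

lemma exists_div {f : ℝ → ℂ} (hf : SP f) (hV : Van f) :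
    ∃ v, SP v ∧ ∀ x, f x = (1 - ez x) * v x := by
  obtain ⟨a, ha, hfa⟩ := hV
  refine ⟨fun x => f x / (1 - ez x), ⟨?_, ?_⟩, ?_⟩
  · rw [contDiff_iff_contDiffAt]
    intro x
    by_cases hx : 1 - Real.cos x = 0
    · have hev : ∀ᶠ y in 𝓝 x, f y / (1 - ez y) = 0 := by
        have h1 : Continuous (fun y => 1 - Real.cos y) := by fun_prop
        have h2 : ∀ᶠ y in 𝓝 x, 1 - Real.cos y < a := by
          have : (fun y => 1 - Real.cos y) x < a := by simpa [hx] using ha
          exact h1.continuousAt.eventually_lt continuousAt_const this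
        filter_upwards [h2] with y hy
        rw [hfa y hy, zero_div]
      have h3 : (fun y => f y / (1 - ez y)) =ᶠ[𝓝 x] fun _ => 0 := hev
      exact contDiffAt_const.congr_of_eventuallyEq h3
    · have h1 : 1 - ez x ≠ 0 := fun h => hx ((ez_eq_one_iff x).1 h)
      have h2 : ContDiffAt ℝ ((⊤ : ℕ∞) : WithTop ℕ∞) (fun y => (1 - ez y)⁻¹) x :=
        ContDiffAt.inv (((SP.const 1).sub SP.ez).1.contDiffAt) h1
      have h3 := (hf.1.contDiffAt (x := x)).mul h2
      simpa [div_eq_mul_inv] using h3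
  · intro x
    have h1 := hf.2 x
    have h2 := SP.ez.2 x
    simp only [h1, h2]
  · intro x
    by_cases hx : 1 - ez x = 0
    · have h1 := (ez_eq_one_iff x).1 hx
      rw [hx, zero_mul]
      exact hfa x (by rw [h1]; exact ha)
    · field_simp

/-- the cutoff profile -/
noncomputable def S0 (t : ℝ) : ℂ := ((1 - Real.smoothTransition t : ℝ) : ℂ)

lemma CS_S0 : CS S0 := by
  refine ⟨?_, ?_⟩
  · apply Complex.ofRealCLM.contDiff.comp
    exact contDiff_const.sub Real.smoothTransition.contDiff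
  · intro t ht
    simp [S0, Real.smoothTransition.one_of_one_le ht]

lemma S0_of_nonpos {t : ℝ} (ht : t ≤ 0) : S0 t = 1 := by
  simp [S0, Real.smoothTransition.zero_of_nonpos ht]

/-- One step of the construction. -/
lemma one_step {f : ℝ → ℂ} (hf : SP f) (hV : Van f) (k K : ℕ) {δ : ℝ} (hδ : 0 < δ) {B : ℝ}
    (hB : ∀ x, ‖f x‖ ≤ B) :
    ∃ (f' : ℝ → ℂ) (N : ℕ), SP f' ∧ Van f' ∧ K ≤ N ∧ (∀ x, ‖f' x - f x‖ ≤ δ) ∧
      NB k (fun x => f' x - f x) δ ∧ NB N f' ((N : ℝ) ^ N * (2 * π * (B + δ)) + δ) := by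
  -- choice of N
  obtain ⟨N, hKN, hN⟩ : ∃ N, K ≤ N ∧ tl k f N ≤ δ / 3 := by
    have h1 := (tendsto_tl hf k).eventually (eventually_le_nhds (show (0 : ℝ) < δ / 3 by linarith))
    obtain ⟨N, h2, h3⟩ := (h1.and (eventually_ge_atTop K)).exists
    exact ⟨N, h3, h2⟩
  obtain ⟨v, hv, hfv⟩ := exists_div hf hV
  obtain ⟨Bv, hBv0, hBv⟩ := hv.bounded
  obtain ⟨Cv, hCv0, hCv⟩ := hv.decay k
  have hNBv : NB k v Cv := by
    intro n hn
    have := hCv (-(n : ℤ))
    simpa using this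
  set m : ℕ := 3 * (max N k) + 2 with hm
  have hmN : N ≤ max N k := le_max_left _ _
  have hmk : k ≤ max N k := le_max_right _ _
  -- choice of ε
  obtain ⟨ε, hε, he1, he2⟩ : ∃ ε : ℝ, 0 < ε ∧ ε * (2 ^ (m + 1) * Cv) ≤ δ / 3 ∧
      ε * (m * Bv) ≤ δ / 3 := by
    refine ⟨δ / 3 / (2 ^ (m + 1) * Cv + m * Bv + 1), by positivity, ?_, ?_⟩
    · rw [div_mul_eq_mul_div, div_le_iff₀ (by positivity)]
      have : 0 ≤ (m : ℝ) * Bv := by positivity
      nlinarith
    · rw [div_mul_eq_mul_div, div_le_iff₀ (by positivity)]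
      have : 0 ≤ (2 : ℝ) ^ (m + 1) * Cv := by positivity
      nlinarith
  -- the function h
  set h : ℝ → ℂ := fun x => O ε x ^ m * T N f x with hh
  have hhS : SP h := ((SP.O hε).pow m).mul (SP.T N f)
  set q : ℝ → ℂ := fun x => T N f x / den ε x ^ m with hq
  have hqS : SP q := (SP.T N f).div ((SP.den ε).pow m) (fun x => pow_ne_zero _ (den_ne hε x))
  have hqh : ∀ x, (1 - ez x) ^ m * q x = h x := by
    intro x
    have := den_ne hε x
    simp only [hq, hh, O]
    rw [div_pow]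
    field_simp
  -- sup norm of T N f
  have hTB : ∀ x, ‖T N f x‖ ≤ B + δ := by
    intro x
    have h1 := norm_sub_T_le hf k N x
    have h2 : ‖T N f x‖ ≤ ‖f x‖ + ‖f x - T N f x‖ := by
      have : T N f x = f x - (f x - T N f x) := by ring
      calc ‖T N f x‖ = ‖f x - (f x - T N f x)‖ := by rw [← this]
        _ ≤ _ := norm_sub_le _ _
    linarith [hB x]
  -- constants for the cutoff
  obtain ⟨C1, hC10, hC1⟩ := F_sup m 1 (by omega) hqS CS_S0
  obtain ⟨C2, hC20, hC2⟩ := F_coef k m (k + 1) (by omega) hqS CS_S0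
  obtain ⟨C3, hC30, hC3⟩ := F_coef N m (N + 1) (by omega) hqS CS_S0
  obtain ⟨μ, hμ1, hμ⟩ : ∃ μ : ℝ, 1 ≤ μ ∧ (C1 + C2 + C3) / μ ≤ δ / 3 := by
    refine ⟨1 + (C1 + C2 + C3) / (δ / 3), ?_, ?_⟩
    · have : 0 ≤ (C1 + C2 + C3) / (δ / 3) := by positivity
      linarith
    · rw [div_le_iff₀ (by positivity)]
      have h1 : δ / 3 * ((C1 + C2 + C3) / (δ / 3)) = C1 + C2 + C3 := by
        field_simp
      nlinarith
  have hμ0 : 0 < μ := by linarith
  have hC1' : C1 / μ ≤ δ / 3 := by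
    refine le_trans ?_ hμ
    gcongr; linarith
  have hC2' : C2 / μ ≤ δ / 3 := by
    refine le_trans ?_ hμ
    gcongr; linarith
  have hC3' : C3 / μ ≤ δ / 3 := by
    refine le_trans ?_ hμ
    gcongr; linarith
  have hFS : SP (F m q S0 μ) := SP.F _ hqS CS_S0 μ
  have hFsup : ∀ x, ‖F m q S0 μ x‖ ≤ δ / 3 := by
    intro x
    have := hC1 μ hμ1 x
    rw [pow_one] at this
    exact this.trans hC1'
  have hFk : NB k (F m q S0 μ) (δ / 3) := by
    intro n hn
    have h1 := hC2 μ hμ1 (-(n : ℤ))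
    have h2 : C2 * μ ^ k / μ ^ (k + 1) = C2 / μ := by
      rw [pow_succ]; field_simp
    rw [h2] at h1
    have h3 : |((-(n : ℤ) : ℤ) : ℝ)| = (n : ℝ) := by simp
    rw [h3] at h1
    exact h1.trans hC2'
  have hFN : NB N (F m q S0 μ) (δ / 3) := by
    intro n hn
    have h1 := hC3 μ hμ1 (-(n : ℤ))
    have h2 : C3 * μ ^ N / μ ^ (N + 1) = C3 / μ := by
      rw [pow_succ]; field_simp
    rw [h2] at h1
    have h3 : |((-(n : ℤ) : ℤ) : ℝ)| = (n : ℝ) := by simp
    rw [h3] at h1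
    exact h1.trans hC3'
  refine ⟨fun x => h x - F m q S0 μ x, N, hhS.sub hFS, ?_, hKN, ?_, ?_, ?_⟩
  · refine ⟨1 / μ, by positivity, fun x hx => ?_⟩
    have h1 : μ * (1 - Real.cos x) - 1 ≤ 0 := by
      rw [lt_div_iff₀ hμ0] at hx
      linarith
    show h x - (1 - ez x) ^ m * q x * S0 (μ * (1 - Real.cos x) - 1) = 0
    rw [S0_of_nonpos h1, mul_one, hqh, sub_self]
  · intro x
    have h1 : h x - F m q S0 μ x - f x = -((f x - O ε x ^ m * f x) +
        O ε x ^ m * (f x - T N f x) + F m q S0 μ x) := by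
      simp only [hh]; ring
    rw [h1, norm_neg]
    have e1 : ‖f x - O ε x ^ m * f x‖ ≤ δ / 3 := (norm_sub_O_pow hfv hε hBv m x).trans he2
    have e2 : ‖O ε x ^ m * (f x - T N f x)‖ ≤ δ / 3 := by
      rw [norm_mul]
      calc ‖O ε x ^ m‖ * ‖f x - T N f x‖ ≤ 1 * (δ / 3) :=
            mul_le_mul (norm_O_pow_le hε _ x) ((norm_sub_T_le hf k N x).trans hN)
              (norm_nonneg _) zero_le_one
        _ = δ / 3 := one_mul _
    calc _ ≤ ‖f x - O ε x ^ m * f x‖ + ‖O ε x ^ m * (f x - T N f x)‖ + ‖F m q S0 μ x‖ :=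
          norm_add₃_le
      _ ≤ δ / 3 + δ / 3 + δ / 3 := add_le_add (add_le_add e1 e2) (hFsup x)
      _ = δ := by ring
  · have c1 : SP (fun x => f x - O ε x ^ m * f x) := hf.sub (((SP.O hε).pow m).mul hf)
    have c2 : SP (fun x => O ε x ^ m * (f x - T N f x)) :=
      ((SP.O hε).pow m).mul (hf.sub (SP.T N f))
    have h2 := NB.add (c1.add c2).continuous hFS.continuous
      (NB.add c1.continuous c2.continuous
      ((NB.sub_O_pow hv hfv hCv0 hε hNBv m).mono he1) ((NB.O_pow_sub_T hf k N m hε).mono hN)) hFk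
    have h3 : (fun x => h x - F m q S0 μ x - f x) = fun x => (-1 : ℂ) *
        ((f x - O ε x ^ m * f x) + O ε x ^ m * (f x - T N f x) + F m q S0 μ x) := by
      ext x
      simp only [hh]; ring
    rw [h3]
    intro n hn
    rw [fc_const_mul, norm_mul, norm_neg, norm_one, one_mul]
    exact (h2 n hn).trans (by linarith)
  · refine (NB.sub hhS.continuous hFS.continuous (NB.O_pow_T N m hε hTB) hFN).mono ?_
    linarith

end Pool.Agent.Helper68.Riesz
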