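import Pool.Agent.Helper68.RieszO

set_option autoImplicit false
open Real MeasureTheory Filter Topology

namespace Pool.Agent.Helper68.Riesz

/-- Fourier truncation -/
noncomputable def T (N : ℕ) (f : ℝ → ℂ) (x : ℝ) : ℂ :=
  ∑ l ∈ Finset.Icc (-(N : ℤ)) N, (1 / (2 * π) : ℂ) * fc f l *
    Complex.exp ((l : ℂ) * Complex.I * (x : ℂ))

lemma SP.T (N : ℕ) (f : ℝ → ℂ) : SP (T N f) :=
  SP.sum _ fun l _ => (SP.const _).mul (SP.e l)

lemma hasSum_fc_mul {g : ℝ → ℂ} (hg : Continuous g) (hg1 : ∀ x, ‖g x‖ ≤ 1) {a : ℤ → ℂ}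
    (ha : Summable (fun l => ‖a l‖)) {f : ℝ → ℂ}
    (hf : ∀ x : ℝ, HasSum (fun l : ℤ => a l * Complex.exp ((l : ℂ) * Complex.I * (x : ℂ))) (f x))
    (n : ℤ) :
    HasSum (fun l : ℤ => a l *
      fc (fun x => Complex.exp ((l : ℂ) * Complex.I * (x : ℂ)) * g x) n)
      (fc (fun x => g x * f x) n) := by
  have h := intervalIntegral.hasSum_integral_of_dominated_convergence
    (μ := volume) (a := 0) (b := 2 * π)
    (F := fun (l : ℤ) (x : ℝ) => a l * (Complex.exp (-(n : ℂ) * Complex.I * (x : ℂ)) *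
      (Complex.exp ((l : ℂ) * Complex.I * (x : ℂ)) * g x)))
    (f := fun x : ℝ => Complex.exp (-(n : ℂ) * Complex.I * (x : ℂ)) * (g x * f x))
    (fun l _ => ‖a l‖) ?_ ?_ ?_ ?_ ?_
  · refine HasSum.congr_fun h ?_ |> fun h => h
    intro l
    rw [intervalIntegral.integral_const_mul]
    rfl
  · intro l
    apply Continuous.aestronglyMeasurable
    fun_prop
  · intro l
    refine Eventually.of_forall fun x _ => ?_
    rw [norm_mul, norm_mul, norm_mul, norm_cexp_neg_int, norm_cexp_int, one_mul, one_mul]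
    exact mul_le_of_le_one_right (norm_nonneg _) (hg1 x)
  · exact Eventually.of_forall fun x _ => ha
  · exact intervalIntegrable_const
  · refine Eventually.of_forall fun x _ => ?_
    have h3 := (hf x).mul_left (Complex.exp (-(n : ℂ) * Complex.I * (x : ℂ)) * g x)
    have h4 : (fun l : ℤ => a l * (Complex.exp (-(n : ℂ) * Complex.I * (x : ℂ)) *
        (Complex.exp ((l : ℂ) * Complex.I * (x : ℂ)) * g x))) = fun l : ℤ =>
        Complex.exp (-(n : ℂ) * Complex.I * (x : ℂ)) * g x *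
          (a l * Complex.exp ((l : ℂ) * Complex.I * (x : ℂ))) := by
      ext l; ring
    rw [h4, ← mul_assoc]
    exact h3

/-- weighted coefficient sequence -/
noncomputable def wc (k : ℕ) (f : ℝ → ℂ) (l : ℤ) : ℝ := |(l : ℝ)| ^ k * ‖fc f l‖

lemma summable_wc {f : ℝ → ℂ} (hf : SP f) (k : ℕ) : Summable (wc k f) := by
  obtain ⟨C, hC0, hC⟩ := hf.decay (k + 2)
  obtain ⟨D, hD0, hD⟩ := hf.decay k
  have h1 : Summable (fun l : ℤ => C * (1 / (|(l : ℝ)| ^ 2))) := by
    apply Summable.mul_left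
    have := (Real.summable_one_div_int_pow (p := 2)).2 (by norm_num)
    refine this.congr fun l => ?_
    rw [sq_abs]
  have h2 : Summable (fun l : ℤ => C * (1 / (|(l : ℝ)| ^ 2)) + if l = 0 then D else 0) := by
    apply h1.add
    exact summable_of_ne_finset_zero (s := {0}) (by
      intro b hb
      simp at hb
      simp [hb])
  refine Summable.of_nonneg_of_le (fun l => by unfold wc; positivity) (fun l => ?_) h2
  by_cases hl : l = 0
  · simp only [hl, wc, if_true]
    have := hD 0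
    simp at this ⊢
    linarith
  · simp only [hl, if_false, add_zero, wc]
    have hl' : 0 < |(l : ℝ)| := by
      rw [abs_pos]; exact_mod_cast hl
    have := hC l
    rw [mul_one_div, le_div_iff₀ (by positivity)]
    calc |(l : ℝ)| ^ k * ‖fc f l‖ * |(l : ℝ)| ^ 2 = |(l : ℝ)| ^ (k + 2) * ‖fc f l‖ := by ring
      _ ≤ C := this

lemma summable_norm_fc {f : ℝ → ℂ} (hf : SP f) : Summable (fun n : ℤ => ‖fc f n‖) := by
  have := summable_wc hf 0
  refine this.congr fun l => ?_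
  simp [wc]

/-- tail of the weighted coefficient sum -/
noncomputable def tl (k : ℕ) (f : ℝ → ℂ) (N : ℕ) : ℝ :=
  ∑' l : ℤ, if l ∈ Finset.Icc (-(N : ℤ)) N then 0 else wc k f l

lemma hasSum_ite_compl {E : Type*} [NormedAddCommGroup E] {F : ℤ → E} {S : E} (h : HasSum F S)
    (s : Finset ℤ) : HasSum (fun l => if l ∈ s then 0 else F l) (S - ∑ l ∈ s, F l) := by
  have h1 : HasSum (fun l => if l ∈ s then F l else 0) (∑ l ∈ s, F l) := by
    have h0 : HasSum (fun l => if l ∈ s then F l else 0) (∑ l ∈ s, if l ∈ s then F l else 0) :=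
      hasSum_sum_of_ne_finset_zero (by intro b hb; simp [hb])
    have h00 : (∑ l ∈ s, if l ∈ s then F l else 0) = ∑ l ∈ s, F l :=
      Finset.sum_congr rfl (by intro l hl; simp [hl])
    rwa [h00] at h0
  have h2 := h.sub h1
  have h3 : (fun l => if l ∈ s then 0 else F l) = fun l => F l - if l ∈ s then F l else 0 := by
    ext l
    by_cases hl : l ∈ s <;> simp [hl]
  rw [h3]
  exact h2

lemma tendsto_tl {f : ℝ → ℂ} (hf : SP f) (k : ℕ) : Tendsto (tl k f) atTop (𝓝 0) := by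
  have hs := (summable_wc hf k).hasSum
  have h1 : ∀ N : ℕ, tl k f N = (∑' l, wc k f l) - ∑ l ∈ Finset.Icc (-(N : ℤ)) N, wc k f l :=
    fun N => (hasSum_ite_compl hs _).tsum_eq
  have h2 : Tendsto (fun N : ℕ => Finset.Icc (-(N : ℤ)) N) atTop atTop := by
    apply tendsto_atTop_finset_of_monotone
    · intro a b hab
      apply Finset.Icc_subset_Icc
      · have : (a : ℤ) ≤ b := by exact_mod_cast hab
        linarith
      · exact_mod_cast hab
    · intro l
      refine ⟨l.natAbs, ?_⟩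
      rw [Finset.mem_Icc]
      omega
  have h3 : Tendsto (fun N : ℕ => ∑ l ∈ Finset.Icc (-(N : ℤ)) N, wc k f l) atTop
      (𝓝 (∑' l, wc k f l)) := hs.comp h2
  have h4 := h3.const_sub (∑' l, wc k f l)
  rw [sub_self] at h4
  exact h4.congr fun N => (h1 N).symm

lemma hasSum_sub_T {f : ℝ → ℂ} (hf : SP f) (N : ℕ) (x : ℝ) :
    HasSum (fun l : ℤ => (if l ∈ Finset.Icc (-(N : ℤ)) N then 0 else
      (1 / (2 * π) : ℂ) * fc f l) * Complex.exp ((l : ℂ) * Complex.I * (x : ℂ)))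
      (f x - T N f x) := by
  have h := hasSum_ite_compl (hasSum_fc hf.continuous hf.2 (summable_norm_fc hf) x)
    (Finset.Icc (-(N : ℤ)) N)
  have h3 : (fun l : ℤ => (if l ∈ Finset.Icc (-(N : ℤ)) N then 0 else
      (1 / (2 * π) : ℂ) * fc f l) * Complex.exp ((l : ℂ) * Complex.I * (x : ℂ))) =
      fun l : ℤ => if l ∈ Finset.Icc (-(N : ℤ)) N then 0 else
      (1 / (2 * π) : ℂ) * fc f l * Complex.exp ((l : ℂ) * Complex.I * (x : ℂ)) := by
    ext l
    by_cases hl : l ∈ Finset.Icc (-(N : ℤ)) (N : ℤ)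
    · rw [if_pos hl, if_pos hl, zero_mul]
    · rw [if_neg hl, if_neg hl]
  rw [h3]
  exact h

lemma norm_one_div_two_pi : ‖(1 / (2 * π) : ℂ)‖ = 1 / (2 * π) := by
  rw [norm_div, norm_one, norm_mul, Complex.norm_ofNat, Complex.norm_real,
    Real.norm_of_nonneg Real.pi_pos.le]

lemma one_div_two_pi_le : 1 / (2 * π) ≤ 1 := by
  rw [div_le_one (by positivity)]
  have := Real.pi_gt_three
  linarith

lemma summable_tail {f : ℝ → ℂ} (hf : SP f) (k N : ℕ) :
    Summable (fun l : ℤ => if l ∈ Finset.Icc (-(N : ℤ)) N then 0 else wc k f l) :=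
  (hasSum_ite_compl (summable_wc hf k).hasSum _).summable

lemma norm_sub_T_le {f : ℝ → ℂ} (hf : SP f) (k N : ℕ) (x : ℝ) :
    ‖f x - T N f x‖ ≤ tl k f N := by
  rw [← (hasSum_sub_T hf N x).tsum_eq]
  apply tsum_of_norm_bounded (summable_tail hf k N).hasSum
  intro l
  by_cases hl : l ∈ Finset.Icc (-(N : ℤ)) (N : ℤ)
  · simp only [hl, if_true, zero_mul, norm_zero]; exact le_rfl
  · simp only [hl, if_false]
    rw [norm_mul, norm_mul, norm_cexp_int, mul_one, norm_one_div_two_pi]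
    have hl1 : (1 : ℝ) ≤ |(l : ℝ)| := by
      have hne : l ≠ 0 := by
        rintro rfl
        exact hl (by rw [Finset.mem_Icc]; omega)
      have : 1 ≤ |l| := Int.one_le_abs hne
      exact_mod_cast this
    have h2 : (1 : ℝ) ≤ |(l : ℝ)| ^ k := one_le_pow₀ hl1
    unfold wc
    exact mul_le_mul_of_nonneg_right (one_div_two_pi_le.trans h2) (norm_nonneg _)

lemma summable_coef_tail {f : ℝ → ℂ} (hf : SP f) (N : ℕ) :
    Summable (fun l : ℤ => ‖(if l ∈ Finset.Icc (-(N : ℤ)) N then 0 else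
      (1 / (2 * π) : ℂ) * fc f l)‖) := by
  refine Summable.of_nonneg_of_le (fun _ => norm_nonneg _) (fun l => ?_) (summable_norm_fc hf)
  by_cases hl : l ∈ Finset.Icc (-(N : ℤ)) (N : ℤ)
  · simp only [hl, if_true, norm_zero]; exact norm_nonneg _
  · simp only [hl, if_false]
    rw [norm_mul, norm_one_div_two_pi]
    exact mul_le_of_le_one_left (norm_nonneg _) one_div_two_pi_le

/-- (B2) -/
lemma NB.O_pow_sub_T {f : ℝ → ℂ} (hf : SP f) (k N m : ℕ) {ε : ℝ} (hε : 0 < ε) :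
    NB k (fun x => O ε x ^ m * (f x - T N f x)) (tl k f N) := by
  intro n hn
  have h := hasSum_fc_mul (g := fun x => O ε x ^ m) ((SP.O hε).pow m).continuous
    (norm_O_pow_le hε m) (summable_coef_tail hf N) (hasSum_sub_T hf N) (-(n : ℤ))
  rw [← h.tsum_eq]
  have hn0 : (0 : ℝ) ≤ (n : ℝ) ^ k := by positivity
  have h5 : (n : ℝ) ^ k * ‖∑' l : ℤ, (if l ∈ Finset.Icc (-(N : ℤ)) N then 0 else
      (1 / (2 * π) : ℂ) * fc f l) *
      fc (fun x : ℝ => Complex.exp ((l : ℂ) * Complex.I * (x : ℂ)) * O ε x ^ m) (-(n : ℤ))‖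
      = ‖∑' l : ℤ, ((n : ℂ) ^ k * ((if l ∈ Finset.Icc (-(N : ℤ)) N then 0 else
      (1 / (2 * π) : ℂ) * fc f l) *
      fc (fun x : ℝ => Complex.exp ((l : ℂ) * Complex.I * (x : ℂ)) * O ε x ^ m) (-(n : ℤ))))‖ := by
    rw [tsum_mul_left, norm_mul, norm_pow, Complex.norm_natCast]
  rw [h5]
  apply tsum_of_norm_bounded (summable_tail hf k N).hasSum
  intro l
  by_cases hl : l ∈ Finset.Icc (-(N : ℤ)) (N : ℤ)
  · simp only [hl, if_true, zero_mul, mul_zero, norm_zero]; exact le_rfl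
  · simp only [hl, if_false]
    by_cases hln : -(n : ℤ) < l
    · rw [fc_e_O_pow hε m l (-(n : ℤ)) hln]
      simp only [mul_zero, norm_zero]
      unfold wc; positivity
    · have h6 : (n : ℝ) ≤ |(l : ℝ)| := by
        have : (n : ℤ) ≤ |l| := by
          rw [abs_of_nonpos (by omega)]; omega
        exact_mod_cast this
      rw [norm_mul, norm_mul, norm_mul, norm_one_div_two_pi, norm_pow, Complex.norm_natCast]
      have h7 := norm_fc_e_O_pow hε m l (-(n : ℤ))
      unfold wc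
      calc (n : ℝ) ^ k * (1 / (2 * π) * ‖fc f l‖ *
            ‖fc (fun x : ℝ => Complex.exp ((l : ℂ) * Complex.I * (x : ℂ)) * O ε x ^ m) (-(n : ℤ))‖)
          ≤ (n : ℝ) ^ k * (1 / (2 * π) * ‖fc f l‖ * (2 * π)) := by gcongr
        _ = (n : ℝ) ^ k * ‖fc f l‖ := by
            have := Real.pi_pos
            field_simp
        _ ≤ |(l : ℝ)| ^ k * ‖fc f l‖ := by gcongr

/-- negative coefficients of `O^m T_N f` beyond `N` vanish -/
lemma fc_O_pow_T {f : ℝ → ℂ} (N m : ℕ) {ε : ℝ} (hε : 0 < ε) (n : ℤ) (hn : n < -(N : ℤ)) :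
    fc (fun x => O ε x ^ m * T N f x) n = 0 := by
  have h1 : (fun x => O ε x ^ m * T N f x) = fun x : ℝ => ∑ l ∈ Finset.Icc (-(N : ℤ)) N,
      ((1 / (2 * π) : ℂ) * fc f l) * (Complex.exp ((l : ℂ) * Complex.I * (x : ℂ)) * O ε x ^ m) := by
    ext x
    unfold T
    rw [Finset.mul_sum]
    apply Finset.sum_congr rfl
    intro l _
    ring
  rw [h1, fc_sum]
  · apply Finset.sum_eq_zero
    intro l hl
    rw [fc_const_mul, fc_e_O_pow hε m l n, mul_zero]
    rw [Finset.mem_Icc] at hl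
    omega
  · intro l _
    exact ((SP.const _).mul ((SP.e l).mul ((SP.O hε).pow m))).continuous

lemma NB.O_pow_T {f : ℝ → ℂ} (N m : ℕ) {ε : ℝ} (hε : 0 < ε) {C : ℝ}
    (hC : ∀ x, ‖T N f x‖ ≤ C) :
    NB N (fun x => O ε x ^ m * T N f x) ((N : ℝ) ^ N * (2 * π * C)) := by
  have hC0 : 0 ≤ C := (norm_nonneg _).trans (hC 0)
  intro n hn
  by_cases hnN : n ≤ N
  · have h1 : ‖fc (fun x => O ε x ^ m * T N f x) (-(n : ℤ))‖ ≤ 2 * π * C := by
      apply norm_fc_le
      intro x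
      rw [norm_mul]
      calc ‖O ε x ^ m‖ * ‖T N f x‖ ≤ 1 * C :=
            mul_le_mul (norm_O_pow_le hε _ x) (hC x) (norm_nonneg _) zero_le_one
        _ = C := one_mul C
    gcongr
  · rw [fc_O_pow_T N m hε _ (by omega)]
    rw [norm_zero, mul_zero]
    positivity

end Pool.Agent.Helper68.Riesz
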