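import Pool.Agent.Helper68.RigidDefs

set_option autoImplicit false
open Topology

namespace Pool.Agent.Helper68.RigidInput

variable (N : Network)

/-- zero-padded coordinates -/
def pad {n : ℕ} (v : Fin n → ℝ) (j : ℕ) : ℝ := if h : j < n then v ⟨j, h⟩ else 0

lemma pad_val {n : ℕ} (v : Fin n → ℝ) (j : Fin n) : pad v (j : ℕ) = v j := by
  unfold pad
  rw [dif_pos j.2]

lemma pad_transport {c d : N.Node} (h : N.nodeType c = N.nodeType d) (v : N.P c) (j : ℕ) :
    pad (N.transport h v) j = pad v j := by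
  unfold pad Network.transport
  by_cases h1 : j < N.dim (N.nodeType d)
  · have h2 : j < N.dim (N.nodeType c) := by rw [h]; exact h1
    rw [dif_pos h1, dif_pos h2]
    rfl
  · have h2 : ¬ j < N.dim (N.nodeType c) := by rw [h]; exact h1
    rw [dif_neg h1, dif_neg h2]

/-- type preserving bijections of input sets -/
abbrev TB (c i : N.Node) : Type :=
  {β : N.Inp c ≃ N.Inp i // ∀ e, N.arrowType (β e).1 = N.arrowType e.1}

noncomputable instance (c i : N.Node) : Fintype (TB N c i) := Fintype.ofFinite _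

lemma inputIsomorphic_of_TB {c i : N.Node} (β : TB N c i) : N.InputIsomorphic c i := by
  intro a
  apply Nat.card_congr
  refine ⟨fun e => ⟨β.1 e.1, by rw [β.2]; exact e.2⟩,
    fun e => ⟨β.1.symm e.1, by
      have := β.2 (β.1.symm e.1)
      rw [Equiv.apply_symm_apply] at this
      rw [← this]; exact e.2⟩, ?_, ?_⟩
  · intro e; simp
  · intro e; simp

/-- the profile -/
noncomputable def St (t : ℝ) : ℝ := Real.smoothTransition (2 - 2 * t)

lemma St_nonneg (t : ℝ) : 0 ≤ St t := Real.smoothTransition.nonneg _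
lemma St_le_one (t : ℝ) : St t ≤ 1 := Real.smoothTransition.le_one _
lemma St_one {t : ℝ} (h : t ≤ 1 / 2) : St t = 1 :=
  Real.smoothTransition.one_of_one_le (by linarith)
lemma St_zero {t : ℝ} (h : 1 ≤ t) : St t = 0 :=
  Real.smoothTransition.zero_of_nonpos (by linarith)
lemma St_smooth : ContDiff ℝ ((⊤ : ℕ∞) : WithTop ℕ∞) St :=
  Real.smoothTransition.contDiff.comp (contDiff_const.sub (contDiff_const.mul contDiff_id))

/-- mismatch functional on the level of components -/
noncomputable def Dc (a : N.State) (c i : N.Node) (β : N.Inp c ≃ N.Inp i) (u : N.P i)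
    (w : (e : N.Inp i) → N.P (N.tail e.1)) : ℝ :=
  (∑ j ∈ Finset.range (N.dim (N.nodeType c)), (pad u j - pad (a c) j) ^ 2) +
  ∑ e : N.Inp c, ∑ j ∈ Finset.range (N.dim (N.nodeType (N.tail e.1))),
    (pad (w (β e)) j - pad (a (N.tail e.1)) j) ^ 2

/-- mismatch functional -/
noncomputable def Dm (a : N.State) (c : N.Node) (x : N.State) (i : N.Node)
    (β : N.Inp c ≃ N.Inp i) : ℝ :=
  Dc N a c i β (x i) (fun e => x (N.tail e.1))

open Classical in
/-- components of the bump perturbation -/
noncomputable def bhat (a : N.State) (c : N.Node) (r : ℝ) (κ : ℕ → ℝ) (i : N.Node) (u : N.P i)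
    (w : (e : N.Inp i) → N.P (N.tail e.1)) : N.P i := fun j =>
  if N.nodeType i = N.nodeType c then
    (1 - ∏ β : TB N c i, (1 - St (Dc N a c i β.1 u w / r ^ 2))) * κ j else 0

/-- the bump perturbation centred at the input tuple of `c` in the state `a` -/
noncomputable def bump (a : N.State) (c : N.Node) (r : ℝ) (κ : ℕ → ℝ) (x : N.State) : N.State :=
  fun i => bhat N a c r κ i (x i) (fun e => x (N.tail e.1))

/-- the scalar part of the bump -/
noncomputable def bval (a : N.State) (c : N.Node) (r : ℝ) (x : N.State) (i : N.Node) : ℝ :=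
  1 - ∏ β : TB N c i, (1 - St (Dm N a c x i β.1 / r ^ 2))

open Classical in
lemma bump_apply (a : N.State) (c : N.Node) (r : ℝ) (κ : ℕ → ℝ) (x : N.State) (i : N.Node)
    (j : Fin (N.dim (N.nodeType i))) : bump N a c r κ x i j =
      if N.nodeType i = N.nodeType c then bval N a c r x i * κ j else 0 := rfl

/-- composition with a type preserving bijection -/
def TBequiv {c c' d' : N.Node} (γ : TB N c' d') : TB N c c' ≃ TB N c d' where
  toFun β := ⟨β.1.trans γ.1, fun e => by
    rw [Equiv.trans_apply, γ.2, β.2]⟩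
  invFun β := ⟨β.1.trans γ.1.symm, fun e => by
    have h1 := γ.2 (γ.1.symm (β.1 e))
    rw [Equiv.apply_symm_apply] at h1
    rw [Equiv.trans_apply, ← h1, β.2]⟩
  left_inv β := by
    apply Subtype.ext
    ext e
    simp
  right_inv β := by
    apply Subtype.ext
    ext e
    simp

lemma bump_isComponents (a : N.State) (c : N.Node) (r : ℝ) (κ : ℕ → ℝ) :
    N.IsComponents (bump N a c r κ) (bhat N a c r κ) := by
  classical
  refine ⟨fun _ _ => rfl, ?_⟩
  intro c' d' h γ hγ x
  funext j
  show bhat N a c r κ d' (x d') (fun e => x (N.tail e.1)) j =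
    bhat N a c r κ c' (N.transport h.symm (x d'))
      (fun e => N.transport (N.tail_type _ _ (hγ e)) (x (N.tail (γ e).1))) (Fin.cast (by rw [h]) j)
  unfold bhat
  have hcd : (N.nodeType d' = N.nodeType c) ↔ (N.nodeType c' = N.nodeType c) := by rw [h]
  by_cases h1 : N.nodeType c' = N.nodeType c
  · rw [if_pos h1, if_pos (hcd.2 h1)]
    have hprod : (∏ β : TB N c d', (1 - St (Dc N a c d' β.1 (x d')
        (fun e => x (N.tail e.1)) / r ^ 2))) =
        ∏ β : TB N c c', (1 - St (Dc N a c c' β.1 (N.transport h.symm (x d'))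
        (fun e => N.transport (N.tail_type _ _ (hγ e)) (x (N.tail (γ e).1))) / r ^ 2)) := by
      symm
      apply Fintype.prod_equiv (TBequiv N (c := c) ⟨γ, hγ⟩)
      intro β
      have hD : Dc N a c c' β.1 (N.transport h.symm (x d'))
          (fun e => N.transport (N.tail_type _ _ (hγ e)) (x (N.tail (γ e).1))) =
          Dc N a c d' (TBequiv N (c := c) ⟨γ, hγ⟩ β).1 (x d') (fun e => x (N.tail e.1)) := by
        unfold Dc
        simp only [pad_transport]
        rfl
      rw [hD]
    rw [hprod]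
    rfl
  · rw [if_neg h1, if_neg (fun h2 => h1 (hcd.1 h2))]

lemma contDiff_pad {F : Type*} [NormedAddCommGroup F] [NormedSpace ℝ F] {n : ℕ}
    {g : F → (Fin n → ℝ)} {k : WithTop ℕ∞} (hg : ContDiff ℝ k g) (j : ℕ) :
    ContDiff ℝ k (fun p => pad (g p) j) := by
  unfold pad
  by_cases h : j < n
  · simp only [dif_pos h]
    exact contDiff_pi.1 hg _
  · simp only [dif_neg h]
    exact contDiff_const

lemma contDiff_Dc (a : N.State) (c i : N.Node) (β : N.Inp c ≃ N.Inp i) {k : WithTop ℕ∞} :
    ContDiff ℝ k (fun p : N.P i × ((e : N.Inp i) → N.P (N.tail e.1)) =>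
      Dc N a c i β p.1 p.2) := by
  unfold Dc
  apply ContDiff.add
  · apply ContDiff.sum
    intro j _
    exact ((contDiff_pad contDiff_fst j).sub contDiff_const).pow 2
  · apply ContDiff.sum
    intro e _
    apply ContDiff.sum
    intro j _
    have h1 : ContDiff ℝ k (fun p : N.P i × ((e : N.Inp i) → N.P (N.tail e.1)) =>
        p.2 (β e)) := by
      have h2 : ContDiff ℝ k (fun p : N.P i × ((e : N.Inp i) → N.P (N.tail e.1)) => p.2) :=
        contDiff_snd
      exact contDiff_pi.1 h2 _
    exact ((contDiff_pad h1 j).sub contDiff_const).pow 2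

lemma bump_smoothlyAdmissible (a : N.State) (c : N.Node) (r : ℝ) (κ : ℕ → ℝ) :
    N.SmoothlyAdmissible (bump N a c r κ) := by
  classical
  refine ⟨bhat N a c r κ, bump_isComponents N a c r κ, fun i => ?_⟩
  rw [contDiff_pi]
  intro j
  unfold bhat
  by_cases h : N.nodeType i = N.nodeType c
  · simp only [if_pos h]
    apply ContDiff.mul _ contDiff_const
    apply contDiff_const.sub
    apply contDiff_prod
    intro β _
    apply contDiff_const.sub
    apply St_smooth.comp
    exact (contDiff_Dc N a c i β.1).div_const _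
  · simp only [if_neg h]
    exact contDiff_const

/-- smoothly admissible maps are smooth -/
lemma SmoothlyAdmissible.contDiff {N : Network} {f : N.State → N.State}
    (hf : N.SmoothlyAdmissible f) : ContDiff ℝ ((⊤ : ℕ∞) : WithTop ℕ∞) f := by
  obtain ⟨fhat, h1, h2⟩ := hf
  rw [contDiff_pi]
  intro c
  have h3 : (fun x => f x c) = (fun p : N.P c × ((e : N.Inp c) → N.P (N.tail e.1)) =>
      fhat c p.1 p.2) ∘ fun x : N.State => (x c, fun e : N.Inp c => x (N.tail e.1)) := by
    ext x : 1
    exact h1.1 c x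
  rw [h3]
  apply (h2 c).comp
  have hid : ContDiff ℝ ((⊤ : ℕ∞) : WithTop ℕ∞) (fun x : N.State => x) := contDiff_id
  apply ContDiff.prodMk
  · exact contDiff_pi.1 hid c
  · rw [contDiff_pi]
    intro e
    exact contDiff_pi.1 hid (N.tail e.1)

lemma SmoothlyAdmissible.admissible {N : Network} {f : N.State → N.State}
    (hf : N.SmoothlyAdmissible f) : N.Admissible f :=
  ⟨SmoothlyAdmissible.contDiff hf, hf.imp fun _ h => h.1⟩

lemma transport_add {c d : N.Node} (h : N.nodeType c = N.nodeType d) (v w : N.P c) :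
    N.transport h (v + w) = N.transport h v + N.transport h w := rfl

lemma transport_smul {c d : N.Node} (h : N.nodeType c = N.nodeType d) (t : ℝ) (v : N.P c) :
    N.transport h (t • v) = t • N.transport h v := rfl

lemma IsComponents.add {N : Network} {f g : N.State → N.State}
    {fhat ghat : (c : N.Node) → N.P c → ((e : N.Inp c) → N.P (N.tail e.1)) → N.P c}
    (hf : N.IsComponents f fhat) (hg : N.IsComponents g ghat) :
    N.IsComponents (fun x => f x + g x) (fun c u w => fhat c u w + ghat c u w) := by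
  refine ⟨fun c x => ?_, fun c d h β hβ x => ?_⟩
  · show f x c + g x c = _
    rw [hf.1, hg.1]
  · show f x d + g x d = _
    rw [transport_add, ← hf.2 c d h β hβ x, ← hg.2 c d h β hβ x]

lemma IsComponents.smul {N : Network} {f : N.State → N.State}
    {fhat : (c : N.Node) → N.P c → ((e : N.Inp c) → N.P (N.tail e.1)) → N.P c} (t : ℝ)
    (hf : N.IsComponents f fhat) :
    N.IsComponents (fun x => t • f x) (fun c u w => t • fhat c u w) := by
  refine ⟨fun c x => ?_, fun c d h β hβ x => ?_⟩
  · show t • f x c = _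
    rw [hf.1]
  · show t • f x d = _
    rw [transport_smul, ← hf.2 c d h β hβ x]

lemma SmoothlyAdmissible.add {N : Network} {f g : N.State → N.State}
    (hf : N.SmoothlyAdmissible f) (hg : N.SmoothlyAdmissible g) :
    N.SmoothlyAdmissible (fun x => f x + g x) := by
  obtain ⟨fhat, h1, h2⟩ := hf
  obtain ⟨ghat, h3, h4⟩ := hg
  exact ⟨_, IsComponents.add h1 h3, fun c => (h2 c).add (h4 c)⟩

lemma SmoothlyAdmissible.smul {N : Network} {f : N.State → N.State} (t : ℝ)
    (hf : N.SmoothlyAdmissible f) :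
    N.SmoothlyAdmissible (fun x => t • f x) := by
  obtain ⟨fhat, h1, h2⟩ := hf
  exact ⟨_, IsComponents.smul t h1, fun c => (h2 c).const_smul t⟩

lemma SmoothlyAdmissible.zero : N.SmoothlyAdmissible (fun _ => 0) := by
  refine ⟨fun _ _ _ => 0, ⟨fun _ _ => rfl, fun c d h β hβ x => ?_⟩, fun c => contDiff_const⟩
  rfl

lemma SmoothlyAdmissible.sum {N : Network} {ι : Type*} (s : Finset ι)
    {f : ι → N.State → N.State} (hf : ∀ i ∈ s, N.SmoothlyAdmissible (f i)) :
    N.SmoothlyAdmissible (fun x => ∑ i ∈ s, f i x) := by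
  classical
  induction s using Finset.induction_on with
  | empty => simpa using SmoothlyAdmissible.zero N
  | insert i s his ih =>
    have h1 : (fun x => ∑ k ∈ insert i s, f k x) = fun x => f i x + ∑ k ∈ s, f k x := by
      ext x : 1
      rw [Finset.sum_insert his]
    rw [h1]
    exact SmoothlyAdmissible.add (hf i (Finset.mem_insert_self _ _))
      (ih fun k hk => hf k (Finset.mem_insert_of_mem hk))

lemma Admissible.add_smooth {N : Network} {f q : N.State → N.State} (hf : N.Admissible f)
    (hq : N.SmoothlyAdmissible q) : N.Admissible (fun x => f x + q x) := by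
  have h1 := SmoothlyAdmissible.contDiff hq
  obtain ⟨qhat, h2, -⟩ := hq
  obtain ⟨h3, fhat, h4⟩ := hf
  exact ⟨h3.add h1, _, IsComponents.add h4 h2⟩

/-! ### properties of the bump -/

lemma Dc_nonneg (a : N.State) (c i : N.Node) (β : N.Inp c ≃ N.Inp i) (u : N.P i)
    (w : (e : N.Inp i) → N.P (N.tail e.1)) : 0 ≤ Dc N a c i β u w := by
  unfold Dc
  positivity

lemma Dm_nonneg (a : N.State) (c : N.Node) (x : N.State) (i : N.Node) (β : N.Inp c ≃ N.Inp i) :
    0 ≤ Dm N a c x i β := Dc_nonneg N _ _ _ _ _ _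

lemma Dm_self (a : N.State) (c : N.Node) : Dm N a c a c (Equiv.refl _) = 0 := by
  unfold Dm Dc
  simp

lemma bval_nonneg (a : N.State) (c : N.Node) (r : ℝ) (x : N.State) (i : N.Node) :
    0 ≤ bval N a c r x i := by
  unfold bval
  have : ∏ β : TB N c i, (1 - St (Dm N a c x i β.1 / r ^ 2)) ≤ 1 := by
    apply Finset.prod_le_one
    · intro β _; have := St_le_one (Dm N a c x i β.1 / r ^ 2); linarith
    · intro β _; have := St_nonneg (Dm N a c x i β.1 / r ^ 2); linarith
  linarith

lemma bval_le_one (a : N.State) (c : N.Node) (r : ℝ) (x : N.State) (i : N.Node) :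
    bval N a c r x i ≤ 1 := by
  unfold bval
  have : 0 ≤ ∏ β : TB N c i, (1 - St (Dm N a c x i β.1 / r ^ 2)) := by
    apply Finset.prod_nonneg
    intro β _; have := St_le_one (Dm N a c x i β.1 / r ^ 2); linarith
  linarith

/-- the bump is one if some bijection matches up to `r²/2` -/
lemma bval_eq_one {a : N.State} {c : N.Node} {r : ℝ} {x : N.State} {i : N.Node} (β : TB N c i)
    (h : Dm N a c x i β.1 / r ^ 2 ≤ 1 / 2) : bval N a c r x i = 1 := by
  unfold bval
  have : ∏ β : TB N c i, (1 - St (Dm N a c x i β.1 / r ^ 2)) = 0 := by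
    apply Finset.prod_eq_zero (Finset.mem_univ β)
    rw [St_one h, sub_self]
  rw [this, sub_zero]

/-- the bump vanishes if no bijection matches -/
lemma bval_eq_zero {a : N.State} {c : N.Node} {r : ℝ} {x : N.State} {i : N.Node}
    (h : ∀ β : TB N c i, 1 ≤ Dm N a c x i β.1 / r ^ 2) : bval N a c r x i = 0 := by
  unfold bval
  have : ∏ β : TB N c i, (1 - St (Dm N a c x i β.1 / r ^ 2)) = 1 := by
    apply Finset.prod_eq_one
    intro β _
    rw [St_zero (h β), sub_zero]
  rw [this, sub_self]

lemma bval_self {a : N.State} {c : N.Node} {r : ℝ} : bval N a c r a c = 1 := by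
  apply bval_eq_one N ⟨Equiv.refl _, fun _ => rfl⟩
  show Dm N a c a c (Equiv.refl _) / r ^ 2 ≤ 1 / 2
  rw [Dm_self, zero_div]
  norm_num

lemma bump_eq_zero_of_not_iso {a : N.State} {c : N.Node} {r : ℝ} {κ : ℕ → ℝ} {x : N.State}
    {i : N.Node} (h : ¬ (N.nodeType c = N.nodeType i ∧ N.InputIsomorphic c i)) :
    bump N a c r κ x i = 0 := by
  classical
  funext j
  rw [bump_apply]
  by_cases hty : N.nodeType i = N.nodeType c
  · have : bval N a c r x i = 0 :=
      bval_eq_zero N (fun β => absurd ⟨hty.symm, inputIsomorphic_of_TB N β⟩ h)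
    rw [this, zero_mul]
    simp
  · rw [if_neg hty]
    rfl

lemma norm_bump_le {a : N.State} {c : N.Node} {r : ℝ} {κ : ℕ → ℝ} (hκ : ∀ j, |κ j| ≤ 1)
    (x : N.State) : ‖bump N a c r κ x‖ ≤ 1 := by
  classical
  rw [pi_norm_le_iff_of_nonneg zero_le_one]
  intro i
  rw [pi_norm_le_iff_of_nonneg zero_le_one]
  intro j
  rw [bump_apply]
  split_ifs
  · rw [norm_mul, Real.norm_eq_abs, Real.norm_eq_abs, abs_of_nonneg (bval_nonneg N _ _ _ _ _)]
    calc bval N a c r x i * |κ j| ≤ 1 * 1 :=
          mul_le_mul (bval_le_one N _ _ _ _ _) (hκ _) (abs_nonneg _) zero_le_one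
      _ = 1 := one_mul 1
  · simp

end Pool.Agent.Helper68.RigidInput
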