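import Pool.Agent.Helper68.RigidPersist

set_option autoImplicit false
open MeasureTheory Filter Topology

namespace Pool.Agent.Helper68.Rigid

namespace Base

variable {E : Type*} [NormedAddCommGroup E] [NormedSpace ℝ E] [FiniteDimensional ℝ E]
variable (B : Base E)

lemma Nl_zero (q : E → E) (s : ℝ) : B.Nl q 0 s = B.T • q (B.y s) := by
  unfold Nl
  simp [smul_add]

lemma Fm_zero : B.Fm (fun _ => 0) continuous_const 0 = 0 := by
  have h0 : B.Nl (fun _ => 0) 0 = fun _ => 0 := by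
    ext s; rw [Nl_zero, smul_zero]
  have h1 : ∀ s, B.H (fun _ => 0) s = 0 := by
    intro s; simp [H]
  have h2 : B.par (fun _ => 0) = 0 := by
    unfold par; rw [h1, map_zero, map_zero]
  have h3 : ∀ s, B.usol (fun _ => 0) s = 0 := by
    intro s; unfold usol; rw [h2, h1]; simp
  unfold Fm
  apply Prod.ext
  · ext θ
    induction θ using QuotientAddGroup.induction_on with
    | H s =>
      show B.usol (B.Nl (fun _ => 0) 0) s = 0
      rw [h0, h3]
  · show (B.par (B.Nl (fun _ => 0) 0)).2 = 0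
    rw [h0, h2]; rfl

lemma Nl_sub_q (q q' : E → E) (ξ : C(AddCircle (1 : ℝ), E) × ℝ) (s : ℝ) :
    B.Nl q ξ s - B.Nl q' ξ s = (B.T + ξ.2) • (q (B.y s + ξ.1 (s : AddCircle (1 : ℝ))) -
      q' (B.y s + ξ.1 (s : AddCircle (1 : ℝ)))) := by
  unfold Nl
  module

/-- Persistence of the periodic orbit with an `L¹` estimate. -/
theorem persist {Rad : ℝ} (hRad : ∀ s, ‖B.y s‖ + 1 ≤ Rad) :
    ∃ C, 0 < C ∧ ∀ ρ₁, 0 < ρ₁ → ∃ δ, 0 < δ ∧ ∃ (z : (E → E) → ℝ → E) (ω : (E → E) → ℝ),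
      ∀ q, Small Rad δ q →
        (∀ s, HasDerivAt (z q) (ω q • (B.f (z q s) + q (z q s))) s) ∧
        (∀ s, z q (s + 1) = z q s) ∧ (∀ s, ‖z q s - B.y s‖ ≤ ρ₁) ∧ |ω q - B.T| ≤ ρ₁ ∧
        0 < ω q ∧ (∀ s, z q s ∈ Metric.closedBall (0 : E) Rad) ∧
        ∀ q', Small Rad δ q' → ∀ s, ‖z q s - z q' s‖ ≤
          C * ∫ r in (0 : ℝ)..1, ‖q (z q' r) - q' (z q' r)‖ := by
  have : CompleteSpace E := FiniteDimensional.complete ℝ E
  obtain ⟨CF, hCF0, hCF⟩ := B.Fm_dist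
  have hT := B.hT
  obtain ⟨L, hL⟩ := (isCompact_closedBall (0 : E) Rad).exists_bound_of_continuousOn
    (B.hf.continuous_fderiv (by simp)).continuousOn
  have hL0 : 0 ≤ L := by
    refine (norm_nonneg _).trans (hL (B.y 0) ?_)
    rw [Metric.mem_closedBall, dist_zero_right]
    linarith [hRad 0]
  refine ⟨2 * CF * (B.T + 1), by positivity, fun ρ₁ hρ₁ => ?_⟩
  set η : ℝ := 1 / (8 * CF * B.T) with hη
  have hη0 : 0 < η := by rw [hη]; positivity
  obtain ⟨ρ0, hρ00, hρ01, hstrict⟩ := B.strict_uniform hRad hη0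
  set ρ : ℝ := min ρ0 (min ρ₁ (min (1 / (16 * CF * (L + 1))) (B.T / 2))) with hρ
  have hρ_pos : 0 < ρ := by rw [hρ]; positivity
  have hρρ0 : ρ ≤ ρ0 := min_le_left _ _
  have hρρ₁ : ρ ≤ ρ₁ := (min_le_right _ _).trans (min_le_left _ _)
  have hρL : ρ ≤ 1 / (16 * CF * (L + 1)) :=
    (min_le_right _ _).trans ((min_le_right _ _).trans (min_le_left _ _))
  have hρT : ρ ≤ B.T / 2 :=
    (min_le_right _ _).trans ((min_le_right _ _).trans (min_le_right _ _))
  have hρ1 : ρ ≤ 1 := hρρ0.trans hρ01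
  set δ : ℝ := min (1 / (8 * CF * (B.T + 2))) (ρ / (2 * CF * B.T)) with hδ
  have hδ_pos : 0 < δ := by rw [hδ]; positivity
  have hδ1 : δ ≤ 1 / (8 * CF * (B.T + 2)) := min_le_left _ _
  have hδ2 : δ ≤ ρ / (2 * CF * B.T) := min_le_right _ _
  have hκ : CF * (B.T * η + 2 * (L * ρ) + (B.T + 2) * δ) ≤ 1 / 2 := by
    have e1 : CF * (B.T * η) = 1 / 8 := by rw [hη]; field_simp
    have e2 : CF * (2 * (L * ρ)) ≤ 1 / 8 := by
      rw [le_div_iff₀ (by positivity)] at hρL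
      nlinarith [mul_nonneg hCF0.le hρ_pos.le]
    have e3 : CF * ((B.T + 2) * δ) ≤ 1 / 8 := by
      rw [le_div_iff₀ (by positivity)] at hδ1
      linarith
    linarith
  -- contraction property
  have hcontr : ∀ (q : E → E) (hq : Small Rad δ q) (ξ ξ' : C(AddCircle (1 : ℝ), E) × ℝ),
      ‖ξ‖ ≤ ρ → ‖ξ'‖ ≤ ρ →
      ‖B.Fm q hq.1.continuous ξ - B.Fm q hq.1.continuous ξ'‖ ≤ 1 / 2 * ‖ξ - ξ'‖ := by
    intro q hq ξ ξ' hξ hξ'
    refine (hCF q q hq.1.continuous hq.1.continuous ξ ξ').trans ?_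
    have h1 : ∫ r in (0 : ℝ)..1, ‖B.Nl q ξ r - B.Nl q ξ' r‖ ≤
        ∫ r in (0 : ℝ)..1, (B.T * η + 2 * (L * ρ) + (B.T + 2) * δ) * ‖ξ - ξ'‖ := by
      apply intervalIntegral.integral_mono_on zero_le_one
      · exact (((B.Nl_cont hq.1.continuous ξ).sub
          (B.Nl_cont hq.1.continuous ξ')).norm).intervalIntegrable _ _
      · exact intervalIntegrable_const
      · intro r _
        exact B.Nl_lip hRad hL0 hL hη0.le hδ_pos.le hρ1
          (fun s a b ha hb => hstrict s a b (ha.trans hρρ0) (hb.trans hρρ0)) hq ξ ξ' hξ hξ' r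
    rw [intervalIntegral.integral_const, sub_zero, one_smul] at h1
    calc CF * ∫ r in (0 : ℝ)..1, ‖B.Nl q ξ r - B.Nl q ξ' r‖
        ≤ CF * ((B.T * η + 2 * (L * ρ) + (B.T + 2) * δ) * ‖ξ - ξ'‖) := by gcongr
      _ = (CF * (B.T * η + 2 * (L * ρ) + (B.T + 2) * δ)) * ‖ξ - ξ'‖ := by ring
      _ ≤ 1 / 2 * ‖ξ - ξ'‖ := by gcongr
  have hzero : ∀ (q : E → E) (hq : Small Rad δ q), ‖B.Fm q hq.1.continuous 0‖ ≤ ρ / 2 := by
    intro q hq
    have h1 := hCF q (fun _ => 0) hq.1.continuous continuous_const 0 0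
    rw [B.Fm_zero, sub_zero] at h1
    refine h1.trans ?_
    have h2 : ∫ r in (0 : ℝ)..1, ‖B.Nl q 0 r - B.Nl (fun _ => 0) 0 r‖ ≤
        ∫ r in (0 : ℝ)..1, B.T * δ := by
      apply intervalIntegral.integral_mono_on zero_le_one
      · exact (((B.Nl_cont hq.1.continuous 0).sub
          (B.Nl_cont continuous_const 0)).norm).intervalIntegrable _ _
      · exact intervalIntegrable_const
      · intro r _
        rw [B.Nl_zero, B.Nl_zero, smul_zero, sub_zero, norm_smul, Real.norm_of_nonneg hT.le]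
        gcongr
        have h3 := B.mem_ball hRad r (u := 0) (by simp)
        rw [add_zero] at h3
        exact (hq.2 _ h3).1
    rw [intervalIntegral.integral_const, sub_zero, one_smul] at h2
    calc CF * ∫ r in (0 : ℝ)..1, ‖B.Nl q 0 r - B.Nl (fun _ => 0) 0 r‖
        ≤ CF * (B.T * δ) := by gcongr
      _ ≤ CF * (B.T * (ρ / (2 * CF * B.T))) := by gcongr
      _ = ρ / 2 := by field_simp
  -- existence of fixed points
  have hex : ∀ q : E → E, ∃ ξ : C(AddCircle (1 : ℝ), E) × ℝ, ∀ hq : Small Rad δ q,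
      ‖ξ‖ ≤ ρ ∧ B.Fm q hq.1.continuous ξ = ξ := by
    intro q
    by_cases hq : Small Rad δ q
    · set S : Set (C(AddCircle (1 : ℝ), E) × ℝ) := Metric.closedBall 0 ρ with hS
      have hmaps : Set.MapsTo (B.Fm q hq.1.continuous) S S := by
        intro ξ hξ
        rw [hS, mem_closedBall_zero_iff] at hξ ⊢
        have h1 := hcontr q hq ξ 0 hξ (by simpa using hρ_pos.le)
        have h2 := hzero q hq
        rw [sub_zero] at h1
        calc ‖B.Fm q hq.1.continuous ξ‖ = ‖(B.Fm q hq.1.continuous ξ -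
              B.Fm q hq.1.continuous 0) + B.Fm q hq.1.continuous 0‖ := by rw [sub_add_cancel]
          _ ≤ 1 / 2 * ‖ξ‖ + ρ / 2 := (norm_add_le _ _).trans (add_le_add h1 h2)
          _ ≤ ρ := by linarith
      have hcw : ContractingWith (1 / 2 : NNReal) (hmaps.restrict _ S S) := by
        refine ⟨by norm_num, ?_⟩
        apply LipschitzWith.of_dist_le_mul
        rintro ⟨ξ, hξ⟩ ⟨ξ', hξ'⟩
        rw [hS, mem_closedBall_zero_iff] at hξ hξ'
        have h1 := hcontr q hq ξ ξ' hξ hξ'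
        rw [Subtype.dist_eq, Subtype.dist_eq, dist_eq_norm, dist_eq_norm]
        simpa using h1
      obtain ⟨ξ, hξS, hξ, -⟩ := ContractingWith.exists_fixedPoint'
        (Metric.isClosed_closedBall.isComplete) hmaps hcw (x := 0)
        (Metric.mem_closedBall_self hρ_pos.le) (edist_ne_top _ _)
      refine ⟨ξ, fun _ => ⟨?_, hξ⟩⟩
      rwa [hS, mem_closedBall_zero_iff] at hξS
    · exact ⟨0, fun h => absurd h hq⟩
  choose sol hsol using hex
  refine ⟨δ, hδ_pos, fun q s => B.y s + (sol q).1 (s : AddCircle (1 : ℝ)),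
    fun q => B.T + (sol q).2, fun q hq => ?_⟩
  obtain ⟨hn, hfix⟩ := hsol q hq
  set ξ := sol q with hξ
  have hu : ∀ s : ℝ, ξ.1 (s : AddCircle (1 : ℝ)) = B.usol (B.Nl q ξ) s := by
    intro s
    have h1 := congrArg Prod.fst hfix
    rw [← h1]
    rfl
  have hτ : ξ.2 = (B.par (B.Nl q ξ)).2 := by
    have h1 := congrArg Prod.snd hfix
    rw [← h1]
    rfl
  have hun : ∀ s : ℝ, ‖ξ.1 (s : AddCircle (1 : ℝ))‖ ≤ ρ := fun s =>
    ((ξ.1.norm_coe_le_norm _).trans (norm_fst_le ξ)).trans hn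
  have hτn : |ξ.2| ≤ ρ := (norm_snd_le ξ).trans hn
  refine ⟨fun s => ?_, fun s => ?_, fun s => ?_, ?_, ?_, fun s => ?_, fun q' hq' s => ?_⟩
  · have h1 := B.usol_deriv (B.Nl_cont hq.1.continuous ξ) s
    have h2 : (fun s : ℝ => ξ.1 (s : AddCircle (1 : ℝ))) = B.usol (B.Nl q ξ) := funext hu
    rw [← h2, ← hτ] at h1
    have h3 := (B.hy s).add h1
    have h4 : B.T • B.f (B.y s) + (B.A s (ξ.1 (s : AddCircle (1 : ℝ))) + B.Nl q ξ s +
        ξ.2 • B.b s) = (B.T + ξ.2) • (B.f (B.y s + ξ.1 (s : AddCircle (1 : ℝ))) +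
        q (B.y s + ξ.1 (s : AddCircle (1 : ℝ)))) := by
      unfold Nl
      abel
    have h5 : (fun s : ℝ => ξ.1 (s : AddCircle (1 : ℝ))) s = ξ.1 (s : AddCircle (1 : ℝ)) := rfl
    rw [h5, h4] at h3
    exact h3
  · show B.y (s + 1) + ξ.1 ((s + 1 : ℝ) : AddCircle (1 : ℝ)) = _
    rw [B.hper, AddCircle.coe_add, AddCircle.coe_period, add_zero]
  · show ‖B.y s + ξ.1 (s : AddCircle (1 : ℝ)) - B.y s‖ ≤ ρ₁
    rw [add_sub_cancel_left]
    exact (hun s).trans hρρ₁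
  · show |B.T + ξ.2 - B.T| ≤ ρ₁
    rw [add_sub_cancel_left]
    exact hτn.trans hρρ₁
  · show 0 < B.T + ξ.2
    have := abs_le.1 hτn
    linarith
  · exact B.mem_ball hRad s ((hun s).trans hρ1)
  · obtain ⟨hn', hfix'⟩ := hsol q' hq'
    set ξ' := sol q' with hξ'
    have hτn' : |ξ'.2| ≤ ρ := (norm_snd_le ξ').trans hn'
    have h1 : ‖ξ - ξ'‖ ≤ 1 / 2 * ‖ξ - ξ'‖ + CF * ((B.T + 1) * ∫ r in (0 : ℝ)..1,
        ‖q (B.y r + ξ'.1 (r : AddCircle (1 : ℝ))) -
          q' (B.y r + ξ'.1 (r : AddCircle (1 : ℝ)))‖) := by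
      have e1 : ξ - ξ' = (B.Fm q hq.1.continuous ξ - B.Fm q hq.1.continuous ξ') +
          (B.Fm q hq.1.continuous ξ' - B.Fm q' hq'.1.continuous ξ') := by
        rw [hfix, hfix']; abel
      have e2 := hcontr q hq ξ ξ' hn hn'
      have e3 := hCF q q' hq.1.continuous hq'.1.continuous ξ' ξ'
      have e4 : ∫ r in (0 : ℝ)..1, ‖B.Nl q ξ' r - B.Nl q' ξ' r‖ ≤
          (B.T + 1) * ∫ r in (0 : ℝ)..1, ‖q (B.y r + ξ'.1 (r : AddCircle (1 : ℝ))) -
            q' (B.y r + ξ'.1 (r : AddCircle (1 : ℝ)))‖ := by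
        rw [← intervalIntegral.integral_const_mul]
        have hcz : Continuous (fun r : ℝ => B.y r + ξ'.1 (r : AddCircle (1 : ℝ))) :=
          B.y_cont.add (circ_cont ξ'.1)
        apply intervalIntegral.integral_mono_on zero_le_one
        · exact (((B.Nl_cont hq.1.continuous ξ').sub
            (B.Nl_cont hq'.1.continuous ξ')).norm).intervalIntegrable _ _
        · exact (continuous_const.mul (((hq.1.continuous.comp hcz).sub
            (hq'.1.continuous.comp hcz)).norm)).intervalIntegrable _ _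
        · intro r _
          rw [B.Nl_sub_q, norm_smul, Real.norm_eq_abs]
          gcongr
          calc |B.T + ξ'.2| ≤ |B.T| + |ξ'.2| := abs_add_le _ _
            _ ≤ B.T + 1 := by rw [abs_of_pos hT]; linarith
      calc ‖ξ - ξ'‖ ≤ ‖B.Fm q hq.1.continuous ξ - B.Fm q hq.1.continuous ξ'‖ +
            ‖B.Fm q hq.1.continuous ξ' - B.Fm q' hq'.1.continuous ξ'‖ := by
              conv_lhs => rw [e1]
              exact norm_add_le _ _
        _ ≤ 1 / 2 * ‖ξ - ξ'‖ + CF * ((B.T + 1) * _) := by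
            apply add_le_add e2
            exact e3.trans (mul_le_mul_of_nonneg_left e4 hCF0.le)
    have h2 : ‖ξ.1 (s : AddCircle (1 : ℝ)) - ξ'.1 (s : AddCircle (1 : ℝ))‖ ≤ ‖ξ - ξ'‖ := by
      have e5 : ξ.1 (s : AddCircle (1 : ℝ)) - ξ'.1 (s : AddCircle (1 : ℝ)) =
        (ξ.1 - ξ'.1) (s : AddCircle (1 : ℝ)) := rfl
      rw [e5]
      exact ((ξ.1 - ξ'.1).norm_coe_le_norm _).trans (norm_fst_le (ξ - ξ'))
    show ‖B.y s + ξ.1 (s : AddCircle (1 : ℝ)) - (B.y s + ξ'.1 (s : AddCircle (1 : ℝ)))‖ ≤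
      2 * CF * (B.T + 1) * ∫ r in (0 : ℝ)..1, ‖q (B.y r + ξ'.1 (r : AddCircle (1 : ℝ))) -
          q' (B.y r + ξ'.1 (r : AddCircle (1 : ℝ)))‖
    rw [add_sub_add_left_eq_sub]
    linarith

end Base

end Pool.Agent.Helper68.Rigid
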