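import Pool.Agent.Helper68.RigidMeasure
import Pool.Agent.Helper68.RigidPersist2

set_option autoImplicit false
open Topology MeasureTheory Filter
open Pool.Agent.Helper68.Rigid

namespace Pool.Agent.Helper68.RigidInput

/-- The data provided by the persistence theorem. -/
structure Core (N : Network) where
  f : N.State → N.State
  hf : ContDiff ℝ 1 f
  fhat : (c : N.Node) → N.P c → ((e : N.Inp c) → N.P (N.tail e.1)) → N.P c
  hcomp : N.IsComponents f fhat
  Rad : ℝ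
  δ : ℝ
  hδ : 0 < δ
  C : ℝ
  hC : 0 < C
  z : (N.State → N.State) → ℝ → N.State
  ω : (N.State → N.State) → ℝ
  deriv : ∀ q, Small Rad δ q → ∀ s, HasDerivAt (z q) (ω q • (f (z q s) + q (z q s))) s
  ωpos : ∀ q, Small Rad δ q → 0 < ω q
  mem : ∀ q, Small Rad δ q → ∀ s, z q s ∈ Metric.closedBall (0 : N.State) Rad
  lip : ∀ q, Small Rad δ q → ∀ q', Small Rad δ q' → ∀ s, ‖z q s - z q' s‖ ≤
    C * ∫ r in (0 : ℝ)..1, ‖q (z q' r) - q' (z q' r)‖

lemma small_mono {E : Type*} [NormedAddCommGroup E] [NormedSpace ℝ E] {Rad δ δ' : ℝ} {q : E → E}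
    (h : Small Rad δ' q) (hle : δ' ≤ δ) : Small Rad δ q :=
  ⟨h.1, fun w hw => ⟨((h.2 w hw).1).trans hle, ((h.2 w hw).2).trans hle⟩⟩

namespace Core

variable {N : Network} (K : Core N)

/-- the open class of perturbations -/
def Q (q : N.State → N.State) : Prop :=
  N.SmoothlyAdmissible q ∧ ∃ δ', δ' < K.δ ∧ Small K.Rad δ' q

variable {K}

lemma Q.small {q : N.State → N.State} (h : K.Q q) : Small K.Rad K.δ q := by
  obtain ⟨_, δ', h1, h2⟩ := h
  exact small_mono h2 h1.le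

lemma Q.smooth {q : N.State → N.State} (h : K.Q q) : N.SmoothlyAdmissible q := h.1

lemma Q.cont {q : N.State → N.State} (h : K.Q q) : Continuous q :=
  (SmoothlyAdmissible.contDiff h.1).continuous

lemma Q_zero : K.Q (fun _ => 0) := by
  refine ⟨SmoothlyAdmissible.zero N, 0, K.hδ, contDiff_const, fun w _ => ?_⟩
  simp

lemma z_cont {q : N.State → N.State} (h : K.Q q) : Continuous (K.z q) :=
  continuous_iff_continuousAt.2 fun s => (K.deriv q h.small s).continuousAt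

/-- bounds for a smoothly admissible map on the ball -/
lemma bounds {p : N.State → N.State} (hp : N.SmoothlyAdmissible p) :
    ∃ M, 0 ≤ M ∧ ∀ w ∈ Metric.closedBall (0 : N.State) K.Rad, ‖p w‖ ≤ M ∧ ‖fderiv ℝ p w‖ ≤ M := by
  have h1 : ContDiff ℝ 1 p := (SmoothlyAdmissible.contDiff hp).of_le (by
    exact_mod_cast le_top)
  obtain ⟨M1, hM1⟩ := (isCompact_closedBall (0 : N.State) K.Rad).exists_bound_of_continuousOn
    h1.continuous.continuousOn
  obtain ⟨M2, hM2⟩ := (isCompact_closedBall (0 : N.State) K.Rad).exists_bound_of_continuousOn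
    (h1.continuous_fderiv (by simp)).continuousOn
  refine ⟨max (max M1 M2) 0, le_max_right _ _, fun w hw => ⟨?_, ?_⟩⟩
  · exact (hM1 w hw).trans ((le_max_left _ _).trans (le_max_left _ _))
  · exact (hM2 w hw).trans ((le_max_right _ _).trans (le_max_left _ _))

/-- perturbing inside the open class, with control of the orbit -/
lemma Q_perturb {q₀ : N.State → N.State} (h0 : K.Q q₀) {ι : Type*} [Fintype ι]
    {p : ι → N.State → N.State} (hp : ∀ α, N.SmoothlyAdmissible (p α)) {η : ℝ} (hη : 0 < η) :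
    ∃ ε₀, 0 < ε₀ ∧ ∀ t : ι → ℝ, (∀ α, |t α| ≤ ε₀) →
      K.Q (fun x => q₀ x + ∑ α, t α • p α x) ∧
      ∀ s, ‖K.z (fun x => q₀ x + ∑ α, t α • p α x) s - K.z q₀ s‖ ≤ η := by
  obtain ⟨hs, δ', hδ', hsm⟩ := h0
  have h0 : K.Q q₀ := ⟨hs, δ', hδ', hsm⟩
  choose M hM0 hM using fun α => K.bounds (hp α)
  set S : ℝ := ∑ α, M α with hS
  have hS0 : 0 ≤ S := Finset.sum_nonneg fun α _ => hM0 α
  have hC := K.hC
  set ε₀ : ℝ := min ((K.δ - δ') / (2 * (S + 1))) (η / (K.C * (S + 1))) with hε₀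
  have hε₀pos : 0 < ε₀ := by
    have : 0 < K.δ - δ' := by linarith
    rw [hε₀]; positivity
  have hε1 : ε₀ * (S + 1) ≤ (K.δ - δ') / 2 := by
    have : ε₀ ≤ (K.δ - δ') / (2 * (S + 1)) := min_le_left _ _
    rw [le_div_iff₀ (by positivity)] at this
    linarith
  have hε2 : K.C * (ε₀ * (S + 1)) ≤ η := by
    have : ε₀ ≤ η / (K.C * (S + 1)) := min_le_right _ _
    rw [le_div_iff₀ (by positivity)] at this
    linarith
  refine ⟨ε₀, hε₀pos, fun t ht => ?_⟩
  have hp1 : ∀ α, ContDiff ℝ 1 (p α) := fun α =>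
    (SmoothlyAdmissible.contDiff (hp α)).of_le (by exact_mod_cast le_top)
  have hsum : N.SmoothlyAdmissible (fun x => ∑ α, t α • p α x) :=
    SmoothlyAdmissible.sum Finset.univ fun α _ => SmoothlyAdmissible.smul (t α) (hp α)
  have hb1 : ∀ w ∈ Metric.closedBall (0 : N.State) K.Rad, ‖∑ α, t α • p α w‖ ≤ ε₀ * S := by
    intro w hw
    calc ‖∑ α, t α • p α w‖ ≤ ∑ α, ‖t α • p α w‖ := norm_sum_le _ _
      _ ≤ ∑ α, ε₀ * M α := by
          apply Finset.sum_le_sum
          intro α _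
          rw [norm_smul, Real.norm_eq_abs]
          exact mul_le_mul (ht α) (hM α w hw).1 (norm_nonneg _) hε₀pos.le
      _ = ε₀ * S := by rw [hS, Finset.mul_sum]
  have hQ : K.Q (fun x => q₀ x + ∑ α, t α • p α x) := by
    refine ⟨SmoothlyAdmissible.add hs hsum, δ' + (K.δ - δ') / 2, by linarith, ?_, ?_⟩
    · have hq1 : ContDiff ℝ 1 (fun x => ∑ α, t α • p α x) :=
        (SmoothlyAdmissible.contDiff hsum).of_le (by exact_mod_cast le_top)
      exact hsm.1.add hq1
    · intro w hw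
      have hb2 : ‖fderiv ℝ (fun x => q₀ x + ∑ α, t α • p α x) w‖ ≤ δ' + ε₀ * S := by
        have e1 : HasFDerivAt (fun x => q₀ x + ∑ α, t α • p α x)
            (fderiv ℝ q₀ w + ∑ α, t α • fderiv ℝ (p α) w) w := by
          apply HasFDerivAt.add
          · exact (hsm.1.differentiable (by simp) w).hasFDerivAt
          · apply HasFDerivAt.fun_sum
            intro α _
            have e2 : HasFDerivAt (p α) (fderiv ℝ (p α) w) w :=
              ((hp1 α).differentiable (by simp) w).hasFDerivAt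
            exact HasFDerivAt.const_smul e2 (t α)
        rw [e1.fderiv]
        refine (norm_add_le _ _).trans (add_le_add (hsm.2 w hw).2 ?_)
        calc ‖∑ α, t α • fderiv ℝ (p α) w‖ ≤ ∑ α, ‖t α • fderiv ℝ (p α) w‖ := norm_sum_le _ _
          _ ≤ ∑ α, ε₀ * M α := by
              apply Finset.sum_le_sum
              intro α _
              rw [norm_smul, Real.norm_eq_abs]
              exact mul_le_mul (ht α) (hM α w hw).2 (norm_nonneg _) hε₀pos.le
          _ = ε₀ * S := by rw [hS, Finset.mul_sum]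
      have hb3 := (norm_add_le (q₀ w) (∑ α, t α • p α w)).trans
        (add_le_add (hsm.2 w hw).1 (hb1 w hw))
      exact ⟨by linarith, by linarith⟩
  refine ⟨hQ, fun s => ?_⟩
  refine (K.lip _ hQ.small _ h0.small s).trans ?_
  have hz : Continuous (K.z q₀) := K.z_cont h0
  have h1 : ∫ r in (0 : ℝ)..1, ‖q₀ (K.z q₀ r) + ∑ α, t α • p α (K.z q₀ r) - q₀ (K.z q₀ r)‖ ≤
      ∫ r in (0 : ℝ)..1, ε₀ * S := by
    apply intervalIntegral.integral_mono_on zero_le_one
    · apply Continuous.intervalIntegrable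
      have hc1 : Continuous (fun r => q₀ (K.z q₀ r)) := h0.cont.comp hz
      have hc2 : Continuous (fun r => ∑ α, t α • p α (K.z q₀ r)) :=
        (SmoothlyAdmissible.contDiff hsum).continuous.comp hz
      exact ((hc1.add hc2).sub hc1).norm
    · exact intervalIntegrable_const
    · intro r _
      rw [add_sub_cancel_left]
      exact hb1 _ (K.mem _ h0.small r)
  rw [intervalIntegral.integral_const, sub_zero, one_smul] at h1
  calc K.C * _ ≤ K.C * (ε₀ * S) := by gcongr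
    _ ≤ K.C * (ε₀ * (S + 1)) := by gcongr; linarith
    _ ≤ η := hε2

/-- one parameter version -/
lemma Q_perturb_one {q₀ : N.State → N.State} (h0 : K.Q q₀)
    {p : N.State → N.State} (hp : N.SmoothlyAdmissible p) {η : ℝ} (hη : 0 < η) :
    ∃ ε₀, 0 < ε₀ ∧ ∀ t : ℝ, |t| ≤ ε₀ →
      K.Q (fun x => q₀ x + t • p x) ∧
      ∀ s, ‖K.z (fun x => q₀ x + t • p x) s - K.z q₀ s‖ ≤ η := by
  obtain ⟨ε₀, h1, h2⟩ := K.Q_perturb h0 (ι := Unit) (p := fun _ => p) (fun _ => hp) hη
  refine ⟨ε₀, h1, fun t ht => ?_⟩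
  have := h2 (fun _ => t) (fun _ => ht)
  simpa using this

/-- the zeroth coordinate -/
def i0 (N : Network) (c : N.Node) : Fin (N.dim (N.nodeType c)) := ⟨0, N.dim_pos _⟩

/-- direction vector of the scalar bumps -/
def κ0 (j : ℕ) : ℝ := if j = 0 then 1 else 0

lemma κ0_le (j : ℕ) : |κ0 j| ≤ 1 := by
  unfold κ0; split_ifs <;> simp

lemma bump_self (a : N.State) (c : N.Node) (r : ℝ) : bump N a c r κ0 a c (i0 N c) = 1 := by
  classical
  rw [bump_apply, if_pos rfl, bval_self]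
  simp [κ0, i0]

/-- The key contradiction. -/
lemma bump_contra {q₀ : N.State → N.State} (h0 : K.Q q₀) {c : N.Node}
    (hnc : NonconstInput N (K.z q₀) c) {L : ℝ} (hL : 0 ≤ L)
    (key : ∀ (a : N.State) (r : ℝ), 0 < r → ∃ ε₁ : ℝ, 0 < ε₁ ∧ ∀ ε : ℝ, 0 < ε → ε ≤ ε₁ →
      ∀ s m : ℝ,
      (∀ s', ‖K.z (fun x => q₀ x + ε • bump N a c r κ0 x) s' - K.z q₀ s'‖ ≤ m) →
      ε * |bump N a c r κ0 (K.z (fun x => q₀ x + ε • bump N a c r κ0 x) s) c (i0 N c)| ≤ L * m) :
    False := by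
  have hC := K.hC
  have hz : Continuous (K.z q₀) := K.z_cont h0
  set η : ℝ := 1 / (2 * (L * K.C + 1)) with hη
  have hη0 : 0 < η := by rw [hη]; positivity
  obtain ⟨s₀, r, hr, hI⟩ := exists_small_bump N hz hnc κ0_le hη0
  set p := bump N (K.z q₀ s₀) c r κ0 with hp
  have hpS : N.SmoothlyAdmissible p := bump_smoothlyAdmissible N _ _ _ _
  have hpc : Continuous p := continuous_bump N _ _ _ _
  obtain ⟨ε₁, hε₁, hk⟩ := key (K.z q₀ s₀) r hr
  -- continuity of `p` at the base point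
  have hcontAt : Continuous (fun w : N.State => |p w c (i0 N c)|) := by
    have : Continuous (fun w : N.State => p w c (i0 N c)) := by fun_prop
    exact this.abs
  have hval : |p (K.z q₀ s₀) c (i0 N c)| = 1 := by
    rw [hp, bump_self]; simp
  obtain ⟨ρ, hρ, hρ'⟩ : ∃ ρ, 0 < ρ ∧ ∀ w, ‖w - K.z q₀ s₀‖ ≤ ρ → 1 / 2 < |p w c (i0 N c)| := by
    have h0' : (1 : ℝ) / 2 < |p (K.z q₀ s₀) c (i0 N c)| := by
      rw [hval]; norm_num
    have h1 : ∀ᶠ w in 𝓝 (K.z q₀ s₀), 1 / 2 < |p w c (i0 N c)| :=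
      hcontAt.continuousAt.eventually_const_lt h0'
    obtain ⟨ρ, hρ, hρ'⟩ := Metric.eventually_nhds_iff.1 h1
    refine ⟨ρ / 2, by positivity, fun w hw => hρ' ?_⟩
    rw [dist_eq_norm]; linarith
  obtain ⟨ε₂, hε₂, hpert⟩ := K.Q_perturb_one h0 hpS hρ
  set ε : ℝ := min ε₁ ε₂ with hε
  have hε0 : 0 < ε := lt_min hε₁ hε₂
  obtain ⟨hQε, hcl⟩ := hpert ε (by rw [abs_of_pos hε0]; exact min_le_right _ _)
  have hI0 : 0 ≤ ∫ s in (0 : ℝ)..1, ‖p (K.z q₀ s)‖ :=
    intervalIntegral.integral_nonneg zero_le_one fun r _ => norm_nonneg _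
  have hm : ∀ s', ‖K.z (fun x => q₀ x + ε • p x) s' - K.z q₀ s'‖ ≤ K.C * (ε * η) := by
    intro s'
    refine (K.lip _ hQε.small _ h0.small s').trans ?_
    have h1 : ∫ r in (0 : ℝ)..1, ‖q₀ (K.z q₀ r) + ε • p (K.z q₀ r) - q₀ (K.z q₀ r)‖ =
        ε * ∫ r in (0 : ℝ)..1, ‖p (K.z q₀ r)‖ := by
      rw [← intervalIntegral.integral_const_mul]
      congr 1
      ext r
      rw [add_sub_cancel_left, norm_smul, Real.norm_of_nonneg hε0.le]
    rw [h1]
    gcongr
  have h2 := hk ε hε0 (min_le_left _ _) s₀ (K.C * (ε * η)) hm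
  have h3 := hρ' _ (hcl s₀)
  have h4 : ε * (1 / 2) < L * (K.C * (ε * η)) := by
    calc ε * (1 / 2) < ε * |p (K.z (fun x => q₀ x + ε • p x) s₀) c (i0 N c)| := by gcongr
      _ ≤ L * (K.C * (ε * η)) := h2
  have h5 : L * (K.C * (ε * η)) ≤ ε * (1 / 2) := by
    have h6 : L * K.C * η ≤ 1 / 2 := by
      rw [hη, mul_one_div, div_le_iff₀ (by positivity)]
      nlinarith [mul_nonneg hL hC.le]
    calc L * (K.C * (ε * η)) = ε * (L * K.C * η) := by ring
      _ ≤ ε * (1 / 2) := by gcongr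
  linarith

/-- Lipschitz constant of `f + q₀` on the ball -/
lemma exists_lip {q₀ : N.State → N.State} (h0 : K.Q q₀) : ∃ L, 0 ≤ L ∧
    ∀ a ∈ Metric.closedBall (0 : N.State) K.Rad, ∀ b ∈ Metric.closedBall (0 : N.State) K.Rad,
      ‖(K.f a + q₀ a) - (K.f b + q₀ b)‖ ≤ L * ‖a - b‖ := by
  have hg : ContDiff ℝ 1 (fun x => K.f x + q₀ x) :=
    K.hf.add ((SmoothlyAdmissible.contDiff h0.1).of_le (by exact_mod_cast le_top))
  obtain ⟨M, hM⟩ := (isCompact_closedBall (0 : N.State) K.Rad).exists_bound_of_continuousOn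
    (hg.continuous_fderiv (by simp)).continuousOn
  refine ⟨max M 0, le_max_right _ _, fun a ha b hb => ?_⟩
  exact Base.lip_on_ball hg (fun w hw => (hM w hw).trans (le_max_left _ _)) ha hb

lemma coord_deriv {q : N.State → N.State} (h : K.Q q) (s : ℝ) (c : N.Node)
    (j : Fin (N.dim (N.nodeType c))) :
    HasDerivAt (fun s => K.z q s c j) (K.ω q * (K.f (K.z q s) c j + q (K.z q s) c j)) s := by
  have h1 := K.deriv q h.small s
  rw [hasDerivAt_pi] at h1
  have h2 := h1 c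
  rw [hasDerivAt_pi] at h2
  exact h2 j

/-- constant nodes are equilibria of their component -/
lemma const_eq {q : N.State → N.State} (h : K.Q q) {c : N.Node}
    (hc : ∀ s, K.z q s c = K.z q 0 c) (s : ℝ) (j : Fin (N.dim (N.nodeType c))) :
    K.f (K.z q s) c j + q (K.z q s) c j = 0 := by
  have h1 := K.coord_deriv h s c j
  have h2 : (fun s => K.z q s c j) = fun _ => K.z q 0 c j := by
    ext s; rw [hc s]
  rw [h2] at h1
  have h3 := h1.unique (hasDerivAt_const s _)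
  exact (mul_eq_zero.1 h3).resolve_left (K.ωpos q h.small).ne'

lemma phase_eq {q : N.State → N.State} (h : K.Q q) {c d : N.Node} {θ : ℝ}
    (hcd : N.PhaseRelated (K.z q) c d θ) (s : ℝ) (j : Fin (N.dim (N.nodeType c))) :
    K.f (K.z q s) c j + q (K.z q s) c j =
      K.f (K.z q (s + θ)) d (Fin.cast hcd.choose j) +
        q (K.z q (s + θ)) d (Fin.cast hcd.choose j) := by
  have h1 := K.coord_deriv h s c j
  have h2 : (fun s => K.z q s c j) = fun s => K.z q (s + θ) d (Fin.cast hcd.choose j) := by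
    ext s; exact hcd.choose_spec s j
  rw [h2] at h1
  have h3 := (K.coord_deriv h (s + θ) d (Fin.cast hcd.choose j)).comp_add_const s θ
  have h4 := h1.unique h3
  exact mul_left_cancel₀ (K.ωpos q h.small).ne' h4

lemma abs_coord_le (v : N.State) (c : N.Node) (j : Fin (N.dim (N.nodeType c))) :
    |v c j| ≤ ‖v‖ := by
  have h1 := norm_le_pi_norm (v c) j
  have h2 := norm_le_pi_norm v c
  rw [Real.norm_eq_abs] at h1
  exact h1.trans h2

/-- Claim (a): a rigidly constant node has a constant input tuple. -/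
lemma const_input {q₀ : N.State → N.State} (h0 : K.Q q₀) {c : N.Node}
    (hstab : ∀ (a : N.State) (r : ℝ), 0 < r → ∃ ε₁ : ℝ, 0 < ε₁ ∧ ∀ ε : ℝ, |ε| ≤ ε₁ →
      K.Q (fun x => q₀ x + ε • bump N a c r κ0 x) ∧
      ∀ s, K.z (fun x => q₀ x + ε • bump N a c r κ0 x) s c =
        K.z (fun x => q₀ x + ε • bump N a c r κ0 x) 0 c) :
    ¬ NonconstInput N (K.z q₀) c := by
  intro hnc
  obtain ⟨L, hL0, hL⟩ := K.exists_lip h0
  apply K.bump_contra h0 hnc hL0
  intro a r hr
  obtain ⟨ε₁, hε₁, hst⟩ := hstab a r hr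
  refine ⟨ε₁, hε₁, fun ε hε hεle s m hm => ?_⟩
  obtain ⟨hQ, hconst⟩ := hst ε (by rw [abs_of_pos hε]; exact hεle)
  have e1 := K.const_eq hQ hconst s (i0 N c)
  have hconst0 : ∀ s, K.z q₀ s c = K.z q₀ 0 c := by
    have := (hst 0 (by simpa using hε₁.le)).2
    simpa using this
  have e2 := K.const_eq h0 hconst0 s (i0 N c)
  have e3 := hL _ (K.mem _ hQ.small s) _ (K.mem _ h0.small s)
  set zε := K.z (fun x => q₀ x + ε • bump N a c r κ0 x) with hzε
  have e4 : |((K.f (zε s) + q₀ (zε s)) - (K.f (K.z q₀ s) + q₀ (K.z q₀ s))) c (i0 N c)| ≤ L * m :=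
    (abs_coord_le _ c _).trans (e3.trans (by gcongr; exact hm s))
  have e5 : ((K.f (zε s) + q₀ (zε s)) - (K.f (K.z q₀ s) + q₀ (K.z q₀ s))) c (i0 N c) =
      -(ε * bump N a c r κ0 (zε s) c (i0 N c)) := by
    simp only [Pi.sub_apply, Pi.add_apply]
    simp only [Pi.add_apply, Pi.smul_apply, smul_eq_mul] at e1
    linarith
  rw [e5, abs_neg, abs_mul, abs_of_pos hε] at e4
  exact e4

/-- Claim (b): a rigid phase relation between nodes that are not input isomorphic forces the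
input tuple of the first node to be constant. -/
lemma phase_input {q₀ : N.State → N.State} (h0 : K.Q q₀) {c d : N.Node} {θ : ℝ}
    (hrel : ∀ q, K.Q q → N.PhaseRelated (K.z q) c d θ)
    (hiso : ¬ (N.nodeType c = N.nodeType d ∧ N.InputIsomorphic c d)) :
    ¬ NonconstInput N (K.z q₀) c := by
  intro hnc
  obtain ⟨L, hL0, hL⟩ := K.exists_lip h0
  apply K.bump_contra h0 hnc (L := 2 * L) (by positivity)
  intro a r hr
  obtain ⟨ε₁, hε₁, hst⟩ := K.Q_perturb_one h0 (bump_smoothlyAdmissible N a c r κ0) one_pos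
  refine ⟨ε₁, hε₁, fun ε hε hεle s m hm => ?_⟩
  obtain ⟨hQ, -⟩ := hst ε (by rw [abs_of_pos hε]; exact hεle)
  have hr1 := hrel _ hQ
  have hr0 := hrel _ h0
  have e1 := K.phase_eq hQ hr1 s (i0 N c)
  have e2 := K.phase_eq h0 hr0 s (i0 N c)
  have hd : bump N a c r κ0 (K.z (fun x => q₀ x + ε • bump N a c r κ0 x) (s + θ)) d = 0 :=
    bump_eq_zero_of_not_iso N hiso
  set zε := K.z (fun x => q₀ x + ε • bump N a c r κ0 x) with hzε
  have e3 := hL _ (K.mem _ hQ.small s) _ (K.mem _ h0.small s)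
  have e4 := hL _ (K.mem _ hQ.small (s + θ)) _ (K.mem _ h0.small (s + θ))
  have e5 : |((K.f (zε s) + q₀ (zε s)) - (K.f (K.z q₀ s) + q₀ (K.z q₀ s))) c (i0 N c)| ≤ L * m :=
    (abs_coord_le _ c _).trans (e3.trans (by gcongr; exact hm s))
  have e6 : |((K.f (zε (s + θ)) + q₀ (zε (s + θ))) -
      (K.f (K.z q₀ (s + θ)) + q₀ (K.z q₀ (s + θ)))) d (Fin.cast hr0.choose (i0 N c))| ≤ L * m :=
    (abs_coord_le _ d _).trans (e4.trans (by gcongr; exact hm (s + θ)))
  have e7 : ε * bump N a c r κ0 (zε s) c (i0 N c) =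
      ((K.f (zε (s + θ)) + q₀ (zε (s + θ))) -
        (K.f (K.z q₀ (s + θ)) + q₀ (K.z q₀ (s + θ)))) d (Fin.cast hr0.choose (i0 N c)) -
      ((K.f (zε s) + q₀ (zε s)) - (K.f (K.z q₀ s) + q₀ (K.z q₀ s))) c (i0 N c) := by
    have hd' := congrFun hd (Fin.cast hr0.choose (i0 N c))
    simp only [Pi.zero_apply] at hd'
    simp only [Pi.add_apply, Pi.smul_apply, smul_eq_mul] at e1
    rw [hd', mul_zero, add_zero] at e1
    simp only [Pi.sub_apply, Pi.add_apply]
    linarith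
  have e8 : ε * |bump N a c r κ0 (zε s) c (i0 N c)| = |ε * bump N a c r κ0 (zε s) c (i0 N c)| := by
    rw [abs_mul, abs_of_pos hε]
  rw [e8, e7]
  calc _ ≤ |((K.f (zε (s + θ)) + q₀ (zε (s + θ))) -
        (K.f (K.z q₀ (s + θ)) + q₀ (K.z q₀ (s + θ)))) d (Fin.cast hr0.choose (i0 N c))| +
      |((K.f (zε s) + q₀ (zε s)) - (K.f (K.z q₀ s) + q₀ (K.z q₀ s))) c (i0 N c)| := abs_sub _ _
    _ ≤ L * m + L * m := add_le_add e6 e5
    _ = 2 * L * m := by ring

end Core

end Pool.Agent.Helper68.RigidInput
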