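import Mathlib

set_option autoImplicit false
open Topology

namespace Pool.Agent.Helper68.RigidInput

/-- A network (coupled cell system): finitely many nodes and arrows, node types and arrow types,
arrows of equal type having heads of equal node type and tails of equal node type. `dim ν ≥ 1` is
the dimension of the state space of the nodes of type `ν`. -/
structure Network where
  Node : Type
  Arrow : Type
  NodeType : Type
  ArrowType : Type
  [fintypeNode : Fintype Node]
  [fintypeArrow : Fintype Arrow]
  head : Arrow → Node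
  tail : Arrow → Node
  nodeType : Node → NodeType
  arrowType : Arrow → ArrowType
  head_type : ∀ e e' : Arrow, arrowType e = arrowType e' → nodeType (head e) = nodeType (head e')
  tail_type : ∀ e e' : Arrow, arrowType e = arrowType e' → nodeType (tail e) = nodeType (tail e')
  dim : NodeType → ℕ
  dim_pos : ∀ ν, 0 < dim ν

attribute [instance] Network.fintypeNode Network.fintypeArrow

namespace Network

variable (N : Network)

/-- The state space `P_c = ℝ^{k_c}` of the node `c`; it only depends on the node type of `c`. -/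
abbrev P (c : N.Node) : Type := Fin (N.dim (N.nodeType c)) → ℝ

/-- The total state space `∏_c P_c`. -/
abbrev State : Type := (c : N.Node) → N.P c

/-- The input set `I(c)`: the arrows with head `c`. -/
abbrev Inp (c : N.Node) : Type := {e : N.Arrow // N.head e = c}

noncomputable instance (c : N.Node) : Fintype (N.Inp c) := Fintype.ofFinite _

/-- The identification `P_c = P_d` for nodes of equal type. -/
def transport {c d : N.Node} (h : N.nodeType c = N.nodeType d) (v : N.P c) : N.P d :=
  fun j => v (Fin.cast (by rw [h]) j)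

/-- `c` and `d` are input isomorphic: for every arrow type, `I(c)` and `I(d)` contain equally many
arrows of that type. -/
def InputIsomorphic (c d : N.Node) : Prop :=
  ∀ a : N.ArrowType, Nat.card {e : N.Inp c // N.arrowType e.1 = a} =
    Nat.card {e : N.Inp d // N.arrowType e.1 = a}

/-- Conditions (i) and (ii) of the definition of an admissible vector field, for the component
functions `fhat c : P_c × ∏_{e ∈ I(c)} P_{t(e)} → P_c`. -/
def IsComponents (f : N.State → N.State)
    (fhat : (c : N.Node) → N.P c → ((e : N.Inp c) → N.P (N.tail e.1)) → N.P c) : Prop :=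
  (∀ (c : N.Node) (x : N.State), f x c = fhat c (x c) (fun e => x (N.tail e.1))) ∧
  ∀ (c d : N.Node) (h : N.nodeType c = N.nodeType d) (β : N.Inp c ≃ N.Inp d)
    (hβ : ∀ e, N.arrowType (β e).1 = N.arrowType e.1) (x : N.State),
    f x d = N.transport h (fhat c (N.transport h.symm (x d))
      (fun e => N.transport (N.tail_type _ _ (hβ e)) (x (N.tail (β e).1))))

/-- A smooth vector field is admissible if it has component functions as in (i) and (ii). -/
def Admissible (f : N.State → N.State) : Prop :=
  ContDiff ℝ ((⊤ : ℕ∞) : WithTop ℕ∞) f ∧ ∃ fhat, N.IsComponents f fhat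

/-- The (possibly) more restrictive notion in which also the component functions are required to
be smooth on all of `P_c × ∏_{e ∈ I(c)} P_{t(e)}`. -/
def SmoothlyAdmissible (f : N.State → N.State) : Prop :=
  ∃ fhat, N.IsComponents f fhat ∧ ∀ c : N.Node, ContDiff ℝ ((⊤ : ℕ∞) : WithTop ℕ∞)
    (fun p : N.P c × ((e : N.Inp c) → N.P (N.tail e.1)) => fhat c p.1 p.2)

/-- `x_c(t) = x_d(t + θ)` for all `t` (in particular the state spaces are the same `ℝ^k`). -/
def PhaseRelated (x : ℝ → N.State) (c d : N.Node) (θ : ℝ) : Prop :=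
  ∃ h : N.dim (N.nodeType c) = N.dim (N.nodeType d),
    ∀ (t : ℝ) (j : Fin (N.dim (N.nodeType c))), x t c j = x (t + θ) d (Fin.cast h j)

/-- `x_c(t) = x_d(t)` for all `t`. -/
def Synchronous (x : ℝ → N.State) (c d : N.Node) : Prop :=
  ∃ h : N.dim (N.nodeType c) = N.dim (N.nodeType d),
    ∀ (t : ℝ) (j : Fin (N.dim (N.nodeType c))), x t c j = x t d (Fin.cast h j)

end Network

/-- `x` is a (nonconstant) periodic orbit of `ẋ = g(x)`, with period `T`. -/
def IsPeriodicOrbit {E : Type*} [NormedAddCommGroup E] [NormedSpace ℝ E] (g : E → E) (x : ℝ → E)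
    (T : ℝ) : Prop :=
  0 < T ∧ (∀ t, HasDerivAt x (g (x t)) t) ∧ (∀ t, x (t + T) = x t) ∧ ∃ t, x t ≠ x 0

/-- Hyperbolicity of the periodic orbit `x` of `ẋ = g(x)`: `Φ` is the fundamental solution of the
variational equation `Φ' = Dg(x(t)) Φ`, `Φ(0) = 1`; the Floquet multipliers are the roots of the
characteristic polynomial of `Φ(T)`; `1` is a simple root and there is no other root on the unit
circle. -/
def IsHyperbolic {E : Type*} [NormedAddCommGroup E] [NormedSpace ℝ E] [FiniteDimensional ℝ E]
    (g : E → E) (x : ℝ → E) (T : ℝ) : Prop :=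
  ∃ Φ : ℝ → (E →L[ℝ] E), Φ 0 = ContinuousLinearMap.id ℝ E ∧
    (∀ t, HasDerivAt Φ ((fderiv ℝ g (x t)).comp (Φ t)) t) ∧
    (LinearMap.charpoly ((Φ T : E →L[ℝ] E) : E →ₗ[ℝ] E)).rootMultiplicity 1 = 1 ∧
    ∀ μ : ℂ, ((LinearMap.charpoly ((Φ T : E →L[ℝ] E) : E →ₗ[ℝ] E)).map
      (algebraMap ℝ ℂ)).IsRoot μ → ‖μ‖ = 1 → μ = 1

/-- `g` is `δ`-close to `f` in the `C¹` sense on `K`. -/
def C1Close {E : Type*} [NormedAddCommGroup E] [NormedSpace ℝ E] (K : Set E) (δ : ℝ)
    (f g : E → E) : Prop :=
  ∀ w ∈ K, ‖g w - f w‖ < δ ∧ ‖fderiv ℝ g w - fderiv ℝ f w‖ < δ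

/-- `(y, T')` is a periodic orbit of `g` that is `δ`-close to `(x, T)`. -/
def NearbyOrbit {E : Type*} [NormedAddCommGroup E] [NormedSpace ℝ E] (x : ℝ → E) (T : ℝ) (δ : ℝ)
    (g : E → E) (y : ℝ → E) (T' : ℝ) : Prop :=
  IsPeriodicOrbit g y T' ∧ |T' - T| < δ ∧ ∀ s : ℝ, ‖y (T' * s) - x (T * s)‖ < δ

namespace Network

variable (N : Network)

/-- The synchrony relation `x_c = x_d` is rigid: it holds on the nearby periodic orbit of every
admissible `g` that is sufficiently `C¹`-close to `f` on a compact neighbourhood of the orbit. Only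
those admissible `g` are used for which `g - f` has smooth component functions. -/
def RigidlySynchronous (f : N.State → N.State) (x : ℝ → N.State) (T : ℝ) (c d : N.Node) : Prop :=
  ∃ K : Set N.State, IsCompact K ∧ K ∈ 𝓝ˢ (Set.range x) ∧ ∃ δ : ℝ, 0 < δ ∧
    ∀ g : N.State → N.State, N.Admissible g → N.SmoothlyAdmissible (fun w => g w - f w) →
      C1Close K δ f g → ∀ (y : ℝ → N.State) (T' : ℝ), NearbyOrbit x T δ g y T' →
        N.Synchronous y c d

/-- The phase relation `x_c(t) = x_d(t + θ)` is rigid: for every `g` as above it holds on the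
nearby periodic orbit with phase shift `θ T' / T`. -/
def RigidlyPhaseRelated (f : N.State → N.State) (x : ℝ → N.State) (T : ℝ) (c d : N.Node)
    (θ : ℝ) : Prop :=
  ∃ K : Set N.State, IsCompact K ∧ K ∈ 𝓝ˢ (Set.range x) ∧ ∃ δ : ℝ, 0 < δ ∧
    ∀ g : N.State → N.State, N.Admissible g → N.SmoothlyAdmissible (fun w => g w - f w) →
      C1Close K δ f g → ∀ (y : ℝ → N.State) (T' : ℝ), NearbyOrbit x T δ g y T' →
        N.PhaseRelated y c d (θ * T' / T)

end Network

end Pool.Agent.Helper68.RigidInput
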