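import Pool.Agent.Helper68.RigidRels

set_option autoImplicit false
open Topology MeasureTheory Filter

namespace Pool.Agent.Helper68.RigidInput

variable (N : Network)

lemma pad_add {n : ℕ} (v w : Fin n → ℝ) (m : ℕ) : pad (v + w) m = pad v m + pad w m := by
  unfold pad
  split_ifs <;> simp

lemma pad_smul {n : ℕ} (t : ℝ) (v : Fin n → ℝ) (m : ℕ) : pad (t • v) m = t * pad v m := by
  unfold pad
  split_ifs <;> simp

lemma pad_zero {n : ℕ} (m : ℕ) : pad (0 : Fin n → ℝ) m = 0 := by
  unfold pad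
  split_ifs <;> simp

/-- states supported on `Z` whose coordinates in `Z` agree along the relation `R` -/
def Wsp (Z : Set N.Node) (R : N.Node → N.Node → Prop) : Submodule ℝ N.State where
  carrier := {w | (∀ i, i ∉ Z → w i = 0) ∧
    ∀ i ∈ Z, ∀ j ∈ Z, R i j → ∀ m, pad (w i) m = pad (w j) m}
  add_mem' := by
    rintro v w ⟨h1, h2⟩ ⟨h3, h4⟩
    refine ⟨fun i hi => ?_, fun i hi j hj hR m => ?_⟩
    · show v i + w i = 0
      rw [h1 i hi, h3 i hi, add_zero]
    · show pad (v i + w i) m = pad (v j + w j) m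
      rw [pad_add, pad_add, h2 i hi j hj hR, h4 i hi j hj hR]
  zero_mem' := by
    refine ⟨fun i _ => rfl, fun i _ j _ _ m => ?_⟩
    show pad (0 : N.P i) m = pad (0 : N.P j) m
    rw [pad_zero, pad_zero]
  smul_mem' := by
    rintro t v ⟨h1, h2⟩
    refine ⟨fun i hi => ?_, fun i hi j hj hR m => ?_⟩
    · show t • v i = 0
      rw [h1 i hi, smul_zero]
    · show pad (t • v i) m = pad (t • v j) m
      rw [pad_smul, pad_smul, h2 i hi j hj hR]

/-- the equality relation on `Z` used to choose representatives -/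
def zset (a : N.State) (Z : Set N.Node) : Setoid N.Node where
  r i j := i = j ∨ (i ∈ Z ∧ j ∈ Z ∧ Mt N a i j)
  iseqv := by
    refine ⟨fun i => Or.inl rfl, ?_, ?_⟩
    · rintro i j (h | ⟨h1, h2, h3⟩)
      · exact Or.inl h.symm
      · exact Or.inr ⟨h2, h1, Mt_symm N h3⟩
    · rintro i j k (h | ⟨h1, h2, h3⟩) (h' | ⟨h4, h5, h6⟩)
      · exact Or.inl (h.trans h')
      · subst h; exact Or.inr ⟨h4, h5, h6⟩
      · subst h'; exact Or.inr ⟨h1, h2, h3⟩
      · exact Or.inr ⟨h1, h5, Mt_trans N h3 h6⟩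

/-- representatives -/
noncomputable def rep (a : N.State) (Z : Set N.Node) (i : N.Node) : N.Node :=
  (Quotient.mk (zset N a Z) i).out

lemma rep_spec (a : N.State) (Z : Set N.Node) (i : N.Node) :
    rep N a Z i = i ∨ (rep N a Z i ∈ Z ∧ i ∈ Z ∧ Mt N a (rep N a Z i) i) := by
  have h : (zset N a Z).r (rep N a Z i) i := Quotient.mk_out (s := zset N a Z) i
  exact h

lemma rep_eq {a : N.State} {Z : Set N.Node} {i j : N.Node} (hi : i ∈ Z) (hj : j ∈ Z)
    (h : Mt N a i j) : rep N a Z i = rep N a Z j := by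
  unfold rep
  have : Quotient.mk (zset N a Z) i = Quotient.mk (zset N a Z) j :=
    Quotient.sound (s := zset N a Z) (Or.inr ⟨hi, hj, h⟩)
  rw [this]

lemma rep_rep (a : N.State) (Z : Set N.Node) (i : N.Node) :
    rep N a Z (rep N a Z i) = rep N a Z i := by
  unfold rep
  rw [Quotient.out_eq]

lemma rep_mem {a : N.State} {Z : Set N.Node} {i : N.Node} (hi : i ∈ Z) :
    rep N a Z i ∈ Z ∧ Mt N a (rep N a Z i) i := by
  rcases rep_spec N a Z i with h | ⟨h1, _, h3⟩
  · rw [h]; exact ⟨hi, Mt_refl N a i⟩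
  · exact ⟨h1, h3⟩

/-- the index set of the steady perturbations -/
abbrev Idx : Type := (i : N.Node) × Fin (N.dim (N.nodeType i))

/-- the steady perturbations -/
noncomputable def pS (a : N.State) (r : ℝ) (α : Idx N) : N.State → N.State :=
  bump N a α.1 r (fun m => if m = (α.2 : ℕ) then 1 else 0)

open Classical in
/-- their coefficients -/
noncomputable def tS (a : N.State) (Z : Set N.Node) (w : N.State) (α : Idx N) : ℝ :=
  if rep N a Z α.1 = α.1 then w α.1 α.2 else 0

lemma tS_le (a : N.State) (Z : Set N.Node) (w : N.State) (α : Idx N) :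
    |tS N a Z w α| ≤ ‖w‖ := by
  unfold tS
  split_ifs
  · have h1 := norm_le_pi_norm (w α.1) α.2
    have h2 := norm_le_pi_norm w α.1
    rw [Real.norm_eq_abs] at h1
    exact h1.trans h2
  · simp

lemma pS_apply {a : N.State} {r : ℝ} {x : N.State} {Z : Set N.Node}
    (hloc : ∀ i k, N.nodeType i = N.nodeType k →
      (Mt N a i k → bval N a i r x k = 1) ∧ (¬ Mt N a i k → bval N a i r x k = 0))
    {w : N.State} (hw : w ∈ Wsp N Z (Mt N a)) {k : N.Node} (hk : k ∈ Z)
    (m : Fin (N.dim (N.nodeType k))) :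
    (∑ α, tS N a Z w α • pS N a r α x) k m = w k m := by
  classical
  obtain ⟨hrZ, hrM⟩ := rep_mem N (a := a) hk
  have hty : N.nodeType (rep N a Z k) = N.nodeType k := hrM.1
  have h1 : (∑ α, tS N a Z w α • pS N a r α x) k m =
      ∑ α, tS N a Z w α * pS N a r α x k m := by
    simp [Finset.sum_apply]
  rw [h1, Fintype.sum_sigma, Finset.sum_eq_single (rep N a Z k)]
  · have hmlt : (m : ℕ) < N.dim (N.nodeType (rep N a Z k)) := by rw [hty]; exact m.2
    rw [Finset.sum_eq_single (⟨(m : ℕ), hmlt⟩ : Fin (N.dim (N.nodeType (rep N a Z k))))]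
    · have h2 : tS N a Z w ⟨rep N a Z k, ⟨(m : ℕ), hmlt⟩⟩ = w (rep N a Z k) ⟨(m : ℕ), hmlt⟩ := by
        unfold tS
        rw [if_pos (rep_rep N a Z k)]
      have h3 : pS N a r ⟨rep N a Z k, ⟨(m : ℕ), hmlt⟩⟩ x k m = 1 := by
        unfold pS
        rw [bump_apply, if_pos hty.symm, (hloc _ _ hty).1 hrM]
        simp
      rw [h2, h3, mul_one]
      have h4 := hw.2 _ hrZ k hk hrM (m : ℕ)
      rw [pad_val] at h4
      rw [← h4]
      unfold pad
      rw [dif_pos hmlt]
    · intro j _ hj
      have h3 : pS N a r ⟨rep N a Z k, j⟩ x k m = 0 := by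
        unfold pS
        rw [bump_apply, if_pos hty.symm]
        have : (m : ℕ) ≠ (j : ℕ) := by
          intro h
          apply hj
          apply Fin.ext
          exact h.symm
        simp [this]
      rw [h3, mul_zero]
    · intro h; exact absurd (Finset.mem_univ _) h
  · intro i _ hi
    apply Finset.sum_eq_zero
    intro j _
    by_cases hr : rep N a Z i = i
    · by_cases hiZ : i ∈ Z
      · have h3 : pS N a r ⟨i, j⟩ x k m = 0 := by
          unfold pS
          rw [bump_apply]
          by_cases hik : N.nodeType k = N.nodeType i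
          · rw [if_pos hik, (hloc i k hik.symm).2, zero_mul]
            intro hM
            apply hi
            rw [← hr]
            exact rep_eq N hiZ hk hM
          · rw [if_neg hik]
        rw [h3, mul_zero]
      · have h3 : tS N a Z w ⟨i, j⟩ = 0 := by
          unfold tS
          rw [if_pos hr]
          show w i j = 0
          rw [hw.1 i hiZ]
          rfl
        rw [h3, zero_mul]
    · have h3 : tS N a Z w ⟨i, j⟩ = 0 := by
        unfold tS
        rw [if_neg hr]
      rw [h3, zero_mul]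
  · intro h; exact absurd (Finset.mem_univ _) h

namespace Core

variable {N}
variable {K : Core N}

/-- Synchronous constant nodes of a minimal perturbation have matching input tuples. -/
theorem steady {q₀ : N.State → N.State} (h0 : K.Q q₀)
    (hmin : ∀ q, K.Q q → (Rels N (K.z q₀)).ncard ≤ (Rels N (K.z q)).ncard)
    {c d : N.Node} (hc : ∀ s, K.z q₀ s c = K.z q₀ 0 c) (hd : ∀ s, K.z q₀ s d = K.z q₀ 0 d)
    (hcd : N.Synchronous (K.z q₀) c d) : Mt N (K.z q₀ 0) c d := by
  classical
  by_contra hnot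
  set a : N.State := K.z q₀ 0 with ha
  set Z : Set N.Node := {i | ∀ s, K.z q₀ s i = K.z q₀ 0 i} with hZdef
  have hZ : ∀ i ∈ Z, ∀ e : N.Inp i, N.tail e.1 ∈ Z := by
    intro i hi e s
    by_contra hs
    exact K.const_upstream h0 hmin hi (Or.inr ⟨e, s, hs⟩)
  have hMR : ∀ i ∈ Z, ∀ j ∈ Z, Mt N a i j → N.Synchronous (K.z q₀) i j := by
    intro i hi j hj hM
    obtain ⟨h1, β, hβ⟩ := hM
    rw [Dm_eq_zero N h1] at hβ
    refine ⟨by rw [h1], fun t m => ?_⟩
    rw [hi t, hj t]
    show a i m = a j (Fin.cast _ m)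
    have h2 := hβ.1 (m : ℕ)
    rw [pad_val] at h2
    rw [← h2]
    unfold pad
    have h3 : (m : ℕ) < N.dim (N.nodeType j) := by rw [← h1]; exact m.2
    rw [dif_pos h3]
    rfl
  have hlt : Wsp N Z (N.Synchronous (K.z q₀)) < Wsp N Z (Mt N a) := by
    rw [lt_iff_le_and_ne]
    constructor
    · rintro w ⟨h1, h2⟩
      exact ⟨h1, fun i hi j hj hM => h2 i hi j hj (hMR i hi j hj hM)⟩
    · intro heq
      let w : N.State := fun i j => if i ∈ Z ∧ Mt N a c i ∧ (j : ℕ) = 0 then 1 else 0
      have hw : w ∈ Wsp N Z (Mt N a) := by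
        refine ⟨fun i hi => ?_, fun i hi j hj hM m => ?_⟩
        · funext m
          show (if i ∈ Z ∧ Mt N a c i ∧ (m : ℕ) = 0 then (1 : ℝ) else 0) = 0
          rw [if_neg (fun h => hi h.1)]
        · have hty := hM.1
          unfold pad
          by_cases hm : m < N.dim (N.nodeType i)
          · have hm' : m < N.dim (N.nodeType j) := by rw [← hty]; exact hm
            rw [dif_pos hm, dif_pos hm']
            show (if i ∈ Z ∧ Mt N a c i ∧ m = 0 then (1 : ℝ) else 0) =
              (if j ∈ Z ∧ Mt N a c j ∧ m = 0 then (1 : ℝ) else 0)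
            have hiff : (i ∈ Z ∧ Mt N a c i ∧ m = 0) ↔ (j ∈ Z ∧ Mt N a c j ∧ m = 0) := by
              constructor
              · rintro ⟨_, h2, h3⟩
                exact ⟨hj, Mt_trans N h2 hM, h3⟩
              · rintro ⟨_, h2, h3⟩
                exact ⟨hi, Mt_trans N h2 (Mt_symm N hM), h3⟩
            simp only [hiff]
          · have hm' : ¬ m < N.dim (N.nodeType j) := by rw [← hty]; exact hm
            rw [dif_neg hm, dif_neg hm']
      rw [← heq] at hw
      have h1 := hw.2 c hc d hd hcd 0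
      unfold pad at h1
      rw [dif_pos (N.dim_pos _), dif_pos (N.dim_pos _)] at h1
      have h2 : w c ⟨0, N.dim_pos _⟩ = 1 := if_pos ⟨hc, Mt_refl N a c, rfl⟩
      have h3 : w d ⟨0, N.dim_pos _⟩ = 0 := if_neg (fun h => hnot h.2.1)
      rw [h2, h3] at h1
      exact one_ne_zero h1
  obtain ⟨r, _, η, hη, hloc⟩ := exists_radius N a
  obtain ⟨ε₀, hε₀, hst⟩ := K.stable h0 hmin (p := pS N a r)
    (fun α => bump_smoothlyAdmissible N a α.1 r _) hη
  have hg1 : ContDiff ℝ 1 q₀ :=
    (SmoothlyAdmissible.contDiff h0.1).of_le (by exact_mod_cast le_top)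
  have hF : ContDiff ℝ 1 (fun (u : N.State) (i : N.Node) =>
      if i ∈ Z then -(K.f u i + q₀ u i) else 0) := by
    rw [contDiff_pi]
    intro i
    by_cases hi : i ∈ Z
    · simp only [if_pos hi]
      exact ((contDiff_pi.1 K.hf i).add (contDiff_pi.1 hg1 i)).neg
    · simp only [if_neg hi]
      exact contDiff_const
  refine dim_contra hlt hF hε₀ fun w hw hwn => ?_
  obtain ⟨hQ, hR, hclose⟩ := hst (tS N a Z w) (fun α => (tS_le N a Z w α).trans hwn)
  have e1 : ∀ i ∈ Z, ∀ s, K.z (fun x => q₀ x + ∑ α, tS N a Z w α • pS N a r α x) s i =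
      K.z (fun x => q₀ x + ∑ α, tS N a Z w α • pS N a r α x) 0 i := by
    intro i hi
    rw [← mem_Rels_inl, hR, mem_Rels_inl]
    exact hi
  have e2 : ∀ i j, N.Synchronous (K.z q₀) i j →
      N.Synchronous (K.z (fun x => q₀ x + ∑ α, tS N a Z w α • pS N a r α x)) i j := by
    intro i j hij
    rw [← mem_Rels_inr, hR, mem_Rels_inr]
    exact hij
  have e3 : ∀ i ∈ Z, ∀ m, K.f (K.z (fun x => q₀ x + ∑ α, tS N a Z w α • pS N a r α x) 0) i m +
      (q₀ (K.z (fun x => q₀ x + ∑ α, tS N a Z w α • pS N a r α x) 0) i m + w i m) = 0 := by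
    intro i hi m
    have h1 := K.const_eq hQ (e1 i hi) 0 m
    have h2 := pS_apply N (hloc _ (hclose 0)) hw hi m
    rw [← h2]
    exact h1
  set b : N.State := K.z (fun x => q₀ x + ∑ α, tS N a Z w α • pS N a r α x) 0 with hb
  set u : N.State := fun i => if i ∈ Z then b i else 0 with hu
  have hub : ∀ i ∈ Z, u i = b i := fun i hi => if_pos hi
  refine ⟨u, ⟨fun i hi => if_neg hi, fun i hi j hj hij m => ?_⟩, ?_⟩
  · rw [hub i hi, hub j hj]
    obtain ⟨h1, h2⟩ := e2 i j hij
    unfold pad
    by_cases hm : m < N.dim (N.nodeType i)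
    · have hm' : m < N.dim (N.nodeType j) := by rw [← h1]; exact hm
      rw [dif_pos hm, dif_pos hm']
      exact h2 0 ⟨m, hm⟩
    · have hm' : ¬ m < N.dim (N.nodeType j) := by rw [← h1]; exact hm
      rw [dif_neg hm, dif_neg hm']
  · funext i m
    show (if i ∈ Z then -(K.f u i + q₀ u i) else 0 : N.P i) m = w i m
    by_cases hi : i ∈ Z
    · rw [if_pos hi]
      obtain ⟨qhat, hqc, -⟩ := h0.1
      have h1 : K.f u i = K.f b i := eq_of_agree K.hcomp hZ hub hi
      have h2 : q₀ u i = q₀ b i := eq_of_agree hqc hZ hub hi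
      rw [h1, h2]
      have h3 := e3 i hi m
      show -(K.f b i m + q₀ b i m) = w i m
      linarith
    · rw [if_neg hi, hw.1 i hi]

end Core

end Pool.Agent.Helper68.RigidInput
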