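import Pool.Agent.Helper68.RigidDim

set_option autoImplicit false
open Topology MeasureTheory Filter
open Pool.Agent.Helper68.Rigid

namespace Pool.Agent.Helper68.RigidInput

variable {N : Network}

/-- the base data of the persistence theorem -/
noncomputable def mkBase {E : Type*} [NormedAddCommGroup E] [NormedSpace ℝ E]
    [FiniteDimensional ℝ E] {f : E → E} (hf : ContDiff ℝ 1 f) {x : ℝ → E} {T : ℝ}
    (hx : IsPeriodicOrbit f x T) (hh : IsHyperbolic f x T) : Base E where
  f := f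
  hf := hf
  T := T
  hT := hx.1
  y := fun s => x (T * s)
  hy := by
    intro s
    have h1 : HasDerivAt (fun s : ℝ => T * s) T s := by
      simpa using (hasDerivAt_id s).const_mul T
    exact (hx.2.1 (T * s)).scomp s h1
  hper := by
    intro s
    show x (T * (s + 1)) = x (T * s)
    rw [mul_add, mul_one, hx.2.2.1]
  hne := by
    obtain ⟨t, ht⟩ := hx.2.2.2
    refine ⟨t / T, ?_⟩
    show x (T * (t / T)) ≠ x (T * 0)
    rw [mul_div_cancel₀ _ hx.1.ne', mul_zero]
    exact ht
  Φ := fun s => hh.choose (T * s)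
  hΦ0 := by
    show hh.choose (T * 0) = _
    rw [mul_zero]
    exact hh.choose_spec.1
  hΦ := by
    intro s
    have h1 : HasDerivAt (fun s : ℝ => T * s) T s := by
      simpa using (hasDerivAt_id s).const_mul T
    have h2 := (hh.choose_spec.2.1 (T * s)).scomp s h1
    rw [ContinuousLinearMap.smul_comp]
    exact h2
  hsimple := by
    show (LinearMap.charpoly ((hh.choose (T * 1) : E →L[ℝ] E) : E →ₗ[ℝ] E)).rootMultiplicity 1 = 1
    rw [mul_one]
    exact hh.choose_spec.2.2.1

theorem exists_core {f : N.State → N.State} (hf : N.Admissible f) {x : ℝ → N.State} {T : ℝ}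
    (hx : IsPeriodicOrbit f x T) (hh : IsHyperbolic f x T) {Kc : Set N.State}
    (hK : IsCompact Kc) (hKx : Kc ∈ 𝓝ˢ (Set.range x)) {δr : ℝ} (hδr : 0 < δr) :
    ∃ K : Core N, K.f = f ∧ ∀ q, K.Q q →
      C1Close Kc δr f (fun w => f w + q w) ∧
      NearbyOrbit x T δr (fun w => f w + q w) (fun t => K.z q (t / K.ω q)) (K.ω q) := by
  have hf1 : ContDiff ℝ 1 f := hf.1.of_le (by exact_mod_cast le_top)
  obtain ⟨fhat, hcomp⟩ := hf.2
  set B : Base N.State := mkBase hf1 hx hh with hB
  have hBy : ∀ s, B.y s = x (T * s) := fun s => rfl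
  have hBT : B.T = T := rfl
  have hBf : B.f = f := rfl
  obtain ⟨M, hM⟩ := hK.isBounded.subset_closedBall (0 : N.State)
  have hxK : Set.range x ⊆ Kc := subset_of_mem_nhdsSet hKx
  have hRad : ∀ s, ‖B.y s‖ + 1 ≤ M + 1 := by
    intro s
    have h1 := hM (hxK ⟨T * s, rfl⟩)
    rw [Metric.mem_closedBall, dist_zero_right] at h1
    rw [hBy]
    linarith
  obtain ⟨s₁, hs₁⟩ := B.hne
  have hosc : 0 < ‖B.y s₁ - B.y 0‖ := norm_pos_iff.2 (sub_ne_zero.2 hs₁)
  obtain ⟨C, hC, hpers⟩ := B.persist hRad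
  set ρ₁ : ℝ := min (δr / 2) (‖B.y s₁ - B.y 0‖ / 3) with hρ₁
  have hρ₁pos : 0 < ρ₁ := lt_min (by positivity) (by positivity)
  obtain ⟨δ, hδ, z, ω, hz⟩ := hpers ρ₁ hρ₁pos
  have hsm : ∀ q : N.State → N.State, Small (M + 1) (min δ (δr / 2)) q → Small (M + 1) δ q :=
    fun q hq => small_mono hq (min_le_left _ _)
  let K : Core N :=
    { f := f
      hf := hf1
      fhat := fhat
      hcomp := hcomp
      Rad := M + 1
      δ := min δ (δr / 2)
      hδ := lt_min hδ (by positivity)
      C := C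
      hC := hC
      z := z
      ω := ω
      deriv := fun q hq => (hz q (hsm q hq)).1
      ωpos := fun q hq => (hz q (hsm q hq)).2.2.2.2.1
      mem := fun q hq => (hz q (hsm q hq)).2.2.2.2.2.1
      lip := fun q hq q' hq' => (hz q (hsm q hq)).2.2.2.2.2.2 q' (hsm q' hq') }
  refine ⟨K, rfl, fun q hq => ?_⟩
  have hqs : Small (M + 1) (min δ (δr / 2)) q := hq.small
  have hqs1 : ContDiff ℝ 1 q := hqs.1
  obtain ⟨h1, h2, h3, h4, h5, h6, -⟩ := hz q (hsm q hqs)
  constructor
  · intro w hw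
    have hw' : w ∈ Metric.closedBall (0 : N.State) (M + 1) :=
      Metric.closedBall_subset_closedBall (by linarith) (hM hw)
    obtain ⟨h7, h8⟩ := hqs.2 w hw'
    have h9 : min δ (δr / 2) < δr := (min_le_right _ _).trans_lt (by linarith)
    constructor
    · rw [add_sub_cancel_left]
      exact h7.trans_lt h9
    · have h10 : fderiv ℝ (fun w => f w + q w) w = fderiv ℝ f w + fderiv ℝ q w :=
        fderiv_fun_add (hf1.differentiable (by simp) w) (hqs1.differentiable (by simp) w)
      rw [h10, add_sub_cancel_left]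
      exact h8.trans_lt h9
  · have hω : 0 < ω q := h5
    refine ⟨⟨hω, fun t => ?_, fun t => ?_, ?_⟩, ?_, fun s => ?_⟩
    · have e1 : HasDerivAt (fun t : ℝ => t / ω q) (1 / ω q) t := by
        simpa using (hasDerivAt_id t).div_const (ω q)
      have e2 := (h1 (t / ω q)).scomp t e1
      rw [smul_smul, one_div_mul_cancel hω.ne', one_smul] at e2
      exact e2
    · show z q ((t + ω q) / ω q) = z q (t / ω q)
      rw [add_div, div_self hω.ne', h2]
    · refine ⟨ω q * s₁, ?_⟩
      show z q (ω q * s₁ / ω q) ≠ z q (0 / ω q)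
      rw [mul_div_cancel_left₀ _ hω.ne', zero_div]
      intro heq
      have e1 := h3 s₁
      have e2 := h3 0
      rw [heq] at e1
      have e3 : B.y s₁ - B.y 0 = (z q 0 - B.y 0) - (z q 0 - B.y s₁) := by abel
      have e4 := norm_sub_le (z q 0 - B.y 0) (z q 0 - B.y s₁)
      rw [← e3] at e4
      have e5 : ρ₁ ≤ ‖B.y s₁ - B.y 0‖ / 3 := min_le_right _ _
      linarith
    · have : ρ₁ ≤ δr / 2 := min_le_left _ _
      show |ω q - T| < δr
      rw [hBT] at h4
      linarith
    · show ‖z q (ω q * s / ω q) - x (T * s)‖ < δr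
      rw [mul_div_cancel_left₀ _ hω.ne']
      have e1 := h3 s
      rw [hBy] at e1
      have : ρ₁ ≤ δr / 2 := min_le_left _ _
      linarith

lemma PhaseRelated_symm {x : ℝ → N.State} {c d : N.Node} {θ : ℝ}
    (h : N.PhaseRelated x c d θ) : N.PhaseRelated x d c (-θ) := by
  obtain ⟨h1, h2⟩ := h
  refine ⟨h1.symm, fun t j => ?_⟩
  have h3 := h2 (t + -θ) (Fin.cast h1.symm j)
  rw [h3]
  have h4 : t + -θ + θ = t := by ring
  rw [h4]
  rfl

lemma InputIsomorphic_symm {c d : N.Node} (h : N.InputIsomorphic c d) : N.InputIsomorphic d c :=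
  fun a => (h a).symm

/-- the core of the argument -/
theorem core_main (K : Core N) {c d : N.Node} {θ : ℝ}
    (hrel : ∀ q, K.Q q → N.PhaseRelated (K.z q) c d θ) :
    N.nodeType c = N.nodeType d ∧ N.InputIsomorphic c d := by
  by_contra hiso
  obtain ⟨q₀, h0, hmin⟩ := K.exists_min
  have hcN := K.phase_input h0 hrel hiso
  have hdN := K.phase_input h0 (fun q hq => PhaseRelated_symm (hrel q hq))
    (fun h => hiso ⟨h.1.symm, InputIsomorphic_symm h.2⟩)
  have hc : ∀ s, K.z q₀ s c = K.z q₀ 0 c := by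
    intro s
    by_contra hs
    exact hcN (Or.inl ⟨s, hs⟩)
  have hd : ∀ s, K.z q₀ s d = K.z q₀ 0 d := by
    intro s
    by_contra hs
    exact hdN (Or.inl ⟨s, hs⟩)
  have hcd : N.Synchronous (K.z q₀) c d := by
    obtain ⟨h1, h2⟩ := hrel q₀ h0
    refine ⟨h1, fun t j => ?_⟩
    rw [h2 t j, hd (t + θ), hd t]
  obtain ⟨hty, β, _⟩ := Core.steady h0 hmin hc hd hcd
  exact hiso ⟨hty, inputIsomorphic_of_TB N β⟩

/-- The rigid input property. -/
theorem rigid_input {f : N.State → N.State} (hf : N.Admissible f) {x : ℝ → N.State} {T : ℝ}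
    (hx : IsPeriodicOrbit f x T) (hh : IsHyperbolic f x T) {c d : N.Node}
    (h : N.RigidlySynchronous f x T c d ∨ ∃ θ, N.RigidlyPhaseRelated f x T c d θ) :
    N.nodeType c = N.nodeType d ∧ N.InputIsomorphic c d := by
  rcases h with ⟨Kc, hK, hKx, δr, hδr, h⟩ | ⟨θ, Kc, hK, hKx, δr, hδr, h⟩
  · obtain ⟨K, hKf, hcore⟩ := exists_core hf hx hh hK hKx hδr
    apply core_main K (θ := 0)
    intro q hq
    obtain ⟨h1, h2⟩ := hcore q hq
    have h3 := h (fun w => f w + q w) (Admissible.add_smooth hf hq.smooth)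
      (by simpa using hq.smooth) h1 _ _ h2
    obtain ⟨h4, h5⟩ := h3
    refine ⟨h4, fun s j => ?_⟩
    have hω : 0 < K.ω q := K.ωpos q hq.small
    have h6 := h5 (K.ω q * s) j
    simp only [mul_div_cancel_left₀ _ hω.ne'] at h6
    rw [h6, add_zero]
  · obtain ⟨K, hKf, hcore⟩ := exists_core hf hx hh hK hKx hδr
    apply core_main K (θ := θ / T)
    intro q hq
    obtain ⟨h1, h2⟩ := hcore q hq
    have h3 := h (fun w => f w + q w) (Admissible.add_smooth hf hq.smooth)
      (by simpa using hq.smooth) h1 _ _ h2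
    obtain ⟨h4, h5⟩ := h3
    refine ⟨h4, fun s j => ?_⟩
    have hω : 0 < K.ω q := K.ωpos q hq.small
    have h6 := h5 (K.ω q * s) j
    have h7 : (K.ω q * s + θ * K.ω q / T) / K.ω q = s + θ / T := by
      have := hx.1
      field_simp
    simp only [mul_div_cancel_left₀ _ hω.ne', h7] at h6
    exact h6

end Pool.Agent.Helper68.RigidInput
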