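import Pool.Agent.Helper68.RigidODE

set_option autoImplicit false
open MeasureTheory Filter Topology

namespace Pool.Agent.Helper68.Rigid

namespace Base

variable {E : Type*} [NormedAddCommGroup E] [NormedSpace ℝ E] [FiniteDimensional ℝ E]
variable (B : Base E)

lemma exists_R : ∃ R : E →L[ℝ] E × ℝ, ∀ e, B.Lmap (R e) = e := by
  obtain ⟨g, hg⟩ := B.Lmap.exists_rightInverse_of_surjective
    (LinearMap.range_eq_top.2 B.Lmap_surj)
  refine ⟨LinearMap.toContinuousLinearMap g, fun e => ?_⟩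
  have := congrArg (fun L : E →ₗ[ℝ] E => L e) hg
  exact this

/-- bounded right inverse of `Lmap` -/
noncomputable def R : E →L[ℝ] E × ℝ := Classical.choose B.exists_R

lemma R_spec (e : E) : B.Lmap (B.R e) = e := Classical.choose_spec B.exists_R e

/-- the Duhamel integral -/
noncomputable def H (h : ℝ → E) (s : ℝ) : E := ∫ r in (0 : ℝ)..s, B.Ψ r (h r)

/-- initial value and period correction -/
noncomputable def par (h : ℝ → E) : E × ℝ := B.R (B.Φ 1 (B.H h 1))

/-- the periodic solution of the linearised problem -/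
noncomputable def usol (h : ℝ → E) (s : ℝ) : E :=
  B.Φ s ((B.par h).1 + B.H h s + ((B.par h).2 * s) • B.b 0)

lemma H_deriv {h : ℝ → E} (hh : Continuous h) (s : ℝ) :
    HasDerivAt (B.H h) (B.Ψ s (h s)) s := by
  have : CompleteSpace E := FiniteDimensional.complete ℝ E
  have hc : Continuous (fun r => B.Ψ r (h r)) := B.Ψ_cont.clm_apply hh
  exact intervalIntegral.integral_hasDerivAt_right (hc.intervalIntegrable _ _)
    hc.aestronglyMeasurable.stronglyMeasurableAtFilter hc.continuousAt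

lemma H_cont {h : ℝ → E} (hh : Continuous h) : Continuous (B.H h) :=
  continuous_iff_continuousAt.2 fun s => (B.H_deriv hh s).continuousAt

lemma usol_deriv {h : ℝ → E} (hh : Continuous h) (s : ℝ) :
    HasDerivAt (B.usol h) (B.A s (B.usol h s) + h s + (B.par h).2 • B.b s) s := by
  have h1 : HasDerivAt (fun s => (B.par h).1 + B.H h s + ((B.par h).2 * s) • B.b 0)
      (B.Ψ s (h s) + (B.par h).2 • B.b 0) s := by
    have e1 := ((B.H_deriv hh s).const_add (B.par h).1)
    have e2 : HasDerivAt (fun s : ℝ => ((B.par h).2 * s) • B.b 0) ((B.par h).2 • B.b 0) s := by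
      have := ((hasDerivAt_id s).const_mul (B.par h).2).smul_const (B.b 0)
      simpa using this
    exact e1.add e2
  have h2 := (B.hΦ s).clm_apply h1
  have h3 : ((B.T • fderiv ℝ B.f (B.y s)).comp (B.Φ s))
      ((B.par h).1 + B.H h s + ((B.par h).2 * s) • B.b 0) +
      B.Φ s (B.Ψ s (h s) + (B.par h).2 • B.b 0) =
      B.A s (B.usol h s) + h s + (B.par h).2 • B.b s := by
    rw [map_add (B.Φ s), B.Φ_Ψ, map_smul, ← B.b_eq s, ← add_assoc]
    rfl
  rw [h3] at h2
  exact h2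

lemma usol_cont {h : ℝ → E} (hh : Continuous h) : Continuous (B.usol h) :=
  continuous_iff_continuousAt.2 fun s => (B.usol_deriv hh s).continuousAt

lemma usol_per {h : ℝ → E} (hh : Continuous h) (hp : ∀ s, h (s + 1) = h s) (s : ℝ) :
    B.usol h (s + 1) = B.usol h s := by
  have h1 : ∀ r, HasDerivAt (fun r => B.usol h (r + 1) - B.usol h r)
      (B.A r (B.usol h (r + 1) - B.usol h r)) r := by
    intro r
    have e1 := (B.usol_deriv hh (r + 1)).comp_add_const r 1
    have e2 := e1.sub (B.usol_deriv hh r)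
    have e3 : B.A (r + 1) (B.usol h (r + 1)) + h (r + 1) + (B.par h).2 • B.b (r + 1) -
        (B.A r (B.usol h r) + h r + (B.par h).2 • B.b r) =
        B.A r (B.usol h (r + 1) - B.usol h r) := by
      rw [B.A_per, B.b_per, hp, map_sub]; abel
    rw [e3] at e2
    exact e2
  have h2 : B.usol h 1 = B.usol h 0 := by
    have e1 := B.R_spec (B.Φ 1 (B.H h 1))
    have e2 : B.Lmap ((B.par h).1, (B.par h).2) = B.Φ 1 (B.H h 1) := e1
    rw [B.Lmap_apply] at e2
    have e3 : B.H h 0 = 0 := by simp [H]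
    unfold usol
    rw [B.hΦ0, e3]
    simp only [mul_one, add_zero, mul_zero, zero_smul, ContinuousLinearMap.coe_id', id_eq]
    rw [map_add, map_add, map_smul, B.Φ1_b0, ← e2]
    abel
  have h3 := B.ode_unique h1 (s₀ := 0) (by rw [zero_add, h2, sub_self]) s
  exact sub_eq_zero.1 h3

lemma H_sub {h h' : ℝ → E} (hh : Continuous h) (hh' : Continuous h') (s : ℝ) :
    B.H h s - B.H h' s = B.H (fun r => h r - h' r) s := by
  unfold H
  rw [← intervalIntegral.integral_sub ((B.Ψ_cont.clm_apply hh).intervalIntegrable _ _)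
    ((B.Ψ_cont.clm_apply hh').intervalIntegrable _ _)]
  congr 1
  ext r
  rw [map_sub]

lemma H_bound : ∃ K, 0 < K ∧ ∀ h : ℝ → E, Continuous h → ∀ s, 0 ≤ s → s ≤ 1 →
    ‖B.H h s‖ ≤ K * ∫ r in (0 : ℝ)..1, ‖h r‖ := by
  obtain ⟨K, hK⟩ := (isCompact_Icc (a := (0 : ℝ)) (b := 1)).exists_bound_of_continuousOn
    B.Ψ_cont.continuousOn
  have hK0 : 0 ≤ K := (norm_nonneg _).trans (hK 0 ⟨le_rfl, zero_le_one⟩)
  refine ⟨K + 1, by positivity, fun h hh s hs0 hs1 => ?_⟩
  have hi : ∀ a b, IntervalIntegrable (fun r => ‖h r‖) volume a b :=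
    fun a b => hh.norm.intervalIntegrable _ _
  have h1 : ‖B.H h s‖ ≤ ∫ r in (0 : ℝ)..s, (K + 1) * ‖h r‖ := by
    apply intervalIntegral.norm_integral_le_of_norm_le hs0
    · refine Eventually.of_forall fun r hr => ?_
      have h2 : ‖B.Ψ r‖ ≤ K + 1 := (hK r ⟨hr.1.le, hr.2.trans hs1⟩).trans (by linarith)
      exact ((B.Ψ r).le_opNorm _).trans (mul_le_mul_of_nonneg_right h2 (norm_nonneg _))
    · exact (hi 0 s).const_mul _
  rw [intervalIntegral.integral_const_mul] at h1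
  refine h1.trans ?_
  gcongr
  apply intervalIntegral.integral_mono_interval le_rfl hs0 hs1
  · exact Eventually.of_forall fun r => norm_nonneg _
  · exact hi 0 1

/-- the Green operator estimate with an `L¹` norm on the right -/
lemma green_bound : ∃ C, 0 < C ∧ ∀ h h' : ℝ → E, Continuous h → Continuous h' →
    (∀ s, 0 ≤ s → s ≤ 1 → ‖B.usol h s - B.usol h' s‖ ≤ C * ∫ r in (0 : ℝ)..1, ‖h r - h' r‖) ∧
    |(B.par h).2 - (B.par h').2| ≤ C * ∫ r in (0 : ℝ)..1, ‖h r - h' r‖ := by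
  obtain ⟨K, hK0, hK⟩ := B.H_bound
  obtain ⟨P, hP⟩ := (isCompact_Icc (a := (0 : ℝ)) (b := 1)).exists_bound_of_continuousOn
    B.Φ_cont.continuousOn
  have hP0 : 0 ≤ P := (norm_nonneg _).trans (hP 0 ⟨le_rfl, zero_le_one⟩)
  set K2 : ℝ := ‖B.R‖ * (‖B.Φ 1‖ * K) with hK2
  have hK20 : 0 ≤ K2 := by positivity
  set C : ℝ := P * (K2 + K + K2 * ‖B.b 0‖) + K2 + 1 with hC
  refine ⟨C, by positivity, fun h h' hh hh' => ?_⟩
  set I : ℝ := ∫ r in (0 : ℝ)..1, ‖h r - h' r‖ with hI
  have hI0 : 0 ≤ I := intervalIntegral.integral_nonneg zero_le_one fun r _ => norm_nonneg _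
  have hHs : ∀ s, 0 ≤ s → s ≤ 1 → ‖B.H h s - B.H h' s‖ ≤ K * I := by
    intro s hs0 hs1
    rw [B.H_sub hh hh']
    exact hK _ (hh.sub hh') s hs0 hs1
  have hpar : ‖B.par h - B.par h'‖ ≤ K2 * I := by
    unfold par
    rw [← map_sub, ← map_sub]
    calc ‖B.R (B.Φ 1 (B.H h 1 - B.H h' 1))‖ ≤ ‖B.R‖ * ‖B.Φ 1 (B.H h 1 - B.H h' 1)‖ :=
          B.R.le_opNorm _
      _ ≤ ‖B.R‖ * (‖B.Φ 1‖ * ‖B.H h 1 - B.H h' 1‖) := by
          gcongr; exact (B.Φ 1).le_opNorm _
      _ ≤ ‖B.R‖ * (‖B.Φ 1‖ * (K * I)) := by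
          gcongr; exact hHs 1 zero_le_one le_rfl
      _ = K2 * I := by rw [hK2]; ring
  have hp1 : ‖(B.par h).1 - (B.par h').1‖ ≤ K2 * I := by
    refine le_trans ?_ hpar
    have := norm_fst_le (B.par h - B.par h')
    simpa using this
  have hp2 : |(B.par h).2 - (B.par h').2| ≤ K2 * I := by
    refine le_trans ?_ hpar
    have := norm_snd_le (B.par h - B.par h')
    simpa using this
  have hCK2 : K2 ≤ C := by
    have : 0 ≤ P * (K2 + K + K2 * ‖B.b 0‖) := by positivity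
    rw [hC]; linarith
  refine ⟨fun s hs0 hs1 => ?_, hp2.trans (by gcongr)⟩
  unfold usol
  rw [← map_sub]
  have e1 : (B.par h).1 + B.H h s + ((B.par h).2 * s) • B.b 0 -
      ((B.par h').1 + B.H h' s + ((B.par h').2 * s) • B.b 0) =
      ((B.par h).1 - (B.par h').1) + (B.H h s - B.H h' s) +
        (((B.par h).2 - (B.par h').2) * s) • B.b 0 := by
    rw [sub_mul, sub_smul]; abel
  rw [e1]
  have e2 : ‖(((B.par h).2 - (B.par h').2) * s) • B.b 0‖ ≤ K2 * I * ‖B.b 0‖ := by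
    rw [norm_smul, norm_mul, Real.norm_eq_abs, Real.norm_eq_abs, abs_of_nonneg hs0]
    have e3 : |(B.par h).2 - (B.par h').2| * s ≤ K2 * I := by
      calc |(B.par h).2 - (B.par h').2| * s ≤ |(B.par h).2 - (B.par h').2| * 1 := by gcongr
        _ ≤ K2 * I := by rw [mul_one]; exact hp2
    exact mul_le_mul_of_nonneg_right e3 (norm_nonneg _)
  calc ‖B.Φ s (((B.par h).1 - (B.par h').1) + (B.H h s - B.H h' s) +
        (((B.par h).2 - (B.par h').2) * s) • B.b 0)‖
      ≤ ‖B.Φ s‖ * ‖((B.par h).1 - (B.par h').1) + (B.H h s - B.H h' s) +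
        (((B.par h).2 - (B.par h').2) * s) • B.b 0‖ := (B.Φ s).le_opNorm _
    _ ≤ P * (K2 * I + K * I + K2 * I * ‖B.b 0‖) := by
        gcongr
        · exact hP s ⟨hs0, hs1⟩
        · exact norm_add₃_le.trans (add_le_add (add_le_add hp1 (hHs s hs0 hs1)) e2)
    _ = (P * (K2 + K + K2 * ‖B.b 0‖)) * I := by ring
    _ ≤ C * I := by
        gcongr
        rw [hC]; linarith

end Base

end Pool.Agent.Helper68.Rigid
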