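import Pool.Agent.Helper68.RigidBump

set_option autoImplicit false
open Topology MeasureTheory Filter

namespace Pool.Agent.Helper68.RigidInput

variable (N : Network)

/-- input tuple along `z`, read through `β` -/
def G (z : ℝ → N.State) (c i : N.Node) (β : N.Inp c ≃ N.Inp i) (s : ℝ) :
    N.P c × ((e : N.Inp c) → N.P (N.tail e.1)) :=
  (fun j => pad (z s i) j, fun e j => pad (z s (N.tail (β e).1)) j)

lemma Dm_eq_zero_iff (z : ℝ → N.State) (c i : N.Node) (β : N.Inp c ≃ N.Inp i) (s s₀ : ℝ) :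
    Dm N (z s₀) c (z s) i β = 0 ↔ G N z c i β s = G N z c c (Equiv.refl _) s₀ := by
  unfold Dm Dc
  rw [add_eq_zero_iff_of_nonneg (by positivity) (by positivity),
    Finset.sum_eq_zero_iff_of_nonneg (by intro j _; positivity),
    Finset.sum_eq_zero_iff_of_nonneg (by intro e _; positivity)]
  constructor
  · rintro ⟨h1, h2⟩
    apply Prod.ext
    · funext j
      have h3 := h1 j (Finset.mem_range.2 j.2)
      have h4 := pow_eq_zero_iff (two_ne_zero) |>.1 h3
      exact sub_eq_zero.1 h4
    · funext e j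
      have h3 := h2 e (Finset.mem_univ e)
      rw [Finset.sum_eq_zero_iff_of_nonneg (by intro j _; positivity)] at h3
      have h4 := pow_eq_zero_iff (two_ne_zero) |>.1 (h3 j (Finset.mem_range.2 j.2))
      exact sub_eq_zero.1 h4
  · intro h
    constructor
    · intro j hj
      have h1 := congrFun (congrArg Prod.fst h) ⟨j, Finset.mem_range.1 hj⟩
      have h2 : pad (z s i) j = pad (z s₀ c) j := h1
      rw [h2, sub_self]; simp
    · intro e _
      apply Finset.sum_eq_zero
      intro j hj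
      have h1 := congrFun (congrFun (congrArg Prod.snd h) e) ⟨j, Finset.mem_range.1 hj⟩
      have h2 : pad (z s (N.tail (β e).1)) j = pad (z s₀ (N.tail e.1)) j := h1
      rw [h2, sub_self]; simp

lemma continuous_pad {z : ℝ → N.State} (hz : Continuous z) (i : N.Node) (j : ℕ) :
    Continuous (fun s => pad (z s i) j) := by
  unfold pad
  by_cases h : j < N.dim (N.nodeType i)
  · simp only [dif_pos h]
    fun_prop
  · simp only [dif_neg h]
    exact continuous_const

lemma continuous_G {z : ℝ → N.State} (hz : Continuous z) (c i : N.Node)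
    (β : N.Inp c ≃ N.Inp i) : Continuous (G N z c i β) := by
  unfold G
  apply Continuous.prodMk
  · apply continuous_pi
    intro j
    exact continuous_pad N hz i j
  · apply continuous_pi
    intro e
    apply continuous_pi
    intro j
    exact continuous_pad N hz _ j

lemma exists_not_mem_of_countable {V : Type*} {G0 : ℝ → V} {Bad : Set V} (hBad : Bad.Countable)
    {pr : V → ℝ} (hc : Continuous (fun s => pr (G0 s))) {s₁ : ℝ} (hne : pr (G0 s₁) ≠ pr (G0 0)) :
    ∃ s₀, G0 s₀ ∉ Bad := by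
  by_contra hcon
  push Not at hcon
  have h1 : Set.uIcc (pr (G0 0)) (pr (G0 s₁)) ⊆ pr '' Bad := by
    intro v hv
    have h2 := intermediate_value_uIcc (a := (0 : ℝ)) (b := s₁)
      (f := fun s => pr (G0 s)) hc.continuousOn hv
    obtain ⟨s, _, hs⟩ := h2
    exact ⟨G0 s, hcon s, hs⟩
  have h2 : volume (Set.uIcc (pr (G0 0)) (pr (G0 s₁))) = 0 :=
    ((hBad.image pr).mono h1).measure_zero _
  rw [Set.uIcc, Real.volume_Icc, ENNReal.ofReal_eq_zero] at h2
  apply hne
  have h3 : max (pr (G0 0)) (pr (G0 s₁)) ≤ min (pr (G0 0)) (pr (G0 s₁)) := by linarith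
  have h4 := le_max_left (pr (G0 0)) (pr (G0 s₁))
  have h5 := le_max_right (pr (G0 0)) (pr (G0 s₁))
  have h6 := min_le_left (pr (G0 0)) (pr (G0 s₁))
  have h7 := min_le_right (pr (G0 0)) (pr (G0 s₁))
  linarith

/-- `c` has a nonconstant input tuple along `z` -/
def NonconstInput (z : ℝ → N.State) (c : N.Node) : Prop :=
  (∃ s, z s c ≠ z 0 c) ∨ ∃ e : N.Inp c, ∃ s, z s (N.tail e.1) ≠ z 0 (N.tail e.1)

lemma exists_good_time {z : ℝ → N.State} (hz : Continuous z) {c : N.Node}
    (hnc : NonconstInput N z c) :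
    ∃ s₀, (volume.restrict (Set.Icc (0 : ℝ) 1))
      {s | ∃ i, ∃ β : TB N c i, Dm N (z s₀) c (z s) i β.1 = 0} = 0 := by
  set μ : Measure ℝ := volume.restrict (Set.Icc (0 : ℝ) 1) with hμ
  set Bad : Set (N.P c × ((e : N.Inp c) → N.P (N.tail e.1))) :=
    ⋃ i, ⋃ β : TB N c i, {v | 0 < μ {s | G N z c i β.1 s = v}} with hBad
  have hBadc : Bad.Countable := by
    apply Set.countable_iUnion
    intro i
    apply Set.countable_iUnion
    intro β
    exact Measure.countable_meas_level_set_pos (continuous_G N hz c i β.1).measurable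
  have hex : ∃ s₀, G N z c c (Equiv.refl _) s₀ ∉ Bad := by
    rcases hnc with ⟨s₁, hs⟩ | ⟨e, s₁, hs⟩
    · obtain ⟨j, hj⟩ := Function.ne_iff.1 hs
      apply exists_not_mem_of_countable (pr := fun v => v.1 j) (s₁ := s₁) hBadc
      · exact continuous_pad N hz c j
      · show pad (z s₁ c) j ≠ pad (z 0 c) j
        rw [pad_val, pad_val]; exact hj
    · obtain ⟨j, hj⟩ := Function.ne_iff.1 hs
      apply exists_not_mem_of_countable (pr := fun v => v.2 e j) (s₁ := s₁) hBadc
      · exact continuous_pad N hz _ j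
      · show pad (z s₁ (N.tail e.1)) j ≠ pad (z 0 (N.tail e.1)) j
        rw [pad_val, pad_val]; exact hj
  obtain ⟨s₀, hs₀⟩ := hex
  refine ⟨s₀, ?_⟩
  have h1 : {s | ∃ i, ∃ β : TB N c i, Dm N (z s₀) c (z s) i β.1 = 0} ⊆
      ⋃ i, ⋃ β : TB N c i, {s | G N z c i β.1 s = G N z c c (Equiv.refl _) s₀} := by
    rintro s ⟨i, β, hβ⟩
    rw [Dm_eq_zero_iff] at hβ
    exact Set.mem_iUnion.2 ⟨i, Set.mem_iUnion.2 ⟨β, hβ⟩⟩
  apply measure_mono_null h1
  rw [measure_iUnion_null_iff]
  intro i
  rw [measure_iUnion_null_iff]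
  intro β
  by_contra hpos
  apply hs₀
  exact Set.mem_iUnion.2 ⟨i, Set.mem_iUnion.2 ⟨β, pos_iff_ne_zero.2 hpos⟩⟩

lemma continuous_bump (a : N.State) (c : N.Node) (r : ℝ) (κ : ℕ → ℝ) :
    Continuous (bump N a c r κ) :=
  (SmoothlyAdmissible.contDiff (bump_smoothlyAdmissible N a c r κ)).continuous

/-- the bump can be chosen with small mean along the orbit -/
lemma exists_small_bump {z : ℝ → N.State} (hz : Continuous z) {c : N.Node}
    (hnc : NonconstInput N z c) {κ : ℕ → ℝ} (hκ : ∀ j, |κ j| ≤ 1) {η : ℝ} (hη : 0 < η) :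
    ∃ s₀ r, 0 < r ∧ ∫ s in (0 : ℝ)..1, ‖bump N (z s₀) c r κ (z s)‖ ≤ η := by
  classical
  obtain ⟨s₀, hs₀⟩ := exists_good_time N hz hnc
  refine ⟨s₀, ?_⟩
  have hlim : Tendsto (fun n : ℕ => ∫ s in (0 : ℝ)..1,
      ‖bump N (z s₀) c (1 / ((n : ℝ) + 1)) κ (z s)‖) atTop (𝓝 (∫ s in (0 : ℝ)..1, (0 : ℝ))) := by
    apply intervalIntegral.tendsto_integral_filter_of_dominated_convergence (fun _ => 1)
    · exact Eventually.of_forall fun n =>
        ((continuous_bump N _ _ _ _).comp hz).norm.aestronglyMeasurable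
    · refine Eventually.of_forall fun n => Eventually.of_forall fun s _ => ?_
      rw [norm_norm]
      exact norm_bump_le N hκ _
    · exact intervalIntegrable_const
    · have h1 : ∀ᵐ s ∂(volume.restrict (Set.Icc (0 : ℝ) 1)),
          ¬ ∃ i, ∃ β : TB N c i, Dm N (z s₀) c (z s) i β.1 = 0 := by
        rw [ae_iff]
        simpa using hs₀
      have h2 := ae_imp_of_ae_restrict h1
      filter_upwards [h2] with s hs hsI
      rw [Set.uIoc_of_le zero_le_one] at hsI
      have h3 := hs ⟨hsI.1.le, hsI.2⟩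
      push Not at h3
      have hpos : ∀ i, ∀ β : TB N c i, 0 < Dm N (z s₀) c (z s) i β.1 := fun i β =>
        lt_of_le_of_ne (Dm_nonneg N _ _ _ _ _) (Ne.symm (h3 i β))
      have hev : ∀ᶠ n : ℕ in atTop, ∀ i, ∀ β : TB N c i,
          1 ≤ Dm N (z s₀) c (z s) i β.1 / (1 / ((n : ℝ) + 1)) ^ 2 := by
        rw [eventually_all]
        intro i
        rw [eventually_all]
        intro β
        have h4 := hpos i β
        have h5 : Tendsto (fun n : ℕ => Dm N (z s₀) c (z s) i β.1 * ((n : ℝ) + 1)) atTop atTop :=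
          (tendsto_natCast_atTop_atTop.atTop_add tendsto_const_nhds).const_mul_atTop h4
        filter_upwards [h5.eventually_ge_atTop 1] with n hn
        have h6 : (1 : ℝ) ≤ (n : ℝ) + 1 := by
          have : (0 : ℝ) ≤ n := Nat.cast_nonneg n
          linarith
        rw [div_pow, one_pow, div_div_eq_mul_div, div_one]
        nlinarith
      apply tendsto_const_nhds.congr'
      filter_upwards [hev] with n hn
      have h7 : bump N (z s₀) c (1 / ((n : ℝ) + 1)) κ (z s) = 0 := by
        funext i j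
        rw [bump_apply, bval_eq_zero N (hn i), zero_mul]
        simp
      rw [h7, norm_zero]
  rw [intervalIntegral.integral_zero] at hlim
  obtain ⟨n, hn⟩ := (hlim.eventually (eventually_le_nhds hη)).exists
  exact ⟨1 / ((n : ℝ) + 1), by positivity, hn⟩

end Pool.Agent.Helper68.RigidInput
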