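import Mathlib

set_option autoImplicit false
open MeasureTheory Filter Topology

namespace Pool.Agent.Helper68.Rigid

/-- uniqueness for linear ODEs with bounded coefficients -/
lemma linear_ode_unique {E : Type*} [NormedAddCommGroup E] [NormedSpace ℝ E]
    {A : ℝ → (E →L[ℝ] E)} {K : ℝ} (hK : ∀ s, ‖A s‖ ≤ K) {w : ℝ → E}
    (hw : ∀ s, HasDerivAt w (A s (w s)) s) {s₀ : ℝ} (h0 : w s₀ = 0) : ∀ s, w s = 0 := by
  have hK0 : 0 ≤ K := (norm_nonneg _).trans (hK 0)
  have h := ODE_solution_unique_univ (v := fun s e => A s e) (s := fun _ => Set.univ)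
    (K := ⟨K, hK0⟩) (f := w) (g := fun _ => 0) (t₀ := s₀)
    (fun s => by
      apply LipschitzWith.lipschitzOnWith
      apply LipschitzWith.of_dist_le_mul
      intro a b
      rw [dist_eq_norm, dist_eq_norm, ← map_sub]
      exact ((A s).le_opNorm _).trans (mul_le_mul_of_nonneg_right (hK s) (norm_nonneg _)))
    (fun s => ⟨hw s, Set.mem_univ _⟩)
    (fun s => ⟨by simpa using hasDerivAt_const s (0 : E), Set.mem_univ _⟩) h0
  intro s
  rw [h]

/-- Base data: a periodic orbit in normalised time with simple multiplier one. -/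
structure Base (E : Type*) [NormedAddCommGroup E] [NormedSpace ℝ E] [FiniteDimensional ℝ E] where
  f : E → E
  hf : ContDiff ℝ 1 f
  T : ℝ
  hT : 0 < T
  y : ℝ → E
  hy : ∀ s, HasDerivAt y (T • f (y s)) s
  hper : ∀ s, y (s + 1) = y s
  hne : ∃ s, y s ≠ y 0
  Φ : ℝ → (E →L[ℝ] E)
  hΦ0 : Φ 0 = ContinuousLinearMap.id ℝ E
  hΦ : ∀ s, HasDerivAt Φ ((T • fderiv ℝ f (y s)).comp (Φ s)) s
  hsimple : (LinearMap.charpoly ((Φ 1 : E →L[ℝ] E) : E →ₗ[ℝ] E)).rootMultiplicity 1 = 1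

namespace Base

variable {E : Type*} [NormedAddCommGroup E] [NormedSpace ℝ E] [FiniteDimensional ℝ E]
variable (B : Base E)

/-- the linearisation -/
noncomputable def A (s : ℝ) : E →L[ℝ] E := B.T • fderiv ℝ B.f (B.y s)

/-- the vector field along the orbit -/
def b (s : ℝ) : E := B.f (B.y s)

lemma y_cont : Continuous B.y :=
  continuous_iff_continuousAt.2 fun s => (B.hy s).continuousAt

lemma A_cont : Continuous B.A := by
  have h := ((B.hf.continuous_fderiv (by simp)).comp B.y_cont).const_smul B.T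
  exact h

lemma A_per (s : ℝ) : B.A (s + 1) = B.A s := by
  unfold A; rw [B.hper]

lemma b_cont : Continuous B.b := B.hf.continuous.comp B.y_cont

lemma b_per (s : ℝ) : B.b (s + 1) = B.b s := by
  unfold b; rw [B.hper]

end Base

/-- continuous one-periodic functions are bounded -/
lemma per_bounded {F : Type*} [NormedAddCommGroup F] {g : ℝ → F} (hg : Continuous g)
    (hp : ∀ s, g (s + 1) = g s) : ∃ K, 0 ≤ K ∧ ∀ s, ‖g s‖ ≤ K := by
  obtain ⟨C, hC⟩ := (isCompact_Icc (a := (0 : ℝ)) (b := 1)).exists_bound_of_continuousOn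
    hg.continuousOn
  refine ⟨C, (norm_nonneg _).trans (hC 0 ⟨le_rfl, zero_le_one⟩), fun s => ?_⟩
  have hp' : Function.Periodic g 1 := hp
  obtain ⟨t, ht, hst⟩ := hp'.exists_mem_Ico₀ one_pos s
  rw [hst]
  exact hC t ⟨ht.1, ht.2.le⟩

namespace Base

variable {E : Type*} [NormedAddCommGroup E] [NormedSpace ℝ E] [FiniteDimensional ℝ E]
variable (B : Base E)

lemma A_bdd : ∃ K, 0 ≤ K ∧ ∀ s, ‖B.A s‖ ≤ K := per_bounded B.A_cont B.A_per

lemma ode_unique {w : ℝ → E} (hw : ∀ s, HasDerivAt w (B.A s (w s)) s) {s₀ : ℝ}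
    (h0 : w s₀ = 0) : ∀ s, w s = 0 := by
  obtain ⟨K, _, hK⟩ := B.A_bdd
  exact linear_ode_unique hK hw h0

lemma Φ_apply_deriv (v : E) (s : ℝ) : HasDerivAt (fun s => B.Φ s v) (B.A s (B.Φ s v)) s := by
  have h := (B.hΦ s).clm_apply (hasDerivAt_const s v)
  simpa [A] using h

lemma Φ_cont : Continuous B.Φ :=
  continuous_iff_continuousAt.2 fun s => (B.hΦ s).continuousAt

lemma Φ_inj (s : ℝ) : Function.Injective (B.Φ s) := by
  intro v w hvw
  have h1 : B.Φ s (v - w) = 0 := by rw [map_sub, hvw, sub_self]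
  have h2 := B.ode_unique (fun r => B.Φ_apply_deriv (v - w) r) h1 0
  rw [B.hΦ0] at h2
  exact sub_eq_zero.1 (by simpa using h2)

lemma Φ_isUnit (s : ℝ) : IsUnit (B.Φ s) := by
  have h1 : Function.Injective ((B.Φ s : E →L[ℝ] E) : E →ₗ[ℝ] E) := B.Φ_inj s
  have h2 : Function.Surjective ((B.Φ s : E →L[ℝ] E) : E →ₗ[ℝ] E) :=
    LinearMap.surjective_of_injective h1
  let e : E ≃ₗ[ℝ] E := LinearEquiv.ofBijective _ ⟨h1, h2⟩
  let e' : E ≃L[ℝ] E := e.toContinuousLinearEquiv
  refine ⟨⟨B.Φ s, (e'.symm : E →L[ℝ] E), ?_, ?_⟩, rfl⟩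
  · ext v
    show e' (e'.symm v) = v
    simp
  · ext v
    show e'.symm (e' v) = v
    simp

/-- inverse of the fundamental solution -/
noncomputable def Ψ (s : ℝ) : E →L[ℝ] E := Ring.inverse (B.Φ s)

lemma Ψ_cont : Continuous B.Ψ := by
  have : CompleteSpace E := FiniteDimensional.complete ℝ E
  rw [continuous_iff_continuousAt]
  intro s
  obtain ⟨u, hu⟩ := B.Φ_isUnit s
  have h1 : ContinuousAt Ring.inverse (B.Φ s) := by
    rw [← hu]; exact NormedRing.inverse_continuousAt u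
  exact ContinuousAt.comp h1 B.Φ_cont.continuousAt

lemma Φ_Ψ (s : ℝ) (v : E) : B.Φ s (B.Ψ s v) = v := by
  have := Ring.mul_inverse_cancel (B.Φ s) (B.Φ_isUnit s)
  have h2 := congrArg (fun L : E →L[ℝ] E => L v) this
  exact h2

lemma Ψ_Φ (s : ℝ) (v : E) : B.Ψ s (B.Φ s v) = v := by
  have := Ring.inverse_mul_cancel (B.Φ s) (B.Φ_isUnit s)
  have h2 := congrArg (fun L : E →L[ℝ] E => L v) this
  exact h2

lemma b_deriv (s : ℝ) : HasDerivAt B.b (B.A s (B.b s)) s := by
  have h1 : HasFDerivAt B.f (fderiv ℝ B.f (B.y s)) (B.y s) :=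
    (B.hf.differentiable (by simp) _).hasFDerivAt
  have h2 := h1.comp_hasDerivAt s (B.hy s)
  have h3 : fderiv ℝ B.f (B.y s) (B.T • B.f (B.y s)) = B.A s (B.b s) := by
    simp [A, b]
  rw [h3] at h2
  exact h2

lemma b_eq (s : ℝ) : B.b s = B.Φ s (B.b 0) := by
  have h1 : ∀ r, HasDerivAt (fun r => B.b r - B.Φ r (B.b 0))
      (B.A r (B.b r - B.Φ r (B.b 0))) r := by
    intro r
    rw [map_sub]
    exact (B.b_deriv r).sub (B.Φ_apply_deriv _ r)
  have h2 := B.ode_unique h1 (s₀ := 0) (by rw [B.hΦ0]; simp) s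
  exact sub_eq_zero.1 h2

lemma b0_ne : B.b 0 ≠ 0 := by
  intro h0
  obtain ⟨s, hs⟩ := B.hne
  apply hs
  have h1 : ∀ r, HasDerivAt B.y 0 r := by
    intro r
    have h2 := B.hy r
    have h3 : B.f (B.y r) = 0 := by
      have := B.b_eq r
      rw [h0, map_zero] at this
      exact this
    rwa [h3, smul_zero] at h2
  exact is_const_of_deriv_eq_zero (fun r => (h1 r).differentiableAt)
    (fun r => (h1 r).deriv) s 0

lemma Φ1_b0 : B.Φ 1 (B.b 0) = B.b 0 := by
  rw [← B.b_eq 1]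
  have := B.b_per 0
  rwa [zero_add] at this

/-- the linear map `(v,τ) ↦ v - Mv - τ b₀` -/
noncomputable def Lmap : E × ℝ →ₗ[ℝ] E :=
  (LinearMap.id - ((B.Φ 1 : E →L[ℝ] E) : E →ₗ[ℝ] E)) ∘ₗ LinearMap.fst ℝ E ℝ -
    (LinearMap.toSpanSingleton ℝ E (B.b 0)) ∘ₗ LinearMap.snd ℝ E ℝ

lemma Lmap_apply (v : E) (τ : ℝ) : B.Lmap (v, τ) = v - B.Φ 1 v - τ • B.b 0 := by
  simp [Lmap]

lemma Lmap_surj : Function.Surjective B.Lmap := by
  set M : Module.End ℝ E := ((B.Φ 1 : E →L[ℝ] E) : E →ₗ[ℝ] E) with hM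
  set D : E →ₗ[ℝ] E := LinearMap.id - M with hD
  have hMb : M (B.b 0) = B.b 0 := B.Φ1_b0
  set G := M.maxGenEigenspace 1 with hG
  have hGr : Module.finrank ℝ G = 1 := by
    rw [hG, LinearMap.finrank_maxGenEigenspace_eq]
    exact B.hsimple
  have hmem : ∀ v : E, D (D v) = 0 → v ∈ G := by
    intro v hv
    rw [hG, Module.End.mem_maxGenEigenspace]
    refine ⟨2, ?_⟩
    have h1 : (M - (1 : ℝ) • 1) = -D := by
      rw [hD]; ext x; simp
    rw [h1, pow_two]
    show (-D) ((-D) v) = 0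
    simp [hv]
  have hbG : B.b 0 ∈ G := hmem _ (by
    have : D (B.b 0) = 0 := by rw [hD]; simp [hMb]
    rw [this, map_zero])
  have hspan : G = Submodule.span ℝ {B.b 0} := by
    symm
    apply Submodule.eq_of_le_of_finrank_eq
    · rw [Submodule.span_singleton_le_iff_mem]; exact hbG
    · rw [hGr, finrank_span_singleton B.b0_ne]
  have hker : LinearMap.ker D ≤ G := by
    intro v hv
    apply hmem
    rw [LinearMap.mem_ker] at hv
    rw [hv, map_zero]
  have hkr : Module.finrank ℝ (LinearMap.ker D) ≤ 1 := by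
    rw [← hGr]; exact Submodule.finrank_mono hker
  have hrank := LinearMap.finrank_range_add_finrank_ker D
  have hb_notin : B.b 0 ∉ LinearMap.range D := by
    rintro ⟨v, hv⟩
    have h1 : v ∈ G := hmem v (by
      rw [hv, hD]; simp [hMb])
    rw [hspan, Submodule.mem_span_singleton] at h1
    obtain ⟨c, rfl⟩ := h1
    have h2 : D (c • B.b 0) = 0 := by
      rw [map_smul]
      have : D (B.b 0) = 0 := by rw [hD]; simp [hMb]
      rw [this, smul_zero]
    rw [h2] at hv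
    exact B.b0_ne hv.symm
  have hlt : LinearMap.range D < LinearMap.range D ⊔ Submodule.span ℝ {B.b 0} := by
    refine lt_of_le_of_ne le_sup_left ?_
    intro h
    apply hb_notin
    rw [h]
    exact Submodule.mem_sup_right (Submodule.mem_span_singleton_self _)
  have hlt2 := Submodule.finrank_lt_finrank_of_lt hlt
  have htop : LinearMap.range D ⊔ Submodule.span ℝ {B.b 0} = ⊤ := by
    apply Submodule.eq_top_of_finrank_eq
    have := Submodule.finrank_le (LinearMap.range D ⊔ Submodule.span ℝ {B.b 0})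
    omega
  intro e
  have he : e ∈ LinearMap.range D ⊔ Submodule.span ℝ {B.b 0} := by rw [htop]; trivial
  rw [Submodule.mem_sup] at he
  obtain ⟨p, ⟨v, hv⟩, q, hq, hpq⟩ := he
  rw [Submodule.mem_span_singleton] at hq
  obtain ⟨c, rfl⟩ := hq
  refine ⟨(v, -c), ?_⟩
  rw [Lmap_apply, ← hpq, ← hv, hD]
  simp only [LinearMap.sub_apply, LinearMap.id_apply, neg_smul, sub_neg_eq_add]
  rfl

end Base

end Pool.Agent.Helper68.Rigid
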