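import Pool.Agent.Helper68.RigidGreen

set_option autoImplicit false
open MeasureTheory Filter Topology

namespace Pool.Agent.Helper68.Rigid

/-- `C¹`-small on a ball -/
def Small {E : Type*} [NormedAddCommGroup E] [NormedSpace ℝ E] (Rad δ : ℝ) (q : E → E) : Prop :=
  ContDiff ℝ 1 q ∧ ∀ w ∈ Metric.closedBall (0 : E) Rad, ‖q w‖ ≤ δ ∧ ‖fderiv ℝ q w‖ ≤ δ

/-- lift a periodic continuous function to the circle -/
def toCirc {E : Type*} [NormedAddCommGroup E] (g : ℝ → E) (hc : Continuous g)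
    (hp : Function.Periodic g 1) : C(AddCircle (1 : ℝ), E) :=
  ⟨hp.lift, continuous_coinduced_dom.2 hc⟩

lemma toCirc_apply {E : Type*} [NormedAddCommGroup E] (g : ℝ → E) (hc : Continuous g)
    (hp : Function.Periodic g 1) (s : ℝ) : toCirc g hc hp (s : AddCircle (1 : ℝ)) = g s := rfl

lemma circ_norm_le {E : Type*} [NormedAddCommGroup E] (u : C(AddCircle (1 : ℝ), E)) {M : ℝ}
    (hM : 0 ≤ M) (h : ∀ s : ℝ, 0 ≤ s → s ≤ 1 → ‖u (s : AddCircle (1 : ℝ))‖ ≤ M) : ‖u‖ ≤ M := by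
  rw [ContinuousMap.norm_le _ hM]
  intro θ
  induction θ using QuotientAddGroup.induction_on with
  | H s =>
    have hp : Function.Periodic (fun s : ℝ => u (s : AddCircle (1 : ℝ))) 1 := by
      intro t
      simp
    obtain ⟨t, ht, hst⟩ := hp.exists_mem_Ico₀ one_pos s
    have h1 : u (s : AddCircle (1 : ℝ)) = u (t : AddCircle (1 : ℝ)) := hst
    show ‖u (s : AddCircle (1 : ℝ))‖ ≤ M
    rw [h1]
    exact h t ht.1 ht.2.le

namespace Base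

variable {E : Type*} [NormedAddCommGroup E] [NormedSpace ℝ E] [FiniteDimensional ℝ E]
variable (B : Base E)

/-- the nonlinear term -/
noncomputable def Nl (q : E → E) (ξ : C(AddCircle (1 : ℝ), E) × ℝ) (s : ℝ) : E :=
  (B.T + ξ.2) • (B.f (B.y s + ξ.1 (s : AddCircle (1 : ℝ))) +
    q (B.y s + ξ.1 (s : AddCircle (1 : ℝ)))) - B.T • B.f (B.y s) -
    B.A s (ξ.1 (s : AddCircle (1 : ℝ))) - ξ.2 • B.b s

lemma circ_cont (u : C(AddCircle (1 : ℝ), E)) :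
    Continuous (fun s : ℝ => u (s : AddCircle (1 : ℝ))) :=
  u.continuous.comp (AddCircle.continuous_mk' 1)

lemma Nl_cont {q : E → E} (hq : Continuous q) (ξ : C(AddCircle (1 : ℝ), E) × ℝ) :
    Continuous (B.Nl q ξ) := by
  have h1 := circ_cont ξ.1
  have h2 : Continuous (fun s => B.y s + ξ.1 (s : AddCircle (1 : ℝ))) := B.y_cont.add h1
  have h3 := B.hf.continuous
  unfold Nl
  exact (((continuous_const.smul ((h3.comp h2).add (hq.comp h2))).sub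
    ((h3.comp B.y_cont).const_smul _)).sub (B.A_cont.clm_apply h1)).sub
    (B.b_cont.const_smul _)

lemma Nl_per (q : E → E) (ξ : C(AddCircle (1 : ℝ), E) × ℝ) (s : ℝ) :
    B.Nl q ξ (s + 1) = B.Nl q ξ s := by
  unfold Nl
  rw [B.hper, B.A_per, B.b_per, AddCircle.coe_add, AddCircle.coe_period, add_zero]

/-- the fixed point map -/
noncomputable def Fm (q : E → E) (hq : Continuous q) (ξ : C(AddCircle (1 : ℝ), E) × ℝ) :
    C(AddCircle (1 : ℝ), E) × ℝ :=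
  (toCirc (B.usol (B.Nl q ξ)) (B.usol_cont (B.Nl_cont hq ξ))
    (B.usol_per (B.Nl_cont hq ξ) (B.Nl_per q ξ)), (B.par (B.Nl q ξ)).2)

lemma Fm_dist : ∃ C, 0 < C ∧ ∀ (q q' : E → E) (hq : Continuous q) (hq' : Continuous q')
    (ξ ξ' : C(AddCircle (1 : ℝ), E) × ℝ), ‖B.Fm q hq ξ - B.Fm q' hq' ξ'‖ ≤
      C * ∫ r in (0 : ℝ)..1, ‖B.Nl q ξ r - B.Nl q' ξ' r‖ := by
  obtain ⟨C, hC0, hC⟩ := B.green_bound
  refine ⟨C, hC0, fun q q' hq hq' ξ ξ' => ?_⟩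
  obtain ⟨h1, h2⟩ := hC _ _ (B.Nl_cont hq ξ) (B.Nl_cont hq' ξ')
  have hI0 : 0 ≤ ∫ r in (0 : ℝ)..1, ‖B.Nl q ξ r - B.Nl q' ξ' r‖ :=
    intervalIntegral.integral_nonneg zero_le_one fun r _ => norm_nonneg _
  rw [Prod.norm_def]
  apply max_le
  · apply circ_norm_le _ (by positivity)
    intro s hs0 hs1
    exact h1 s hs0 hs1
  · exact h2

/-- uniform strict differentiability along the orbit -/
lemma strict_uniform {Rad : ℝ} (hRad : ∀ s, ‖B.y s‖ + 1 ≤ Rad) {η : ℝ} (hη : 0 < η) :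
    ∃ ρ, 0 < ρ ∧ ρ ≤ 1 ∧ ∀ s a b, ‖a - B.y s‖ ≤ ρ → ‖b - B.y s‖ ≤ ρ →
      ‖B.f a - B.f b - fderiv ℝ B.f (B.y s) (a - b)‖ ≤ η * ‖a - b‖ := by
  have hcomp : IsCompact (Metric.closedBall (0 : E) Rad) := isCompact_closedBall _ _
  have huc := hcomp.uniformContinuousOn_of_continuous
    (B.hf.continuous_fderiv (by simp)).continuousOn
  rw [Metric.uniformContinuousOn_iff_le] at huc
  obtain ⟨ρ, hρ0, hρ⟩ := huc η hη
  refine ⟨min ρ 1, by positivity, min_le_right _ _, fun s a b ha hb => ?_⟩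
  have hconv : Convex ℝ (Metric.closedBall (B.y s) (min ρ 1)) := convex_closedBall _ _
  have hsub : Metric.closedBall (B.y s) (min ρ 1) ⊆ Metric.closedBall (0 : E) Rad := by
    intro w hw
    rw [Metric.mem_closedBall, dist_eq_norm] at hw
    rw [Metric.mem_closedBall, dist_zero_right]
    have h1 : ‖w‖ ≤ ‖B.y s‖ + ‖w - B.y s‖ := by
      have : w = B.y s + (w - B.y s) := by abel
      calc ‖w‖ = ‖B.y s + (w - B.y s)‖ := by rw [← this]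
        _ ≤ _ := norm_add_le _ _
    have h2 := hRad s
    have h3 : ‖w - B.y s‖ ≤ 1 := hw.trans (min_le_right _ _)
    linarith
  have hys : B.y s ∈ Metric.closedBall (0 : E) Rad := hsub (Metric.mem_closedBall_self (by positivity))
  apply hconv.norm_image_sub_le_of_norm_hasFDerivWithin_le' (f' := fderiv ℝ B.f)
  · intro w _
    exact (B.hf.differentiable (by simp) w).hasFDerivAt.hasFDerivWithinAt
  · intro w hw
    have h4 := hρ w (hsub hw) (B.y s) hys ((Metric.mem_closedBall.1 hw).trans (min_le_left _ _))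
    rwa [dist_eq_norm] at h4
  · rw [Metric.mem_closedBall, dist_eq_norm]; exact hb
  · rw [Metric.mem_closedBall, dist_eq_norm]; exact ha

omit [FiniteDimensional ℝ E] in
lemma lip_on_ball {g : E → E} (hg : ContDiff ℝ 1 g) {Rad L : ℝ}
    (hL : ∀ w ∈ Metric.closedBall (0 : E) Rad, ‖fderiv ℝ g w‖ ≤ L) {a b : E}
    (ha : a ∈ Metric.closedBall (0 : E) Rad) (hb : b ∈ Metric.closedBall (0 : E) Rad) :
    ‖g a - g b‖ ≤ L * ‖a - b‖ := by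
  apply (convex_closedBall (0 : E) Rad).norm_image_sub_le_of_norm_hasFDerivWithin_le
    (f' := fderiv ℝ g)
  · intro w _
    exact (hg.differentiable (by simp) w).hasFDerivAt.hasFDerivWithinAt
  · exact hL
  · exact hb
  · exact ha

lemma mem_ball {Rad : ℝ} (hRad : ∀ s, ‖B.y s‖ + 1 ≤ Rad) (s : ℝ) {u : E} (hu : ‖u‖ ≤ 1) :
    B.y s + u ∈ Metric.closedBall (0 : E) Rad := by
  rw [Metric.mem_closedBall, dist_zero_right]
  have := norm_add_le (B.y s) u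
  have := hRad s
  linarith

lemma Nl_lip {Rad : ℝ} (hRad : ∀ s, ‖B.y s‖ + 1 ≤ Rad) {L : ℝ} (hL0 : 0 ≤ L)
    (hL : ∀ w ∈ Metric.closedBall (0 : E) Rad, ‖fderiv ℝ B.f w‖ ≤ L) {η ρ δ : ℝ}
    (hη : 0 ≤ η) (hδ : 0 ≤ δ) (hρ1 : ρ ≤ 1)
    (hstrict : ∀ s a b, ‖a - B.y s‖ ≤ ρ → ‖b - B.y s‖ ≤ ρ →
      ‖B.f a - B.f b - fderiv ℝ B.f (B.y s) (a - b)‖ ≤ η * ‖a - b‖)
    {q : E → E} (hq : Small Rad δ q) (ξ ξ' : C(AddCircle (1 : ℝ), E) × ℝ)
    (hξ : ‖ξ‖ ≤ ρ) (hξ' : ‖ξ'‖ ≤ ρ) (s : ℝ) :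
    ‖B.Nl q ξ s - B.Nl q ξ' s‖ ≤ (B.T * η + 2 * (L * ρ) + (B.T + 2) * δ) * ‖ξ - ξ'‖ := by
  have hT := B.hT
  set u := ξ.1 (s : AddCircle (1 : ℝ)) with hu
  set u' := ξ'.1 (s : AddCircle (1 : ℝ)) with hu'
  have hρ0 : 0 ≤ ρ := (norm_nonneg _).trans hξ
  have hun : ‖u‖ ≤ ρ := ((ξ.1.norm_coe_le_norm _).trans (norm_fst_le ξ)).trans hξ
  have hun' : ‖u'‖ ≤ ρ := ((ξ'.1.norm_coe_le_norm _).trans (norm_fst_le ξ')).trans hξ'
  have hτ : |ξ.2| ≤ ρ := (norm_snd_le ξ).trans hξ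
  have huu : ‖u - u'‖ ≤ ‖ξ - ξ'‖ := by
    have h1 : u - u' = (ξ.1 - ξ'.1) (s : AddCircle (1 : ℝ)) := rfl
    rw [h1]
    exact ((ξ.1 - ξ'.1).norm_coe_le_norm _).trans (norm_fst_le (ξ - ξ'))
  have hττ : |ξ.2 - ξ'.2| ≤ ‖ξ - ξ'‖ := norm_snd_le (ξ - ξ')
  set a := B.y s + u with ha
  set b := B.y s + u' with hb
  have hamem : a ∈ Metric.closedBall (0 : E) Rad := B.mem_ball hRad s (hun.trans hρ1)
  have hbmem : b ∈ Metric.closedBall (0 : E) Rad := B.mem_ball hRad s (hun'.trans hρ1)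
  have hymem : B.y s ∈ Metric.closedBall (0 : E) Rad := by
    have := B.mem_ball hRad s (u := 0) (by simp)
    rwa [add_zero] at this
  have hab : a - b = u - u' := by rw [ha, hb]; abel
  have e1 : ‖B.f a - B.f b - fderiv ℝ B.f (B.y s) (a - b)‖ ≤ η * ‖u - u'‖ := by
    rw [← hab]
    apply hstrict s a b
    · rw [ha, add_sub_cancel_left]; exact hun
    · rw [hb, add_sub_cancel_left]; exact hun'
  have e2 : ‖B.f a - B.f b‖ ≤ L * ‖u - u'‖ := by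
    rw [← hab]; exact lip_on_ball B.hf hL hamem hbmem
  have e3 : ‖B.f b - B.f (B.y s)‖ ≤ L * ρ := by
    have := lip_on_ball B.hf hL hbmem hymem
    rw [hb, add_sub_cancel_left] at this
    exact this.trans (by gcongr)
  have e4 : ‖q a - q b‖ ≤ δ * ‖u - u'‖ := by
    rw [← hab]; exact lip_on_ball hq.1 (fun w hw => (hq.2 w hw).2) hamem hbmem
  have e5 : ‖q b‖ ≤ δ := (hq.2 b hbmem).1
  have key : B.Nl q ξ s - B.Nl q ξ' s =
      B.T • (B.f a - B.f b - fderiv ℝ B.f (B.y s) (a - b)) + ξ.2 • (B.f a - B.f b) +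
      (ξ.2 - ξ'.2) • (B.f b - B.f (B.y s)) + (B.T + ξ.2) • (q a - q b) +
      (ξ.2 - ξ'.2) • q b := by
    rw [hab]
    unfold Nl A Base.b
    simp only [ContinuousLinearMap.smul_apply, map_sub]
    rw [← hu, ← hu', ← ha, ← hb]
    module
  rw [key]
  have n1 : ‖B.T • (B.f a - B.f b - fderiv ℝ B.f (B.y s) (a - b))‖ ≤ B.T * (η * ‖ξ - ξ'‖) := by
    rw [norm_smul, Real.norm_of_nonneg hT.le]
    gcongr
    exact e1.trans (by gcongr)
  have n2 : ‖ξ.2 • (B.f a - B.f b)‖ ≤ ρ * (L * ‖ξ - ξ'‖) := by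
    rw [norm_smul, Real.norm_eq_abs]
    gcongr
    exact e2.trans (by gcongr)
  have n3 : ‖(ξ.2 - ξ'.2) • (B.f b - B.f (B.y s))‖ ≤ ‖ξ - ξ'‖ * (L * ρ) := by
    rw [norm_smul, Real.norm_eq_abs]
    gcongr
  have n4 : ‖(B.T + ξ.2) • (q a - q b)‖ ≤ (B.T + 1) * (δ * ‖ξ - ξ'‖) := by
    rw [norm_smul, Real.norm_eq_abs]
    gcongr
    · calc |B.T + ξ.2| ≤ |B.T| + |ξ.2| := abs_add_le _ _
        _ ≤ B.T + 1 := by rw [abs_of_pos hT]; linarith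
    · exact e4.trans (by gcongr)
  have n5 : ‖(ξ.2 - ξ'.2) • q b‖ ≤ ‖ξ - ξ'‖ * δ := by
    rw [norm_smul, Real.norm_eq_abs]
    gcongr
  calc _ ≤ ‖B.T • (B.f a - B.f b - fderiv ℝ B.f (B.y s) (a - b)) + ξ.2 • (B.f a - B.f b) +
      (ξ.2 - ξ'.2) • (B.f b - B.f (B.y s)) + (B.T + ξ.2) • (q a - q b)‖ +
        ‖(ξ.2 - ξ'.2) • q b‖ := norm_add_le _ _
    _ ≤ ‖B.T • (B.f a - B.f b - fderiv ℝ B.f (B.y s) (a - b)) + ξ.2 • (B.f a - B.f b) +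
      (ξ.2 - ξ'.2) • (B.f b - B.f (B.y s))‖ + ‖(B.T + ξ.2) • (q a - q b)‖ +
        ‖(ξ.2 - ξ'.2) • q b‖ := by gcongr; exact norm_add_le _ _
    _ ≤ ‖B.T • (B.f a - B.f b - fderiv ℝ B.f (B.y s) (a - b))‖ + ‖ξ.2 • (B.f a - B.f b)‖ +
      ‖(ξ.2 - ξ'.2) • (B.f b - B.f (B.y s))‖ + ‖(B.T + ξ.2) • (q a - q b)‖ +
        ‖(ξ.2 - ξ'.2) • q b‖ := by gcongr; exact norm_add₃_le
    _ ≤ B.T * (η * ‖ξ - ξ'‖) + ρ * (L * ‖ξ - ξ'‖) + ‖ξ - ξ'‖ * (L * ρ) +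
        (B.T + 1) * (δ * ‖ξ - ξ'‖) + ‖ξ - ξ'‖ * δ := by gcongr
    _ = (B.T * η + 2 * (L * ρ) + (B.T + 2) * δ) * ‖ξ - ξ'‖ := by ring

end Base

end Pool.Agent.Helper68.Rigid
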