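import Pool.Agent.Helper68.RigidSteady

set_option autoImplicit false
open Topology MeasureTheory Filter

namespace Pool.Agent.Helper68.RigidInput

variable (N : Network)

/-- the closed relations satisfied by `z` -/
def Rels (z : ℝ → N.State) : Set (N.Node ⊕ N.Node × N.Node) :=
  {x | Sum.elim (fun i => ∀ s, z s i = z 0 i) (fun p => N.Synchronous z p.1 p.2) x}

lemma mem_Rels_inl (z : ℝ → N.State) (i : N.Node) :
    Sum.inl i ∈ Rels N z ↔ ∀ s, z s i = z 0 i := Iff.rfl

lemma mem_Rels_inr (z : ℝ → N.State) (i j : N.Node) :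
    Sum.inr (i, j) ∈ Rels N z ↔ N.Synchronous z i j := Iff.rfl

lemma abs_coord_sub_le {u v : N.State} {η : ℝ} (h : ‖u - v‖ ≤ η) (c : N.Node)
    (j : Fin (N.dim (N.nodeType c))) : |u c j - v c j| ≤ η := by
  have h1 := norm_le_pi_norm ((u - v) c) j
  have h2 := norm_le_pi_norm (u - v) c
  rw [Real.norm_eq_abs] at h1
  exact (h1.trans h2).trans h

lemma Rels_point (z : ℝ → N.State) (x : N.Node ⊕ N.Node × N.Node) :
    ∃ η : ℝ, 0 < η ∧ ∀ z' : ℝ → N.State, (∀ s, ‖z' s - z s‖ ≤ η) →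
      x ∈ Rels N z' → x ∈ Rels N z := by
  by_cases hx : x ∈ Rels N z
  · exact ⟨1, one_pos, fun _ _ _ => hx⟩
  · rcases x with i | ⟨i, j⟩
    · rw [mem_Rels_inl] at hx
      push Not at hx
      obtain ⟨s, hs⟩ := hx
      obtain ⟨m, hm⟩ := Function.ne_iff.1 hs
      have hpos : 0 < |z s i m - z 0 i m| := abs_pos.2 (sub_ne_zero.2 hm)
      refine ⟨|z s i m - z 0 i m| / 3, by positivity, fun z' hz' hmem => ?_⟩
      rw [mem_Rels_inl] at hmem
      exfalso
      have h1 := abs_coord_sub_le N (hz' s) i m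
      have h2 := abs_coord_sub_le N (hz' 0) i m
      rw [hmem s] at h1
      have h3 : z s i m - z 0 i m = (z' 0 i m - z 0 i m) - (z' 0 i m - z s i m) := by ring
      have h4 := abs_sub (z' 0 i m - z 0 i m) (z' 0 i m - z s i m)
      rw [← h3] at h4
      linarith
    · rw [mem_Rels_inr] at hx
      by_cases hd : N.dim (N.nodeType i) = N.dim (N.nodeType j)
      · have hx' : ¬ ∀ (t : ℝ) (m : Fin (N.dim (N.nodeType i))), z t i m = z t j (Fin.cast hd m) :=
          fun h => hx ⟨hd, h⟩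
        push Not at hx'
        obtain ⟨t, m, hm⟩ := hx'
        have hpos : 0 < |z t i m - z t j (Fin.cast hd m)| := abs_pos.2 (sub_ne_zero.2 hm)
        refine ⟨|z t i m - z t j (Fin.cast hd m)| / 3, by positivity, fun z' hz' hmem => ?_⟩
        exfalso
        obtain ⟨_, hmem⟩ := hmem
        have h1 := abs_coord_sub_le N (hz' t) i m
        have h2 := abs_coord_sub_le N (hz' t) j (Fin.cast hd m)
        have h5 : z' t i m = z' t j (Fin.cast hd m) := hmem t m
        rw [h5] at h1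
        have h3 : z t i m - z t j (Fin.cast hd m) =
            (z' t j (Fin.cast hd m) - z t j (Fin.cast hd m)) -
            (z' t j (Fin.cast hd m) - z t i m) := by ring
        have h4 := abs_sub (z' t j (Fin.cast hd m) - z t j (Fin.cast hd m))
          (z' t j (Fin.cast hd m) - z t i m)
        rw [← h3] at h4
        linarith
      · refine ⟨1, one_pos, fun z' _ hmem => ?_⟩
        obtain ⟨h, _⟩ := hmem
        exact absurd h hd

/-- closed relations are not gained under small changes -/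
lemma Rels_lsc (z : ℝ → N.State) :
    ∃ η : ℝ, 0 < η ∧ ∀ z' : ℝ → N.State, (∀ s, ‖z' s - z s‖ ≤ η) → Rels N z' ⊆ Rels N z := by
  choose η hη hη' using Rels_point N z
  have h1 : ∀ᶠ t in 𝓝[>] (0 : ℝ), ∀ x, t ≤ η x := by
    rw [eventually_all]
    intro x
    exact (eventually_le_nhds (hη x)).filter_mono nhdsWithin_le_nhds
  obtain ⟨t, ht, htpos⟩ := (h1.and self_mem_nhdsWithin).exists
  exact ⟨t, htpos, fun z' hz' x hx => hη' x z' (fun s => (hz' s).trans (ht x)) hx⟩

namespace Core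

variable {N}
variable (K : Core N)

/-- a perturbation with minimal set of relations -/
lemma exists_min : ∃ q₀, K.Q q₀ ∧
    ∀ q, K.Q q → (Rels N (K.z q₀)).ncard ≤ (Rels N (K.z q)).ncard := by
  set S : Set ℕ := {n | ∃ q, K.Q q ∧ (Rels N (K.z q)).ncard = n} with hS
  have hne : S.Nonempty := ⟨_, _, K.Q_zero, rfl⟩
  obtain ⟨q₀, h0, hn⟩ := Nat.sInf_mem hne
  refine ⟨q₀, h0, fun q hq => ?_⟩
  rw [hn]
  exact Nat.sInf_le ⟨q, hq, rfl⟩

variable {K}

/-- the relations of a minimal perturbation are stable -/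
lemma stable {q₀ : N.State → N.State} (h0 : K.Q q₀)
    (hmin : ∀ q, K.Q q → (Rels N (K.z q₀)).ncard ≤ (Rels N (K.z q)).ncard)
    {ι : Type*} [Fintype ι] {p : ι → N.State → N.State} (hp : ∀ α, N.SmoothlyAdmissible (p α))
    {η : ℝ} (hη : 0 < η) :
    ∃ ε₀ : ℝ, 0 < ε₀ ∧ ∀ t : ι → ℝ, (∀ α, |t α| ≤ ε₀) →
      K.Q (fun x => q₀ x + ∑ α, t α • p α x) ∧
      Rels N (K.z (fun x => q₀ x + ∑ α, t α • p α x)) = Rels N (K.z q₀) ∧
      ∀ s, ‖K.z (fun x => q₀ x + ∑ α, t α • p α x) s - K.z q₀ s‖ ≤ η := by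
  obtain ⟨η₁, hη₁, hlsc⟩ := Rels_lsc N (K.z q₀)
  obtain ⟨ε₀, hε₀, h⟩ := K.Q_perturb h0 hp (lt_min hη hη₁)
  refine ⟨ε₀, hε₀, fun t ht => ?_⟩
  obtain ⟨h1, h2⟩ := h t ht
  refine ⟨h1, ?_, fun s => (h2 s).trans (min_le_left _ _)⟩
  exact Set.eq_of_subset_of_ncard_le (hlsc _ fun s => (h2 s).trans (min_le_right _ _))
    (hmin _ h1) (Set.toFinite _)

/-- the input tuple of a constant node of a minimal perturbation is constant -/
lemma const_upstream {q₀ : N.State → N.State} (h0 : K.Q q₀)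
    (hmin : ∀ q, K.Q q → (Rels N (K.z q₀)).ncard ≤ (Rels N (K.z q)).ncard)
    {c : N.Node} (hc : ∀ s, K.z q₀ s c = K.z q₀ 0 c) : ¬ NonconstInput N (K.z q₀) c := by
  apply K.const_input h0
  intro a r _
  obtain ⟨ε₀, hε₀, h⟩ := K.stable h0 hmin (ι := Unit) (p := fun _ => bump N a c r κ0)
    (fun _ => bump_smoothlyAdmissible N a c r κ0) one_pos
  refine ⟨ε₀, hε₀, fun ε hε => ?_⟩
  obtain ⟨h1, h2, -⟩ := h (fun _ => ε) (fun _ => hε)
  simp only [Finset.univ_unique, Finset.sum_const, Finset.card_singleton, one_smul] at h1 h2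
  refine ⟨h1, ?_⟩
  rw [← mem_Rels_inl, h2, mem_Rels_inl]
  exact hc

end Core

end Pool.Agent.Helper68.RigidInput
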