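import Pool.Agent.Helper68.RigidCore

set_option autoImplicit false
open Topology MeasureTheory Filter

namespace Pool.Agent.Helper68.RigidInput

/-- a smooth map from a smaller space does not cover a ball of a larger one -/
lemma dim_contra {E : Type*} [NormedAddCommGroup E] [NormedSpace ℝ E] [FiniteDimensional ℝ E]
    {U W : Submodule ℝ E} (hUW : U < W) {F : E → E} (hF : ContDiff ℝ 1 F) {ε : ℝ} (hε : 0 < ε)
    (h : ∀ w ∈ W, ‖w‖ ≤ ε → ∃ u ∈ U, F u = w) : False := by
  obtain ⟨π, hπ⟩ := LinearMap.exists_leftInverse_of_injective W.subtype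
    (LinearMap.ker_eq_bot.2 W.injective_subtype)
  have h1 : ContDiff ℝ 1 (fun u : U => π (F (u : E))) := by
    have h2 : ContDiff ℝ 1 (fun v : E => π v) := (LinearMap.toContinuousLinearMap π).contDiff
    have h3 : ContDiff ℝ 1 (fun u : U => (u : E)) := U.subtypeL.contDiff
    exact h2.comp (hF.comp h3)
  have hd := h1.dense_compl_range_of_finrank_lt_finrank (Submodule.finrank_lt_finrank_of_lt hUW)
  obtain ⟨w, hw1, hw2⟩ := hd.exists_mem_open (Metric.isOpen_ball (x := (0 : W)) (ε := ε))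
    ⟨0, Metric.mem_ball_self hε⟩
  rw [Metric.mem_ball, dist_zero_right] at hw2
  obtain ⟨u, hu, hFu⟩ := h (w : E) w.2 hw2.le
  apply hw1
  refine ⟨⟨u, hu⟩, ?_⟩
  show π (F u) = w
  rw [hFu]
  exact LinearMap.congr_fun hπ w

variable (N : Network)

lemma pad_ge {n : ℕ} (v : Fin n → ℝ) {j : ℕ} (h : n ≤ j) : pad v j = 0 := by
  unfold pad
  rw [dif_neg (by omega)]

lemma pad_inj {n : ℕ} {v w : Fin n → ℝ} (h : ∀ j, pad v j = pad w j) : v = w := by
  funext j
  rw [← pad_val v j, ← pad_val w j, h]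

lemma Dm_eq_zero {a x : N.State} {i k : N.Node} (h : N.nodeType i = N.nodeType k)
    (β : TB N i k) : Dm N a i x k β.1 = 0 ↔ (∀ j, pad (x k) j = pad (a i) j) ∧
      ∀ (e : N.Inp i) (j : ℕ), pad (x (N.tail (β.1 e).1)) j = pad (a (N.tail e.1)) j := by
  unfold Dm Dc
  rw [add_eq_zero_iff_of_nonneg (by positivity) (by positivity),
    Finset.sum_eq_zero_iff_of_nonneg (by intro j _; positivity),
    Finset.sum_eq_zero_iff_of_nonneg (by intro e _; positivity)]
  constructor
  · rintro ⟨h1, h2⟩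
    constructor
    · intro j
      by_cases hj : j < N.dim (N.nodeType i)
      · have h3 := h1 j (Finset.mem_range.2 hj)
        exact sub_eq_zero.1 (pow_eq_zero_iff (two_ne_zero) |>.1 h3)
      · rw [pad_ge _ (not_lt.1 hj), pad_ge _ (by rw [← h]; exact not_lt.1 hj)]
    · intro e j
      by_cases hj : j < N.dim (N.nodeType (N.tail e.1))
      · have h3 := h2 e (Finset.mem_univ e)
        rw [Finset.sum_eq_zero_iff_of_nonneg (by intro j _; positivity)] at h3
        exact sub_eq_zero.1 (pow_eq_zero_iff (two_ne_zero) |>.1 (h3 j (Finset.mem_range.2 hj)))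
      · rw [pad_ge _ (not_lt.1 hj), pad_ge _ (by
          rw [N.tail_type _ _ (β.2 e)]; exact not_lt.1 hj)]
  · rintro ⟨h1, h2⟩
    constructor
    · intro j _
      rw [h1, sub_self]; simp
    · intro e _
      apply Finset.sum_eq_zero
      intro j _
      rw [h2, sub_self]; simp

/-- matching of the input tuples in the state `a` -/
def Mt (a : N.State) (i k : N.Node) : Prop :=
  N.nodeType i = N.nodeType k ∧ ∃ β : TB N i k, Dm N a i a k β.1 = 0

lemma Mt_refl (a : N.State) (i : N.Node) : Mt N a i i :=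
  ⟨rfl, ⟨Equiv.refl _, fun _ => rfl⟩, Dm_self N a i⟩

lemma Mt_symm {a : N.State} {i k : N.Node} (h : Mt N a i k) : Mt N a k i := by
  obtain ⟨h1, β, hβ⟩ := h
  rw [Dm_eq_zero N h1] at hβ
  have hβ' : ∀ e, N.arrowType (β.1.symm e).1 = N.arrowType e.1 := by
    intro e
    have := β.2 (β.1.symm e)
    rw [Equiv.apply_symm_apply] at this
    exact this.symm
  refine ⟨h1.symm, ⟨β.1.symm, hβ'⟩, ?_⟩
  rw [Dm_eq_zero N h1.symm]
  refine ⟨fun j => (hβ.1 j).symm, fun e j => ?_⟩
  have h2 := hβ.2 (β.1.symm e) j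
  rw [Equiv.apply_symm_apply] at h2
  exact h2.symm

lemma Mt_trans {a : N.State} {i k l : N.Node} (h : Mt N a i k) (h' : Mt N a k l) :
    Mt N a i l := by
  obtain ⟨h1, β, hβ⟩ := h
  obtain ⟨h2, γ, hγ⟩ := h'
  rw [Dm_eq_zero N h1] at hβ
  rw [Dm_eq_zero N h2] at hγ
  refine ⟨h1.trans h2, ⟨β.1.trans γ.1, fun e => ?_⟩, ?_⟩
  · rw [Equiv.trans_apply, γ.2, β.2]
  · rw [Dm_eq_zero N (h1.trans h2)]
    refine ⟨fun j => (hγ.1 j).trans (hβ.1 j), fun e j => ?_⟩
    exact (hγ.2 (β.1 e) j).trans (hβ.2 e j)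

lemma continuous_Dm (a : N.State) (i k : N.Node) (β : N.Inp i ≃ N.Inp k) :
    Continuous (fun x : N.State => Dm N a i x k β) := by
  have hp : ∀ (l : N.Node) (j : ℕ), Continuous (fun x : N.State => pad (x l) j) := by
    intro l j
    unfold pad
    by_cases h : j < N.dim (N.nodeType l)
    · simp only [dif_pos h]
      fun_prop
    · simp only [dif_neg h]
      exact continuous_const
  unfold Dm Dc
  apply Continuous.add
  · apply continuous_finsetSum
    intro j _
    exact ((hp k j).sub continuous_const).pow 2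
  · apply continuous_finsetSum
    intro e _
    apply continuous_finsetSum
    intro j _
    exact ((hp _ j).sub continuous_const).pow 2

/-- local constancy of the bumps near the centre -/
lemma exists_radius (a : N.State) : ∃ r : ℝ, 0 < r ∧ ∃ η : ℝ, 0 < η ∧ ∀ x : N.State,
    ‖x - a‖ ≤ η → ∀ i k, N.nodeType i = N.nodeType k →
      (Mt N a i k → bval N a i r x k = 1) ∧ (¬ Mt N a i k → bval N a i r x k = 0) := by
  classical
  have h1 : ∀ᶠ r in 𝓝[>] (0 : ℝ), ∀ i k, ∀ β : TB N i k, Dm N a i a k β.1 ≠ 0 →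
      2 * r ^ 2 ≤ Dm N a i a k β.1 := by
    rw [eventually_all]
    intro i
    rw [eventually_all]
    intro k
    rw [eventually_all]
    intro β
    by_cases h : Dm N a i a k β.1 = 0
    · exact Eventually.of_forall fun r h' => absurd h h'
    · have hpos : 0 < Dm N a i a k β.1 := lt_of_le_of_ne (Dm_nonneg N _ _ _ _ _) (Ne.symm h)
      have h2 : Tendsto (fun r : ℝ => 2 * r ^ 2) (𝓝[>] (0 : ℝ)) (𝓝 0) := by
        have h3 : Tendsto (fun r : ℝ => 2 * r ^ 2) (𝓝 (0 : ℝ)) (𝓝 (2 * 0 ^ 2)) := by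
          apply Continuous.tendsto
          fun_prop
        simp only [ne_eq, OfNat.ofNat_ne_zero, not_false_eq_true, zero_pow, mul_zero] at h3
        exact h3.mono_left nhdsWithin_le_nhds
      filter_upwards [h2.eventually_le_const hpos] with r hr _
      exact hr
  obtain ⟨r, hr, hrpos⟩ := (h1.and self_mem_nhdsWithin).exists
  have hr0 : (0 : ℝ) < r := hrpos
  have hr2 : 0 < r ^ 2 := by positivity
  refine ⟨r, hr0, ?_⟩
  have h2 : ∀ᶠ x in 𝓝 a, ∀ i k, ∀ β : TB N i k,
      (Dm N a i a k β.1 = 0 → Dm N a i x k β.1 / r ^ 2 ≤ 1 / 2) ∧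
      (Dm N a i a k β.1 ≠ 0 → 1 ≤ Dm N a i x k β.1 / r ^ 2) := by
    rw [eventually_all]
    intro i
    rw [eventually_all]
    intro k
    rw [eventually_all]
    intro β
    have hc := (continuous_Dm N a i k β.1).tendsto a
    by_cases h : Dm N a i a k β.1 = 0
    · have h3 : ∀ᶠ x in 𝓝 a, Dm N a i x k β.1 ≤ r ^ 2 / 2 := by
        apply hc.eventually_le_const
        rw [h]; positivity
      filter_upwards [h3] with x hx
      refine ⟨fun _ => ?_, fun h' => absurd h h'⟩
      rw [div_le_iff₀ hr2]; linarith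
    · have h3 : ∀ᶠ x in 𝓝 a, r ^ 2 ≤ Dm N a i x k β.1 := by
        apply hc.eventually_const_le
        have := hr i k β h
        linarith
      filter_upwards [h3] with x hx
      refine ⟨fun h' => absurd h' h, fun _ => ?_⟩
      rw [le_div_iff₀ hr2]; linarith
  obtain ⟨η, hη, hη'⟩ := Metric.eventually_nhds_iff.1 h2
  refine ⟨η / 2, by positivity, fun x hx i k hik => ?_⟩
  have h3 := hη' (show dist x a < η by rw [dist_eq_norm]; linarith) i k
  constructor
  · rintro ⟨_, β, hβ⟩
    exact bval_eq_one N β ((h3 β).1 hβ)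
  · intro hn
    apply bval_eq_zero N
    intro β
    exact (h3 β).2 fun h4 => hn ⟨hik, β, h4⟩

/-- components inside an upstream closed set only depend on the coordinates in that set -/
lemma eq_of_agree {N : Network} {g : N.State → N.State}
    {ghat : (c : N.Node) → N.P c → ((e : N.Inp c) → N.P (N.tail e.1)) → N.P c}
    (hg : N.IsComponents g ghat) {Z : Set N.Node}
    (hZ : ∀ i ∈ Z, ∀ e : N.Inp i, N.tail e.1 ∈ Z) {x y : N.State} (hxy : ∀ i ∈ Z, x i = y i)
    {i : N.Node} (hi : i ∈ Z) : g x i = g y i := by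
  rw [hg.1 i x, hg.1 i y, hxy i hi]
  congr 1
  funext e
  exact hxy _ (hZ i hi e)

end Pool.Agent.Helper68.RigidInput
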